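import Mathlib

/-! Jacobians in anticommutative algebras and the basic identities of binary-Lie algebras. -/

set_option linter.unusedSimpArgs false

namespace Pool.Agent.BLie

/-- The Jacobian `(ab)c + (bc)a + (ca)b`. -/
def J {A : Type*} [NonUnitalNonAssocRing A] (a b c : A) : A :=
  (a * b) * c + (b * c) * a + (c * a) * b

section basic

variable {A : Type*} [NonUnitalNonAssocRing A]

/-- Anticommutative algebras with the linearised binary-Lie identity. -/
structure BL (A : Type*) [NonUnitalNonAssocRing A] : Prop where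
  anti : ∀ a b : A, a * b = -(b * a)
  lin : ∀ a b c d : A,
    J (a * b) c d + J (a * d) c b + J (c * b) a d + J (c * d) a b = 0
  two : ∀ a : A, a + a = 0 → a = 0

theorem J_cyc (a b c : A) : J a b c = J b c a := by
  unfold J; abel

theorem J_cyc' (a b c : A) : J a b c = J c a b := by
  unfold J; abel

theorem J_add1 (a a' b c : A) : J (a + a') b c = J a b c + J a' b c := by
  unfold J; simp only [add_mul, mul_add]; abel

theorem J_add2 (a b b' c : A) : J a (b + b') c = J a b c + J a b' c := by
  unfold J; simp only [add_mul, mul_add]; abel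

theorem J_add3 (a b c c' : A) : J a b (c + c') = J a b c + J a b c' := by
  unfold J; simp only [add_mul, mul_add]; abel

theorem J_neg1 (a b c : A) : J (-a) b c = -J a b c := by
  unfold J; simp only [neg_mul, mul_neg]; abel

theorem J_neg2 (a b c : A) : J a (-b) c = -J a b c := by
  unfold J; simp only [neg_mul, mul_neg]; abel

theorem J_neg3 (a b c : A) : J a b (-c) = -J a b c := by
  unfold J; simp only [neg_mul, mul_neg]; abel

theorem J_sub1 (a a' b c : A) : J (a - a') b c = J a b c - J a' b c := by
  unfold J; simp only [sub_mul, mul_sub]; abel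

theorem J_sub2 (a b b' c : A) : J a (b - b') c = J a b c - J a b' c := by
  unfold J; simp only [sub_mul, mul_sub]; abel

theorem J_sub3 (a b c c' : A) : J a b (c - c') = J a b c - J a b c' := by
  unfold J; simp only [sub_mul, mul_sub]; abel

theorem J_zero1 (b c : A) : J 0 b c = 0 := by
  unfold J; simp

theorem J_zero2 (b c : A) : J b 0 c = 0 := by
  unfold J; simp

theorem J_zero3 (b c : A) : J b c 0 = 0 := by
  unfold J; simp

/-- The function `J(ab,c,d) + J(cd,a,b)`. -/
def gg {A : Type*} [NonUnitalNonAssocRing A] (a b c d : A) : A := J (a * b) c d + J (c * d) a b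

theorem BL.swap12 (h : BL A) (a b c : A) : J a b c = -J b a c := by
  unfold J
  rw [h.anti a b, h.anti b c, h.anti c a]
  simp only [neg_mul]
  abel

theorem BL.swap23 (h : BL A) (a b c : A) : J a b c = -J a c b := by
  rw [J_cyc, h.swap12 b c a, J_cyc c b a, J_cyc b a c]

theorem BL.swap13 (h : BL A) (a b c : A) : J a b c = -J c b a := by
  rw [h.swap12, J_cyc, h.swap12 a c b, neg_neg, J_cyc, J_cyc, h.swap12]

theorem BL.gg_swap12 (h : BL A) (a b c d : A) : gg a b c d = -gg b a c d := by
  unfold gg
  rw [h.anti a b, J_neg1, h.swap23 (c * d) a b, neg_add]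

theorem BL.gg_swap34 (h : BL A) (a b c d : A) : gg a b c d = -gg a b d c := by
  unfold gg
  rw [h.anti c d, J_neg1, h.swap23 (a * b) c d, neg_add]

theorem gg_pair (a b c d : A) : gg a b c d = gg c d a b := by
  unfold gg; abel

theorem BL.gg_swap24 (h : BL A) (a b c d : A) : gg a b c d = -gg a d c b := by
  have := h.lin a b c d
  unfold gg
  rw [eq_neg_iff_add_eq_zero, ← this]
  abel

theorem BL.gg_cyc (h : BL A) (a b c d : A) : gg a b c d = gg a c d b := by
  rw [h.gg_swap24, h.gg_swap34, neg_neg, h.gg_swap24, h.gg_swap34, neg_neg]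

/-- The universal identity for Jacobians in anticommutative algebras. -/
theorem univ_id (h : ∀ a b : A, a * b = -(b * a)) (p q r t : A) :
    gg p q r t + gg p r t q + gg p t q r =
      J p r t * q - J q r t * p - J p q t * r + J p q r * t := by
  unfold gg J
  have e1 := h q p
  have e2 := h r p
  have e3 := h t p
  have e4 := h r q
  have e5 := h t q
  have e6 := h t r
  simp only [e1, e2, e3, e4, e5, e6, add_mul, neg_mul, mul_neg, neg_neg,
    h p (q * r), h p (q * t), h p (r * t), h q (p * r), h q (p * t), h q (r * t),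
    h r (p * q), h r (p * t), h r (q * t), h t (p * q), h t (p * r), h t (q * r),
    h (r * t) (p * q), h (q * t) (p * r), h (q * r) (p * t)]
  abel

theorem BL.three_gg (h : BL A) (p q r t : A) :
    (3 : ℕ) • gg p q r t =
      J p r t * q - J q r t * p - J p q t * r + J p q r * t := by
  rw [← univ_id h.anti p q r t, ← h.gg_cyc p q r t, h.gg_cyc p t q r]
  simp only [succ_nsmul, zero_nsmul, zero_add]

/-- `J(x, xa, b) = J(x, a, xb)`. -/
theorem BL.G_move (h : BL A) (x a b : A) : J x (x * a) b = J x a (x * b) := by
  have h1 : gg x a x b = gg x b x a := gg_pair _ _ _ _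
  have h2 := h.gg_swap24 x a x b
  have h3 : gg x a x b = 0 := by
    apply h.two
    nth_rewrite 2 [h2]
    rw [← h1]; abel
  have h4 : J (x * a) x b + J (x * b) x a = 0 := h3
  rw [h.swap12 (x * a) x b, J_cyc (x * b) x a] at h4
  rw [neg_add_eq_zero] at h4
  exact h4

/-- `x` is a derivation up to a Jacobian. -/
theorem BL.x_mul (h : BL A) (x a b : A) :
    x * (a * b) = (x * a) * b + a * (x * b) - J x a b := by
  unfold J
  rw [h.anti x (a * b), h.anti b x, h.anti a (x * b), neg_mul]
  abel

theorem gg_x1 (x p q r : A) : gg x p q r = J (x * p) q r + J x p (q * r) := by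
  unfold gg; rw [J_cyc (q * r) x p]

theorem BL.gg_x2 (h : BL A) (x p q r : A) :
    gg x p q r = J (x * q) r p + J x q (r * p) := by
  rw [← gg_x1]; exact h.gg_cyc x p q r

theorem BL.gg_x3 (h : BL A) (x p q r : A) :
    gg x p q r = J (x * r) p q + J x r (p * q) := by
  rw [← gg_x1]; exact (h.gg_cyc x r p q).symm

theorem BL.gg_x4 (h : BL A) (x p q r : A) :
    (3 : ℕ) • gg x p q r =
      x * J p q r + (J x q r) * p + (J x r p) * q + (J x p q) * r := by
  rw [h.three_gg x p q r, h.anti (J p q r) x, h.swap23 x p r, neg_mul]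
  abel

end basic

section module

variable {R A : Type*} [CommRing R] [NonUnitalNonAssocRing A] [Module R A]
  [IsScalarTower R A A] [SMulCommClass R A A]

theorem J_smul1 (r : R) (a b c : A) : J (r • a) b c = r • J a b c := by
  unfold J; simp only [smul_mul_assoc, mul_smul_comm, smul_add]

theorem J_smul2 (r : R) (a b c : A) : J a (r • b) c = r • J a b c := by
  unfold J; simp only [smul_mul_assoc, mul_smul_comm, smul_add]

theorem J_smul3 (r : R) (a b c : A) : J a b (r • c) = r • J a b c := by
  unfold J; simp only [smul_mul_assoc, mul_smul_comm, smul_add]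

theorem BL.G_eig (h : BL A) {x p q : A} {α β : R} (hp : x * p = α • p) (hq : x * q = β • q) :
    (α - β) • J x p q = 0 := by
  have := h.G_move x p q
  rw [hp, hq, J_smul2, J_smul3] at this
  rw [sub_smul, this, sub_self]

theorem BL.G_def (h : BL A) {x p q : A} {α β : R} (hp : x * p = α • p) (hq : x * q = β • q) :
    x * (p * q) = (α + β) • (p * q) - J x p q := by
  rw [h.x_mul, hp, hq, smul_mul_assoc, mul_smul_comm, add_smul]

theorem BL.eig_mul (h : BL A) {x p q : A} {α β : R} (hp : x * p = α • p) (hq : x * q = β • q)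
    (h0 : J x p q = 0) : x * (p * q) = (α + β) • (p * q) := by
  rw [h.G_def hp hq, h0, sub_zero]

end module

end Pool.Agent.BLie
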