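import Mathlib
import Pool.Agent.BLie.Basic

/-! Adjoining a generic eigenvector of `x` to an algebra. -/

set_option linter.unusedSimpArgs false
set_option linter.unusedSectionVars false

namespace Pool.Agent.BLie

open Polynomial TensorProduct

universe u

section ext

variable (R : Type u) (A : Type u) [CommRing R] [NonUnitalNonAssocRing A] [Module R A]
  [IsScalarTower R A A] [SMulCommClass R A A]

/-- The shift on sequences. -/
def shift : (ℕ → A) →ₗ[R] (ℕ → A) where
  toFun f := fun n => f (n + 1)
  map_add' _ _ := rfl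
  map_smul' _ _ := rfl

/-- Sequences in `A` as a module over `R[X]`, with `X` acting as the shift. -/
abbrev SV := Module.AEval' (shift R A)

/-- Termwise left multiplication on sequences. -/
noncomputable def lamOne (a : A) : SV R A →ₗ[R[X]] SV R A :=
  LinearMap.ofAEval (shift R A)
    ((Module.AEval'.of (shift R A)).toLinearMap ∘ₗ
      ({ toFun := fun f n => a * f n
         map_add' := fun f g => by ext n; simp [mul_add]
         map_smul' := fun r f => by ext n; simp [mul_smul_comm] } :
        (ℕ → A) →ₗ[R] (ℕ → A)))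
    (fun m => by
      simp only [LinearMap.coe_comp, LinearEquiv.coe_coe, Function.comp_apply]
      rw [Module.AEval'.X_smul_of]
      rfl)

/-- The underlying sequence. -/
def seq : SV R A ≃ₗ[R] (ℕ → A) := (Module.AEval'.of (shift R A)).symm

variable {R A}

theorem seq_X (f : SV R A) (n : ℕ) : seq R A ((X : R[X]) • f) n = seq R A f (n + 1) := by
  unfold seq
  rw [Module.AEval'.of_symm_X_smul]
  rfl

theorem seq_lamOne (a : A) (f : SV R A) (n : ℕ) :
    seq R A (lamOne R A a f) n = a * seq R A f n := by
  obtain ⟨g, rfl⟩ := (Module.AEval'.of (shift R A)).surjective f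
  rfl

theorem seq_ext {f g : SV R A} (h : ∀ n, seq R A f n = seq R A g n) : f = g :=
  (seq R A).injective (funext h)

theorem seq_C (r : R) (f : SV R A) (n : ℕ) :
    seq R A ((C r : R[X]) • f) n = r • seq R A f n := by
  have : (C r : R[X]) • f = r • f := by
    rw [← algebraMap_eq, algebraMap_smul]
  rw [this, map_smul]
  rfl

variable (R A)

/-- `a ↦` termwise left multiplication by `a`. -/
noncomputable def lamLin : A →ₗ[R] (SV R A →ₗ[R[X]] SV R A) where
  toFun a := lamOne R A a
  map_add' a b := by
    ext1 f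
    apply seq_ext
    intro n
    rw [LinearMap.add_apply, map_add, Pi.add_apply, seq_lamOne, seq_lamOne, seq_lamOne, add_mul]
  map_smul' r a := by
    ext1 f
    apply seq_ext
    intro n
    rw [RingHom.id_apply, LinearMap.smul_apply, map_smul, Pi.smul_apply, seq_lamOne, seq_lamOne,
      smul_mul_assoc]

/-- The action of polynomials with coefficients in `A` on sequences. -/
noncomputable def act : (R[X] ⊗[R] A) →ₗ[R[X]] (SV R A →ₗ[R[X]] SV R A) :=
  LinearMap.liftBaseChange R[X] (lamLin R A)

variable {R A}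

theorem act_one_tmul (a : A) : act R A (1 ⊗ₜ a) = lamOne R A a := by
  unfold act
  rw [LinearMap.liftBaseChange_tmul, one_smul]
  rfl

variable (R A)

/-- The algebra `A[X] ⊕ (ℕ → A)` over `R[X]`. -/
def Ext : Type u := (R[X] ⊗[R] A) × SV R A

noncomputable instance : AddCommGroup (Ext R A) :=
  inferInstanceAs (AddCommGroup ((R[X] ⊗[R] A) × SV R A))

noncomputable instance : Module R[X] (Ext R A) :=
  inferInstanceAs (Module R[X] ((R[X] ⊗[R] A) × SV R A))

variable {R A}

@[ext] theorem Ext.ext' {w w' : Ext R A} (h1 : w.1 = w'.1) (h2 : w.2 = w'.2) : w = w' :=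
  Prod.ext h1 h2

noncomputable instance : Mul (Ext R A) where
  mul w w' := (w.1 * w'.1, act R A w.1 w'.2 - act R A w'.1 w.2)

theorem Ext.mul_fst (w w' : Ext R A) : (w * w').1 = w.1 * w'.1 := rfl

theorem Ext.mul_snd (w w' : Ext R A) :
    (w * w').2 = act R A w.1 w'.2 - act R A w'.1 w.2 := rfl

theorem Ext.add_fst (w w' : Ext R A) : (w + w').1 = w.1 + w'.1 := rfl

theorem Ext.add_snd (w w' : Ext R A) : (w + w').2 = w.2 + w'.2 := rfl

theorem Ext.smul_fst (r : R[X]) (w : Ext R A) : (r • w).1 = r • w.1 := rfl

theorem Ext.smul_snd (r : R[X]) (w : Ext R A) : (r • w).2 = r • w.2 := rfl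

theorem Ext.zero_fst : (0 : Ext R A).1 = 0 := rfl

theorem Ext.zero_snd : (0 : Ext R A).2 = 0 := rfl

noncomputable instance : NonUnitalNonAssocRing (Ext R A) :=
  { (inferInstance : AddCommGroup (Ext R A)) with
    mul := (· * ·)
    left_distrib := fun a b c => by
      apply Ext.ext'
      · simp only [Ext.mul_fst, Ext.add_fst, mul_add]
      · simp only [Ext.mul_snd, Ext.add_fst, Ext.add_snd, map_add, LinearMap.add_apply]
        abel
    right_distrib := fun a b c => by
      apply Ext.ext'
      · simp only [Ext.mul_fst, Ext.add_fst, add_mul]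
      · simp only [Ext.mul_snd, Ext.add_fst, Ext.add_snd, map_add, LinearMap.add_apply]
        abel
    zero_mul := fun a => by
      apply Ext.ext'
      · simp only [Ext.mul_fst, Ext.zero_fst, zero_mul]
      · simp only [Ext.mul_snd, Ext.zero_fst, Ext.zero_snd, map_zero, LinearMap.zero_apply,
          sub_zero]
    mul_zero := fun a => by
      apply Ext.ext'
      · simp only [Ext.mul_fst, Ext.zero_fst, mul_zero]
      · simp only [Ext.mul_snd, Ext.zero_fst, Ext.zero_snd, map_zero, LinearMap.zero_apply,
          sub_zero] }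

instance : IsScalarTower R[X] (Ext R A) (Ext R A) where
  smul_assoc r w w' := by
    apply Ext.ext'
    · simp only [smul_eq_mul, Ext.mul_fst, Ext.smul_fst, smul_mul_assoc]
    · simp only [smul_eq_mul, Ext.mul_snd, Ext.smul_fst, Ext.smul_snd, map_smul,
        LinearMap.smul_apply, smul_sub]

instance : SMulCommClass R[X] (Ext R A) (Ext R A) where
  smul_comm r w w' := by
    apply Ext.ext'
    · simp only [smul_eq_mul, Ext.mul_fst, Ext.smul_fst, mul_smul_comm]
    · simp only [smul_eq_mul, Ext.mul_snd, Ext.smul_fst, Ext.smul_snd, map_smul,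
        LinearMap.smul_apply, smul_sub]

/-- The element `(1 ⊗ a, f)`. -/
noncomputable def el (a : A) (f : ℕ → A) : Ext R A := ((1 : R[X]) ⊗ₜ[R] a, (seq R A).symm f)

theorem el_mul (h : BL A) (a b : A) (f g : ℕ → A) :
    (el a f * el b g : Ext R A) = el (a * b) (fun n => a * g n + f n * b) := by
  apply Ext.ext'
  · rw [Ext.mul_fst]
    unfold el
    simp only [Algebra.TensorProduct.tmul_mul_tmul, mul_one]
  · rw [Ext.mul_snd]
    unfold el
    simp only [act_one_tmul]
    apply seq_ext
    intro n
    rw [map_sub, Pi.sub_apply, seq_lamOne, seq_lamOne, LinearEquiv.apply_symm_apply,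
      LinearEquiv.apply_symm_apply, LinearEquiv.apply_symm_apply, h.anti (f n) b, sub_eq_add_neg]

theorem el_add (a b : A) (f g : ℕ → A) :
    (el a f + el b g : Ext R A) = el (a + b) (fun n => f n + g n) := by
  apply Ext.ext'
  · rw [Ext.add_fst]
    unfold el
    simp only [TensorProduct.tmul_add]
  · rw [Ext.add_snd]
    unfold el
    simp only [← map_add]
    rfl

theorem el_neg (a : A) (f : ℕ → A) :
    (-(el a f) : Ext R A) = el (-a) (fun n => -f n) := by
  rw [neg_eq_iff_add_eq_zero, el_add]
  apply Ext.ext'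
  · unfold el; simp [Ext.zero_fst]
  · unfold el
    simp only [Ext.zero_snd]
    apply seq_ext
    intro n
    rw [LinearEquiv.apply_symm_apply, map_zero]
    simp

theorem el_zero : (el 0 (fun _ => 0) : Ext R A) = 0 := by
  apply Ext.ext'
  · unfold el; simp [Ext.zero_fst]
  · unfold el
    simp only [Ext.zero_snd]
    apply seq_ext
    intro n
    rw [LinearEquiv.apply_symm_apply, map_zero]
    rfl

theorem el_J (h : BL A) (a b c : A) (f g k : ℕ → A) :
    (J (el a f) (el b g) (el c k) : Ext R A) =
      el (J a b c) (fun n => J (f n) b c + J a (g n) c + J a b (k n)) := by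
  unfold J
  simp only [el_mul h, el_add]
  congr 1
  funext n
  simp only [mul_add, add_mul]
  abel

/-- The pair `(t, 0)`. -/
noncomputable def polyPart (t : R[X] ⊗[R] A) : Ext R A := (t, 0)

theorem span_el : Submodule.span R[X] {w : Ext R A | ∃ a f, w = el a f} = ⊤ := by
  rw [eq_top_iff]
  rintro w -
  have h1 : w = polyPart w.1 + el 0 (seq R A w.2) := by
    apply Ext.ext'
    · rw [Ext.add_fst]; unfold el polyPart; simp
    · rw [Ext.add_snd]; unfold el polyPart; simp
  rw [h1]
  refine Submodule.add_mem _ ?_ (Submodule.subset_span ⟨_, _, rfl⟩)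
  clear h1
  generalize w.1 = t
  induction t using TensorProduct.induction_on with
  | zero => exact Submodule.zero_mem _
  | tmul p a =>
    have : (polyPart (p ⊗ₜ[R] a) : Ext R A) = p • el a (fun _ => 0) := by
      apply Ext.ext'
      · rw [Ext.smul_fst]; unfold el polyPart
        simp only [TensorProduct.smul_tmul', smul_eq_mul, mul_one]
      · rw [Ext.smul_snd]; unfold el polyPart
        have : (fun _ => 0 : ℕ → A) = 0 := rfl
        simp [this]
    rw [this]
    exact Submodule.smul_mem _ _ (Submodule.subset_span ⟨_, _, rfl⟩)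
  | add t1 t2 h1 h2 =>
    have : (polyPart (t1 + t2) : Ext R A) = polyPart t1 + polyPart t2 := by
      apply Ext.ext'
      · rw [Ext.add_fst]; rfl
      · rw [Ext.add_snd]; unfold polyPart; simp
    rw [this]
    exact Submodule.add_mem _ h1 h2

end ext

theorem span_ind {S M N : Type*} [CommRing S] [AddCommGroup M] [Module S M] [AddCommGroup N]
    [Module S N] {H : Set M} (hH : Submodule.span S H = ⊤) (f : M → N)
    (hadd : ∀ x y, f (x + y) = f x + f y) (hsmul : ∀ (r : S) x, f (r • x) = r • f x)
    (h : ∀ x ∈ H, f x = 0) (x : M) : f x = 0 := by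
  have hx : x ∈ Submodule.span S H := by rw [hH]; trivial
  induction hx using Submodule.span_induction with
  | mem x hx => exact h x hx
  | zero =>
    have := hsmul 0 0
    rwa [zero_smul, zero_smul] at this
  | add x y _ _ hx hy => rw [hadd, hx, hy, add_zero]
  | smul r x _ hx => rw [hsmul, hx, smul_zero]

section ext2

variable {R : Type u} {A : Type u} [CommRing R] [NonUnitalNonAssocRing A] [Module R A]
  [IsScalarTower R A A] [SMulCommClass R A A]

theorem Ext.anti (h : BL A) (w w' : Ext R A) : w * w' = -(w' * w) := by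
  rw [eq_neg_iff_add_eq_zero]
  revert w'
  refine fun w' => span_ind (S := R[X]) span_el (fun w => w * w' + w' * w)
    (fun x y => by simp only [add_mul, mul_add]; abel)
    (fun r x => by simp only [smul_mul_assoc, mul_smul_comm, smul_add]) ?_ w
  rintro _ ⟨a, f, rfl⟩
  refine span_ind (S := R[X]) span_el (fun w' => el a f * w' + w' * el a f)
    (fun x y => by simp only [add_mul, mul_add]; abel)
    (fun r x => by simp only [smul_mul_assoc, mul_smul_comm, smul_add]) ?_ w'
  rintro _ ⟨b, g, rfl⟩
  simp only [el_mul h, el_add]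
  rw [← el_zero]
  congr 1
  · rw [h.anti a b]; simp
  · funext n
    rw [h.anti a (g n), h.anti (f n) b]; abel

theorem Ext.lin (h : BL A) (w1 w2 w3 w4 : Ext R A) :
    J (w1 * w2) w3 w4 + J (w1 * w4) w3 w2 + J (w3 * w2) w1 w4 + J (w3 * w4) w1 w2 = 0 := by
  refine span_ind (S := R[X]) span_el
    (fun w1 => J (w1 * w2) w3 w4 + J (w1 * w4) w3 w2 + J (w3 * w2) w1 w4 + J (w3 * w4) w1 w2)
    (fun x y => by simp only [add_mul, mul_add, J_add1, J_add2, J_add3]; abel)
    (fun r x => by simp only [smul_mul_assoc, mul_smul_comm, smul_add, J_smul1, J_smul2, J_smul3])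
    ?_ w1
  rintro _ ⟨a1, f1, rfl⟩
  refine span_ind (S := R[X]) span_el
    (fun w2 => J (el a1 f1 * w2) w3 w4 + J (el a1 f1 * w4) w3 w2 + J (w3 * w2) (el a1 f1) w4
      + J (w3 * w4) (el a1 f1) w2)
    (fun x y => by simp only [add_mul, mul_add, J_add1, J_add2, J_add3]; abel)
    (fun r x => by simp only [smul_mul_assoc, mul_smul_comm, smul_add, J_smul1, J_smul2, J_smul3])
    ?_ w2
  rintro _ ⟨a2, f2, rfl⟩
  refine span_ind (S := R[X]) span_el
    (fun w3 => J (el a1 f1 * el a2 f2) w3 w4 + J (el a1 f1 * w4) w3 (el a2 f2)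
      + J (w3 * el a2 f2) (el a1 f1) w4 + J (w3 * w4) (el a1 f1) (el a2 f2))
    (fun x y => by simp only [add_mul, mul_add, J_add1, J_add2, J_add3]; abel)
    (fun r x => by simp only [smul_mul_assoc, mul_smul_comm, smul_add, J_smul1, J_smul2, J_smul3])
    ?_ w3
  rintro _ ⟨a3, f3, rfl⟩
  refine span_ind (S := R[X]) span_el
    (fun w4 => J (el a1 f1 * el a2 f2) (el a3 f3) w4 + J (el a1 f1 * w4) (el a3 f3) (el a2 f2)
      + J (el a3 f3 * el a2 f2) (el a1 f1) w4 + J (el a3 f3 * w4) (el a1 f1) (el a2 f2))
    (fun x y => by simp only [add_mul, mul_add, J_add1, J_add2, J_add3]; abel)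
    (fun r x => by simp only [smul_mul_assoc, mul_smul_comm, smul_add, J_smul1, J_smul2, J_smul3])
    ?_ w4
  rintro _ ⟨a4, f4, rfl⟩
  simp only [el_mul h, el_add, el_J h]
  rw [← el_zero]
  congr 1
  · exact h.lin a1 a2 a3 a4
  · funext n
    have e1 := h.lin (f1 n) a2 a3 a4
    have e2 := h.lin a1 (f2 n) a3 a4
    have e3 := h.lin a1 a2 (f3 n) a4
    have e4 := h.lin a1 a2 a3 (f4 n)
    have e5 := congrArg₂ (· + ·) (congrArg₂ (· + ·) e1 e2) (congrArg₂ (· + ·) e3 e4)
    simp only [add_zero] at e5
    rw [← e5]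
    simp only [J_add1]
    abel

theorem Ext.cancel (r : R) (hr : ∀ a : A, r • a = 0 → a = 0) (w : Ext R A)
    (h : (C r : R[X]) • w = 0) : w = 0 := by
  apply Ext.ext'
  · have h1 : (C r : R[X]) • w.1 = 0 := congrArg (fun w : Ext R A => w.1) h
    let e := PolynomialModule.polynomialTensorProductLEquivPolynomialModule R A
    have h2 : (C r : R[X]) • e w.1 = 0 := by rw [← map_smul, h1, map_zero]
    have h3 : e w.1 = 0 := by
      rw [← PolynomialModule.coeff_eq_zero]
      ext n
      have h4 := congrArg (fun g : PolynomialModule R A => g.coeff n) h2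
      rw [← monomial_zero_left] at h4
      simp only [PolynomialModule.monomial_smul_apply] at h4
      simp at h4
      simpa using hr _ h4
    exact (LinearEquiv.map_eq_zero_iff e).mp h3
  · have h1 : (C r : R[X]) • w.2 = 0 := congrArg (fun w : Ext R A => w.2) h
    apply seq_ext
    intro n
    have h2 := congrArg (fun f => seq R A f n) h1
    simp only [seq_C, map_zero, Pi.zero_apply] at h2
    rw [hr _ h2]
    simp [Ext.zero_snd]

theorem Ext.bl (h : BL A) : BL (Ext R A) where
  anti := Ext.anti h
  lin := Ext.lin h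
  two := fun w hw => by
    apply Ext.cancel (2 : R) (fun a ha => h.two a (by rw [← ha, two_smul]))
    rw [map_ofNat, two_smul, hw]

noncomputable instance : Module R (Ext R A) :=
  inferInstanceAs (Module R ((R[X] ⊗[R] A) × SV R A))

theorem Ext.C_smul (r : R) (w : Ext R A) : (C r : R[X]) • w = r • w := by
  apply Ext.ext'
  · rw [Ext.smul_fst, ← algebraMap_eq, algebraMap_smul]; rfl
  · rw [Ext.smul_snd, ← algebraMap_eq, algebraMap_smul]; rfl

instance : IsScalarTower R (Ext R A) (Ext R A) where
  smul_assoc r w w' := by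
    rw [← Ext.C_smul, ← Ext.C_smul, smul_eq_mul, smul_eq_mul, smul_mul_assoc]

instance : SMulCommClass R (Ext R A) (Ext R A) where
  smul_comm r w w' := by
    rw [← Ext.C_smul, ← Ext.C_smul, smul_eq_mul, smul_eq_mul, mul_smul_comm]

variable (R)

/-- The constants. -/
noncomputable def io (a : A) : Ext R A := el a (fun _ => 0)

/-- The generic eigenvector with initial value `b`. -/
noncomputable def letter (x b : A) : Ext R A := el 0 (fun n => (fun z => x * z)^[n] b)

/-- Evaluation at `n` of the sequence part. -/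
noncomputable def ev (n : ℕ) (w : Ext R A) : A := seq R A w.2 n

theorem io_mul (h : BL A) (a b : A) : io R a * io R b = io R (a * b) := by
  unfold io
  rw [el_mul h]
  congr 1
  funext n
  simp

theorem io_add (a b : A) : io R a + io R b = io R (a + b) := by
  unfold io
  rw [el_add]
  congr 1
  funext n
  simp

theorem io_neg (a : A) : -io R a = io R (-a) := by
  unfold io
  rw [el_neg]
  congr 1
  funext n
  simp

theorem io_zero : io R (0 : A) = 0 := el_zero

theorem io_smul (r : R) (a : A) : io R (r • a) = r • io R a := by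
  rw [← Ext.C_smul]
  apply Ext.ext'
  · rw [Ext.smul_fst]; unfold io el
    simp only [TensorProduct.tmul_smul]
    rw [← algebraMap_eq, algebraMap_smul]
  · rw [Ext.smul_snd]; unfold io el
    have : (fun _ => 0 : ℕ → A) = 0 := rfl
    simp [this]

theorem io_J (h : BL A) (a b c : A) : J (io R a) (io R b) (io R c) = io R (J a b c) := by
  unfold J
  simp only [io_mul R h, io_add]

theorem x_letter (h : BL A) (x b : A) :
    io R x * letter R x b = (X : R[X]) • letter R x b := by
  unfold io letter
  rw [el_mul h]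
  apply Ext.ext'
  · rw [Ext.smul_fst]; unfold el; simp
  · rw [Ext.smul_snd]; unfold el
    apply seq_ext
    intro n
    rw [seq_X, LinearEquiv.apply_symm_apply, LinearEquiv.apply_symm_apply,
      Function.iterate_succ_apply']
    simp

theorem ev_add (n : ℕ) (w w' : Ext R A) : ev R n (w + w') = ev R n w + ev R n w' := by
  unfold ev; rw [Ext.add_snd, map_add]; rfl

theorem ev_zero (n : ℕ) : ev R n (0 : Ext R A) = 0 := by
  unfold ev; rw [Ext.zero_snd, map_zero]; rfl

theorem ev_neg (n : ℕ) (w : Ext R A) : ev R n (-w) = -ev R n w := by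
  rw [eq_neg_iff_add_eq_zero, ← ev_add, neg_add_cancel, ev_zero]

theorem ev_sub (n : ℕ) (w w' : Ext R A) : ev R n (w - w') = ev R n w - ev R n w' := by
  rw [sub_eq_add_neg, ev_add, ev_neg, sub_eq_add_neg]

theorem ev_smul (n : ℕ) (r : R) (w : Ext R A) : ev R n (r • w) = r • ev R n w := by
  rw [← Ext.C_smul]; unfold ev; rw [Ext.smul_snd, seq_C]

theorem ev_C (n : ℕ) (r : R) (w : Ext R A) : ev R n ((C r : R[X]) • w) = r • ev R n w := by
  rw [Ext.C_smul, ev_smul]

theorem ev_X (n : ℕ) (w : Ext R A) : ev R n ((X : R[X]) • w) = ev R (n + 1) w := by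
  unfold ev; rw [Ext.smul_snd, seq_X]

theorem ev_io_mul (n : ℕ) (a : A) (w : Ext R A) : ev R n (io R a * w) = a * ev R n w := by
  unfold ev io; rw [Ext.mul_snd]; unfold el
  simp only [act_one_tmul, map_sub, Pi.sub_apply, seq_lamOne]
  have : (fun _ => 0 : ℕ → A) = 0 := rfl
  simp [this]

theorem ev_mul_io (h : BL A) (n : ℕ) (a : A) (w : Ext R A) :
    ev R n (w * io R a) = ev R n w * a := by
  rw [(Ext.bl h).anti, ev_neg, ev_io_mul, h.anti a, neg_neg]

theorem ev_letter (n : ℕ) (x b : A) : ev R n (letter R x b) = (fun z => x * z)^[n] b := by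
  unfold ev letter el
  simp only [LinearEquiv.apply_symm_apply]

theorem ev_io (n : ℕ) (a : A) : ev R n (io R a) = 0 := by
  unfold ev io el
  simp only [LinearEquiv.apply_symm_apply]

theorem ev_J1 (h : BL A) (n : ℕ) (a b : A) (w : Ext R A) :
    ev R n (J w (io R a) (io R b)) = J (ev R n w) a b := by
  unfold J
  simp only [ev_add, io_mul R h, ev_mul_io R h, ev_io_mul]

theorem ev_J2 (h : BL A) (n : ℕ) (a b : A) (w : Ext R A) :
    ev R n (J (io R a) w (io R b)) = J a (ev R n w) b := by
  unfold J
  simp only [ev_add, io_mul R h, ev_mul_io R h, ev_io_mul]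

theorem ev_J3 (h : BL A) (n : ℕ) (a b : A) (w : Ext R A) :
    ev R n (J (io R a) (io R b) w) = J a b (ev R n w) := by
  unfold J
  simp only [ev_add, io_mul R h, ev_mul_io R h, ev_io_mul]

end ext2

end Pool.Agent.BLie
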