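import Mathlib
import Pool.Agent.BLie.Ext

/-! The quotient of an algebra by the torsion at a point of the scalar ring. -/

set_option linter.unusedSimpArgs false
set_option linter.unusedSectionVars false

namespace Pool.Agent.BLie

open Polynomial

universe u v

section tq

variable {R : Type u} {F : Type v} [CommRing R] [Field F]

/-- `A` is an algebra on which all scalars with nonzero value under `e` act injectively. -/
structure Loc (e : R →+* F) (A : Type u) [NonUnitalNonAssocRing A] [Module R A] : Prop where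
  bl : BL A
  can : ∀ r : R, e r ≠ 0 → ∀ z : A, r • z = 0 → z = 0

variable (e : R →+* F) (A : Type u) [NonUnitalNonAssocRing A] [Module R A]
  [IsScalarTower R A A] [SMulCommClass R A A]

/-- The torsion at `e`. -/
def tors : Submodule R A where
  carrier := {z | ∃ r : R, e r ≠ 0 ∧ r • z = 0}
  add_mem' := by
    rintro a b ⟨r, hr, ha⟩ ⟨s, hs, hb⟩
    refine ⟨r * s, by rw [map_mul]; exact mul_ne_zero hr hs, ?_⟩
    have h1 : (r * s) • a = 0 := by rw [mul_comm, mul_smul, ha, smul_zero]
    have h2 : (r * s) • b = 0 := by rw [mul_smul, hb, smul_zero]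
    rw [smul_add, h1, h2, add_zero]
  zero_mem' := ⟨1, by rw [map_one]; exact one_ne_zero, smul_zero _⟩
  smul_mem' := by
    rintro c a ⟨r, hr, ha⟩
    exact ⟨r, hr, by rw [smul_comm, ha, smul_zero]⟩

theorem tors_mul_right {z : A} (hz : z ∈ tors e A) (w : A) : z * w ∈ tors e A := by
  obtain ⟨r, hr, h⟩ := hz
  exact ⟨r, hr, by rw [← smul_mul_assoc, h, zero_mul]⟩

theorem tors_mul_left {z : A} (hz : z ∈ tors e A) (w : A) : w * z ∈ tors e A := by
  obtain ⟨r, hr, h⟩ := hz
  exact ⟨r, hr, by rw [← mul_smul_comm, h, mul_zero]⟩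

/-- The torsion quotient. -/
def TQ : Type u := A ⧸ tors e A

instance : AddCommGroup (TQ e A) := inferInstanceAs (AddCommGroup (A ⧸ tors e A))
instance : Module R (TQ e A) := inferInstanceAs (Module R (A ⧸ tors e A))

/-- The projection. -/
def pr : A →ₗ[R] TQ e A := (tors e A).mkQ

variable {A}

theorem pr_surj : Function.Surjective (pr e A) := Submodule.mkQ_surjective _

theorem pr_eq_zero {z : A} : pr e A z = 0 ↔ ∃ r : R, e r ≠ 0 ∧ r • z = 0 :=
  Submodule.Quotient.mk_eq_zero (tors e A)

/-- The multiplication with values in the quotient. -/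
def mulA : A →ₗ[R] A →ₗ[R] TQ e A :=
  LinearMap.mk₂ R (fun a b => pr e A (a * b))
    (fun a a' b => by rw [add_mul, map_add])
    (fun r a b => by rw [smul_mul_assoc, map_smul])
    (fun a b b' => by rw [mul_add, map_add])
    (fun r a b => by rw [mul_smul_comm, map_smul])

/-- The multiplication, descended in the first variable. -/
def mulB : TQ e A →ₗ[R] A →ₗ[R] TQ e A :=
  (tors e A).liftQ (mulA e) (by
    intro z hz
    rw [LinearMap.mem_ker]
    ext b
    exact (pr_eq_zero e).mpr (tors_mul_right e A hz b))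

/-- The multiplication on the quotient. -/
def mulC : TQ e A →ₗ[R] TQ e A →ₗ[R] TQ e A :=
  LinearMap.flip ((tors e A).liftQ (LinearMap.flip (mulB e)) (by
    intro z hz
    rw [LinearMap.mem_ker]
    ext b
    obtain ⟨b, rfl⟩ := pr_surj e b
    exact (pr_eq_zero e).mpr (tors_mul_left e A hz b)))

theorem mulC_pr (a b : A) : mulC e (pr e A a) (pr e A b) = pr e A (a * b) := rfl

instance : NonUnitalNonAssocRing (TQ e A) :=
  { (inferInstance : AddCommGroup (TQ e A)) with
    mul := fun a b => mulC e a b
    left_distrib := fun a b c => by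
      change mulC e a (b + c) = mulC e a b + mulC e a c
      rw [map_add]
    right_distrib := fun a b c => by
      change mulC e (a + b) c = mulC e a c + mulC e b c
      rw [map_add, LinearMap.add_apply]
    zero_mul := fun a => by
      change mulC e 0 a = 0
      rw [map_zero, LinearMap.zero_apply]
    mul_zero := fun a => by
      change mulC e a 0 = 0
      rw [map_zero] }

theorem pr_mul (a b : A) : pr e A (a * b) = pr e A a * pr e A b := rfl

instance : IsScalarTower R (TQ e A) (TQ e A) where
  smul_assoc r a b := by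
    change mulC e (r • a) b = r • mulC e a b
    rw [map_smul, LinearMap.smul_apply]

instance : SMulCommClass R (TQ e A) (TQ e A) where
  smul_comm r a b := by
    change r • mulC e a b = mulC e a (r • b)
    rw [map_smul]

theorem pr_J (a b c : A) : pr e A (J a b c) = J (pr e A a) (pr e A b) (pr e A c) := by
  unfold J
  rw [map_add, map_add, pr_mul, pr_mul, pr_mul, pr_mul, pr_mul, pr_mul]

theorem TQ.bl (h2 : (2 : F) ≠ 0) (h : BL A) : BL (TQ e A) where
  anti := fun a b => by
    obtain ⟨a, rfl⟩ := pr_surj e a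
    obtain ⟨b, rfl⟩ := pr_surj e b
    rw [← pr_mul, ← pr_mul, h.anti a b, map_neg]
  lin := fun a b c d => by
    obtain ⟨a, rfl⟩ := pr_surj e a
    obtain ⟨b, rfl⟩ := pr_surj e b
    obtain ⟨c, rfl⟩ := pr_surj e c
    obtain ⟨d, rfl⟩ := pr_surj e d
    simp only [← pr_mul, ← pr_J, ← map_add]
    rw [h.lin, map_zero]
  two := fun a ha => by
    obtain ⟨a, rfl⟩ := pr_surj e a
    rw [← map_add, pr_eq_zero] at ha
    obtain ⟨r, hr, h1⟩ := ha
    rw [pr_eq_zero]
    refine ⟨r * 2, by rw [map_mul, map_ofNat]; exact mul_ne_zero hr h2, ?_⟩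
    rw [mul_smul, two_smul, h1]

theorem TQ.loc (h2 : (2 : F) ≠ 0) (h : BL A) : Loc e (TQ e A) where
  bl := TQ.bl e h2 h
  can := fun r hr z hz => by
    obtain ⟨z, rfl⟩ := pr_surj e z
    rw [← map_smul, pr_eq_zero] at hz
    obtain ⟨s, hs, h1⟩ := hz
    rw [pr_eq_zero]
    exact ⟨s * r, by rw [map_mul]; exact mul_ne_zero hs hr, by rw [mul_smul, h1]⟩

end tq

end Pool.Agent.BLie
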