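import Mathlib
import Pool.Agent.BLie.TQ

/-! Removal of a root: the local to global step for a generic eigenvector. -/

set_option linter.unusedSimpArgs false
set_option linter.unusedSectionVars false

namespace Pool.Agent.BLie

open Polynomial

universe u v

section lg

variable {R : Type u} {F : Type v} [CommRing R] [Field F] (e : R →+* F)
  {A : Type u} [NonUnitalNonAssocRing A] [Module R A]
  [IsScalarTower R A A] [SMulCommClass R A A]

/-- Extension of a point of `R` to a point of `R[X]`. -/
noncomputable def pt (n : F) : R[X] →+* F := Polynomial.eval₂RingHom e n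

theorem pt_C (n : F) (r : R) : pt e n (C r) = e r := by
  unfold pt; simp

theorem pt_X (n : F) : pt e n X = n := by
  unfold pt; simp

theorem pt_eval (ρ : R) (r : R[X]) : pt e (e ρ) r = e (r.eval ρ) := by
  unfold pt
  rw [Polynomial.coe_eval₂RingHom]
  exact (Polynomial.hom_eval₂ r (RingHom.id R) e ρ).symm

theorem Loc.ext_cancel (H : Loc e A) (r : R) (hr : e r ≠ 0) (w : Ext R A)
    (h : (C r : R[X]) • w = 0) : w = 0 :=
  Ext.cancel r (fun a ha => H.can r hr a ha) w h

theorem Loc.ext_loc (H : Loc e A) : Loc e (Ext R A) where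
  bl := Ext.bl H.bl
  can := fun r hr w h => H.ext_cancel e r hr w (by rw [Ext.C_smul]; exact h)

theorem removal (H : Loc e A) (ρ : R) (W : Ext R A) (h1 : (X - C ρ : R[X]) • W = 0)
    (h2 : pr (pt e (e ρ)) (Ext R A) W = 0) : W = 0 := by
  rw [pr_eq_zero] at h2
  obtain ⟨r, hr, h3⟩ := h2
  rw [pt_eval] at hr
  apply H.ext_cancel e (r.eval ρ) hr
  have h4 : (X - C ρ) ∣ r - C (r.eval ρ) := Polynomial.X_sub_C_dvd_sub_C_eval
  obtain ⟨q, hq⟩ := h4
  have h5 : C (r.eval ρ) = r - q * (X - C ρ) := by rw [mul_comm, ← hq]; ring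
  rw [h5, sub_smul, h3, mul_smul, h1, smul_zero, sub_zero]

theorem removal' (H : Loc e A) (ρ : R) (p : R[X]) (W : Ext R A)
    (h1 : (p * (X - C ρ) : R[X]) • W = 0)
    (h2 : pr (pt e (e ρ)) (Ext R A) W = 0) : p • W = 0 := by
  apply removal e H ρ
  · rw [← mul_smul, mul_comm]; exact h1
  · rw [map_smul, h2, smul_zero]

end lg

end Pool.Agent.BLie
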