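import Mathlib
import Pool.Agent.BLie.LG

/-! Products of two eigenvectors. -/

set_option linter.unusedSimpArgs false
set_option linter.unusedSectionVars false

namespace Pool.Agent.BLie

section ab

variable {R A : Type*} [CommRing R] [NonUnitalNonAssocRing A] [Module R A]
  [IsScalarTower R A A] [SMulCommClass R A A]

/-- The three expressions for `gg x p q y` when `p` and `q` are eigenvectors. -/
theorem BL.three (h : BL A) {x p q : A} {π ρ : R} (hp : x * p = π • p) (hq : x * q = ρ • q)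
    (y : A) :
    π • J p q y + J x p (q * y) = ρ • J p q y - J x q (p * y) ∧
    π • J p q y + J x p (q * y) = J p q (x * y) + J x y (p * q) := by
  have h1 := gg_x1 x p q y
  have h2 := h.gg_x2 x p q y
  have h3 := h.gg_x3 x p q y
  rw [hp, J_smul1] at h1
  rw [hq, J_smul1, J_cyc' q y p, h.anti y p, J_neg3] at h2
  rw [J_cyc (x * y) p q] at h3
  constructor
  · rw [← h1, h2]; abel
  · rw [← h1, h3]

theorem BL.sub_kill (h : BL A) {x p : A} {π : R} (hp : x * p = π • p) (y : A) :
    J x p (x * y - π • y) = 0 := by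
  rw [J_sub3, J_smul3, ← h.G_move, hp, J_smul2, sub_self]

theorem BL.shift2 (h : BL A) {x p q : A} {π ρ : R} (hp : x * p = π • p) (hq : x * q = ρ • q)
    (y : A) : J x q (p * (x * (x * y))) - π • J x q (p * (x * y)) =
      (ρ - π) • (J x q (p * (x * y)) - π • J x q (p * y)) := by
  have h0 := h.sub_kill hp y
  have h1 := h.x_mul x p (x * y - π • y)
  rw [h0, hp] at h1
  have h2 : J x q (x * (p * (x * y - π • y))) = J x q
      (π • p * (x * y - π • y) + p * (x * (x * y - π • y)) - 0) := by rw [h1]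
  rw [← h.G_move, hq] at h2
  simp only [mul_sub, mul_smul_comm, smul_mul_assoc, J_sub3, J_add3, J_smul2, J_smul3, J_zero3,
    smul_sub, sub_zero] at h2
  linear_combination (norm := module) (-1 : ℤ) • h2

theorem BL.AB (h : BL A) {x p q : A} {π ρ : R} (hp : x * p = π • p) (hq : x * q = ρ • q)
    (c0 : ∀ z : A, (π - ρ) • z = 0 → z = 0) (c1 : ∀ z : A, π • z = 0 → z = 0)
    (c2 : ∀ z : A, ρ • z = 0 → z = 0) (y : A) :
    J x q (p * (x * y)) = π • J x q (p * y) ∧ J x p (q * (x * y)) = ρ • J x p (q * y) ∧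
      J x (p * q) y = 0 := by
  have hpq : J x p q = 0 := c0 _ (h.G_eig hp hq)
  have key : ∀ y, (2 * π) • (J x q (p * (x * y)) - π • J x q (p * y)) +
      (2 * ρ) • (J x p (q * (x * y)) - ρ • J x p (q * y)) = 0 ∧
      (J x q (p * (x * y)) - π • J x q (p * y)) + (J x p (q * (x * y)) - ρ • J x p (q * y))
        = (π - ρ) • J x y (p * q) := by
    intro y
    obtain ⟨a1, a2⟩ := h.three hp hq y
    obtain ⟨b1, b2⟩ := h.three hp hq (x * y)
    obtain ⟨d1, d2⟩ := h.three hp hq (x * (x * y))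
    have e2 : J x (x * y) (p * q) = (π + ρ) • J x y (p * q) := by
      rw [h.G_move, h.eig_mul hp hq hpq, J_smul3]
    have s1 := h.shift2 hp hq y
    have s2 := h.shift2 hq hp y
    have A1 : (J x q (p * (x * y)) - π • J x q (p * y)) +
        (J x p (q * (x * y)) - ρ • J x p (q * y)) = (π - ρ) • J x y (p * q) := by
      linear_combination (norm := module) b1 + (π - ρ) • a2 - π • a1
    have B1 : (J x q (p * (x * (x * y))) - π • J x q (p * (x * y))) +
        (J x p (q * (x * (x * y))) - ρ • J x p (q * (x * y))) =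
        (π - ρ) • J x (x * y) (p * q) := by
      linear_combination (norm := module) d1 + (π - ρ) • b2 - π • b1
    refine ⟨?_, A1⟩
    apply c0
    linear_combination (norm := module) ((π - ρ) * (π + ρ)) • A1 - (π - ρ) • B1 +
      (π - ρ) • s1 + (π - ρ) • s2 - ((π - ρ) * (π - ρ)) • e2
  have s1 := h.shift2 hp hq y
  have s2 := h.shift2 hq hp y
  obtain ⟨k1, k2⟩ := key y
  obtain ⟨k3, -⟩ := key (x * y)
  have k4 : (2 * ρ) • (J x p (q * (x * y)) - ρ • J x p (q * y)) -
      (2 * π) • (J x q (p * (x * y)) - π • J x q (p * y)) = 0 := by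
    apply c0
    linear_combination (norm := module) k3 - (2 * π) • s1 - (2 * ρ) • s2
  have z1 : J x q (p * (x * y)) - π • J x q (p * y) = 0 := by
    apply c1
    apply h.two
    apply h.two
    linear_combination (norm := module) k1 - k4
  have z2 : J x p (q * (x * y)) - ρ • J x p (q * y) = 0 := by
    apply c2
    apply h.two
    apply h.two
    linear_combination (norm := module) k1 + k4
  refine ⟨sub_eq_zero.mp z1, sub_eq_zero.mp z2, ?_⟩
  rw [h.swap23, neg_eq_zero]
  apply c0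
  rw [← k2, z1, z2, add_zero]

theorem BL.AB_eig (h : BL A) {x p q y : A} {π ρ η : R} (hp : x * p = π • p)
    (hq : x * q = ρ • q) (hy : x * y = η • y)
    (c0 : ∀ z : A, (π - ρ) • z = 0 → z = 0) (c1 : ∀ z : A, π • z = 0 → z = 0)
    (c2 : ∀ z : A, ρ • z = 0 → z = 0) (d1 : ∀ z : A, (η - π) • z = 0 → z = 0)
    (d2 : ∀ z : A, (η - ρ) • z = 0 → z = 0) :
    J p q y = 0 ∧ J x q (p * y) = 0 ∧ J x p (q * y) = 0 := by
  obtain ⟨a1, a2, a3⟩ := h.AB hp hq c0 c1 c2 y
  rw [hy, mul_smul_comm, J_smul3] at a1 a2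
  have b1 : J x q (p * y) = 0 := d1 _ (by linear_combination (norm := module) a1)
  have b2 : J x p (q * y) = 0 := d2 _ (by linear_combination (norm := module) a2)
  obtain ⟨e1, -⟩ := h.three hp hq y
  refine ⟨c0 _ ?_, b1, b2⟩
  rw [b1, b2] at e1
  linear_combination (norm := module) e1

end ab

section dat

universe u v

variable {R : Type u} {F : Type v} [CommRing R] [Field F]

/-- A local algebra together with generic eigenvectors of weights 2, 1, -1. -/
structure Dat (e : R →+* F) (A : Type u) [NonUnitalNonAssocRing A] [Module R A]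
    (x a c u : A) (α s υ : R) : Prop extends Loc e A where
  ha : x * a = α • a
  hc : x * c = s • c
  hu : x * u = υ • u
  ea : e α = 2
  es : e s = 1
  eu : e υ = -1
  nz : ∀ N : ℤ, N ∣ 6 ^ 4 → (N : F) ≠ 0

variable {e : R →+* F} {A : Type u} [NonUnitalNonAssocRing A] [Module R A]
  {x a c u : A} {α s υ : R}

theorem Dat.cn (D : Dat e A x a c u α s υ) (r : R) (N : ℤ) (h : e r = (N : F))
    (hN : N ∣ 6 ^ 4) {z : A} (hz : r • z = 0) : z = 0 :=
  D.can r (by rw [h]; exact D.nz N hN) z hz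

theorem Dat.cni (D : Dat e A x a c u α s υ) (N : ℕ) (hN : (N : ℤ) ∣ 6 ^ 4) {z : A}
    (hz : N • z = 0) : z = 0 :=
  D.cn (N : R) (N : ℤ) (by simp) hN (by rw [← hz]; module)

variable [IsScalarTower R A A] [SMulCommClass R A A]

theorem Dat.Gua (D : Dat e A x a c u α s υ) : J x u a = 0 :=
  D.cn (υ - α) (-3) (by rw [map_sub, D.ea, D.eu]; norm_num) (by norm_num)
    (D.bl.G_eig D.hu D.ha)

theorem Dat.Gcu (D : Dat e A x a c u α s υ) : J x c u = 0 :=
  D.cn (s - υ) 2 (by rw [map_sub, D.es, D.eu]; norm_num) (by norm_num)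
    (D.bl.G_eig D.hc D.hu)

theorem Dat.Gca (D : Dat e A x a c u α s υ) : J x c a = 0 :=
  D.cn (s - α) (-1) (by rw [map_sub, D.es, D.ea]; norm_num) (by norm_num)
    (D.bl.G_eig D.hc D.ha)

theorem Dat.ABua (D : Dat e A x a c u α s υ) (y : A) :
    J x a (u * (x * y)) = υ • J x a (u * y) ∧ J x u (a * (x * y)) = α • J x u (a * y) ∧
      J x (u * a) y = 0 :=
  D.bl.AB D.hu D.ha
    (fun _ h => D.cn _ (-3) (by rw [map_sub, D.ea, D.eu]; norm_num) (by norm_num) h)
    (fun _ h => D.cn _ (-1) (by rw [D.eu]; norm_num) (by norm_num) h)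
    (fun _ h => D.cn _ 2 (by rw [D.ea]; norm_num) (by norm_num) h) y

theorem Dat.ABcu (D : Dat e A x a c u α s υ) (y : A) :
    J x u (c * (x * y)) = s • J x u (c * y) ∧ J x c (u * (x * y)) = υ • J x c (u * y) ∧
      J x (c * u) y = 0 :=
  D.bl.AB D.hc D.hu
    (fun _ h => D.cn _ 2 (by rw [map_sub, D.es, D.eu]; norm_num) (by norm_num) h)
    (fun _ h => D.cn _ 1 (by rw [D.es]; norm_num) (by norm_num) h)
    (fun _ h => D.cn _ (-1) (by rw [D.eu]; norm_num) (by norm_num) h) y

theorem Dat.ABca (D : Dat e A x a c u α s υ) (y : A) :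
    J x a (c * (x * y)) = s • J x a (c * y) ∧ J x c (a * (x * y)) = α • J x c (a * y) ∧
      J x (c * a) y = 0 :=
  D.bl.AB D.hc D.ha
    (fun _ h => D.cn _ (-1) (by rw [map_sub, D.es, D.ea]; norm_num) (by norm_num) h)
    (fun _ h => D.cn _ 1 (by rw [D.es]; norm_num) (by norm_num) h)
    (fun _ h => D.cn _ 2 (by rw [D.ea]; norm_num) (by norm_num) h) y

theorem Dat.hk (D : Dat e A x a c u α s υ) : x * (u * a) = (υ + α) • (u * a) :=
  D.bl.eig_mul D.hu D.ha D.Gua

theorem Dat.hu0 (D : Dat e A x a c u α s υ) : x * (c * u) = (s + υ) • (c * u) :=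
  D.bl.eig_mul D.hc D.hu D.Gcu

theorem Dat.hd (D : Dat e A x a c u α s υ) : x * (c * a) = (s + α) • (c * a) :=
  D.bl.eig_mul D.hc D.ha D.Gca

theorem Dat.Gck (D : Dat e A x a c u α s υ) : J x c (u * a) = 0 := by
  rw [D.bl.swap23, (D.ABua c).2.2, neg_zero]

theorem Dat.hl (D : Dat e A x a c u α s υ) :
    x * (c * (u * a)) = (s + (υ + α)) • (c * (u * a)) :=
  D.bl.eig_mul D.hc D.hk D.Gck

end dat

end Pool.Agent.BLie
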