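import Mathlib
import Pool.Agent.BLie.AB

/-! Four eigenvectors: the vanishing lemma used for the element `P * R`. -/

set_option linter.unusedSimpArgs false
set_option linter.unusedSectionVars false
set_option linter.unusedVariables false

namespace Pool.Agent.BLie

section ab2

variable {R A : Type*} [CommRing R] [NonUnitalNonAssocRing A] [Module R A]
  [IsScalarTower R A A] [SMulCommClass R A A]

/-- `r` acts injectively. -/
def Can (A : Type*) [NonUnitalNonAssocRing A] [Module R A] (r : R) : Prop :=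
  ∀ z : A, r • z = 0 → z = 0

theorem Can.neg {r : R} (h : Can A r) : Can A (-r) := fun z hz =>
  h z (by rw [neg_smul, neg_eq_zero] at hz; exact hz)

theorem Can.sub_comm {r s : R} (h : Can A (r - s)) : Can A (s - r) := by
  rw [← neg_sub]; exact h.neg

theorem BL.ABU (h : BL A) {x p q : A} {π ρ : R} (hp : x * p = π • p) (hq : x * q = ρ • q)
    (c0 : Can A (π - ρ)) (c1 : Can A π) (y : A) :
    J x q (p * (x * y)) = π • J x q (p * y) ∧ ρ • J x y (p * q) = 0 := by
  have hpq : J x p q = 0 := c0 _ (h.G_eig hp hq)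
  have key : ∀ y, (2 * π) • (J x q (p * (x * y)) - π • J x q (p * y)) +
      (2 * ρ) • (J x p (q * (x * y)) - ρ • J x p (q * y)) = 0 ∧
      (J x q (p * (x * y)) - π • J x q (p * y)) + (J x p (q * (x * y)) - ρ • J x p (q * y))
        = (π - ρ) • J x y (p * q) := by
    intro y
    obtain ⟨a1, a2⟩ := h.three hp hq y
    obtain ⟨b1, b2⟩ := h.three hp hq (x * y)
    obtain ⟨d1, d2⟩ := h.three hp hq (x * (x * y))
    have e2 : J x (x * y) (p * q) = (π + ρ) • J x y (p * q) := by
      rw [h.G_move, h.eig_mul hp hq hpq, J_smul3]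
    have s1 := h.shift2 hp hq y
    have s2 := h.shift2 hq hp y
    have A1 : (J x q (p * (x * y)) - π • J x q (p * y)) +
        (J x p (q * (x * y)) - ρ • J x p (q * y)) = (π - ρ) • J x y (p * q) := by
      linear_combination (norm := module) b1 + (π - ρ) • a2 - π • a1
    have B1 : (J x q (p * (x * (x * y))) - π • J x q (p * (x * y))) +
        (J x p (q * (x * (x * y))) - ρ • J x p (q * (x * y))) =
        (π - ρ) • J x (x * y) (p * q) := by
      linear_combination (norm := module) d1 + (π - ρ) • b2 - π • b1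
    refine ⟨?_, A1⟩
    apply c0
    linear_combination (norm := module) ((π - ρ) * (π + ρ)) • A1 - (π - ρ) • B1 +
      (π - ρ) • s1 + (π - ρ) • s2 - ((π - ρ) * (π - ρ)) • e2
  have s1 := h.shift2 hp hq y
  have s2 := h.shift2 hq hp y
  obtain ⟨k1, k2⟩ := key y
  obtain ⟨k3, -⟩ := key (x * y)
  have k4 : (2 * ρ) • (J x p (q * (x * y)) - ρ • J x p (q * y)) -
      (2 * π) • (J x q (p * (x * y)) - π • J x q (p * y)) = 0 := by
    apply c0
    linear_combination (norm := module) k3 - (2 * π) • s1 - (2 * ρ) • s2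
  have z1 : J x q (p * (x * y)) - π • J x q (p * y) = 0 := by
    apply c1
    apply h.two
    apply h.two
    linear_combination (norm := module) k1 - k4
  have z2 : ρ • (J x p (q * (x * y)) - ρ • J x p (q * y)) = 0 := by
    apply h.two
    apply h.two
    linear_combination (norm := module) k1 + k4
  refine ⟨sub_eq_zero.mp z1, ?_⟩
  apply c0
  linear_combination (norm := module) z2 + ρ • z1 - ρ • k2

/-- First consequences for three eigenvectors. -/
theorem BL.s1 (h : BL A) {x c a z : A} {γ α ζ : R} (hc : x * c = γ • c) (ha : x * a = α • a)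
    (hz : x * z = ζ • z) (cγ : Can A γ) (cα : Can A α) (cζ : Can A ζ) (cγζ : Can A (γ - ζ))
    (cαζ : Can A (α - ζ)) :
    J x c z = 0 ∧ J x a z = 0 ∧ (∀ b, J x (a * z) b = 0) ∧ (∀ b, J x (c * z) b = 0) ∧
    γ • J c a z = α • J c a z ∧ J x z (c * a) = (γ - ζ) • J c a z ∧
    J x c a * z = (3 * γ) • J c a z - x * J c a z ∧
    J x z (J x c a) = ((γ + α - ζ) * (γ - ζ)) • J c a z := by
  have g1 : J x c z = 0 := cγζ _ (h.G_eig hc hz)
  have g2 : J x a z = 0 := cαζ _ (h.G_eig ha hz)
  have g3 : ∀ b, J x (a * z) b = 0 := fun b => (h.AB ha hz cαζ cα cζ b).2.2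
  have g4 : ∀ b, J x (c * z) b = 0 := fun b => (h.AB hc hz cγζ cγ cζ b).2.2
  have k1 := gg_x1 x c a z
  have k2 := h.gg_x2 x c a z
  have k3 := h.gg_x3 x c a z
  have k4 := h.gg_x4 x c a z
  rw [hc, J_smul1, h.swap23 x c, g3, neg_zero, add_zero] at k1
  rw [ha, J_smul1, h.anti z c, J_neg3, h.swap23 x a, g4, neg_zero, neg_zero, add_zero,
    J_cyc' a z c] at k2
  rw [hz, J_smul1, J_cyc z c a] at k3
  rw [h.swap23 x z c, g1, g2] at k4
  have m1 : γ • J c a z = α • J c a z := by rw [← k1, k2]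
  have m2 : J x z (c * a) = (γ - ζ) • J c a z := by
    linear_combination (norm := module) k1 - k3
  have m3 : J x c a * z = (3 * γ) • J c a z - x * J c a z := by
    rw [k1] at k4
    simp only [zero_mul, neg_zero, add_zero] at k4
    linear_combination (norm := module) -(1 : ℤ) • k4
  refine ⟨g1, g2, g3, g4, m1, m2, m3, ?_⟩
  have d := h.G_def hc ha
  have d' : J x c a = (γ + α) • (c * a) - x * (c * a) := by
    linear_combination (norm := module) d
  rw [d', J_sub3, J_smul3, ← h.G_move, hz, J_smul2, m2]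
  module

/-- The Jacobian of `x`, `y` and `J c a z` vanishes. -/
theorem BL.step2 (h : BL A) {x c a z y : A} {γ α ζ η : R} (hc : x * c = γ • c)
    (ha : x * a = α • a) (hz : x * z = ζ • z) (hy : x * y = η • y)
    (cγ : Can A γ) (cα : Can A α) (cζ : Can A ζ) (cγζ : Can A (γ - ζ))
    (cαζ : Can A (α - ζ)) (cζη : Can A (ζ - η)) (e1 : Can A (η - (γ + α + ζ)))
    (e2 : Can A (η - (2 * γ - α + ζ))) :
    J x y (J c a z) = 0 ∧ J x y ((c * a) * z) = 0 := by
  obtain ⟨g1, g2, g3, g4, m1, m2, m3, m4⟩ := h.s1 hc ha hz cγ cα cζ cγζ cαζ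
  have w1 : x * ((a * z) * c) = (α + ζ + γ) • ((a * z) * c) :=
    h.eig_mul (h.eig_mul ha hz g2) hc (g3 c)
  have g1' : J x z c = 0 := by rw [h.swap23, g1, neg_zero]
  have w2 : x * ((z * c) * a) = (ζ + γ + α) • ((z * c) * a) := by
    refine h.eig_mul (h.eig_mul hz hc g1') ha ?_
    rw [h.anti z c, J_neg2, g4, neg_zero]
  have l1 : J x y ((a * z) * c) = 0 := e1 _ (by
    have := h.G_eig hy w1
    rw [← this]; congr 1; ring)
  have l2 : J x y ((z * c) * a) = 0 := e1 _ (by
    have := h.G_eig hy w2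
    rw [← this]; congr 1; ring)
  have eF : J c a z = (c * a) * z + (a * z) * c + (z * c) * a := rfl
  have l3 : J x y (J c a z) = J x y ((c * a) * z) := by
    rw [eF, J_add3, J_add3, l1, l2, add_zero, add_zero]
  have u1 := (h.ABU hz hy cζη cζ (c * a)).1
  have d := h.G_def hc ha
  rw [d, mul_sub, mul_smul_comm, J_sub3, J_smul3, h.anti z (J x c a), J_neg3, m3, J_sub3,
    J_smul3, h.anti z (c * a), J_neg3, ← l3, ← h.G_move, hy, J_smul2] at u1
  have f : J x y (J c a z) = 0 := by
    apply e2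
    linear_combination (norm := module) -(1 : ℤ) • u1
  exact ⟨f, by rw [← l3, f]⟩

/-- The exceptional weights of `y`. -/
def Spec (γ α ζ : R) : Set R :=
  {γ, α, ζ, γ + α + ζ, 2 * γ - α + ζ, α + ζ, γ + ζ, ζ - γ, ζ - α, γ - α - ζ, γ - ζ}

/-- The main vanishing result for four eigenvectors. -/
theorem BL.claim1 (h : BL A) {x c a z y : A} {γ α ζ η : R} (hc : x * c = γ • c)
    (ha : x * a = α • a) (hz : x * z = ζ • z) (hy : x * y = η • y)
    (cγ : Can A γ) (cα : Can A α) (cζ : Can A ζ) (cγζ : Can A (γ - ζ))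
    (cαζ : Can A (α - ζ)) (c5 : Can A (α + ζ - γ)) (c6 : Can A (γ + ζ - α))
    (c7 : Can A (α + ζ)) (c8 : Can A (γ + ζ))
    (hS : ∀ ρ ∈ Spec γ α ζ, Can A (η - ρ)) :
    η • (J c a z * y) = 0 ∧ J x y (J c a z) = 0 := by
  have s1 : Can A (η - γ) := hS _ (by simp [Spec])
  have s2 : Can A (η - α) := hS _ (by simp [Spec])
  have s3 : Can A (η - ζ) := hS _ (by simp [Spec])
  have s4 : Can A (η - (γ + α + ζ)) := hS _ (by simp [Spec])
  have s5 : Can A (η - (2 * γ - α + ζ)) := hS _ (by simp [Spec])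
  have s6 : Can A (η - (α + ζ)) := hS _ (by simp [Spec])
  have s7 : Can A (η - (γ + ζ)) := hS _ (by simp [Spec])
  have s8 : Can A (η - (ζ - γ)) := hS _ (by simp [Spec])
  have s9 : Can A (η - (ζ - α)) := hS _ (by simp [Spec])
  have s10 : Can A (η - (γ - α - ζ)) := hS _ (by simp [Spec])
  have s11 : Can A (η - (γ - ζ)) := hS _ (by simp [Spec])
  obtain ⟨g1, g2, g3, g4, m1, m2, m3, m4⟩ := h.s1 hc ha hz cγ cα cζ cγζ cαζ
  obtain ⟨f1, f2⟩ := h.step2 hc ha hz hy cγ cα cζ cγζ cαζ s3.sub_comm s4 s5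
  refine ⟨?_, f1⟩
  set Fv := J c a z with hFv
  obtain ⟨p1, p2, p3⟩ := h.AB_eig hc hz hy cγζ cγ cζ s1 s3
  obtain ⟨q1, q2, q3⟩ := h.AB_eig ha hz hy cαζ cα cζ s2 s3
  have haz : x * (a * z) = (α + ζ) • (a * z) := h.eig_mul ha hz g2
  have hcz : x * (c * z) = (γ + ζ) • (c * z) := h.eig_mul hc hz g1
  obtain ⟨r1, -⟩ := h.AB_eig haz hc hy c5 c7 cγ s6 s1
  obtain ⟨r2, -⟩ := h.AB_eig hcz ha hy c6 c8 cα s7 s2
  have gyc : J x y c = 0 := s1 _ (h.G_eig hy hc)
  have gya : J x y a = 0 := s2 _ (h.G_eig hy ha)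
  have hyc := h.eig_mul hy hc gyc
  have hya := h.eig_mul hy ha gya
  -- the element `X`
  obtain ⟨X, hX⟩ : ∃ X, X = J (y * c) a z := ⟨_, rfl⟩
  have X1 : (η + γ - α) • X = 0 := by
    obtain ⟨a1, a2, -⟩ := h.AB ha hz cαζ cα cζ (y * c)
    rw [hyc, mul_smul_comm, J_smul3] at a1 a2
    have b2 : J x a (z * (y * c)) = 0 := s8 _ (by linear_combination (norm := module) a2)
    obtain ⟨t1, -⟩ := h.three ha hz (y * c)
    rw [b2, add_zero] at t1
    rw [hX, J_cyc]
    apply cαζ
    linear_combination (norm := module) (η + γ - α) • t1 - a1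
  have Xgg : gg y c a z = X := by
    unfold gg
    rw [h.swap23 (a * z) y c, r1, neg_zero, add_zero, hX]
  have X2' : X = -J c z (y * a) := by
    rw [← Xgg, h.gg_cyc]
    unfold gg
    rw [h.anti z c, J_neg1, h.swap23 (c * z) y a, r2, J_cyc (y * a) z c, h.swap12 z c]
    simp
  have X2 : (η + α - γ) • X = 0 := by
    obtain ⟨a1, a2, -⟩ := h.AB hc hz cγζ cγ cζ (y * a)
    rw [hya, mul_smul_comm, J_smul3] at a1 a2
    have b2 : J x c (z * (y * a)) = 0 := s9 _ (by linear_combination (norm := module) a2)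
    obtain ⟨t1, -⟩ := h.three hc hz (y * a)
    rw [b2, add_zero] at t1
    rw [X2']
    apply cγζ
    linear_combination (norm := module) a1 - (η + α - γ) • t1
  have X3 : η • X = 0 := h.two _ (by linear_combination (norm := module) X1 + X2)
  obtain ⟨Q, hQ⟩ : ∃ Q, Q = J c a y := ⟨_, rfl⟩
  have E1 : (3 : ℕ) • X = -(Fv * y) + Q * z := by
    have k := h.three_gg y c a z
    rw [Xgg, J_cyc y a z, q1, J_cyc y c z, p1, J_cyc y c a, ← hQ] at k
    rw [k]
    simp [hFv]
  -- the first auxiliary element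
  have gay : J x a y = 0 := by rw [h.swap23, gya, neg_zero]
  have hay : x * (a * y) = (α + η) • (a * y) := h.eig_mul ha hy gay
  have gayz : J x (a * y) z = 0 := by rw [h.swap23, q2, neg_zero]
  have hayz := h.eig_mul hay hz gayz
  have gcayz : J x c ((a * y) * z) = 0 :=
    s10 _ (by linear_combination (norm := module) -(1 : ℤ) • h.G_eig hc hayz)
  have Jcayz : J c (a * y) z = -X := by
    rw [X2', h.anti a y, J_neg2, h.swap23 c (y * a) z]
  obtain ⟨lam, hlam⟩ : ∃ lam, lam = J x c (a * y) := ⟨_, rfl⟩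
  have E2 : lam * z = x * X - (3 * γ) • X := by
    have k1 := gg_x1 x c (a * y) z
    have k4 := h.gg_x4 x c (a * y) z
    rw [hc, J_smul1, gcayz, add_zero, Jcayz] at k1
    rw [k1, Jcayz, gayz, h.swap23 x z c, g1, ← hlam] at k4
    simp only [zero_mul, neg_zero, add_zero, mul_neg] at k4
    linear_combination (norm := module) -(1 : ℤ) • k4
  obtain ⟨D, hD⟩ : ∃ D, D = J x y (c * a) := ⟨_, rfl⟩
  have E3 : D = (γ - η) • Q + lam := by
    have k1 := gg_x1 x c a y
    have k3 := h.gg_x3 x c a y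
    rw [hc, J_smul1, ← hQ, ← hlam] at k1
    rw [hy, J_smul1, J_cyc y c a, ← hQ, ← hD] at k3
    linear_combination (norm := module) k1 - k3
  have E4 : D * z = (γ - η) • (Fv * y) + x * X := by
    rw [E3, add_mul, smul_mul_assoc, E2]
    linear_combination (norm := module) -(γ - η) • E1 - (3 : ℤ) • X3
  obtain ⟨N, hN⟩ : ∃ N, N = J y (c * a) z := ⟨_, rfl⟩
  have E5 : D * z = (3 * η) • N - x * N + (γ - ζ) • (Fv * y) := by
    have k1 := gg_x1 x y (c * a) z
    have k4 := h.gg_x4 x y (c * a) z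
    have gzy : J x z y = 0 := s3.sub_comm _ (h.G_eig hz hy)
    rw [hy, J_smul1, f2, add_zero, ← hN] at k1
    rw [k1, ← hN, h.swap23 x (c * a) z, m2, gzy, ← hD] at k4
    simp only [zero_mul, neg_mul, smul_mul_assoc, add_zero] at k4
    linear_combination (norm := module) -(1 : ℤ) • k4
  have E6 : (ζ - η) • (Fv * y) = (3 * η) • N - x * N - x * X := by
    linear_combination (norm := module) E5 - E4
  obtain ⟨t, ht⟩ : ∃ t, t = z * y := ⟨_, rfl⟩
  have E7 : J c a t = -(X + N) := by
    have k : gg y z c a = X := by rw [← Xgg, h.gg_cyc]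
    unfold gg at k
    rw [h.anti y z, J_neg1, J_cyc (z * y) c a, h.swap12 (c * a) y z, ← hN, ← ht] at k
    linear_combination (norm := module) -(1 : ℤ) • k
  have ut : ∀ b, η • J x b t = 0 := fun b => by
    rw [ht]; exact (h.ABU hz hy s3.sub_comm cζ b).2
  have gzy : J x z y = 0 := s3.sub_comm _ (h.G_eig hz hy)
  have hxt : x * t = (ζ + η) • t := by rw [ht]; exact h.eig_mul hz hy gzy
  have E8 : η • J x c (a * t) = 0 := by
    have d := h.G_def ha hxt
    have k : J x c (x * (a * t)) = γ • J x c (a * t) := by rw [← h.G_move, hc, J_smul2]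
    rw [d, J_sub3, J_smul3] at k
    have k2 : η • J x c (J x a t) = 0 := by rw [← J_smul3, ut, J_zero3]
    apply s10
    linear_combination (norm := module) η • k + k2
  have E9 : η • J c a t = 0 := by
    have k1 := gg_x1 x c a t
    have k3 := h.gg_x3 x c a t
    rw [hc, J_smul1] at k1
    rw [hxt, J_smul1, J_cyc t c a, h.swap23 x t (c * a)] at k3
    apply s11
    linear_combination (norm := module) η • k1 - η • k3 + ut (c * a) + E8
  rw [E7] at E9
  have E10 : η • N = 0 := by linear_combination (norm := module) -(1 : ℤ) • E9 - X3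
  apply s3
  have xN : η • (x * N) = 0 := by rw [← mul_smul_comm, E10, mul_zero]
  have xX : η • (x * X) = 0 := by rw [← mul_smul_comm, X3, mul_zero]
  linear_combination (norm := module) -η • E6 - (3 * η) • E10 + xN + xX

end ab2

end Pool.Agent.BLie
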