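import Mathlib
import Pool.Agent.BLie.AB2

/-! The quotient of an algebra by the torsion of a submonoid of the scalar ring. -/

set_option linter.unusedSimpArgs false
set_option linter.unusedSectionVars false
set_option linter.unusedVariables false

namespace Pool.Agent.BLie

universe u

section tqs

variable {R : Type u} [CommRing R] (S : Submonoid R) (A : Type u) [NonUnitalNonAssocRing A]
  [Module R A] [IsScalarTower R A A] [SMulCommClass R A A]

/-- The torsion of `S`. -/
def torsS : Submodule R A where
  carrier := {z | ∃ r ∈ S, r • z = 0}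
  add_mem' := by
    rintro a b ⟨r, hr, ha⟩ ⟨s, hs, hb⟩
    refine ⟨r * s, S.mul_mem hr hs, ?_⟩
    have h1 : (r * s) • a = 0 := by rw [mul_comm, mul_smul, ha, smul_zero]
    have h2 : (r * s) • b = 0 := by rw [mul_smul, hb, smul_zero]
    rw [smul_add, h1, h2, add_zero]
  zero_mem' := ⟨1, S.one_mem, smul_zero _⟩
  smul_mem' := by
    rintro c a ⟨r, hr, ha⟩
    exact ⟨r, hr, by rw [smul_comm, ha, smul_zero]⟩

theorem torsS_mul_right {z : A} (hz : z ∈ torsS S A) (w : A) : z * w ∈ torsS S A := by
  obtain ⟨r, hr, h⟩ := hz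
  exact ⟨r, hr, by rw [← smul_mul_assoc, h, zero_mul]⟩

theorem torsS_mul_left {z : A} (hz : z ∈ torsS S A) (w : A) : w * z ∈ torsS S A := by
  obtain ⟨r, hr, h⟩ := hz
  exact ⟨r, hr, by rw [← mul_smul_comm, h, mul_zero]⟩

/-- The torsion quotient. -/
def TS : Type u := A ⧸ torsS S A

instance : AddCommGroup (TS S A) := inferInstanceAs (AddCommGroup (A ⧸ torsS S A))
instance : Module R (TS S A) := inferInstanceAs (Module R (A ⧸ torsS S A))

/-- The projection. -/
def ps : A →ₗ[R] TS S A := (torsS S A).mkQ

variable {A}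

theorem ps_surj : Function.Surjective (ps S A) := Submodule.mkQ_surjective _

theorem ps_eq_zero {z : A} : ps S A z = 0 ↔ ∃ r ∈ S, r • z = 0 :=
  Submodule.Quotient.mk_eq_zero (torsS S A)

/-- The multiplication with values in the quotient. -/
def smulA : A →ₗ[R] A →ₗ[R] TS S A :=
  LinearMap.mk₂ R (fun a b => ps S A (a * b))
    (fun a a' b => by rw [add_mul, map_add])
    (fun r a b => by rw [smul_mul_assoc, map_smul])
    (fun a b b' => by rw [mul_add, map_add])
    (fun r a b => by rw [mul_smul_comm, map_smul])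

/-- The multiplication, descended in the first variable. -/
def smulB : TS S A →ₗ[R] A →ₗ[R] TS S A :=
  (torsS S A).liftQ (smulA S) (by
    intro z hz
    rw [LinearMap.mem_ker]
    ext b
    exact (ps_eq_zero S).mpr (torsS_mul_right S A hz b))

/-- The multiplication on the quotient. -/
def smulC : TS S A →ₗ[R] TS S A →ₗ[R] TS S A :=
  LinearMap.flip ((torsS S A).liftQ (LinearMap.flip (smulB S)) (by
    intro z hz
    rw [LinearMap.mem_ker]
    ext b
    obtain ⟨b, rfl⟩ := ps_surj S b
    exact (ps_eq_zero S).mpr (torsS_mul_left S A hz b)))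

instance : NonUnitalNonAssocRing (TS S A) :=
  { (inferInstance : AddCommGroup (TS S A)) with
    mul := fun a b => smulC S a b
    left_distrib := fun a b c => by
      change smulC S a (b + c) = smulC S a b + smulC S a c
      rw [map_add]
    right_distrib := fun a b c => by
      change smulC S (a + b) c = smulC S a c + smulC S b c
      rw [map_add, LinearMap.add_apply]
    zero_mul := fun a => by
      change smulC S 0 a = 0
      rw [map_zero, LinearMap.zero_apply]
    mul_zero := fun a => by
      change smulC S a 0 = 0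
      rw [map_zero] }

theorem ps_mul (a b : A) : ps S A (a * b) = ps S A a * ps S A b := rfl

instance : IsScalarTower R (TS S A) (TS S A) where
  smul_assoc r a b := by
    change smulC S (r • a) b = r • smulC S a b
    rw [map_smul, LinearMap.smul_apply]

instance : SMulCommClass R (TS S A) (TS S A) where
  smul_comm r a b := by
    change r • smulC S a b = smulC S a (r • b)
    rw [map_smul]

theorem ps_J (a b c : A) : ps S A (J a b c) = J (ps S A a) (ps S A b) (ps S A c) := by
  unfold J
  rw [map_add, map_add, ps_mul, ps_mul, ps_mul, ps_mul, ps_mul, ps_mul]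

theorem TS.bl (h2 : (2 : R) ∈ S) (h : BL A) : BL (TS S A) where
  anti := fun a b => by
    obtain ⟨a, rfl⟩ := ps_surj S a
    obtain ⟨b, rfl⟩ := ps_surj S b
    rw [← ps_mul, ← ps_mul, h.anti a b, map_neg]
  lin := fun a b c d => by
    obtain ⟨a, rfl⟩ := ps_surj S a
    obtain ⟨b, rfl⟩ := ps_surj S b
    obtain ⟨c, rfl⟩ := ps_surj S c
    obtain ⟨d, rfl⟩ := ps_surj S d
    simp only [← ps_mul, ← ps_J, ← map_add]
    rw [h.lin, map_zero]
  two := fun a ha => by
    obtain ⟨a, rfl⟩ := ps_surj S a
    rw [← map_add, ps_eq_zero] at ha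
    obtain ⟨r, hr, h1⟩ := ha
    rw [ps_eq_zero]
    exact ⟨r * 2, S.mul_mem hr h2, by rw [mul_smul, two_smul, h1]⟩

theorem TS.can {r : R} (hr : r ∈ S) : Can (TS S A) r := by
  intro z hz
  obtain ⟨z, rfl⟩ := ps_surj S z
  rw [← map_smul, ps_eq_zero] at hz
  obtain ⟨s, hs, h1⟩ := hz
  rw [ps_eq_zero]
  exact ⟨s * r, S.mul_mem hs hr, by rw [mul_smul, h1]⟩

end tqs

end Pool.Agent.BLie
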