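import Mathlib
import Pool.Agent.BLie.AB

/-! The element `J(c, ua, t)`. -/

set_option linter.unusedSimpArgs false
set_option linter.unusedSectionVars false

namespace Pool.Agent.BLie

universe u v

section dat

variable {R : Type u} {F : Type v} [CommRing R] [Field F]
variable {e : R →+* F} {A : Type u} [NonUnitalNonAssocRing A] [Module R A]
  {x a c u : A} {α s υ : R} [IsScalarTower R A A] [SMulCommClass R A A]

theorem Dat.Juac (D : Dat e A x a c u α s υ) : J u a c = 0 :=
  (D.bl.AB_eig D.hu D.ha D.hc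
    (fun _ h => D.cn _ (-3) (by rw [map_sub, D.ea, D.eu]; norm_num) (by norm_num) h)
    (fun _ h => D.cn _ (-1) (by rw [D.eu]; norm_num) (by norm_num) h)
    (fun _ h => D.cn _ 2 (by rw [D.ea]; norm_num) (by norm_num) h)
    (fun _ h => D.cn _ 2 (by rw [map_sub, D.es, D.eu]; norm_num) (by norm_num) h)
    (fun _ h => D.cn _ (-1) (by rw [map_sub, D.es, D.ea]; norm_num) (by norm_num) h)).1

/-- `J(c, ua, t) = 0` for an eigenvector `t` of weight near `1`. -/
theorem Dat.near1 (D : Dat e A x a c u α s υ) {t : A} {n : R} (ht : x * t = n • t)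
    (en : e n = 1) : J c (u * a) t = 0 := by
  have h := D.bl
  have Gtu : J x u t = 0 := D.cn (υ - n) (-2) (by rw [map_sub, D.eu, en]; norm_num)
    (by norm_num) (h.G_eig D.hu ht)
  have Gta : J x a t = 0 := D.cn (α - n) 1 (by rw [map_sub, D.ea, en]; norm_num)
    (by norm_num) (h.G_eig D.ha ht)
  have hut : x * (u * t) = (υ + n) • (u * t) := h.eig_mul D.hu ht Gtu
  have hat : x * (a * t) = (α + n) • (a * t) := h.eig_mul D.ha ht Gta
  have Gutc : J x (u * t) c = 0 := D.cn (υ + n - s) (-1)
    (by rw [map_sub, map_add, D.eu, en, D.es]; norm_num) (by norm_num) (h.G_eig hut D.hc)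
  have Gatc : J x (a * t) c = 0 := D.cn (α + n - s) 2
    (by rw [map_sub, map_add, D.ea, en, D.es]; norm_num) (by norm_num) (h.G_eig hat D.hc)
  have hutc : x * ((u * t) * c) = (υ + n + s) • ((u * t) * c) := h.eig_mul hut D.hc Gutc
  have hatc : x * ((a * t) * c) = (α + n + s) • ((a * t) * c) := h.eig_mul hat D.hc Gatc
  have hu0t : x * ((c * u) * t) = (s + υ + n) • ((c * u) * t) :=
    h.eig_mul D.hu0 ht (D.ABcu t).2.2
  have hdt : x * ((c * a) * t) = (s + α + n) • ((c * a) * t) :=
    h.eig_mul D.hd ht (D.ABca t).2.2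
  -- the elements `U1 = J(u,t,c)` and `A1 = J(a,t,c)`
  obtain ⟨p1, p2⟩ := h.three D.hu ht c
  obtain ⟨q1, q2⟩ := h.three D.ha ht c
  have r1 : J x t (u * c) = 0 := by
    rw [h.anti u c, J_neg3, h.swap23, (D.ABcu t).2.2, neg_zero, neg_zero]
  have r2 : J x t (a * c) = 0 := by
    rw [h.anti a c, J_neg3, h.swap23, (D.ABca t).2.2, neg_zero, neg_zero]
  rw [D.hc, J_smul3, h.swap23 x c (u * t), Gutc, neg_zero, add_zero] at p2
  rw [D.hc, J_smul3, h.swap23 x c (a * t), Gatc, neg_zero, add_zero] at q2
  rw [r1, sub_zero] at p1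
  rw [r2, sub_zero] at q1
  have K1 : J x t c = (n + s) • (t * c) - x * (t * c) := by
    have := h.G_def ht D.hc
    linear_combination (norm := module) this
  have hU : x * J u t c = (3 * n) • J u t c - J x t c * u := by
    have h4 := h.gg_x4 x u t c
    rw [gg_x1, D.hu, J_smul1, Gtu, D.Gcu, p1, zero_mul, zero_mul] at h4
    linear_combination (norm := module) -(1 : ℤ) • h4
  have hA : x * J a t c = (3 * n) • J a t c - J x t c * a := by
    have h4 := h.gg_x4 x a t c
    rw [gg_x1, D.ha, J_smul1, Gta, D.Gca, q1, zero_mul, zero_mul] at h4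
    linear_combination (norm := module) -(1 : ℤ) • h4
  -- `J(x, a, u p) = 0` with `p = t c`
  have v1 : J x a (J u t c) = -J x a (u * (t * c)) := by
    have z1 : J x a ((u * t) * c) = 0 := D.cn (α - (υ + n + s)) 1
      (by simp only [map_sub, map_add, D.ea, D.eu, en, D.es]; norm_num) (by norm_num)
      (h.G_eig D.ha hutc)
    have z2 : J x a ((c * u) * t) = 0 := D.cn (α - (s + υ + n)) 1
      (by simp only [map_sub, map_add, D.ea, D.eu, en, D.es]; norm_num) (by norm_num)
      (h.G_eig D.ha hu0t)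
    have : J u t c = (u * t) * c + (t * c) * u + (c * u) * t := rfl
    rw [this, J_add3, J_add3, z1, z2, h.anti (t * c) u, J_neg3]
    abel
  have v2 : J x a (u * (t * c)) = 0 := by
    have w1 : J x a (x * J u t c) = α • J x a (J u t c) := by
      rw [← h.G_move, D.ha, J_smul2]
    rw [hU, J_sub3, J_smul3, K1, sub_mul, smul_mul_assoc, J_sub3, J_smul3,
      h.anti (t * c) u, h.anti (x * (t * c)) u, J_neg3, J_neg3, (D.ABua (t * c)).1, v1] at w1
    refine D.cn (2 * n - s - α + υ) (-2)
      (by simp only [map_sub, map_add, map_mul, map_ofNat, D.ea, D.eu, en, D.es]; norm_num)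
      (by norm_num) ?_
    linear_combination (norm := module) -(1 : ℤ) • w1
  -- `J(x, u, a p) = 0`
  have v3 : J x u (J a t c) = -J x u (a * (t * c)) := by
    have z1 : J x u ((a * t) * c) = 0 := (h.AB_eig D.hu hat D.hc
      (fun _ h => D.cn _ (-4) (by simp only [map_sub, map_add, D.ea, D.eu, en]; norm_num)
        (by norm_num) h)
      (fun _ h => D.cn _ (-1) (by rw [D.eu]; norm_num) (by norm_num) h)
      (fun _ h => D.cn _ 3 (by simp only [map_add, D.ea, en]; norm_num) (by norm_num) h)
      (fun _ h => D.cn _ 2 (by simp only [map_sub, D.eu, D.es]; norm_num) (by norm_num) h)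
      (fun _ h => D.cn _ (-2) (by simp only [map_sub, map_add, D.ea, D.es, en]; norm_num)
        (by norm_num) h)).2.2
    have z2 : J x u ((c * a) * t) = 0 := (h.AB_eig D.hu D.hd ht
      (fun _ h => D.cn _ (-4) (by simp only [map_sub, map_add, D.ea, D.eu, D.es]; norm_num)
        (by norm_num) h)
      (fun _ h => D.cn _ (-1) (by rw [D.eu]; norm_num) (by norm_num) h)
      (fun _ h => D.cn _ 3 (by simp only [map_add, D.ea, D.es]; norm_num) (by norm_num) h)
      (fun _ h => D.cn _ 2 (by simp only [map_sub, D.eu, en]; norm_num) (by norm_num) h)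
      (fun _ h => D.cn _ (-2) (by simp only [map_sub, map_add, D.ea, D.es, en]; norm_num)
        (by norm_num) h)).2.2
    have : J a t c = (a * t) * c + (t * c) * a + (c * a) * t := rfl
    rw [this, J_add3, J_add3, z1, z2, h.anti (t * c) a, J_neg3]
    abel
  have v4 : J x u (a * (t * c)) = 0 := by
    have w1 : J x u (x * J a t c) = υ • J x u (J a t c) := by
      rw [← h.G_move, D.hu, J_smul2]
    rw [hA, J_sub3, J_smul3, K1, sub_mul, smul_mul_assoc, J_sub3, J_smul3,
      h.anti (t * c) a, h.anti (x * (t * c)) a, J_neg3, J_neg3, (D.ABua (t * c)).2.1, v3] at w1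
    refine D.cn (2 * n - s - υ + α) 4
      (by simp only [map_sub, map_add, map_mul, map_ofNat, D.ea, D.eu, en, D.es]; norm_num)
      (by norm_num) ?_
    linear_combination (norm := module) -(1 : ℤ) • w1
  obtain ⟨t1, t2⟩ := h.three D.hu D.ha (t * c)
  obtain ⟨t3, t4⟩ := h.three D.hu D.ha (x * (t * c))
  have g1 : J x (t * c) (u * a) = 0 := by rw [h.swap23, (D.ABua _).2.2, neg_zero]
  have g2 : J x (x * (t * c)) (u * a) = 0 := by rw [h.swap23, (D.ABua _).2.2, neg_zero]
  have j0 : J u a (t * c) = 0 := by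
    refine D.cn (υ - α) (-3) (by rw [map_sub, D.ea, D.eu]; norm_num) (by norm_num) ?_
    rw [v2, v4] at t1
    linear_combination (norm := module) t1
  have j1 : J u a (x * (t * c)) = 0 := by
    rw [v4, j0, g1, smul_zero, add_zero, add_zero] at t2
    exact t2.symm
  have j2 : J u a (x * (x * (t * c))) = 0 := by
    rw [(D.ABua (t * c)).2.1, v4, j1, g2, smul_zero, smul_zero, add_zero, add_zero] at t4
    exact t4.symm
  have m1 := h.gg_x4 x u a (t * c)
  have m2 := h.gg_x4 x u a (x * (t * c))
  rw [h.gg_x3, J_cyc (x * (t * c)) u a, j1, g1, j0, D.Gua] at m1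
  rw [h.gg_x3, J_cyc (x * (x * (t * c))) u a, j2, g2, j1, D.Gua] at m2
  have P1 : J x u (t * c) = (n - υ) • J u t c := by
    linear_combination (norm := module) p1
  have Q1 : J x a (t * c) = (n - α) • J a t c := by
    linear_combination (norm := module) q1
  have P2 : J x (t * c) u = -((n - υ) • J u t c) := by rw [h.swap23, P1]
  have Q2 : J x a (x * (t * c)) = α • ((n - α) • J a t c) := by
    rw [← h.G_move, D.ha, J_smul2, Q1]
  have P3 : J x (x * (t * c)) u = -(υ • ((n - υ) • J u t c)) := by
    rw [h.G_move, D.hu, J_smul3, P2, smul_neg]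
  rw [Q1, P2] at m1
  rw [Q2, P3] at m2
  simp only [smul_mul_assoc, neg_mul, mul_zero, zero_mul, add_zero, zero_add] at m1 m2
  have U0 : J u t c * a = 0 := by
    refine D.cn ((υ - α) * (n - υ)) (-6)
      (by simp only [map_sub, map_mul, D.ea, D.eu, en]; norm_num) (by norm_num) ?_
    linear_combination (norm := module) m2 - α • m1
  have A0 : J a t c * u = 0 := by
    refine D.cn ((υ - α) * (n - α)) 3
      (by simp only [map_sub, map_mul, D.ea, D.eu, en]; norm_num) (by norm_num) ?_
    linear_combination (norm := module) m2 - υ • m1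
  have Juat : J u a t = 0 := (h.AB_eig D.hu D.ha ht
    (fun _ h => D.cn _ (-3) (by rw [map_sub, D.ea, D.eu]; norm_num) (by norm_num) h)
    (fun _ h => D.cn _ (-1) (by rw [D.eu]; norm_num) (by norm_num) h)
    (fun _ h => D.cn _ 2 (by rw [D.ea]; norm_num) (by norm_num) h)
    (fun _ h => D.cn _ 2 (by rw [map_sub, en, D.eu]; norm_num) (by norm_num) h)
    (fun _ h => D.cn _ (-1) (by rw [map_sub, en, D.ea]; norm_num) (by norm_num) h)).1
  have fin := h.three_gg u a t c
  rw [U0, A0, D.Juac, Juat] at fin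
  simp only [zero_mul, sub_zero, add_zero] at fin
  have fin2 := D.cni 3 (by norm_num) fin
  have fin3 : gg u a t c = J (u * a) t c + J (t * c) u a := rfl
  rw [fin3, J_cyc (t * c) u a, j0, add_zero] at fin2
  rw [J_cyc, fin2]

/-- First facts on `J(c, ua, v)` for an eigenvector `v` of weight near `2`. -/
theorem Dat.near2a (D : Dat e A x a c u α s υ) {v : A} {m : R} (hv : x * v = m • v)
    (em : e m = 2) :
    (υ + α) • J c (u * a) v = s • J c (u * a) v ∧
    m • J c (u * a) v = (s + (υ + α)) • J c (u * a) v ∧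
    x * J c (u * a) v = (3 * (υ + α)) • J c (u * a) v ∧
    J x (c * (u * a)) v = (m - (υ + α)) • J c (u * a) v := by
  have h := D.bl
  obtain ⟨a1, a2⟩ := h.three D.hc D.hk v
  have Gk : ∀ y, J x (u * a) y = 0 := fun y => (D.ABua y).2.2
  have hkv : x * ((u * a) * v) = (υ + α + m) • ((u * a) * v) := h.eig_mul D.hk hv (Gk v)
  have z1 : J x c ((u * a) * v) = 0 := D.cn (s - (υ + α + m)) (-2)
    (by simp only [map_sub, map_add, D.ea, D.eu, em, D.es]; norm_num) (by norm_num)
    (h.G_eig D.hc hkv)
  rw [Gk, z1, add_zero, sub_zero] at a1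
  rw [z1, add_zero, hv, J_smul3] at a2
  have b1 : J x v (c * (u * a)) = ((υ + α) - m) • J c (u * a) v := by
    rw [a1] at a2
    linear_combination (norm := module) -(1 : ℤ) • a2
  have b2 : (m - (s + (υ + α))) • J c (u * a) v = 0 := by
    have := h.G_eig hv D.hl
    rw [b1, ← mul_smul] at this
    exact D.cn ((υ + α) - m) (-1)
      (by simp only [map_sub, map_add, D.ea, D.eu, em, D.es]; norm_num) (by norm_num)
      (by rw [← mul_smul, mul_comm]; exact this)
  have Gvc : J x v c = 0 := D.cn (m - s) 1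
    (by simp only [map_sub, em, D.es]; norm_num) (by norm_num) (h.G_eig hv D.hc)
  have b3 := h.gg_x4 x c (u * a) v
  rw [gg_x1, D.hc, J_smul1, z1, Gk, Gvc, D.Gck] at b3
  simp only [zero_mul, add_zero] at b3
  refine ⟨a1.symm, sub_eq_zero.mp (by rw [← sub_smul]; exact b2), ?_, ?_⟩
  · rw [a1] at b3
    linear_combination (norm := module) -(1 : ℤ) • b3
  · rw [h.swap23, b1]
    module

theorem Dat.ABud (D : Dat e A x a c u α s υ) (y : A) : J x (u * (c * a)) y = 0 :=
  (D.bl.AB D.hu D.hd
    (fun _ h => D.cn _ (-4) (by simp only [map_sub, map_add, D.ea, D.eu, D.es]; norm_num)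
      (by norm_num) h)
    (fun _ h => D.cn _ (-1) (by rw [D.eu]; norm_num) (by norm_num) h)
    (fun _ h => D.cn _ 3 (by simp only [map_add, D.ea, D.es]; norm_num)
      (by norm_num) h) y).2.2

theorem Dat.Jcua (D : Dat e A x a c u α s υ) : J c u a = 0 := by
  rw [J_cyc, D.Juac]

theorem Dat.l_eq (D : Dat e A x a c u α s υ) : c * (u * a) = (c * u) * a + u * (c * a) := by
  have h := D.Jcua
  unfold J at h
  rw [D.bl.anti (u * a) c, D.bl.anti a c, neg_mul, D.bl.anti (c * a) u, neg_neg] at h
  linear_combination (norm := module) -(1 : ℤ) • h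

theorem Dat.u0v (D : Dat e A x a c u α s υ) {v : A} (hv : J c u v = 0) :
    (c * u) * v = c * (u * v) - u * (c * v) := by
  unfold J at hv
  rw [D.bl.anti (u * v) c, D.bl.anti v c, neg_mul, D.bl.anti (c * v) u, neg_neg] at hv
  linear_combination (norm := module) hv

theorem Dat.ABcu_eig (D : Dat e A x a c u α s υ) {v : A} {m : R} (hv : x * v = m • v)
    (em : e m = 2) : J c u v = 0 ∧ J x u (c * v) = 0 ∧ J x c (u * v) = 0 :=
  D.bl.AB_eig D.hc D.hu hv
    (fun _ h => D.cn _ 2 (by rw [map_sub, D.es, D.eu]; norm_num) (by norm_num) h)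
    (fun _ h => D.cn _ 1 (by rw [D.es]; norm_num) (by norm_num) h)
    (fun _ h => D.cn _ (-1) (by rw [D.eu]; norm_num) (by norm_num) h)
    (fun _ h => D.cn _ 1 (by rw [map_sub, D.es, em]; norm_num) (by norm_num) h)
    (fun _ h => D.cn _ 3 (by rw [map_sub, D.eu, em]; norm_num) (by norm_num) h)

/-- Second facts on `J(c, ua, v)` for an eigenvector `v` of weight near `2`. -/
theorem Dat.near2b (D : Dat e A x a c u α s υ) {v : A} {m : R} (hv : x * v = m • v)
    (em : e m = 2) :
    (α - 2 * s) • J c a (u * v) = 0 ∧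
    J x a ((c * u) * v) = (α - s) • J c a (u * v) ∧
    J x a ((c * u) * v) = (α - (s + υ)) • J (c * u) a v ∧
    (m - (υ + α)) • J c (u * a) v = (m - (s + υ)) • J (c * u) a v := by
  have h := D.bl
  obtain ⟨j1, j2, j3⟩ := D.ABcu_eig hv em
  have Gcv : J x c v = 0 := D.cn (s - m) (-1) (by rw [map_sub, D.es, em]; norm_num)
    (by norm_num) (h.G_eig D.hc hv)
  have Guv : J x u v = 0 := D.cn (υ - m) (-3) (by rw [map_sub, D.eu, em]; norm_num)
    (by norm_num) (h.G_eig D.hu hv)
  have hcv : x * (c * v) = (s + m) • (c * v) := h.eig_mul D.hc hv Gcv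
  have huv : x * (u * v) = (υ + m) • (u * v) := h.eig_mul D.hu hv Guv
  obtain ⟨k1, k2, k3⟩ := h.AB_eig D.hu D.ha hcv
    (fun _ h => D.cn _ (-3) (by rw [map_sub, D.ea, D.eu]; norm_num) (by norm_num) h)
    (fun _ h => D.cn _ (-1) (by rw [D.eu]; norm_num) (by norm_num) h)
    (fun _ h => D.cn _ 2 (by rw [D.ea]; norm_num) (by norm_num) h)
    (fun _ h => D.cn _ 4 (by simp only [map_sub, map_add, D.eu, D.es, em]; norm_num)
      (by norm_num) h)
    (fun _ h => D.cn _ 1 (by simp only [map_sub, map_add, D.ea, D.es, em]; norm_num)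
      (by norm_num) h)
  have l2 := (D.ABca (u * v)).2.1
  rw [huv, mul_smul_comm, J_smul3] at l2
  have l3 : J x c (a * (u * v)) = 0 := by
    refine D.cn (υ + m - α) (-1)
      (by simp only [map_sub, map_add, D.ea, D.eu, em]; norm_num) (by norm_num) ?_
    linear_combination (norm := module) l2
  obtain ⟨n1, n2⟩ := h.three D.hc D.ha (u * v)
  have Gd : ∀ y, J x y (c * a) = 0 := fun y => by rw [h.swap23, (D.ABca y).2.2, neg_zero]
  rw [l3, add_zero] at n1
  rw [l3, add_zero, Gd, add_zero, huv, J_smul3] at n2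
  have n3 : J x a (c * (u * v)) = (α - s) • J c a (u * v) := by
    linear_combination (norm := module) n1
  have hcr : x * (c * (u * v)) = (s + (υ + m)) • (c * (u * v)) := h.eig_mul D.hc huv j3
  have n4 : (α - 2 * s) • J c a (u * v) = 0 := by
    have := h.G_eig D.ha hcr
    rw [n3, ← mul_smul] at this
    refine D.cn (α - s) 1 (by simp only [map_sub, D.ea, D.es]; norm_num) (by norm_num) ?_
    linear_combination (norm := module) this - (α - s) • n2
  have w1 : J x a ((c * u) * v) = (α - s) • J c a (u * v) := by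
    rw [D.u0v j1, J_sub3, n3, k2, sub_zero]
  obtain ⟨o1, o2⟩ := h.three D.hu0 D.ha v
  have Gu0 : ∀ y, J x (c * u) y = 0 := fun y => (D.ABcu y).2.2
  rw [Gu0, add_zero] at o1 o2
  rw [hv, J_smul3] at o2
  refine ⟨n4, w1, ?_, ?_⟩
  · linear_combination (norm := module) o1
  · have q1 := (D.near2a hv em).2.2.2
    rw [D.l_eq, J_add2, D.ABud, add_zero, h.swap23] at q1
    linear_combination (norm := module) -(1 : ℤ) • q1 + o2

/-- The weights of `J(c, ua, v)`. -/
theorem Dat.near2 (D : Dat e A x a c u α s υ) {v : A} {m : R} (hv : x * v = m • v)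
    (em : e m = 2) :
    α • J c (u * a) v = (2 * s) • J c (u * a) v ∧
    υ • J c (u * a) v = (-s) • J c (u * a) v ∧
    m • J c (u * a) v = (2 * s) • J c (u * a) v ∧
    x * J c (u * a) v = (3 * s) • J c (u * a) v ∧
    J x (c * (u * a)) v = s • J c (u * a) v ∧
    (2 : ℕ) • J (c * u) a v = J c (u * a) v ∧
    J c a (u * v) = J c (u * a) v := by
  have h := D.bl
  obtain ⟨a1, a2, a3, a4⟩ := D.near2a hv em
  obtain ⟨b1, b2, b3, b4⟩ := D.near2b hv em
  have F1 : (α - 2 * s) • J (c * u) a v = 0 := by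
    refine D.cn (α - (s + υ)) 2
      (by simp only [map_sub, map_add, D.ea, D.es, D.eu]; norm_num) (by norm_num) ?_
    have : (α - (s + υ)) • J (c * u) a v = (α - s) • J c a (u * v) := by rw [← b3, b2]
    linear_combination (norm := module) (α - 2 * s) • this + (α - s) • b1
  have T1 : (α - 2 * s) • J c (u * a) v = 0 := by
    refine D.cn (m - (υ + α)) 1
      (by simp only [map_sub, map_add, D.ea, em, D.eu]; norm_num) (by norm_num) ?_
    linear_combination (norm := module) (α - 2 * s) • b4 + (m - (s + υ)) • F1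
  have T2 : α • J c (u * a) v = (2 * s) • J c (u * a) v := by
    linear_combination (norm := module) T1
  have T3 : υ • J c (u * a) v = (-s) • J c (u * a) v := by
    linear_combination (norm := module) a1 - T1
  have T4 : m • J c (u * a) v = (2 * s) • J c (u * a) v := by
    linear_combination (norm := module) a2 + a1
  have b5 : s • J c (u * a) v = (m - (s + υ)) • J (c * u) a v := by
    linear_combination (norm := module) b4 - T4 + a1
  have F2 : (m - 2 * s) • J (c * u) a v = 0 := by
    refine D.cn (m - (s + υ)) 2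
      (by simp only [map_sub, map_add, em, D.es, D.eu]; norm_num) (by norm_num) ?_
    linear_combination (norm := module) (-(m - 2 * s)) • b5 + s • T4
  have F3 : (υ + s) • J (c * u) a v = 0 := by
    refine D.cn (m - (s + υ)) 2
      (by simp only [map_sub, map_add, em, D.es, D.eu]; norm_num) (by norm_num) ?_
    linear_combination (norm := module) (-(υ + s)) • b5 + s • T3
  have F4 : (2 : ℕ) • J (c * u) a v = J c (u * a) v := by
    rw [← sub_eq_zero]
    refine D.cn s 1 (by simp only [D.es]; norm_num) (by norm_num) ?_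
    linear_combination (norm := module) -(1 : ℤ) • b5 - F2 + F3
  refine ⟨T2, T3, T4, ?_, ?_, F4, ?_⟩
  · rw [a3]
    linear_combination (norm := module) (3 : ℤ) • a1
  · rw [a4]
    linear_combination (norm := module) T4 - a1
  · rw [← sub_eq_zero]
    refine D.cn s 1 (by simp only [D.es]; norm_num) (by norm_num) ?_
    have : (α - (s + υ)) • J (c * u) a v = (α - s) • J c a (u * v) := by rw [← b3, b2]
    linear_combination (norm := module) -(1 : ℤ) • this - b1 + F1 - F3 + s • F4

end dat

end Pool.Agent.BLie
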