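import Mathlib
import Pool.Agent.BLie.LocC

/-! Local to global for the element `J(c, ua, q)`. -/

set_option linter.unusedSimpArgs false
set_option linter.unusedSectionVars false

namespace Pool.Agent.BLie

open Polynomial

universe u v

section two

variable {R S : Type*} {A : Type*} [CommRing R] [CommRing S] [Algebra R S]
  [NonUnitalNonAssocRing A] [Module R A] [Module S A] [IsScalarTower R S A]
  [IsScalarTower R A A] [SMulCommClass R A A] [IsScalarTower S A A] [SMulCommClass S A A]

theorem aS (r : R) (z : A) : algebraMap R S r • z = r • z := algebraMap_smul S r z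

end two

section ext

variable {R : Type u} {A : Type u} [CommRing R] [NonUnitalNonAssocRing A] [Module R A]
  [IsScalarTower R A A] [SMulCommClass R A A]

instance : IsScalarTower R R[X] (Ext R A) where
  smul_assoc r p w := by
    rw [← Ext.C_smul, ← mul_smul, smul_eq_C_mul]

end ext

section datS

variable {R : Type u} {S : Type*} {F : Type v} [CommRing R] [CommRing S] [Algebra R S] [Field F]
variable {e : R →+* F} {A : Type u} [NonUnitalNonAssocRing A] [Module R A] [Module S A]
  {x a c u : A} {α s υ : R} [IsScalarTower R A A] [SMulCommClass R A A]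
  [IsScalarTower R S A] [IsScalarTower S A A] [SMulCommClass S A A]

theorem Dat.CD0 (D : Dat e A x a c u α s υ) {t : A} {n : S} (ht : x * t = n • t) :
    ((n - algebraMap R S (s + (υ + α))) * (n - algebraMap R S (υ + α))) • J c (u * a) t = 0 := by
  have h := D.bl
  have ht' := ht
  obtain ⟨a1, a2⟩ := h.three D.hc D.hk t
  have Gk : ∀ y, J x (u * a) y = 0 := fun y => (D.ABua y).2.2
  have hl := D.hl
  rw [← aS (S := S)] at hl
  have b := h.G_eig ht hl
  rw [Gk, sub_zero] at a1
  rw [ht, J_smul3] at a2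
  have b1 : J x t (c * (u * a)) = (υ + α) • J c (u * a) t - n • J c (u * a) t := by
    rw [a1] at a2
    linear_combination (norm := module) -(1 : ℤ) • a2
  rw [b1] at b
  simp only [← aS (S := S) (A := A) (υ + α)] at b
  linear_combination (norm := module) -(1 : ℤ) • b

end datS

section lift

variable {R : Type u} {F : Type v} [CommRing R] [Field F]
variable {e : R →+* F} {A : Type u} [NonUnitalNonAssocRing A] [Module R A]
  {x a c u : A} {α s υ : R} [IsScalarTower R A A] [SMulCommClass R A A]

theorem io_eig (h : BL A) {x a : A} {α : R} (ha : x * a = α • a) :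
    io R x * io R a = α • io R a := by
  rw [io_mul R h, ha, io_smul]

/-- Constants in `Ext R A`. -/
theorem Dat.ext (D : Dat e A x a c u α s υ) :
    Dat e (Ext R A) (io R x) (io R a) (io R c) (io R u) α s υ where
  toLoc := D.toLoc.ext_loc
  ha := io_eig D.bl D.ha
  hc := io_eig D.bl D.hc
  hu := io_eig D.bl D.hu
  ea := D.ea
  es := D.es
  eu := D.eu
  nz := D.nz

theorem Dat.two' (D : Dat e A x a c u α s υ) : (2 : F) ≠ 0 := by
  have := D.nz 2 (by norm_num)
  exact_mod_cast this

theorem pr_eig (n : F) (h : BL A) {x a : A} {α : R} (ha : x * a = α • a) :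
    pr (pt e n) (Ext R A) (io R x) * pr (pt e n) (Ext R A) (io R a) =
      (C α : R[X]) • pr (pt e n) (Ext R A) (io R a) := by
  rw [← pr_mul, io_eig h ha, ← Ext.C_smul, map_smul]

/-- Constants in the local algebra at a point. -/
theorem Dat.tq (D : Dat e A x a c u α s υ) (n : F) :
    Dat (pt e n) (TQ (pt e n) (Ext R A)) (pr _ _ (io R x)) (pr _ _ (io R a)) (pr _ _ (io R c))
      (pr _ _ (io R u)) (C α) (C s) (C υ) where
  toLoc := TQ.loc (pt e n) D.two' (Ext.bl D.bl)
  ha := pr_eig n D.bl D.ha
  hc := pr_eig n D.bl D.hc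
  hu := pr_eig n D.bl D.hu
  ea := by rw [pt_C, D.ea]
  es := by rw [pt_C, D.es]
  eu := by rw [pt_C, D.eu]
  nz := D.nz

theorem tq_letter (n : F) (h : BL A) (x q : A) :
    pr (pt e n) (Ext R A) (io R x) * pr (pt e n) (Ext R A) (letter R x q) =
      (X : R[X]) • pr (pt e n) (Ext R A) (letter R x q) := by
  rw [← pr_mul, x_letter R h, map_smul]

theorem removal_eq (e : R →+* F) (H : Loc e A) (ρ : R) (W W' : Ext R A)
    (h1 : (X - C ρ : R[X]) • W = 0) (h1' : (X - C ρ : R[X]) • W' = 0)
    (h2 : pr (pt e (e ρ)) (Ext R A) W = pr (pt e (e ρ)) (Ext R A) W') : W = W' := by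
  rw [← sub_eq_zero]
  exact removal e H ρ _ (by rw [smul_sub, h1, h1', sub_zero]) (by rw [map_sub, h2, sub_self])

/-- The element `J(c, ua, q)` for arbitrary `q`. -/
theorem Dat.CD (D : Dat e A x a c u α s υ) (q : A) :
    J c (u * a) (x * q) = (s + (υ + α)) • J c (u * a) q ∧
    (υ + α) • J c (u * a) q = s • J c (u * a) q ∧
    α • J c (u * a) q = (2 * s) • J c (u * a) q ∧
    υ • J c (u * a) q = (-s) • J c (u * a) q ∧
    x * J c (u * a) q = (3 * s) • J c (u * a) q ∧
    J x (c * (u * a)) q = s • J c (u * a) q := by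
  have h := D.bl
  have hx := x_letter R h x q
  set t := letter R x q with ht
  set T := J (io R c) (io R u * io R a) t with hT
  have e0 : ev R 0 T = J c (u * a) q := by
    rw [hT, io_mul R h, ev_J3 R h, ht, ev_letter]; rfl
  have e1 : ev R 1 T = J c (u * a) (x * q) := by
    rw [hT, io_mul R h, ev_J3 R h, ht, ev_letter]; rfl
  have h0 := D.ext.CD0 (S := R[X]) hx
  simp only [algebraMap_eq] at h0
  have h1 : (X - C (s + (υ + α)) : R[X]) • T = 0 := by
    refine removal' e D.toLoc (υ + α) _ T h0 ?_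
    rw [hT, pr_J, pr_mul]
    refine (D.tq _).near1 (tq_letter _ h x q) ?_
    rw [pt_X, map_add, D.ea, D.eu]; norm_num
  have h2 := (D.tq (e (s + (υ + α)))).near2 (tq_letter _ h x q) (by
    rw [pt_X, map_add, map_add, D.ea, D.eu, D.es]; norm_num)
  rw [← pr_mul, ← pr_J, ← hT] at h2
  obtain ⟨c1, c2, c3, c4, c5, -, -⟩ := h2
  have k2 : (2 : R[X]) * C s = C (2 * s) := by rw [map_mul, map_ofNat]
  have k3 : (3 : R[X]) * C s = C (3 * s) := by rw [map_mul, map_ofNat]
  have k4 : -C s = (C (-s) : R[X]) := by rw [map_neg]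
  rw [k2] at c1 c3
  rw [k3] at c4
  rw [k4] at c2
  have hs : ∀ r : R[X], (X - C (s + (υ + α)) : R[X]) • r • T = 0 := fun r => by
    rw [smul_comm, h1, smul_zero]
  have hm : ∀ w : Ext R A, (X - C (s + (υ + α)) : R[X]) • (w * T) = 0 := fun w => by
    rw [← mul_smul_comm, h1, mul_zero]
  have d1 : (C α : R[X]) • T = (C (2 * s) : R[X]) • T :=
    removal_eq e D.toLoc _ _ _ (hs _) (hs _) (by rw [map_smul, map_smul]; exact c1)
  have d2 : (C υ : R[X]) • T = (C (-s) : R[X]) • T :=
    removal_eq e D.toLoc _ _ _ (hs _) (hs _) (by rw [map_smul, map_smul]; exact c2)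
  have d4 : io R x * T = (C (3 * s) : R[X]) • T :=
    removal_eq e D.toLoc _ _ _ (hm _) (hs _) (by rw [pr_mul, map_smul]; exact c4)
  -- the relation for `J x l t`
  have d5 : J (io R x) (io R c * (io R u * io R a)) t = (C s : R[X]) • T := by
    obtain ⟨a1, a2⟩ := (Ext.bl h).three D.ext.hc D.ext.hk t
    rw [(D.ext.ABua _).2.2, sub_zero] at a1
    rw [hx, J_smul3, a1, (Ext.bl h).swap23 _ t, ← hT] at a2
    simp only [← Ext.C_smul] at a2
    have h1' := h1
    simp only [map_add] at h1' a2
    linear_combination (norm := module) h1' + a2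
  have f1 := congrArg (ev R 0) d1
  have f2 := congrArg (ev R 0) d2
  have f4 := congrArg (ev R 0) d4
  have f5 := congrArg (ev R 0) d5
  have f0 := congrArg (ev R 0) h1
  rw [sub_smul, ev_sub, ev_X, ev_C, zero_add, e0, e1, ev_zero, sub_eq_zero] at f0
  rw [ev_C, ev_C, e0] at f1 f2
  rw [ev_io_mul, ev_C, e0] at f4
  rw [io_mul R h, io_mul R h, ev_J3 R h, ev_C, e0, ht, ev_letter] at f5
  refine ⟨f0, ?_, f1, f2, f4, f5⟩
  linear_combination (norm := module) f1 + f2

end lift

end Pool.Agent.BLie
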