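import Mathlib
import Pool.Agent.BLie.LocD

/-! Products with `E = J(c, ua, v)`: the polynomial relations for a generic eigenvector. -/

set_option linter.unusedSimpArgs false
set_option linter.unusedSectionVars false

namespace Pool.Agent.BLie

open Polynomial

universe u v

/-- A local algebra together with generic eigenvectors of weights 2, 1, -1, 2. -/
structure Dat2 {R : Type u} {F : Type v} [CommRing R] [Field F]
    (e : R →+* F) (A : Type u) [NonUnitalNonAssocRing A] [Module R A]
    (x a c u v : A) (α s υ m : R) : Prop extends Dat e A x a c u α s υ where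
  hv : x * v = m • v
  em : e m = 2

section lift

variable {R : Type u} {F : Type v} [CommRing R] [Field F]
variable {e : R →+* F} {A : Type u} [NonUnitalNonAssocRing A] [Module R A]
  {x a c u v : A} {α s υ m : R} [IsScalarTower R A A] [SMulCommClass R A A]

theorem Dat2.ext (D : Dat2 e A x a c u v α s υ m) :
    Dat2 e (Ext R A) (io R x) (io R a) (io R c) (io R u) (io R v) α s υ m where
  toDat := D.toDat.ext
  hv := io_eig D.bl D.hv
  em := D.em

theorem Dat2.tq (D : Dat2 e A x a c u v α s υ m) (n : F) :
    Dat2 (pt e n) (TQ (pt e n) (Ext R A)) (pr _ _ (io R x)) (pr _ _ (io R a)) (pr _ _ (io R c))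
      (pr _ _ (io R u)) (pr _ _ (io R v)) (C α) (C s) (C υ) (C m) where
  toDat := D.toDat.tq n
  hv := pr_eig n D.bl D.hv
  em := by rw [pt_C, D.em]

end lift

section datS

variable {R : Type u} {S : Type*} {F : Type v} [CommRing R] [CommRing S] [Algebra R S] [Field F]
variable {e : R →+* F} {A : Type u} [NonUnitalNonAssocRing A] [Module R A] [Module S A]
  {x a c u v : A} {α s υ m : R} [IsScalarTower R A A] [SMulCommClass R A A]
  [IsScalarTower R S A] [IsScalarTower S A A] [SMulCommClass S A A]

/-- Facts on `E`, with scalars in `S`. -/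
theorem Dat2.Efacts (D : Dat2 e A x a c u v α s υ m) :
    (algebraMap R S m) • J c (u * a) v = (2 * algebraMap R S s) • J c (u * a) v ∧
    (algebraMap R S (s + (υ + α))) • J c (u * a) v = (2 * algebraMap R S s) • J c (u * a) v ∧
    x * J c (u * a) v = (3 * algebraMap R S s) • J c (u * a) v ∧
    J x (c * (u * a)) v = (algebraMap R S s) • J c (u * a) v := by
  obtain ⟨a1, a2, a3, a4, a5, -, -⟩ := D.near2 D.hv D.em
  simp only [← aS (R := R) (S := S)] at a1 a2 a3 a4 a5
  simp only [map_mul, map_neg, map_ofNat] at a1 a2 a3 a4 a5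
  refine ⟨a3, ?_, a4, a5⟩
  simp only [map_add]
  linear_combination (norm := module) a1 + a2

theorem Dat2.canS (D : Dat2 e A x a c u v α s υ m) (r : R) (N : ℤ) (h : e r = (N : F))
    (hN : N ∣ 6 ^ 4) {z : A} (hz : (algebraMap R S r) • z = 0) : z = 0 :=
  D.cn r N h hN (by rw [← aS (S := S)]; exact hz)

theorem Dat2.T0a (D : Dat2 e A x a c u v α s υ m) {t : A} {n : S} (ht : x * t = n • t)
    (h1 : J x t v = 0) (h2 : J c (u * a) t = 0) (h3 : J x t (v * (c * (u * a))) = 0) :
    (n * (n - 2 * algebraMap R S s)) • (J c (u * a) v * t) = 0 := by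
  have h := D.bl
  obtain ⟨e1, e2, e3, e4⟩ := D.Efacts (S := S)
  have hl := D.hl
  have hv := D.hv
  rw [← aS (S := S)] at hl hv
  have clt := (D.CD t).2.2.2.2.2
  rw [h2, smul_zero] at clt
  set E := J c (u * a) v with hE
  set l := c * (u * a) with hl'
  have Glv : J x v l = -(algebraMap R S s • E) := by rw [h.swap23, e4]
  have g1 := gg_x1 x v l t
  have g3 := h.gg_x3 x v l t
  have g4 := h.gg_x4 x v l t
  rw [hv, J_smul1] at g1
  rw [ht, J_smul1, h3, add_zero, J_cyc t v l] at g3
  rw [clt, h1, Glv, g3] at g4
  rw [g3] at g1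
  have hlt : x * (l * t) = (algebraMap R S (s + (υ + α)) + n) • (l * t) := h.eig_mul hl ht clt
  have q1 := h.G_eig hv hlt
  have q2 : J x v (l * t) = (n - algebraMap R S m) • J v l t := by
    linear_combination (norm := module) -(1 : ℤ) • g1
  rw [q2, ← mul_smul] at q1
  have q3 : x * ((algebraMap R S m - (algebraMap R S (s + (υ + α)) + n)) *
      (n - algebraMap R S m)) • J v l t = 0 := by rw [q1, mul_zero]
  rw [mul_smul_comm] at q3
  have q4 : algebraMap R S s • (((algebraMap R S m - (algebraMap R S (s + (υ + α)) + n)) *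
      (n - algebraMap R S m)) • (E * t)) = 0 := by
    simp only [zero_mul, add_zero, neg_mul, smul_mul_assoc] at g4
    have := congrArg (fun z => ((algebraMap R S m - (algebraMap R S (s + (υ + α)) + n)) *
      (n - algebraMap R S m)) • z) g4
    beta_reduce at this
    linear_combination (norm := module) this + q3 - (3 * n) • q1
  have q5 := D.canS (S := S) s 1 (by rw [D.es]; norm_num) (by norm_num) q4
  have r1 : algebraMap R S m • (E * t) = (2 * algebraMap R S s) • (E * t) := by
    rw [← smul_mul_assoc, e1, smul_mul_assoc]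
  have r2 : algebraMap R S (s + (υ + α)) • (E * t) = (2 * algebraMap R S s) • (E * t) := by
    rw [← smul_mul_assoc, e2, smul_mul_assoc]
  linear_combination (norm := module) -(1 : ℤ) • q5 + n • r1
    - (n - algebraMap R S m) • r2 + (n - algebraMap R S m) • r1

/-- The polynomial relation for `E t`. -/
theorem Dat2.T0W (D : Dat2 e A x a c u v α s υ m) {t : A} {n : S} (ht : x * t = n • t) :
    (n * (n - 2 * algebraMap R S s) * (n - 2 * algebraMap R S s) * (n - 2 * algebraMap R S s) *
      (n - 3 * algebraMap R S s) * (n - 4 * algebraMap R S s)) • (J c (u * a) v * t) = 0 := by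
  have h := D.bl
  obtain ⟨e1, e2, e3, e4⟩ := D.Efacts (S := S)
  have hl := D.hl
  have hv := D.hv
  rw [← aS (S := S)] at hl hv
  set E := J c (u * a) v with hE
  set l := c * (u * a) with hl'
  set τ := (n - algebraMap R S m) * (n - algebraMap R S (s + (υ + α))) *
    (n - 3 * algebraMap R S s) * (n - algebraMap R S m - algebraMap R S (s + (υ + α))) with hτ
  have ht' : x * (τ • t) = n • (τ • t) := by
    rw [mul_smul_comm, ht, smul_comm]
  have h1 : (n - algebraMap R S m) • J x t v = 0 := h.G_eig ht hv
  have h2 : (n - algebraMap R S (s + (υ + α))) • J c (u * a) t = 0 := by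
    have := (D.CD t).1
    rw [ht, J_smul3, ← aS (S := S)] at this
    linear_combination (norm := module) this
  have h4 : (n - 3 * algebraMap R S s) • J x t E = 0 := h.G_eig ht e3
  have h3 : ((n - 3 * algebraMap R S s) * (n - algebraMap R S m - algebraMap R S (s + (υ + α)))) •
      J x t (v * l) = 0 := by
    have g := h.G_move x t (v * l)
    rw [h.G_def hv hl, ht, J_smul2, h.swap23 x v l, e4, sub_neg_eq_add, J_add3, J_smul3,
      J_smul3] at g
    linear_combination (norm := module) (n - 3 * algebraMap R S s) • g +
      (algebraMap R S s) • h4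
  have k := D.T0a ht' (by
    rw [J_smul2, hτ]
    linear_combination (norm := module) ((n - algebraMap R S (s + (υ + α))) *
    (n - 3 * algebraMap R S s) * (n - algebraMap R S m - algebraMap R S (s + (υ + α)))) • h1) (by
    rw [J_smul3, hτ]
    linear_combination (norm := module) ((n - algebraMap R S m) *
    (n - 3 * algebraMap R S s) * (n - algebraMap R S m - algebraMap R S (s + (υ + α)))) • h2) (by
    rw [J_smul2, hτ]
    linear_combination (norm := module) ((n - algebraMap R S m) *
      (n - algebraMap R S (s + (υ + α)))) • h3)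
  rw [mul_smul_comm] at k
  have r1 : algebraMap R S m • (E * t) = (2 * algebraMap R S s) • (E * t) := by
    rw [← smul_mul_assoc, e1, smul_mul_assoc]
  have r2 : algebraMap R S (s + (υ + α)) • (E * t) = (2 * algebraMap R S s) • (E * t) := by
    rw [← smul_mul_assoc, e2, smul_mul_assoc]
  rw [hτ] at k
  linear_combination (norm := module) k +
    (n * (n - 2 * algebraMap R S s) * (n - 3 * algebraMap R S s) *
      (n - 2 * algebraMap R S s) * (n - 4 * algebraMap R S s)) • r1 +
    (n * (n - 2 * algebraMap R S s) * (n - 3 * algebraMap R S s) *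
      (n - algebraMap R S m) * (n - 4 * algebraMap R S s)) • r2 +
    (n * (n - 2 * algebraMap R S s) * (n - 3 * algebraMap R S s) *
      (n - algebraMap R S m) * (n - algebraMap R S (s + (υ + α)))) • r1 +
    (n * (n - 2 * algebraMap R S s) * (n - 3 * algebraMap R S s) *
      (n - algebraMap R S m) * (n - algebraMap R S (s + (υ + α)))) • r2

/-- The relations for `Y = E[tv]`. -/
theorem Dat2.T0Y (D : Dat2 e A x a c u v α s υ m) {t : A} {n : S} (ht : x * t = n • t) :
    J c (u * a) (J x t v) = (n + algebraMap R S m - algebraMap R S (s + (υ + α))) •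
      J c (u * a) (t * v) ∧
    ((n - algebraMap R S m) * (n + algebraMap R S m - algebraMap R S (s + (υ + α)))) •
      J c (u * a) (t * v) = 0 := by
  have h := D.bl
  have hv := D.hv
  rw [← aS (S := S)] at hv
  have h1 : (n - algebraMap R S m) • J x t v = 0 := h.G_eig ht hv
  have g := (D.CD (t * v)).1
  rw [h.G_def ht hv, J_sub3, J_smul3, ← aS (S := S)] at g
  have g2 : J c (u * a) (J x t v) = (n + algebraMap R S m - algebraMap R S (s + (υ + α))) •
      J c (u * a) (t * v) := by
    linear_combination (norm := module) -(1 : ℤ) • g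
  refine ⟨g2, ?_⟩
  have := congrArg (fun z => J c (u * a) z) h1
  beta_reduce at this
  rw [J_smul3, J_zero3, g2] at this
  linear_combination (norm := module) this

end datS

end Pool.Agent.BLie
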