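import Mathlib
import Pool.Agent.BLie.LocT0

/-! Products with `E = J(c, ua, v)`: weights near 3, 4 and 0. -/

set_option linter.unusedSimpArgs false
set_option linter.unusedSectionVars false

namespace Pool.Agent.BLie

open Polynomial

universe u v

section dat2

variable {R : Type u} {F : Type v} [CommRing R] [Field F]
variable {e : R →+* F} {A : Type u} [NonUnitalNonAssocRing A] [Module R A]
  {x a c u v : A} {α s υ m : R} [IsScalarTower R A A] [SMulCommClass R A A]

theorem Dat2.Ew (D : Dat2 e A x a c u v α s υ m) :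
    m • J c (u * a) v = (2 * s) • J c (u * a) v ∧
    (s + (υ + α)) • J c (u * a) v = (2 * s) • J c (u * a) v ∧
    x * J c (u * a) v = (3 * s) • J c (u * a) v ∧
    J x (c * (u * a)) v = s • J c (u * a) v := D.Efacts (S := R)

/-- Common facts when the weight of `t` is near `N`, `N ≠ 1, 2`. -/
theorem Dat2.common (D : Dat2 e A x a c u v α s υ m) {t : A} {n : R} {N : ℤ}
    (ht : x * t = n • t) (en : e n = N) (h1 : N - 1 ∣ 6 ^ 4) (h2 : N - 2 ∣ 6 ^ 4) :
    J x t v = 0 ∧ J c (u * a) t = 0 ∧ J v (u * a) t = 0 ∧ J v c t = 0 ∧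
    (3 : ℕ) • (J v (c * (u * a)) t + J c (u * a) (t * v)) = -(J c (u * a) v * t) := by
  have h := D.bl
  have b1 : J x t v = 0 := D.cn (n - m) (N - 2)
    (by rw [map_sub, D.em, en]; push_cast; ring) h2 (h.G_eig ht D.hv)
  have b2 : J c (u * a) t = 0 := by
    have := (D.CD t).1
    rw [ht, J_smul3] at this
    refine D.cn (n - (s + (υ + α))) (N - 2)
      (by simp only [map_sub, map_add, D.es, D.eu, D.ea, en]; push_cast; ring) h2 ?_
    linear_combination (norm := module) this
  have b3 : J v (u * a) t = 0 := (h.AB_eig D.hv D.hk ht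
    (fun _ h => D.cn _ 1 (by simp only [map_sub, map_add, D.em, D.ea, D.eu]; norm_num)
      (by norm_num) h)
    (fun _ h => D.cn _ 2 (by rw [D.em]; norm_num) (by norm_num) h)
    (fun _ h => D.cn _ 1 (by simp only [map_sub, map_add, D.em, D.ea, D.eu]; norm_num)
      (by norm_num) h)
    (fun _ h => D.cn _ (N - 2) (by rw [map_sub, D.em, en]; push_cast; ring) h2 h)
    (fun _ h => D.cn _ (N - 1) (by simp only [map_sub, map_add, D.ea, D.eu, en]; push_cast; ring)
      h1 h)).1
  have b4 : J v c t = 0 := (h.AB_eig D.hv D.hc ht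
    (fun _ h => D.cn _ 1 (by simp only [map_sub, map_add, D.em, D.es]; norm_num)
      (by norm_num) h)
    (fun _ h => D.cn _ 2 (by rw [D.em]; norm_num) (by norm_num) h)
    (fun _ h => D.cn _ 1 (by rw [D.es]; norm_num)
      (by norm_num) h)
    (fun _ h => D.cn _ (N - 2) (by rw [map_sub, D.em, en]; push_cast; ring) h2 h)
    (fun _ h => D.cn _ (N - 1) (by simp only [map_sub, map_add, D.es, en]; push_cast; ring)
      h1 h)).1
  refine ⟨b1, b2, b3, b4, ?_⟩
  have g := h.three_gg c (u * a) t v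
  have g' : gg c (u * a) t v = J v (c * (u * a)) t + J c (u * a) (t * v) := by
    unfold gg
    rw [J_cyc v (c * (u * a)) t, J_cyc (t * v) c (u * a)]
  have g1 : J c t v = 0 := by rw [J_cyc, J_cyc, b4]
  have g2 : J (u * a) t v = 0 := by rw [J_cyc, J_cyc, b3]
  rw [g', g1, g2, b2] at g
  rw [g]
  simp

/-- The three expressions for `gg x v l t`, when `J x t v = 0` and `E[t] = 0`. -/
theorem Dat2.E4 (D : Dat2 e A x a c u v α s υ m) {t : A} {n : R}
    (ht : x * t = n • t) (b1 : J x t v = 0) (b2 : J c (u * a) t = 0) :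
    (s + (υ + α)) • J v (c * (u * a)) t + s • J c (u * a) (t * v) = n • J v (c * (u * a)) t +
      J x t (v * (c * (u * a))) ∧
    m • J v (c * (u * a)) t + J x v ((c * (u * a)) * t) = n • J v (c * (u * a)) t +
      J x t (v * (c * (u * a))) ∧
    (3 : ℕ) • (n • J v (c * (u * a)) t + J x t (v * (c * (u * a)))) =
      x * J v (c * (u * a)) t - s • (J c (u * a) v * t) ∧
    (m - (s + (υ + α)) - n) • J x v ((c * (u * a)) * t) = 0 ∧
    (m + (s + (υ + α)) - n) • J x t (v * (c * (u * a))) + s • J x t (J c (u * a) v) = 0 := by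
  have h := D.bl
  obtain ⟨e1, e2, e3, e4⟩ := D.Ew
  have hl := D.hl
  have clt := (D.CD t).2.2.2.2.2
  have cltv := (D.CD (t * v)).2.2.2.2.2
  rw [b2, smul_zero] at clt
  set l := c * (u * a) with hl'
  set E := J c (u * a) v with hE
  have Gvl : J x v l = -(s • E) := by rw [h.swap23, e4]
  have g1 := gg_x1 x v l t
  have g2 := h.gg_x2 x v l t
  have g3 := h.gg_x3 x v l t
  have g4 := h.gg_x4 x v l t
  rw [D.hv, J_smul1] at g1
  rw [hl, J_smul1, cltv, J_cyc' l t v] at g2
  rw [ht, J_smul1, J_cyc t v l] at g3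
  rw [clt, b1, Gvl] at g4
  refine ⟨by rw [← g2, ← g3], by rw [← g1, ← g3], ?_, ?_, ?_⟩
  · rw [← g3, g4, neg_mul, smul_mul_assoc, zero_mul, zero_mul]; abel
  · have hlt : x * (l * t) = ((s + (υ + α)) + n) • (l * t) := h.eig_mul hl ht clt
    have := h.G_eig D.hv hlt
    linear_combination (norm := module) this
  · have g := h.G_move x t (v * l)
    rw [h.G_def D.hv hl, ht, J_smul2, Gvl, sub_neg_eq_add, J_add3, J_smul3, J_smul3] at g
    linear_combination (norm := module) -(1 : ℤ) • g

theorem Dat2.T34 (D : Dat2 e A x a c u v α s υ m) {t : A} {n : R} {N : ℤ}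
    (ht : x * t = n • t) (en : e n = N) (h1 : N - 1 ∣ 6 ^ 4) (h2 : N - 2 ∣ 6 ^ 4)
    (h0 : N ∣ 6 ^ 4) (h4 : (4 - N) * (2 - N) + 3 * N ∣ 6 ^ 4) :
    J c (u * a) v * t = 0 := by
  have h := D.bl
  obtain ⟨b1, b2, b3, b4, b5⟩ := D.common ht en h1 h2
  obtain ⟨e1, e2, e3, e4⟩ := D.Ew
  obtain ⟨d1, d2, d3, d4, d5⟩ := D.E4 ht b1 b2
  have y := (D.T0Y (S := R) ht).2
  simp only [Algebra.algebraMap_self, RingHom.id_apply] at y
  set l := c * (u * a) with hl'
  set E := J c (u * a) v with hE
  set Y := J c (u * a) (t * v) with hY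
  set J1 := J v l t with hJ1
  have y1 : (n + m - (s + (υ + α))) • Y = 0 := D.cn (n - m) (N - 2)
    (by simp only [map_sub, D.em, en]; push_cast; ring) h2
    (by rw [← mul_smul]; exact y)
  have y0 : Y = 0 := D.cn (n + m - (s + (υ + α))) N
    (by simp only [map_sub, map_add, D.em, D.es, D.eu, D.ea, en]; push_cast; ring) h0 y1
  rw [y0, add_zero] at b5
  rw [y0, smul_zero, add_zero] at d1
  have g0 : J x v (l * t) = 0 := D.cn (m - (s + (υ + α)) - n) (-N)
    (by simp only [map_sub, map_add, D.em, D.es, D.eu, D.ea, en]; push_cast; ring)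
    (by rw [Int.neg_dvd]; exact h0) d4
  rw [g0, add_zero] at d2
  have g1 : J x t (v * l) = (m - n) • J1 := by
    linear_combination (norm := module) -(1 : ℤ) • d2
  have tE : t * E = (3 : ℕ) • J1 := by rw [b5, h.anti]
  have xJ : x * J1 = (3 * (m - s)) • J1 := by
    linear_combination (norm := module) -(1 : ℤ) • d3 + (3 : ℤ) • g1 + s • b5
  have g2 := h.G_def ht e3
  rw [tE, mul_smul_comm, xJ] at g2
  rw [g1] at d5
  have fin : ((m + (s + (υ + α)) - n) * (m - n) + 3 * s * (n + 6 * s - 3 * m)) • J1 = 0 := by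
    linear_combination (norm := module) d5 - s • g2
  have J0 : J1 = 0 := D.cn _ _
    (by simp only [map_sub, map_add, map_mul, map_ofNat, D.em, D.es, D.eu, D.ea, en]
        push_cast; ring) h4 fin
  rw [J0, smul_zero] at b5
  rw [← neg_eq_zero, ← b5]

/-- Weights near `0`. -/
theorem Dat2.T00 (D : Dat2 e A x a c u v α s υ m) {t : A} {n : R}
    (ht : x * t = n • t) (en : e n = 0) :
    n • (J c (u * a) v * t) = 0 ∧ n • J c (u * a) (t * v) = 0 ∧
    (2 : ℕ) • (t * J c (u * a) v) = (3 : ℕ) • J c (u * a) (t * v) := by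
  have h := D.bl
  obtain ⟨b1, b2, b3, b4, b5⟩ := D.common (N := 0) ht (by rw [en]; norm_num) (by norm_num)
    (by norm_num)
  obtain ⟨e1, e2, e3, e4⟩ := D.Ew
  obtain ⟨d1, d2, d3, d4, d5⟩ := D.E4 ht b1 b2
  have y := (D.T0Y (S := R) ht).2
  simp only [Algebra.algebraMap_self, RingHom.id_apply] at y
  have yL : (s + (υ + α)) • J c (u * a) (t * v) = (2 * s) • J c (u * a) (t * v) := by
    obtain ⟨f1, f2, f3, f4, f5, f6⟩ := D.CD (t * v)
    linear_combination (norm := module) f2
  have xY := (D.CD (t * v)).2.2.2.2.1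
  set l := c * (u * a) with hl'
  set E := J c (u * a) v with hE
  set Y := J c (u * a) (t * v) with hY
  set J1 := J v l t with hJ1
  have y1 : (n + m - (s + (υ + α))) • Y = 0 := D.cn (n - m) (-2)
    (by simp only [map_sub, D.em, en]; norm_num) (by norm_num) (by rw [← mul_smul]; exact y)
  have GtE : J x t E = 0 := D.cn (n - 3 * s) (-3)
    (by simp only [map_sub, map_mul, map_ofNat, D.es, en]; norm_num) (by norm_num)
    (h.G_eig ht e3)
  have g0 : J x t (v * l) = 0 := by
    rw [GtE, smul_zero, add_zero] at d5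
    exact D.cn _ 4 (by simp only [map_sub, map_add, D.em, D.es, D.eu, D.ea, en]; norm_num)
      (by norm_num) d5
  rw [g0, add_zero] at d1 d2 d3
  have tE : t * E = (3 : ℕ) • (J1 + Y) := by rw [b5, h.anti]
  have xJ : x * J1 = (3 * (s + (υ + α)) - 3 * s) • J1 := by
    linear_combination (norm := module) -(1 : ℤ) • d3 + s • b5 - (3 : ℤ) • d1
  have g2 := h.G_def ht e3
  rw [GtE, sub_zero, tE, mul_smul_comm, mul_add, xJ, xY] at g2
  have j1 : (s + (υ + α) - 2 * s) • J1 = 0 := by
    refine D.cn (n - (s + (υ + α))) (-2)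
      (by simp only [map_sub, map_add, D.es, D.eu, D.ea, en]; norm_num) (by norm_num) ?_
    linear_combination (norm := module) (2 * s) • d1 - (s + (υ + α)) • d1 + s • yL
  have j2 : n • J1 = 0 := by
    refine D.cn (n - s) (-1)
      (by simp only [map_sub, D.es, en]; norm_num) (by norm_num) ?_
    apply D.cni 3 (by norm_num)
    linear_combination (norm := module) -(s : R) • g2 - (3 * n) • d1 + (3 * (n + 3 * s)) • j1
  have j3 : Y + (2 : ℕ) • J1 = 0 := by
    refine D.cn s 1 (by rw [D.es]; norm_num) (by norm_num) ?_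
    linear_combination (norm := module) d1 - j1 + j2
  have j4 : Y = -((2 : ℕ) • J1) := eq_neg_of_add_eq_zero_left j3
  refine ⟨?_, ?_, ?_⟩
  · have : E * t = -((3 : ℕ) • (J1 + Y)) := by rw [b5, neg_neg]
    rw [this, j4]
    linear_combination (norm := module) (3 : ℤ) • j2
  · rw [j4]
    linear_combination (norm := module) -(2 : ℤ) • j2
  · rw [tE, j4]
    module

end dat2

end Pool.Agent.BLie
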