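import Mathlib
import Pool.Agent.BLie.LocT1

/-! Products with `E = J(c, ua, v)`: weights near 2. -/

set_option linter.unusedSimpArgs false
set_option linter.unusedSectionVars false

namespace Pool.Agent.BLie

open Polynomial

universe u v

section dat2

variable {R : Type u} {F : Type v} [CommRing R] [Field F]
variable {e : R →+* F} {A : Type u} [NonUnitalNonAssocRing A] [Module R A]
  {x a c u v : A} {α s υ m : R} [IsScalarTower R A A] [SMulCommClass R A A]

/-- `J(x, u, c(va)) = 0`. -/
theorem Dat2.phi0 (D : Dat2 e A x a c u v α s υ m) : J x u (c * (v * a)) = 0 := by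
  have h := D.bl
  have Gcv : J x c v = 0 := D.cn (s - m) (-1) (by rw [map_sub, D.es, D.em]; norm_num)
    (by norm_num) (h.G_eig D.hc D.hv)
  have hcv : x * (c * v) = (s + m) • (c * v) := h.eig_mul D.hc D.hv Gcv
  have Gacv : J x a (c * v) = 0 := D.cn (α - (s + m)) (-1)
    (by simp only [map_sub, map_add, D.ea, D.es, D.em]; norm_num) (by norm_num)
    (h.G_eig D.ha hcv)
  have k3 : J x u (a * (c * v)) = 0 := (h.AB_eig D.hu D.ha hcv
    (fun _ h => D.cn _ (-3) (by rw [map_sub, D.ea, D.eu]; norm_num) (by norm_num) h)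
    (fun _ h => D.cn _ (-1) (by rw [D.eu]; norm_num) (by norm_num) h)
    (fun _ h => D.cn _ 2 (by rw [D.ea]; norm_num) (by norm_num) h)
    (fun _ h => D.cn _ 4 (by simp only [map_sub, map_add, D.eu, D.es, D.em]; norm_num)
      (by norm_num) h)
    (fun _ h => D.cn _ 1 (by simp only [map_sub, map_add, D.ea, D.es, D.em]; norm_num)
      (by norm_num) h)).2.2
  have k4 : J x u ((c * a) * v) = 0 := (h.AB_eig D.hu D.hd D.hv
    (fun _ h => D.cn _ (-4) (by simp only [map_sub, map_add, D.ea, D.eu, D.es]; norm_num)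
      (by norm_num) h)
    (fun _ h => D.cn _ (-1) (by rw [D.eu]; norm_num) (by norm_num) h)
    (fun _ h => D.cn _ 3 (by simp only [map_add, D.ea, D.es]; norm_num) (by norm_num) h)
    (fun _ h => D.cn _ 3 (by simp only [map_sub, map_add, D.eu, D.es, D.em]; norm_num)
      (by norm_num) h)
    (fun _ h => D.cn _ (-1) (by simp only [map_sub, map_add, D.ea, D.es, D.em]; norm_num)
      (by norm_num) h)).2.2
  have hA : J x u (J c v a) = -J x u (c * (v * a)) := by
    have : J c v a = -(a * (c * v)) - c * (v * a) - (c * a) * v := by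
      unfold J
      rw [h.anti (c * v) a, h.anti (v * a) c, h.anti a c, neg_mul]
      abel
    rw [this, J_sub3, J_sub3, J_neg3, k3, k4]
    simp
  have g3 := gg_x1 x a c v
  have g4 := h.gg_x4 x a c v
  have Gac : J x a c = 0 := by rw [h.swap23, D.Gca, neg_zero]
  rw [D.ha, J_smul1, Gacv, add_zero] at g3
  rw [g3, Gac, Gcv, zero_mul, zero_mul, add_zero, add_zero, J_cyc a c v] at g4
  -- apply `J x u`
  have g5 := congrArg (fun z => J x u z) g4
  beta_reduce at g5
  rw [J_add3, ← h.G_move, D.hu, J_smul2, hA] at g5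
  have g6 : J x u ((3 : ℕ) • α • J c v a) = (3 * α) • J x u (J c v a) := by
    rw [show (3 : ℕ) • α • J c v a = (3 * α) • J c v a by module, J_smul3]
  rw [g6, hA] at g5
  have g7 := h.G_def D.hv D.ha
  have g8 : J x v a = (m + α) • (v * a) - x * (v * a) := by
    linear_combination (norm := module) g7
  have g9 : J x u (J x v a * c) = -((m + α - s) • J x u (c * (v * a))) := by
    rw [g8, sub_mul, smul_mul_assoc, J_sub3, J_smul3, h.anti (v * a) c, h.anti (x * (v * a)) c,
      J_neg3, J_neg3, (D.ABcu (v * a)).1]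
    module
  rw [g9] at g5
  refine D.cn (m - 2 * α - s + υ) (-4)
    (by simp only [map_sub, map_add, map_mul, map_ofNat, D.ea, D.es, D.eu, D.em]; norm_num)
    (by norm_num) ?_
  linear_combination (norm := module) g5

theorem Dat2.J0 (D : Dat2 e A x a c u v α s υ m) :
    (2 : ℕ) • J c u (v * a) = (3 : ℕ) • J c (u * a) v := by
  have h := D.bl
  obtain ⟨-, -, -, -, -, n6, n7⟩ := D.near2 D.hv D.em
  have k1 : J u (c * a) v = 0 := (h.AB_eig D.hu D.hd D.hv
    (fun _ h => D.cn _ (-4) (by simp only [map_sub, map_add, D.ea, D.eu, D.es]; norm_num)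
      (by norm_num) h)
    (fun _ h => D.cn _ (-1) (by rw [D.eu]; norm_num) (by norm_num) h)
    (fun _ h => D.cn _ 3 (by simp only [map_add, D.ea, D.es]; norm_num) (by norm_num) h)
    (fun _ h => D.cn _ 3 (by simp only [map_sub, map_add, D.eu, D.es, D.em]; norm_num)
      (by norm_num) h)
    (fun _ h => D.cn _ (-1) (by simp only [map_sub, map_add, D.ea, D.es, D.em]; norm_num)
      (by norm_num) h)).1
  have g1 : gg c u v a = gg c a u v := (h.gg_cyc c a u v).symm
  unfold gg at g1
  rw [h.swap23 (c * u) v a, J_cyc (v * a) c u, J_cyc (c * a) u v, h.swap23 u v (c * a), k1,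
    J_cyc (u * v) c a, n7] at g1
  linear_combination (norm := module) (2 : ℤ) • g1 + n6

theorem Dat2.psi0 (D : Dat2 e A x a c u v α s υ m) :
    J x c (u * (v * a)) = -((3 * s) • J c (u * a) v) := by
  have h := D.bl
  have p0 := D.phi0
  have j0 := D.J0
  obtain ⟨n1, n2, n3, n4, n5, n6, n7⟩ := D.near2 D.hv D.em
  obtain ⟨a1, -⟩ := h.three D.hc D.hu (v * a)
  rw [p0, sub_zero] at a1
  rw [eq_neg_iff_add_eq_zero]
  apply D.cni 2 (by norm_num)
  linear_combination (norm := module) (2 : ℤ) • a1 + (υ - s) • j0 + (3 : ℤ) • n2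

/-- For `t` of weight near `2`: `E t = 0`. -/
theorem Dat2.T2W (D : Dat2 e A x a c u v α s υ m) {t : A} {n : R}
    (ht : x * t = n • t) (en : e n = 2) : J c (u * a) v * t = 0 := by
  have h := D.bl
  have phi := D.phi0
  have j0 := D.J0
  have psi := D.psi0
  obtain ⟨e1, e2, e3, e4⟩ := D.Ew
  set E := J c (u * a) v with hE
  set p := v * a with hp
  set P := J c u p with hP
  have gE : J x t E = 0 := D.cn (n - 3 * s) (-1)
    (by simp only [map_sub, map_mul, map_ofNat, D.es, en]; norm_num) (by norm_num)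
    (h.G_eig ht e3)
  have gP : J x t P = 0 := by
    apply D.cni 2 (by norm_num)
    have := congrArg (fun z => J x t z) j0
    beta_reduce at this
    rw [show (2 : ℕ) • P = (2 : R) • P by module, show (3 : ℕ) • E = (3 : R) • E by module,
      J_smul3, J_smul3, gE] at this
    linear_combination (norm := module) this
  have xP : x * P = (3 * s) • P := by
    rw [← sub_eq_zero]
    apply D.cni 2 (by norm_num)
    have := congrArg (fun z => x * z) j0
    beta_reduce at this
    rw [show (2 : ℕ) • P = (2 : R) • P by module, show (3 : ℕ) • E = (3 : R) • E by module,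
      mul_smul_comm, mul_smul_comm, e3] at this
    linear_combination (norm := module) this - (3 * s) • j0
  obtain ⟨a1, a2⟩ := h.three D.hc D.hu p
  obtain ⟨b1, b2⟩ := h.three D.hc D.hu (x * p)
  obtain ⟨c1, c2, c3⟩ := D.ABcu p
  have G0 : ∀ y, J x y (c * u) = 0 := fun y => by rw [h.swap23, (D.ABcu y).2.2, neg_zero]
  rw [phi, sub_zero] at a1
  rw [c1, phi, smul_zero, sub_zero] at b1
  rw [G0, add_zero, a1] at a2
  rw [G0, add_zero, b1] at b2
  -- a2 : υ • P = J c u (x * p);  b2 : υ • J c u (x * p) = J c u (x * (x * p))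
  have g1 := h.gg_x4 x c u p
  have g2 := h.gg_x4 x c u (x * p)
  rw [h.gg_x3, G0, add_zero, J_cyc (x * p) c u, D.Gcu, zero_mul, add_zero, ← a2] at g1
  rw [h.gg_x3, G0, add_zero, J_cyc (x * (x * p)) c u, D.Gcu, zero_mul, add_zero, ← b2, ← a2,
    ← h.G_move x u p, D.hu, J_smul2, h.G_move x p c, D.hc, J_smul3, mul_smul_comm, xP,
    smul_mul_assoc, smul_mul_assoc] at g2
  rw [xP] at g1
  have g3 := congrArg (fun z => J x t z) g1
  have g4 := congrArg (fun z => J x t z) g2
  beta_reduce at g3 g4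
  rw [show (3 : ℕ) • υ • P = (3 * υ) • P by module] at g3
  rw [show (3 : ℕ) • υ • υ • P = (3 * υ * υ) • P by module, smul_smul] at g4
  simp only [J_add3, J_smul3, gP, smul_zero, zero_add] at g3 g4
  have g5 : J x t (J x u p * c) = 0 := by
    refine D.cn (υ - s) (-2) (by simp only [map_sub, D.es, D.eu]; norm_num) (by norm_num) ?_
    linear_combination (norm := module) s • g3 - g4
  have g6 : J x t (c * J x u p) = 0 := by rw [h.anti, J_neg3, g5, neg_zero]
  -- `q = u (v a)`
  have Guv : J x u v = 0 := D.cn (υ - m) (-3) (by rw [map_sub, D.eu, D.em]; norm_num)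
    (by norm_num) (h.G_eig D.hu D.hv)
  have huv : x * (u * v) = (υ + m) • (u * v) := h.eig_mul D.hu D.hv Guv
  have Gra : J x (u * v) a = 0 := D.cn (υ + m - α) (-1)
    (by simp only [map_sub, map_add, D.ea, D.eu, D.em]; norm_num) (by norm_num)
    (h.G_eig huv D.ha)
  have hra : x * ((u * v) * a) = (υ + m + α) • ((u * v) * a) := h.eig_mul huv D.ha Gra
  have Gcra : J x c ((u * v) * a) = 0 := D.cn (s - (υ + m + α)) (-2)
    (by simp only [map_sub, map_add, D.ea, D.eu, D.em, D.es]; norm_num) (by norm_num)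
    (h.G_eig D.hc hra)
  have hcra : x * (c * ((u * v) * a)) = (s + (υ + m + α)) • (c * ((u * v) * a)) :=
    h.eig_mul D.hc hra Gcra
  have z1 : J x t (c * ((u * v) * a)) = 0 := D.cn (n - (s + (υ + m + α))) (-2)
    (by simp only [map_sub, map_add, D.ea, D.eu, D.em, D.es, en]; norm_num) (by norm_num)
    (h.G_eig ht hcra)
  have hkv : x * ((u * a) * v) = (υ + α + m) • ((u * a) * v) :=
    h.eig_mul D.hk D.hv (D.ABua v).2.2
  have Gckv : J x c ((u * a) * v) = 0 := D.cn (s - (υ + α + m)) (-2)
    (by simp only [map_sub, map_add, D.ea, D.eu, D.em, D.es]; norm_num) (by norm_num)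
    (h.G_eig D.hc hkv)
  have hckv : x * (c * ((u * a) * v)) = (s + (υ + α + m)) • (c * ((u * a) * v)) :=
    h.eig_mul D.hc hkv Gckv
  have z2 : J x t (c * ((u * a) * v)) = 0 := D.cn (n - (s + (υ + α + m))) (-2)
    (by simp only [map_sub, map_add, D.ea, D.eu, D.em, D.es, en]; norm_num) (by norm_num)
    (h.G_eig ht hckv)
  have Gauv : J x a (u * v) = 0 := by rw [h.swap23, Gra, neg_zero]
  obtain ⟨u1, -⟩ := h.three D.hu D.ha v
  rw [Gauv, sub_zero, h.anti a v, J_neg3, h.swap23 u a v] at u1
  -- u1 : υ • -J u v a + -J x u (v * a) = α • -J u v a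
  have z3 : J x t (c * J u v a) = 0 := by
    refine D.cn (α - υ) 3 (by simp only [map_sub, D.ea, D.eu]; norm_num) (by norm_num) ?_
    rw [← J_smul3, ← mul_smul_comm, show (α - υ) • J u v a = J x u p by
      linear_combination (norm := module) u1, g6]
  have qe : u * p = (u * v) * a - (u * a) * v - J u v a := by
    unfold J
    rw [h.anti (v * a) u, h.anti a u, neg_mul]
    abel
  have q0 : J x t (c * (u * p)) = 0 := by
    rw [qe, mul_sub, mul_sub, J_sub3, J_sub3, z1, z2, z3]; simp
  have Gcq : J x c (u * p) = -((3 * s) • E) := psi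
  set q := u * p with hq
  have q1 : J x t (c * (x * q)) = 0 := by
    have w := congrArg (fun z => J x t z) (h.x_mul x c q)
    beta_reduce at w
    rw [← h.G_move, ht, J_smul2, q0, D.hc, Gcq, J_sub3, J_add3, smul_mul_assoc, J_smul3, q0,
      J_neg3, J_smul3, gE] at w
    linear_combination (norm := module) -(1 : ℤ) • w
  have Gcxq : J x c (x * q) = s • J x c q := by rw [← h.G_move, D.hc, J_smul2]
  have q2 : J x t (c * (x * (x * q))) = 0 := by
    have w := congrArg (fun z => J x t z) (h.x_mul x c (x * q))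
    beta_reduce at w
    rw [← h.G_move, ht, J_smul2, q1, D.hc, Gcxq, Gcq, J_sub3, J_add3, smul_mul_assoc, J_smul3,
      q1, J_smul3, J_neg3, J_smul3, gE] at w
    linear_combination (norm := module) -(1 : ℤ) • w
  have Gct : J x c t = 0 := D.cn (s - n) (-1) (by simp only [map_sub, D.es, en]; norm_num)
    (by norm_num) (h.G_eig D.hc ht)
  have hct : x * (c * t) = (s + n) • (c * t) := h.eig_mul D.hc ht Gct
  obtain ⟨r1, r2⟩ := h.three D.hc ht q
  obtain ⟨r3, r4⟩ := h.three D.hc ht (x * q)
  rw [q0, sub_zero] at r1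
  rw [q1, sub_zero] at r3
  rw [r1] at r2
  rw [r3] at r4
  rw [h.G_move x q (c * t), hct, J_smul3] at r4
  have Gxcxxq : J x c (x * (x * q)) = s • s • J x c q := by
    rw [← h.G_move, D.hc, J_smul2, Gcxq]
  have Gtxq : J x t (x * q) = n • J x t q := by rw [← h.G_move, ht, J_smul2]
  have Gtxxq : J x t (x * (x * q)) = n • n • J x t q := by
    rw [← h.G_move, ht, J_smul2, Gtxq]
  set q' := x * (x * q) - (2 * n + s) • (x * q) + (n * (n + s)) • q with hq'
  have k1 : J c t q' = 0 := by
    rw [hq', J_add3, J_sub3, J_smul3, J_smul3]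
    linear_combination (norm := module) -(1 : ℤ) • r4 + (n + s) • r2
  have k2 : J x t q' = 0 := by
    rw [hq', J_add3, J_sub3, J_smul3, J_smul3, Gtxq, Gtxxq]
    module
  have k3 : J x t (c * q') = 0 := by
    rw [hq', mul_add, mul_sub, mul_smul_comm, mul_smul_comm, J_add3, J_sub3, J_smul3, J_smul3,
      q0, q1, q2]
    simp
  have k4 : J x c q' = -((3 * s * (n * (n - s))) • E) := by
    rw [hq', J_add3, J_sub3, J_smul3, J_smul3, Gcxq, Gxcxxq, Gcq]
    module
  have k5 : J t c q' = 0 := by rw [h.swap12, k1, neg_zero]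
  have k6 : J c q' t = 0 := by rw [J_cyc', k5]
  have k7 : J x q' t = 0 := by rw [h.swap23, k2, neg_zero]
  have Gtc : J x t c = 0 := by rw [h.swap23, Gct, neg_zero]
  have fin := h.gg_x4 x c q' t
  rw [h.gg_x3, ht, J_smul1, k3, k5, k6, k7, Gtc, k4] at fin
  refine D.cn (3 * s * (n * (n - s))) 6
    (by simp only [map_sub, map_mul, map_ofNat, D.es, en]; norm_num) (by norm_num) ?_
  simp only [smul_zero, mul_zero, zero_mul, add_zero, neg_mul, smul_mul_assoc, zero_add] at fin
  rw [← neg_eq_zero, ← fin]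

/-- For `t` of weight near `2`: `E[tv] = 0`. -/
theorem Dat2.T2Y (D : Dat2 e A x a c u v α s υ m) {t : A} {n : R}
    (ht : x * t = n • t) (en : e n = 2) : J c (u * a) (t * v) = 0 := by
  have h := D.bl
  have D' : Dat2 e A x a c u t α s υ n := { toDat := D.toDat, hv := ht, em := en }
  have Et := D.T2W ht en
  have Ev := D'.T2W D.hv D.em
  obtain ⟨e1, e2, e3, e4⟩ := D.Ew
  obtain ⟨f1, f2, f3, f4⟩ := D'.Ew
  obtain ⟨y1, y2⟩ := D.T0Y (S := R) ht
  simp only [Algebra.algebraMap_self, RingHom.id_apply] at y1 y2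
  obtain ⟨w1, w2, w3, w4, w5, w6⟩ := D.CD (t * v)
  have hl := D.hl
  have hk := D.hk
  have hv := D.hv
  have Gk : ∀ y, J x (u * a) y = 0 := fun y => (D.ABua y).2.2
  have hkv : x * ((u * a) * v) = (υ + α + m) • ((u * a) * v) := h.eig_mul hk hv (Gk v)
  have Gvc : J x v c = 0 := D.cn (m - s) 1
    (by simp only [map_sub, D.em, D.es]; norm_num) (by norm_num) (h.G_eig D.hv D.hc)
  have Gct : J x c t = 0 := D.cn (s - n) (-1) (by simp only [map_sub, D.es, en]; norm_num)
    (by norm_num) (h.G_eig D.hc ht)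
  have hvc : x * (v * c) = (m + s) • (v * c) := h.eig_mul hv D.hc Gvc
  have Gtvc : J x t (v * c) = 0 := D.cn (n - (m + s)) (-1)
    (by simp only [map_sub, map_add, D.em, D.es, en]; norm_num) (by norm_num) (h.G_eig ht hvc)
  have Gtkv : J x t ((u * a) * v) = 0 := D.cn (n - (υ + α + m)) (-1)
    (by simp only [map_sub, map_add, D.em, D.ea, D.eu, en]; norm_num) (by norm_num)
    (h.G_eig ht hkv)
  have GtE : J x t (J c (u * a) v) = 0 := D.cn (n - 3 * s) (-1)
    (by simp only [map_sub, map_mul, map_ofNat, D.es, en]; norm_num) (by norm_num)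
    (h.G_eig ht e3)
  obtain ⟨p1, -⟩ := h.three ht hk v
  rw [Gtkv, Gk, add_zero, sub_zero] at p1
  have jk : J t (u * a) v = 0 := by
    refine D.cn (n - (υ + α)) 1
      (by simp only [map_sub, map_add, D.ea, D.eu, en]; norm_num) (by norm_num) ?_
    linear_combination (norm := module) p1
  have Gvl : J x v (c * (u * a)) = -(s • J c (u * a) v) := by rw [h.swap23, e4]
  have Gtvl : J x t (v * (c * (u * a))) = 0 := by
    have g := h.G_move x t (v * (c * (u * a)))
    rw [h.G_def hv hl, ht, J_smul2, Gvl, sub_neg_eq_add, J_add3, J_smul3, J_smul3, GtE] at g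
    refine D.cn (n - (m + (s + (υ + α)))) (-2)
      (by simp only [map_sub, map_add, D.em, D.es, D.ea, D.eu, en]; norm_num) (by norm_num) ?_
    linear_combination (norm := module) g
  have clt := (D.CD t).2.2.2.2.2
  have jk2 : J (u * a) t v = 0 := by rw [h.swap12, jk, neg_zero]
  have jk3 : J t v (u * a) = 0 := by rw [← J_cyc, jk2]
  -- 3 (J1 + Y) = jc k
  have q1 := h.three_gg c (u * a) t v
  have q1' : gg c (u * a) t v = J v (c * (u * a)) t + J c (u * a) (t * v) := by
    unfold gg
    rw [J_cyc v (c * (u * a)) t, J_cyc (t * v) c (u * a)]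
  rw [q1', jk2, J_cyc c t v, Et, Ev, zero_mul, sub_zero, sub_zero, add_zero] at q1
  have q3 := h.gg_x3 x v (c * (u * a)) t
  rw [ht, J_smul1, Gtvl, add_zero, J_cyc t v] at q3
  have q2 := h.gg_x2 x v (c * (u * a)) t
  rw [hl, J_smul1, w6, J_cyc' (c * (u * a)) t v, q3] at q2
  have q4 := h.gg_x4 x v (c * (u * a)) t
  rw [q3, clt, Gvl, smul_mul_assoc, Ev, neg_mul, smul_mul_assoc, Et, smul_zero, neg_zero,
    add_zero, add_zero] at q4
  have q5 := h.gg_x4 x t v (u * a)
  rw [h.gg_x3, hk, J_smul1, jk2, Gk, jk3, Gk, h.swap23 x v (u * a), Gk] at q5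
  simp only [smul_zero, add_zero, zero_add, mul_zero, neg_zero, zero_mul] at q5
  have q6 := h.gg_x4 x t v c
  rw [gg_x1, ht, J_smul1, Gtvc, Gvc, Gct] at q6
  simp only [add_zero, zero_mul] at q6
  have q7 := h.x_mul x (J t v c) (u * a)
  rw [h.swap23 x _ (u * a), Gk, hk, mul_smul_comm] at q7
  set k := u * a with hk'
  set l := c * k with hl'
  set E := J c k v with hE
  set Y := J c k (t * v) with hY
  set J1 := J v l t with hJ1
  set G0 := J x t v with hG0
  set jc := J t v c with hjc
  have y3 : (n - m) • Y = 0 := by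
    refine D.cn (n + m - (s + (υ + α))) 2
      (by simp only [map_sub, map_add, D.em, D.es, D.ea, D.eu, en]; norm_num) (by norm_num) ?_
    linear_combination (norm := module) y2
  have g1 : G0 * c = (3 * n) • jc - x * jc := by
    linear_combination (norm := module) -(1 : ℤ) • q6
  have g2 : (G0 * c) * k = (3 * n + (υ + α)) • (jc * k) - x * (jc * k) := by
    rw [g1, sub_mul, smul_mul_assoc]
    linear_combination (norm := module) q7
  have g3 : J c k G0 = -(G0 * l) + (G0 * c) * k := by
    have : J c k G0 = (c * k) * G0 + (k * G0) * c + (G0 * c) * k := rfl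
    rw [hl', this, h.anti k G0, ← q5, h.anti (c * k) G0, neg_zero, zero_mul, add_zero]
  rw [g3, g2, ← q1, mul_smul_comm, mul_add, w5] at y1
  have yL : (s + (υ + α)) • Y = (2 * s) • Y := by
    linear_combination (norm := module) w2
  have xq2 : n • (x * J1) = (s + (υ + α)) • (x * J1) + (3 * s * s) • Y := by
    have := congrArg (fun z => x * z) q2
    beta_reduce at this
    rw [mul_add, mul_smul_comm, mul_smul_comm, mul_smul_comm, w5] at this
    linear_combination (norm := module) this
  refine D.cn (-6 * s * s + (6 * n + 3 * s) * s + (n - 2 * s) * (7 * n - 4 * s)) 9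
    (by simp only [map_sub, map_add, map_mul, map_neg, map_ofNat, D.es, en]; norm_num)
    (by norm_num) ?_
  linear_combination (norm := module) (n - (s + (υ + α))) • y1 - (n - (s + (υ + α))) • q4
    + (2 : ℤ) • xq2 - (6 * n + 3 * (υ + α)) • q2
    - (3 * s + 3 * (n - (s + (υ + α)))) • w2
    - (n - (s + (υ + α))) • y3
    - (-6 * n + 4 * s - (s + (υ + α))) • yL

end dat2

end Pool.Agent.BLie
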