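import Mathlib
import Pool.Agent.BLie.LocT2

/-! Products with `E = J(c, ua, v)`: arbitrary elements. -/

set_option linter.unusedSimpArgs false
set_option linter.unusedSectionVars false

namespace Pool.Agent.BLie

open Polynomial

universe u v

section dat2

variable {R : Type u} {F : Type v} [CommRing R] [Field F]
variable {e : R →+* F} {A : Type u} [NonUnitalNonAssocRing A] [Module R A]
  {x a c u v : A} {α s υ m : R} [IsScalarTower R A A] [SMulCommClass R A A]

theorem Dat2.XW (D : Dat2 e A x a c u v α s υ m) (q : A) : J c (u * a) v * (x * q) = 0 := by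
  have h := D.bl
  have hx := x_letter R h x q
  set t := letter R x q with ht
  set W := J (io R c) (io R u * io R a) (io R v) * t with hW
  have h0 := D.ext.T0W (S := R[X]) hx
  rw [← hW] at h0
  have k2 : (2 : R[X]) * algebraMap R R[X] s = C (2 * s) := by
    rw [map_mul, map_ofNat, algebraMap_eq]
  have k3 : (3 : R[X]) * algebraMap R R[X] s = C (3 * s) := by
    rw [map_mul, map_ofNat, algebraMap_eq]
  have k4 : (4 : R[X]) * algebraMap R R[X] s = C (4 * s) := by
    rw [map_mul, map_ofNat, algebraMap_eq]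
  rw [k2, k3, k4] at h0
  have n4 : pr (pt e (e (4 * s))) (Ext R A) W = 0 := by
    rw [hW, pr_mul, pr_J, pr_mul]
    exact (D.tq _).T34 (N := 4) (tq_letter _ h x q) (by rw [pt_X, map_mul, map_ofNat, D.es]; norm_num)
      (by norm_num) (by norm_num) (by norm_num) (by norm_num)
  have n3 : pr (pt e (e (3 * s))) (Ext R A) W = 0 := by
    rw [hW, pr_mul, pr_J, pr_mul]
    exact (D.tq _).T34 (N := 3) (tq_letter _ h x q) (by rw [pt_X, map_mul, map_ofNat, D.es]; norm_num)
      (by norm_num) (by norm_num) (by norm_num) (by norm_num)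
  have n2 : pr (pt e (e (2 * s))) (Ext R A) W = 0 := by
    rw [hW, pr_mul, pr_J, pr_mul]
    exact (D.tq _).T2W (tq_letter _ h x q) (by rw [pt_X, map_mul, map_ofNat, D.es]; norm_num)
  have h1 := removal' e D.toLoc _ _ W h0 n4
  have h2 := removal' e D.toLoc _ _ W h1 n3
  have h3 := removal' e D.toLoc _ _ W h2 n2
  have h4 := removal' e D.toLoc _ _ W h3 n2
  have h5 := removal' e D.toLoc _ _ W h4 n2
  have h6 := congrArg (ev R 0) h5
  rw [ev_X, ev_zero, zero_add, hW, io_mul R h, io_J R h, ev_io_mul, ht, ev_letter] at h6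
  exact h6

theorem Dat2.GE (D : Dat2 e A x a c u v α s υ m) (q : A) : J x q (J c (u * a) v) = 0 := by
  have h := D.bl
  obtain ⟨e1, e2, e3, e4⟩ := D.Ew
  have g1 := h.G_move x q (J c (u * a) v)
  have g2 := h.x_mul x (x * q) (J c (u * a) v)
  have w1 := D.XW (x * q)
  have w2 := D.XW q
  have w3 : (x * q) * J c (u * a) v = 0 := by rw [h.anti, w2, neg_zero]
  have w4 : (x * (x * q)) * J c (u * a) v = 0 := by rw [h.anti, w1, neg_zero]
  rw [w3, w4, e3, mul_smul_comm, w3, g1, e3, J_smul3] at g2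
  refine D.cn (3 * s) 3 (by simp only [map_mul, map_ofNat, D.es]; norm_num) (by norm_num) ?_
  simpa using g2

theorem Dat2.XY (D : Dat2 e A x a c u v α s υ m) (q : A) :
    J c (u * a) ((x * q) * v) = 0 ∧
    (2 : ℕ) • (q * J c (u * a) v) = (3 : ℕ) • J c (u * a) (q * v) := by
  have h := D.bl
  have hx := x_letter R h x q
  set t := letter R x q with ht
  set Y := J (io R c) (io R u * io R a) (t * io R v) with hY
  have h0 := (D.ext.T0Y (S := R[X]) hx).2
  rw [← hY, algebraMap_eq] at h0
  have h1 : ((X - C (s + (υ + α) - m)) * (X - C m) : R[X]) • Y = 0 := by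
    rw [← h0]
    congr 1
    rw [map_sub]
    ring
  have n2 : pr (pt e (e m)) (Ext R A) Y = 0 := by
    rw [hY, pr_J, pr_mul, pr_mul]
    exact (D.tq _).T2Y (tq_letter _ h x q) (by rw [pt_X, D.em])
  have h2 := removal' e D.toLoc _ _ Y h1 n2
  obtain ⟨m1, m2, -⟩ := (D.tq (e (s + (υ + α) - m))).T00 (tq_letter _ h x q) (by
    rw [pt_X, map_sub, map_add, map_add, D.es, D.eu, D.ea, D.em]; norm_num)
  have h3 : (X : R[X]) • Y = 0 := by
    refine removal e D.toLoc (s + (υ + α) - m) _ (by rw [smul_comm, h2, smul_zero]) ?_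
    rw [map_smul, hY, pr_J, pr_mul, pr_mul]
    exact m2
  have h4 := congrArg (ev R 0) h3
  have evY : ∀ n, ev R n Y = J c (u * a) (ev R n t * v) := by
    intro n
    rw [hY, io_mul R h, ev_J3 R h, ev_mul_io R h]
  rw [ev_X, ev_zero, evY, ht, ev_letter] at h4
  refine ⟨h4, ?_⟩
  set W := t * J (io R c) (io R u * io R a) (io R v) with hW
  have evW : ∀ n, ev R n W = ev R n t * J c (u * a) v := by
    intro n
    rw [hW, io_mul R h, io_J R h, ev_mul_io R h]
  have hXW : (X : R[X]) • W = 0 := by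
    rw [hW, ← smul_mul_assoc, ← hx, (Ext.bl h).anti, D.ext.XW t, neg_zero]
  have hZ : (2 : ℕ) • W - (3 : ℕ) • Y = 0 := by
    refine removal e D.toLoc 0 _ ?_ ?_
    · rw [map_zero, sub_zero, smul_sub, smul_comm _ (2 : ℕ), smul_comm _ (3 : ℕ), hXW, h3]
      simp
    · rw [map_sub, map_nsmul, map_nsmul, sub_eq_zero, hW, hY, pr_J, pr_mul, pr_mul, pr_mul, pr_J,
        pr_mul]
      exact ((D.tq (e 0)).T00 (tq_letter _ h x q) (by rw [pt_X, map_zero])).2.2
  have h6 := congrArg (ev R 0) (sub_eq_zero.mp hZ)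
  rw [show (2 : ℕ) • W = (2 : R) • W by module, show (3 : ℕ) • Y = (3 : R) • Y by module,
    ev_smul, ev_smul, evW, evY, ht, ev_letter] at h6
  simp only [Function.iterate_zero, id_eq] at h6
  linear_combination (norm := module) h6

end dat2

end Pool.Agent.BLie
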