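import Mathlib
import Pool.Agent.BLie.LocT

/-! The element `E = J(c, ua, v)` is annihilated by all products and all Jacobians with it
vanish. -/

set_option linter.unusedSimpArgs false
set_option linter.unusedSectionVars false

namespace Pool.Agent.BLie

open Polynomial

universe u v

section dat2

variable {R : Type u} {F : Type v} [CommRing R] [Field F]
variable {e : R →+* F} {A : Type u} [NonUnitalNonAssocRing A] [Module R A]
  {x a c u v : A} {α s υ m : R} [IsScalarTower R A A] [SMulCommClass R A A]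

theorem Dat2.wx (D : Dat2 e A x a c u v α s υ m) (y z : A) :
    J (J c (u * a) v) (x * y) z = (3 * s) • J (J c (u * a) v) y z ∧
    J (J c (u * a) v) y (x * z) = (3 * s) • J (J c (u * a) v) y z := by
  have h := D.bl
  obtain ⟨e1, e2, e3, e4⟩ := D.Ew
  have GE : ∀ y, J x y (J c (u * a) v) = 0 := D.GE
  have EX : ∀ y, J c (u * a) v * (x * y) = 0 := D.XW
  set E := J c (u * a) v with hE
  have GE' : ∀ y, J x E y = 0 := fun y => by rw [h.swap23, GE, neg_zero]
  have XE : ∀ y, (x * y) * E = 0 := fun y => by rw [h.anti, EX, neg_zero]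
  have A1 : ∀ y z, (3 * s) • J E y z = J E (x * y) z + J x y (z * E) := by
    intro y z
    have g1 := gg_x1 x E y z
    have g2 := h.gg_x2 x E y z
    rw [e3, J_smul1, GE', add_zero] at g1
    rw [g1, J_cyc' (x * y) z E] at g2
    exact g2
  have A2 : ∀ y z, (3 * s) • J E y z = J E y (x * z) + J x z (E * y) := by
    intro y z
    have g1 := gg_x1 x E y z
    have g2 := h.gg_x3 x E y z
    rw [e3, J_smul1, GE', add_zero] at g1
    rw [g1, J_cyc (x * z) E y] at g2
    exact g2
  have B : ∀ y z, J E y (x * z) = J E (x * y) z := by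
    intro y z
    have a1 := A1 y (x * z)
    have a2 := A2 (x * y) z
    rw [XE, J_zero3, add_zero] at a1
    rw [EX, J_zero3, add_zero] at a2
    rw [← sub_eq_zero]
    refine D.cn (3 * s) 3 (by simp only [map_mul, map_ofNat, D.es]; norm_num) (by norm_num) ?_
    rw [smul_sub, a1, a2, sub_self]
  have C' : ∀ y z, J x y (z * E) = J x z (E * y) := by
    intro y z
    have a1 := A1 y z
    have a2 := A2 y z
    rw [a1, B] at a2
    exact add_left_cancel a2
  have C2 : ∀ y z, J x z (E * y) = 0 := by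
    intro y z
    have b1 := C' y (x * z)
    have b2 := h.x_mul x E y
    rw [e3, EX, GE', add_zero, sub_zero, smul_mul_assoc] at b2
    rw [XE, J_zero3, h.G_move, b2, J_smul3] at b1
    exact D.cn (3 * s) 3 (by simp only [map_mul, map_ofNat, D.es]; norm_num) (by norm_num) b1.symm
  constructor
  · have := A1 y z
    rw [C', C2, add_zero] at this
    exact this.symm
  · have := A2 y z
    rw [C2, add_zero] at this
    exact this.symm

/-- The key relation for `Θ = J(t1, t2, v)`. -/
theorem Dat2.Th (D : Dat2 e A x a c u v α s υ m) {t1 t2 : A} {n1 n2 : R}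
    (h1 : x * t1 = n1 • t1) (h2 : x * t2 = n2 • t2) (g1 : J x t1 v = 0) (g2 : J x t2 v = 0)
    (g3 : J x t1 (t2 * v) = 0) :
    (s + (υ + α)) • J c (u * a) (J t1 t2 v) = (3 * n1) • J c (u * a) (J t1 t2 v) -
      (n1 + n2) • J c (u * a) ((t1 * t2) * v) := by
  have h := D.bl
  have a1 := gg_x1 x t1 t2 v
  have a2 := h.gg_x4 x t1 t2 v
  rw [h1, J_smul1, g3, add_zero] at a1
  rw [a1, g2, h.swap23 x v t1, g1, zero_mul, neg_zero, zero_mul, add_zero, add_zero] at a2
  have a3 := h.G_def h1 h2
  have a4 : J x t1 t2 = (n1 + n2) • (t1 * t2) - x * (t1 * t2) := by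
    linear_combination (norm := module) a3
  have a5 := (D.XY (t1 * t2)).1
  have a6 := congrArg (fun z => J c (u * a) z) a2
  beta_reduce at a6
  rw [show (3 : ℕ) • n1 • J t1 t2 v = (3 * n1) • J t1 t2 v by module, J_smul3, J_add3,
    (D.CD _).1, a4, sub_mul, J_sub3, smul_mul_assoc, J_smul3, a5] at a6
  linear_combination (norm := module) -(1 : ℤ) • a6

/-- Both weights near `3`. -/
theorem Dat2.P33 (D : Dat2 e A x a c u v α s υ m) {t1 t2 : A} {n1 n2 : R}
    (h1 : x * t1 = n1 • t1) (h2 : x * t2 = n2 • t2) (en1 : e n1 = 3) (en2 : e n2 = 3) :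
    J (J c (u * a) v) t1 t2 = 0 := by
  have h := D.bl
  have z1 : J c (u * a) v * t1 = 0 := by
    have := D.XW t1
    rw [h1, mul_smul_comm] at this
    exact D.cn n1 3 (by rw [en1]; norm_num) (by norm_num) this
  have z2 : J c (u * a) v * t2 = 0 := by
    have := D.XW t2
    rw [h2, mul_smul_comm] at this
    exact D.cn n2 3 (by rw [en2]; norm_num) (by norm_num) this
  have g1 : J x t1 v = 0 := D.cn (n1 - m) 1 (by rw [map_sub, en1, D.em]; norm_num)
    (by norm_num) (h.G_eig h1 D.hv)
  have g2 : J x t2 v = 0 := D.cn (n2 - m) 1 (by rw [map_sub, en2, D.em]; norm_num)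
    (by norm_num) (h.G_eig h2 D.hv)
  have h1v : x * (t1 * v) = (n1 + m) • (t1 * v) := h.eig_mul h1 D.hv g1
  have h2v : x * (t2 * v) = (n2 + m) • (t2 * v) := h.eig_mul h2 D.hv g2
  have g3 : J x t1 (t2 * v) = 0 := D.cn (n1 - (n2 + m)) (-2)
    (by simp only [map_sub, map_add, en1, en2, D.em]; norm_num)
    (by norm_num) (h.G_eig h1 h2v)
  have g4 : J x t2 (t1 * v) = 0 := D.cn (n2 - (n1 + m)) (-2)
    (by simp only [map_sub, map_add, en1, en2, D.em]; norm_num)
    (by norm_num) (h.G_eig h2 h1v)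
  have k1 : x * (t1 * (t2 * v)) = (n1 + (n2 + m)) • (t1 * (t2 * v)) := h.eig_mul h1 h2v g3
  have k2 : x * (t2 * (t1 * v)) = (n2 + (n1 + m)) • (t2 * (t1 * v)) := h.eig_mul h2 h1v g4
  have m1 : J c (u * a) (t1 * (t2 * v)) = 0 := by
    have := (D.CD (t1 * (t2 * v))).1
    rw [k1, J_smul3] at this
    refine D.cn (n1 + (n2 + m) - (s + (υ + α))) 6
      (by simp only [map_sub, map_add, en1, en2, D.em, D.es, D.eu, D.ea]; norm_num)
      (by norm_num) ?_
    linear_combination (norm := module) this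
  have m2 : J c (u * a) (t2 * (t1 * v)) = 0 := by
    have := (D.CD (t2 * (t1 * v))).1
    rw [k2, J_smul3] at this
    refine D.cn (n2 + (n1 + m) - (s + (υ + α))) 6
      (by simp only [map_sub, map_add, en1, en2, D.em, D.es, D.eu, D.ea]; norm_num)
      (by norm_num) ?_
    linear_combination (norm := module) this
  have th := D.Th h1 h2 g1 g2 g3
  have te : J t1 t2 v = (t1 * t2) * v - t1 * (t2 * v) + t2 * (t1 * v) := by
    unfold J
    rw [h.anti (t2 * v) t1, h.anti v t1, neg_mul, h.anti (t1 * v) t2]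
    abel
  rw [te, J_add3, J_sub3, m1, m2, sub_zero, add_zero] at th
  have m3 : J c (u * a) ((t1 * t2) * v) = 0 := by
    refine D.cn (s + (υ + α) - 2 * n1 + n2) (-1)
      (by simp only [map_sub, map_add, map_mul, map_ofNat, en1, en2, D.em, D.es, D.eu, D.ea]
          norm_num)
      (by norm_num) ?_
    linear_combination (norm := module) th
  have m4 := (D.XY (t1 * t2)).2
  rw [m3, smul_zero] at m4
  have m5 := D.cni 2 (by norm_num) m4
  have z3 : t2 * J c (u * a) v = 0 := by rw [h.anti, z2, neg_zero]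
  have : ∀ E : A, J E t1 t2 = (E * t1) * t2 + (t1 * t2) * E + (t2 * E) * t1 := fun _ => rfl
  rw [this, z1, m5, z3]
  simp

/-- Both weights near `0`. -/
theorem Dat2.P00 (D : Dat2 e A x a c u v α s υ m) {t1 t2 : A} {n1 n2 : R}
    (h1 : x * t1 = n1 • t1) (h2 : x * t2 = n2 • t2) (en1 : e n1 = 0) (en2 : e n2 = 0)
    (hw : J (J c (u * a) v) t1 t2 = 0) :
    J c (u * a) v * (t1 * t2) = 0 := by
  have h := D.bl
  have g1 : J x t1 v = 0 := D.cn (n1 - m) (-2) (by rw [map_sub, en1, D.em]; norm_num)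
    (by norm_num) (h.G_eig h1 D.hv)
  have g2 : J x t2 v = 0 := D.cn (n2 - m) (-2) (by rw [map_sub, en2, D.em]; norm_num)
    (by norm_num) (h.G_eig h2 D.hv)
  have h1v : x * (t1 * v) = (n1 + m) • (t1 * v) := h.eig_mul h1 D.hv g1
  have h2v : x * (t2 * v) = (n2 + m) • (t2 * v) := h.eig_mul h2 D.hv g2
  have g3 : J x t1 (t2 * v) = 0 := D.cn (n1 - (n2 + m)) (-2)
    (by simp only [map_sub, map_add, en1, en2, D.em]; norm_num)
    (by norm_num) (h.G_eig h1 h2v)
  have D1 : Dat2 e A x a c u (t1 * v) α s υ (n1 + m) :=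
    { toDat := D.toDat, hv := h1v, em := by rw [map_add, en1, D.em, zero_add] }
  have D2 : Dat2 e A x a c u (t2 * v) α s υ (n2 + m) :=
    { toDat := D.toDat, hv := h2v, em := by rw [map_add, en2, D.em, zero_add] }
  have a1 := (D.XY t1).2
  have a2 := (D.XY t2).2
  have a3 := (D1.XY t2).2
  have a4 := (D2.XY t1).2
  have a5 := (D.XY (t1 * t2)).2
  have th := D.Th h1 h2 g1 g2 g3
  have te : J t1 t2 v = (t1 * t2) * v - t1 * (t2 * v) + t2 * (t1 * v) := by
    unfold J
    rw [h.anti (t2 * v) t1, h.anti v t1, neg_mul, h.anti (t1 * v) t2]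
    abel
  rw [te, J_add3, J_sub3] at th
  have b1 := congrArg (fun z => t2 * z) a1
  have b2 := congrArg (fun z => t1 * z) a2
  beta_reduce at b1 b2
  rw [mul_smul_comm, mul_smul_comm] at b1 b2
  set E := J c (u * a) v with hE
  have c1 : E * (t1 * t2) = t2 * (t1 * E) - t1 * (t2 * E) := by
    have : J E t1 t2 = (E * t1) * t2 + (t1 * t2) * E + (t2 * E) * t1 := rfl
    rw [this, h.anti E t1, neg_mul, h.anti (t1 * E) t2, neg_neg, h.anti (t1 * t2) E,
      h.anti (t2 * E) t1] at hw
    linear_combination (norm := module) -(1 : ℤ) • hw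
  rw [h.anti (t1 * t2) E] at a5
  set P := J c (u * a) ((t1 * t2) * v) with hP
  set Q1 := J c (u * a) (t1 * (t2 * v)) with hQ1
  set Q2 := J c (u * a) (t2 * (t1 * v)) with hQ2
  have r1 : (2 : ℕ) • P - (3 : ℕ) • (Q1 - Q2) = 0 := by
    apply D.cni 3 (by norm_num)
    linear_combination (norm := module) -(2 : ℤ) • a5 - (4 : ℤ) • c1 - (2 : ℤ) • b1
      - (3 : ℤ) • a3 + (2 : ℤ) • b2 + (3 : ℤ) • a4
  have r2 : P = 0 := by
    refine D.cn (s + (υ + α) + 3 * n2) 2
      (by simp only [map_sub, map_add, map_mul, map_ofNat, en2, D.es, D.eu, D.ea]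
          norm_num)
      (by norm_num) ?_
    linear_combination (norm := module) (3 : ℤ) • th - (s + (υ + α)) • r1 + (3 * n1) • r1
  rw [r2, smul_zero, smul_neg, neg_eq_zero] at a5
  exact D.cni 2 (by norm_num) a5

/-- One weight near `3`. -/
theorem Dat2.PW3 (D : Dat2 e A x a c u v α s υ m) {t1 : A} {n1 : R}
    (h1 : x * t1 = n1 • t1) (en1 : e n1 = 3) (z : A) :
    J (J c (u * a) v) t1 z = 0 := by
  have h := D.bl
  have hx := x_letter R h x z
  set t := letter R x z with ht
  set W := J (J (io R c) (io R u * io R a) (io R v)) (io R t1) t with hW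
  have a1 := (D.ext.wx (io R t1) t).2
  rw [hx, J_smul3, ← hW] at a1
  have a2 : (X - C (3 * s) : R[X]) • W = 0 := by
    rw [sub_smul, a1, Ext.C_smul, sub_self]
  have a3 : W = 0 := by
    refine removal e D.toLoc _ _ a2 ?_
    rw [hW, pr_J, pr_J, pr_mul]
    exact (D.tq _).P33 (pr_eig _ h h1) (tq_letter _ h x z) (by rw [pt_C, en1])
      (by rw [pt_X, map_mul, map_ofNat, D.es]; norm_num)
  have a4 := congrArg (ev R 0) a3
  rw [ev_zero, hW, io_mul R h, io_J R h, ev_J3 R h, ht, ev_letter] at a4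
  exact a4

/-- All Jacobians with `E` vanish. -/
theorem Dat2.PW (D : Dat2 e A x a c u v α s υ m) (y z : A) :
    J (J c (u * a) v) y z = 0 := by
  have h := D.bl
  have hx := x_letter R h x y
  set t := letter R x y with ht
  set W := J (J (io R c) (io R u * io R a) (io R v)) t (io R z) with hW
  have a1 := (D.ext.wx t (io R z)).1
  rw [hx, J_smul2, ← hW] at a1
  have a2 : (X - C (3 * s) : R[X]) • W = 0 := by
    rw [sub_smul, a1, Ext.C_smul, sub_self]
  have a3 : W = 0 := by
    refine removal e D.toLoc _ _ a2 ?_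
    rw [hW, pr_J, pr_J, pr_mul]
    exact (D.tq _).PW3 (tq_letter _ h x y)
      (by rw [pt_X, map_mul, map_ofNat, D.es]; norm_num) _
  have a4 := congrArg (ev R 0) a3
  rw [ev_zero, hW, io_mul R h, io_J R h, ev_J2 R h, ht, ev_letter] at a4
  exact a4

/-- Products with three factors `x` are annihilated by `E`. -/
theorem Dat2.fx (D : Dat2 e A x a c u v α s υ m) (y z : A) :
    J c (u * a) v * ((x * (x * (x * y))) * z) = 0 ∧
    J c (u * a) v * (y * (x * (x * (x * z)))) = 0 := by
  have h := D.bl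
  have EX : ∀ y, J c (u * a) v * (x * y) = 0 := D.XW
  have EJ : ∀ y z, J (J c (u * a) v) y z = 0 := D.PW
  set E := J c (u * a) v with hE
  have XE : ∀ y, (x * y) * E = 0 := fun y => by rw [h.anti, EX, neg_zero]
  have A1 : ∀ y z, E * ((x * y) * (x * z)) = 0 := by
    intro y z
    have := EJ (x * y) (x * z)
    unfold J at this
    rw [EX, XE, zero_mul, zero_mul, zero_add, add_zero] at this
    rw [h.anti, this, neg_zero]
  have A2 : ∀ y z, E * ((x * y) * z) + E * (y * (x * z)) = E * J x y z := by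
    intro y z
    have := EX (y * z)
    rw [h.x_mul x y z, mul_sub, mul_add, sub_eq_zero] at this
    exact this
  have A3 : ∀ y z, E * ((x * (x * y)) * z) = E * (y * (x * (x * z))) := by
    intro y z
    have b1 := A2 (x * y) z
    have b2 := A2 y (x * z)
    rw [A1, add_zero] at b1
    rw [A1, zero_add] at b2
    rw [b1, b2, h.G_move]
  constructor
  · rw [A3, A1]
  · rw [← A3, A1]

/-- One weight near `0`. -/
theorem Dat2.PV0 (D : Dat2 e A x a c u v α s υ m) {t1 : A} {n1 : R}
    (h1 : x * t1 = n1 • t1) (en1 : e n1 = 0) (z : A) :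
    J c (u * a) v * (t1 * z) = 0 := by
  have h := D.bl
  have hx := x_letter R h x z
  set t := letter R x z with ht
  set W := J (io R c) (io R u * io R a) (io R v) * (io R t1 * t) with hW
  have a1 := (D.ext.fx (io R t1) t).2
  simp only [hx, mul_smul_comm] at a1
  rw [← hW] at a1
  have a2 : pr (pt e (e 0)) (Ext R A) W = 0 := by
    rw [hW, pr_mul, pr_J, pr_mul, pr_mul]
    exact (D.tq _).P00 (pr_eig _ h h1) (tq_letter _ h x z) (by rw [pt_C, en1])
      (by rw [pt_X, map_zero]) ((D.tq _).PW _ _)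
  have a3 : W = 0 := by
    refine removal e D.toLoc 0 _ ?_ a2
    rw [map_zero, sub_zero]
    refine removal e D.toLoc 0 _ ?_ (by rw [map_smul, a2, smul_zero])
    rw [map_zero, sub_zero]
    refine removal e D.toLoc 0 _ ?_ (by rw [map_smul, map_smul, a2, smul_zero, smul_zero])
    rw [map_zero, sub_zero]
    exact a1
  have a4 := congrArg (ev R 0) a3
  rw [ev_zero, hW, io_mul R h, io_J R h, ev_io_mul, ev_io_mul, ht, ev_letter] at a4
  exact a4

/-- `E` is annihilated by all products. -/
theorem Dat2.PV (D : Dat2 e A x a c u v α s υ m) (y z : A) :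
    J c (u * a) v * (y * z) = 0 := by
  have h := D.bl
  have hx := x_letter R h x y
  set t := letter R x y with ht
  set W := J (io R c) (io R u * io R a) (io R v) * (t * io R z) with hW
  have a1 := (D.ext.fx t (io R z)).1
  simp only [hx, mul_smul_comm, smul_mul_assoc] at a1
  rw [← hW] at a1
  have a2 : pr (pt e (e 0)) (Ext R A) W = 0 := by
    rw [hW, pr_mul, pr_J, pr_mul, pr_mul]
    exact (D.tq _).PV0 (tq_letter _ h x y) (by rw [pt_X, map_zero]) _
  have a3 : W = 0 := by
    refine removal e D.toLoc 0 _ ?_ a2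
    rw [map_zero, sub_zero]
    refine removal e D.toLoc 0 _ ?_ (by rw [map_smul, a2, smul_zero])
    rw [map_zero, sub_zero]
    refine removal e D.toLoc 0 _ ?_ (by rw [map_smul, map_smul, a2, smul_zero, smul_zero])
    rw [map_zero, sub_zero]
    exact a1
  have a4 := congrArg (ev R 0) a3
  rw [ev_zero, hW, io_mul R h, io_J R h, ev_io_mul, ev_mul_io R h, ht, ev_letter] at a4
  exact a4

/-- The local theorem. -/
theorem Dat2.main (D : Dat2 e A x a c u v α s υ m) (y z : A) :
    J (J c (u * a) v) y z = 0 ∧ J c (u * a) v * (y * z) = 0 :=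
  ⟨D.PW y z, D.PV y z⟩

end dat2

end Pool.Agent.BLie
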