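import Mathlib
import Pool.Agent.BLie.LocP

/-! From the local theorem to elements of an arbitrary algebra. -/

set_option linter.unusedSimpArgs false
set_option linter.unusedSectionVars false

namespace Pool.Agent.BLie

open Polynomial

universe u v w

/-- The value of a polynomial in four variables on a family with four indices. -/
noncomputable def S4 {F : Type*} [Field F] {B : Type*} [AddCommGroup B] [Module F B]
    (r : F[X][X][X][X]) (f : ℕ → ℕ → ℕ → ℕ → B) : B :=
  r.sum fun l r3 => r3.sum fun k r2 => r2.sum fun j r1 => r1.sum fun i r0 => r0 • f i j k l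

/-- Iterated left multiplication. -/
def pw {B : Type*} [Mul B] (x : B) (n : ℕ) (y : B) : B := (fun z => x * z)^[n] y

/-- The family of elements whose combination is the annihilator. -/
def fam {B : Type*} [NonUnitalNonAssocRing B] (x ba bc bu v : B) (i j k l : ℕ) : B :=
  J (pw x j bc) (pw x k bu * pw x i ba) (pw x l v)

/-- The point `(2, 1, -1, 2)`. -/
noncomputable def pt4 (F : Type*) [Field F] : F[X][X][X][X] →+* F :=
  pt (pt (pt (pt (RingHom.id F) 2) 1) (-1)) 2

theorem pt4_eq {F : Type*} [Field F] (r : F[X][X][X][X]) :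
    pt4 F r = r.sum fun l r3 => (r3.sum fun k r2 => (r2.sum fun j r1 =>
      (r1.sum fun i r0 => r0 * 2 ^ i) * 1 ^ j) * (-1) ^ k) * 2 ^ l := by
  unfold pt4 pt
  simp only [Polynomial.coe_eval₂RingHom, Polynomial.eval₂_eq_sum, RingHom.id_apply]

section evsum

variable {R : Type u} {A : Type u} [CommRing R] [NonUnitalNonAssocRing A] [Module R A]
  [IsScalarTower R A A] [SMulCommClass R A A]

/-- Evaluation as a linear map. -/
noncomputable def evL (n : ℕ) : Ext R A →ₗ[R] A where
  toFun := ev R n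
  map_add' := ev_add R n
  map_smul' := ev_smul R n

theorem ev_X_pow (i n : ℕ) (w : Ext R A) : ev R n ((X ^ i : R[X]) • w) = ev R (n + i) w := by
  induction i generalizing n with
  | zero => simp
  | succ i ih =>
    rw [pow_succ', mul_smul, ev_X, ih]
    congr 1
    ring

theorem ev_poly (p : R[X]) (w : Ext R A) :
    ev R 0 (p • w) = p.sum fun n a => a • ev R n w := by
  conv_lhs => rw [← p.sum_C_mul_X_pow_eq]
  rw [Polynomial.sum_def, Polynomial.sum_def, Finset.sum_smul]
  change evL 0 _ = _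
  rw [map_sum]
  refine Finset.sum_congr rfl fun n _ => ?_
  change ev R 0 _ = _
  rw [mul_smul, ev_C, ev_X_pow, zero_add]

theorem ev_sum {S : Type*} [Semiring S] {p : S[X]} (f : ℕ → S → Ext R A) :
    ev R 0 (p.sum f) = p.sum fun n a => ev R 0 (f n a) := by
  rw [Polynomial.sum_def, Polynomial.sum_def]
  change evL 0 _ = _
  rw [map_sum]
  rfl

end evsum

section trans

/-- `w` annihilates `yz` and has zero Jacobian with `y` and `z`. -/
def Kill {A : Type*} [NonUnitalNonAssocRing A] (w y z : A) : Prop :=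
  J w y z = 0 ∧ w * (y * z) = 0

theorem pw_eig {B : Type*} [NonUnitalNonAssocRing B] {R : Type*} [CommRing R] [Module R B]
    [SMulCommClass R B B] {x y : B} {ρ : R} (h : x * y = ρ • y) (n : ℕ) :
    pw x n y = ρ ^ n • y := by
  induction n with
  | zero => simp [pw]
  | succ n ih =>
    unfold pw at ih ⊢
    rw [Function.iterate_succ_apply', ih, mul_smul_comm, h, smul_smul, pow_succ]

variable {R : Type u} {A : Type u} [CommRing R] [NonUnitalNonAssocRing A] [Module R A]
  [IsScalarTower R A A] [SMulCommClass R A A]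

theorem io_eig' (h : BL A) {x a : A} {α : R} (ha : x * a = α • a) :
    io R x * io R a = (C α : R[X]) • io R a := by
  rw [Ext.C_smul, io_eig h ha]

theorem io_pw (h : BL A) (x a : A) (n : ℕ) : pw (io R x) n (io R a) = io R (pw x n a) := by
  induction n with
  | zero => rfl
  | succ n ih =>
    unfold pw at ih ⊢
    rw [Function.iterate_succ_apply', ih, io_mul R h, Function.iterate_succ_apply']

theorem Kill.ev (h : BL A) {w : Ext R A} {y z : A} (hw : Kill w (io R y) (io R z)) :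
    Kill (ev R 0 w) y z := by
  constructor
  · rw [← ev_J1 R h, hw.1, ev_zero]
  · rw [← ev_mul_io R h, ← io_mul R h, hw.2, ev_zero]

variable {F : Type v} [Field F] {e : R →+* F}

theorem lev1 (nz : ∀ N : ℤ, N ∣ 6 ^ 4 → (N : F) ≠ 0) (h : BL A) {x a c u : A} {α s υ : R}
    (ha : x * a = α • a) (hc : x * c = s • c) (hu : x * u = υ • u)
    (ea : e α = 2) (es : e s = 1) (eu : e υ = -1) (v y z : A) :
    ∃ r : R[X], pt e 2 r ≠ 0 ∧
      Kill (r.sum fun l p => p • J c (u * a) (pw x l v)) y z := by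
  have h2 : (2 : F) ≠ 0 := by
    have := nz 2 (by norm_num)
    exact_mod_cast this
  have D : Dat2 (pt e 2) (TQ (pt e 2) (Ext R A)) (pr _ _ (io R x)) (pr _ _ (io R a))
      (pr _ _ (io R c)) (pr _ _ (io R u)) (pr _ _ (letter R x v)) (C α) (C s) (C υ) X :=
    { toLoc := TQ.loc (pt e 2) h2 (Ext.bl h)
      ha := pr_eig 2 h ha
      hc := pr_eig 2 h hc
      hu := pr_eig 2 h hu
      ea := by rw [pt_C, ea]
      es := by rw [pt_C, es]
      eu := by rw [pt_C, eu]
      nz := nz
      hv := tq_letter 2 h x v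
      em := by rw [pt_X] }
  obtain ⟨m1, m2⟩ := D.main (pr _ _ (io R y)) (pr _ _ (io R z))
  rw [← pr_mul, ← pr_J, ← pr_J, pr_eq_zero] at m1
  rw [← pr_mul, ← pr_J, ← pr_mul, ← pr_mul, pr_eq_zero] at m2
  obtain ⟨r1, hr1, k1⟩ := m1
  obtain ⟨r2, hr2, k2⟩ := m2
  refine ⟨r1 * r2, by rw [map_mul]; exact mul_ne_zero hr1 hr2, ?_⟩
  set E := J (io R c) (io R u * io R a) (letter R x v) with hE
  have k3 : Kill ((r1 * r2) • E) (io R y) (io R z) := by
    constructor
    · rw [J_smul1, mul_comm, mul_smul, k1, smul_zero]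
    · rw [smul_mul_assoc, mul_smul, k2, smul_zero]
  have k4 := Kill.ev h k3
  rw [ev_poly] at k4
  have k5 : ∀ n, ev R n E = J c (u * a) (pw x n v) := by
    intro n
    rw [hE, io_mul R h, ev_J3 R h, ev_letter]
    rfl
  simp only [k5] at k4
  exact k4

theorem lev2 (nz : ∀ N : ℤ, N ∣ 6 ^ 4 → (N : F) ≠ 0) (h : BL A) {x a c : A} {α s : R}
    (ha : x * a = α • a) (hc : x * c = s • c)
    (ea : e α = 2) (es : e s = 1) (u v y z : A) :
    ∃ r : R[X][X], pt (pt e (-1)) 2 r ≠ 0 ∧
      Kill (r.sum fun l r1 => r1.sum fun k p => p • J c (pw x k u * a) (pw x l v)) y z := by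
  obtain ⟨r, hr, k1⟩ := lev1 (e := pt e (-1)) nz (Ext.bl (R := R) h) (io_eig' h ha)
    (io_eig' h hc) (x_letter R h x u) (by rw [pt_C, ea]) (by rw [pt_C, es]) (by rw [pt_X])
    (io R v) (io R y) (io R z)
  refine ⟨r, hr, ?_⟩
  have k2 := Kill.ev h k1
  rw [ev_sum] at k2
  simp only [ev_poly, io_pw h, ev_J2 R h, ev_mul_io R h, ev_letter] at k2
  exact k2

theorem lev3 (nz : ∀ N : ℤ, N ∣ 6 ^ 4 → (N : F) ≠ 0) (h : BL A) {x a : A} {α : R}
    (ha : x * a = α • a) (ea : e α = 2) (c u v y z : A) :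
    ∃ r : R[X][X][X], pt (pt (pt e 1) (-1)) 2 r ≠ 0 ∧
      Kill (r.sum fun l r2 => r2.sum fun k r1 => r1.sum fun j p =>
        p • J (pw x j c) (pw x k u * a) (pw x l v)) y z := by
  obtain ⟨r, hr, k1⟩ := lev2 (e := pt e 1) nz (Ext.bl (R := R) h) (io_eig' h ha)
    (x_letter R h x c) (by rw [pt_C, ea]) (by rw [pt_X]) (io R u)
    (io R v) (io R y) (io R z)
  refine ⟨r, hr, ?_⟩
  have k2 := Kill.ev h k1
  simp only [ev_sum, ev_poly, io_pw h, io_mul R h, ev_J1 R h, ev_letter] at k2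
  exact k2

theorem lev4 (nz : ∀ N : ℤ, N ∣ 6 ^ 4 → (N : F) ≠ 0) (h : BL A) (x a c u v y z : A) :
    ∃ r : R[X][X][X][X], pt (pt (pt (pt e 2) 1) (-1)) 2 r ≠ 0 ∧
      Kill (r.sum fun l r3 => r3.sum fun k r2 => r2.sum fun j r1 => r1.sum fun i p =>
        p • J (pw x j c) (pw x k u * pw x i a) (pw x l v)) y z := by
  obtain ⟨r, hr, k1⟩ := lev3 (e := pt e 2) nz (Ext.bl (R := R) h) (x_letter R h x a)
    (by rw [pt_X]) (io R c) (io R u) (io R v) (io R y) (io R z)
  refine ⟨r, hr, ?_⟩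
  have k2 := Kill.ev h k1
  have k3 : ∀ (n : ℕ) (b : A) (w : Ext R A) (b' b'' : A),
      ev R n (J (io R b) (io R b' * w) (io R b'')) = J b (b' * ev R n w) b'' := by
    intro n b w b' b''
    rw [ev_J2 R h, ev_io_mul]
  simp only [ev_sum, ev_poly, io_pw h, k3, ev_letter] at k2
  exact k2

end trans

section final

theorem nz6 {F : Type*} [Field F] (h : (6 : F) ≠ 0) (N : ℤ) (hN : N ∣ 6 ^ 4) :
    (N : F) ≠ 0 := by
  obtain ⟨k, hk⟩ := hN
  intro h0
  have h1 : (6 : F) ^ 4 = (N : F) * (k : F) := by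
    rw [← Int.cast_mul, ← hk, Int.cast_pow]
    norm_cast
  rw [h0, zero_mul] at h1
  exact h (pow_eq_zero_iff (by norm_num : (4 : ℕ) ≠ 0) |>.mp h1)

/-- In every algebra, for every two elements, some admissible combination is killed. -/
theorem kill_S4 {F : Type u} [Field F] (h6 : (6 : F) ≠ 0) {B : Type u}
    [NonUnitalNonAssocRing B] [Module F B] [IsScalarTower F B B] [SMulCommClass F B B]
    (h : BL B) (x ba bc bu v y z : B) :
    ∃ r : F[X][X][X][X], pt4 F r ≠ 0 ∧ Kill (S4 r (fam x ba bc bu v)) y z :=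
  lev4 (e := RingHom.id F) (nz6 h6) h x ba bc bu v y z

variable {F : Type*} [Field F] {B : Type*} [NonUnitalNonAssocRing B] [Module F B]
  {B' : Type*} [NonUnitalNonAssocRing B'] [Module F B']

theorem map_pw (φ : B →ₗ[F] B') (hφ : ∀ a b, φ (a * b) = φ a * φ b) (x y : B) (n : ℕ) :
    φ (pw x n y) = pw (φ x) n (φ y) := by
  induction n with
  | zero => rfl
  | succ n ih =>
    unfold pw at ih ⊢
    rw [Function.iterate_succ_apply', Function.iterate_succ_apply', hφ, ih]

theorem map_JJ (φ : B →ₗ[F] B') (hφ : ∀ a b, φ (a * b) = φ a * φ b) (x y z : B) :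
    φ (J x y z) = J (φ x) (φ y) (φ z) := by
  unfold J
  simp only [map_add, hφ]

theorem map_fam (φ : B →ₗ[F] B') (hφ : ∀ a b, φ (a * b) = φ a * φ b) (x ba bc bu v : B)
    (i j k l : ℕ) :
    φ (fam x ba bc bu v i j k l) = fam (φ x) (φ ba) (φ bc) (φ bu) (φ v) i j k l := by
  unfold fam
  rw [map_JJ φ hφ, hφ, map_pw φ hφ, map_pw φ hφ, map_pw φ hφ, map_pw φ hφ]

theorem map_S4 (φ : B →ₗ[F] B') (r : F[X][X][X][X]) (f : ℕ → ℕ → ℕ → ℕ → B) :
    φ (S4 r f) = S4 r fun i j k l => φ (f i j k l) := by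
  unfold S4
  simp only [Polynomial.sum_def, map_sum, map_smul]

/-- The value of `S4` at a family of eigenvectors. -/
theorem S4_eig (r : F[X][X][X][X]) (w : B) :
    S4 r (fun i j k l => ((2 : F) ^ i * 1 ^ j * (-1) ^ k * 2 ^ l) • w) = pt4 F r • w := by
  rw [pt4_eq]
  unfold S4
  simp only [Polynomial.sum_def, Finset.sum_smul, Finset.sum_mul, smul_smul]
  refine Finset.sum_congr rfl fun l _ => Finset.sum_congr rfl fun k _ =>
    Finset.sum_congr rfl fun j _ => Finset.sum_congr rfl fun i _ => ?_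
  congr 1
  ring

theorem fam_eig [IsScalarTower F B B] [SMulCommClass F B B] {x a c u v : B}
    (ha : x * a = (2 : F) • a) (hc : x * c = (1 : F) • c) (hu : x * u = (-1 : F) • u)
    (hv : x * v = (2 : F) • v) (i j k l : ℕ) :
    fam x a c u v i j k l = ((2 : F) ^ i * 1 ^ j * (-1) ^ k * 2 ^ l) • J c (u * a) v := by
  unfold fam
  rw [pw_eig ha, pw_eig hc, pw_eig hu, pw_eig hv]
  rw [J_smul1, smul_mul_assoc, mul_smul_comm, J_smul2, J_smul2, J_smul3]
  simp only [smul_smul]
  congr 1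
  ring

/-- The element does not vanish when `x` acts diagonally. -/
theorem S4_fam_eig [IsScalarTower F B B] [SMulCommClass F B B] {x a c u v : B}
    (ha : x * a = (2 : F) • a) (hc : x * c = (1 : F) • c) (hu : x * u = (-1 : F) • u)
    (hv : x * v = (2 : F) • v) (r : F[X][X][X][X]) :
    S4 r (fam x a c u v) = pt4 F r • J c (u * a) v := by
  rw [← S4_eig]
  congr 1
  funext i j k l
  exact fam_eig ha hc hu hv i j k l

end final

end Pool.Agent.BLie
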