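import Mathlib
import Pool.Agent.BLie.TQS
import Pool.Agent.BLie.Trans

/-! Uniform version of the vanishing result for four eigenvectors. -/

set_option linter.unusedSimpArgs false
set_option linter.unusedSectionVars false
set_option linter.unusedVariables false

namespace Pool.Agent.BLie

universe u

section uni

variable {R : Type u} [CommRing R] {S : Submonoid R} {B : Type u} [NonUnitalNonAssocRing B]
  [Module R B] [IsScalarTower R B B] [SMulCommClass R B B]

/-- Elements killed after multiplication by `y`. -/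
def WK (s : R) (x y : B) (η : R) (d : B) : Prop := s • (η • (d * y)) = 0 ∧ s • J x d y = 0

theorem WK.add {s : R} {x y : B} {η : R} {d d' : B} (h : WK s x y η d) (h' : WK s x y η d') :
    WK s x y η (d + d') := by
  constructor
  · rw [add_mul, smul_add, smul_add, h.1, h'.1, add_zero]
  · rw [J_add2, smul_add, h.2, h'.2, add_zero]

theorem WK.smul {s : R} {x y : B} {η : R} {d : B} (h : WK s x y η d) (r : R) :
    WK s x y η (r • d) := by
  constructor
  · rw [smul_mul_assoc, smul_comm η r, smul_comm s r, h.1, smul_zero]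
  · rw [J_smul2, smul_comm s r, h.2, smul_zero]

theorem WK.xmul (H : BL B) {s : R} {x y : B} {η : R} (hy : x * y = η • y) {d : B}
    (h : WK s x y η d) : WK s x y η (x * d) := by
  constructor
  · have e := H.x_mul x d y
    rw [hy, mul_smul_comm] at e
    have e' : (x * d) * y = x * (d * y) - η • (d * y) + J x d y := by
      rw [e]; abel
    have e1 : s • (η • (x * (d * y))) = 0 := by
      rw [← mul_smul_comm, ← mul_smul_comm, h.1, mul_zero]
    rw [e', smul_add, smul_sub, smul_add, smul_sub, e1, smul_comm s η (η • (d * y)), h.1,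
      smul_comm s η (J x d y), h.2]
    simp
  · rw [H.G_move, hy, J_smul3, smul_comm, h.2, smul_zero]

theorem WK.of {s s1 : R} (hs : ∃ r, s = r * s1) {x y : B} {η : R} {d : B} (h : s1 • d = 0) :
    WK s x y η d := by
  obtain ⟨r, rfl⟩ := hs
  have h' : (r * s1) • d = 0 := by rw [mul_smul, h, smul_zero]
  constructor
  · rw [smul_comm, ← smul_mul_assoc, h', zero_mul, smul_zero]
  · rw [← J_smul2, h', J_zero2]

theorem J_pw (H : BL B) {x g z : B} {ζ : R} (hz : x * z = ζ • z) (n : ℕ) :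
    J x (pw x n g) z = ζ ^ n • J x g z := by
  induction n with
  | zero => simp [pw]
  | succ n ih =>
    have e : pw x (n + 1) g = x * pw x n g := by
      unfold pw; rw [Function.iterate_succ_apply']
    rw [e, H.G_move, hz, J_smul3, ih, smul_smul, pow_succ, mul_comm]

/-- The scalars required to be in `S`. -/
structure InS (S : Submonoid R) (γ α ζ η : R) : Prop where
  two : (2 : R) ∈ S
  cγ : γ ∈ S
  cα : α ∈ S
  cζ : ζ ∈ S
  cγζ : γ - ζ ∈ S
  cαζ : α - ζ ∈ S
  c5 : α + ζ - γ ∈ S
  c6 : γ + ζ - α ∈ S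
  c7 : α + ζ ∈ S
  c8 : γ + ζ ∈ S
  sp : ∀ ρ ∈ Spec γ α ζ, η - ρ ∈ S

theorem uni1 (H : BL B) {x c a z y : B} {γ α ζ η : R} (hc : x * c = γ • c)
    (ha : x * a = α • a) (hz : x * z = ζ • z) (hy : x * y = η • y)
    (hS : InS S γ α ζ η) :
    ∃ s ∈ S, ∀ n : ℕ, s • (η • ((pw x n (J x c a) * z) * y)) = 0 := by
  have H' : BL (TS S B) := TS.bl S hS.two H
  have hc' : ps S B x * ps S B c = γ • ps S B c := by rw [← ps_mul, hc, map_smul]
  have ha' : ps S B x * ps S B a = α • ps S B a := by rw [← ps_mul, ha, map_smul]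
  have hz' : ps S B x * ps S B z = ζ • ps S B z := by rw [← ps_mul, hz, map_smul]
  have hy' : ps S B x * ps S B y = η • ps S B y := by rw [← ps_mul, hy, map_smul]
  obtain ⟨q1, q2⟩ := H'.claim1 hc' ha' hz' hy' (TS.can S hS.cγ) (TS.can S hS.cα)
    (TS.can S hS.cζ) (TS.can S hS.cγζ) (TS.can S hS.cαζ) (TS.can S hS.c5) (TS.can S hS.c6)
    (TS.can S hS.c7) (TS.can S hS.c8) (fun ρ hρ => TS.can S (hS.sp ρ hρ))
  obtain ⟨-, -, -, -, -, -, q3, q4⟩ := H'.s1 hc' ha' hz' (TS.can S hS.cγ) (TS.can S hS.cα)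
    (TS.can S hS.cζ) (TS.can S hS.cγζ) (TS.can S hS.cαζ)
  rw [← ps_J, ← ps_mul, ← map_smul, ps_eq_zero] at q1
  rw [← ps_J, ← ps_J, ps_eq_zero] at q2
  rw [← sub_eq_zero, ← ps_J, ← ps_J, ← ps_mul, ← ps_mul, ← map_smul, ← map_sub, ← map_sub,
    ps_eq_zero] at q3
  rw [← sub_eq_zero, ← ps_J, ← ps_J, ← ps_J, ← map_smul, ← map_sub, ps_eq_zero] at q4
  obtain ⟨s1, h1, q1⟩ := q1
  obtain ⟨s2, h2, q2⟩ := q2
  obtain ⟨s3, h3, q3⟩ := q3
  obtain ⟨s4, h4, q4⟩ := q4
  refine ⟨s1 * s2 * s3 * s4, S.mul_mem (S.mul_mem (S.mul_mem h1 h2) h3) h4, ?_⟩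
  set s := s1 * s2 * s3 * s4 with hs
  have wF : WK s x y η (J c a z) := by
    constructor
    · rw [hs, show s1 * s2 * s3 * s4 = (s2 * s3 * s4) * s1 by ring, mul_smul, q1, smul_zero]
    · rw [hs, show s1 * s2 * s3 * s4 = (s1 * s3 * s4) * s2 by ring, mul_smul, H.swap23 x,
        smul_neg, q2, neg_zero, smul_zero]
  have w3 : WK s x y η (J x c a * z - ((3 * γ) • J c a z - x * J c a z)) :=
    WK.of ⟨s1 * s2 * s4, by rw [hs]; ring⟩ q3
  have w4 : WK s x y η (J x z (J x c a) - ((γ + α - ζ) * (γ - ζ)) • J c a z) :=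
    WK.of ⟨s1 * s2 * s3, hs⟩ q4
  have wG : WK s x y η (J x c a * z) := by
    have := (w3.add (wF.smul (3 * γ))).add ((wF.xmul H hy).smul (-1))
    convert this using 1
    module
  have wJ : WK s x y η (J x z (J x c a)) := by
    have := w4.add (wF.smul ((γ + α - ζ) * (γ - ζ)))
    convert this using 1
    module
  have wn : ∀ n : ℕ, WK s x y η (pw x n (J x c a) * z) := by
    intro n
    induction n with
    | zero => exact wG
    | succ n ih =>
      have e : pw x (n + 1) (J x c a) = x * pw x n (J x c a) := by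
        unfold pw; rw [Function.iterate_succ_apply']
      have e2 := H.x_mul x (pw x n (J x c a)) z
      rw [hz, mul_smul_comm, J_pw H hz, H.swap23 x (J x c a) z] at e2
      have e3 : (x * pw x n (J x c a)) * z = x * (pw x n (J x c a) * z) +
          (-ζ) • (pw x n (J x c a) * z) + (-(ζ ^ n)) • J x z (J x c a) := by
        rw [e2]; module
      rw [e, e3]
      exact ((ih.xmul H hy).add (ih.smul _)).add (wJ.smul _)
  exact fun n => (wn n).1

end uni

end Pool.Agent.BLie
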