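import Mathlib
import Pool.Agent.BLie.Uni

/-! Functionals on iterated polynomial rings given by families of elements. -/

set_option linter.unusedSimpArgs false
set_option linter.unusedSectionVars false
set_option linter.unusedVariables false

namespace Pool.Agent.BLie

open Polynomial

universe u

section func

variable {R : Type u} [CommRing R] {A : Type u} [AddCommGroup A] [Module R A]

/-- One variable. -/
noncomputable def PE1 (f : ℕ → A) : R[X] →ₗ[R] A :=
  Polynomial.lsum fun n => LinearMap.toSpanSingleton R A (f n)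

/-- Two variables. -/
noncomputable def PE2 (f : ℕ → ℕ → A) : R[X][X] →ₗ[R] A :=
  Polynomial.lsum fun k => PE1 fun j => f j k

/-- Three variables. -/
noncomputable def PE3 (f : ℕ → ℕ → ℕ → A) : R[X][X][X] →ₗ[R] A :=
  Polynomial.lsum fun k => PE2 fun j i => f j i k

theorem PE1_monomial (f : ℕ → A) (n : ℕ) (r : R) : PE1 f (monomial n r) = r • f n := by
  unfold PE1
  rw [Polynomial.lsum_apply, Polynomial.sum_monomial_index _ _ (by simp)]
  rfl

theorem PE2_monomial (f : ℕ → ℕ → A) (k : ℕ) (p : R[X]) :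
    PE2 f (monomial k p) = PE1 (fun j => f j k) p := by
  unfold PE2
  rw [Polynomial.lsum_apply, Polynomial.sum_monomial_index _ _ (by simp)]

theorem PE3_monomial (f : ℕ → ℕ → ℕ → A) (k : ℕ) (p : R[X][X]) :
    PE3 f (monomial k p) = PE2 (fun j i => f j i k) p := by
  unfold PE3
  rw [Polynomial.lsum_apply, Polynomial.sum_monomial_index _ _ (by simp)]

theorem C0 {S : Type*} [CommRing S] (a : S) : (C a : S[X]) = monomial 0 a :=
  by rw [monomial_zero_left]

/-- Induction on polynomials in two variables. -/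
theorem ind2 {p : R[X][X] → Prop} (hadd : ∀ a b, p a → p b → p (a + b))
    (hm : ∀ k j r, p (monomial k (monomial j r))) (q : R[X][X]) : p q := by
  induction q using Polynomial.induction_on' with
  | add a b ha hb => exact hadd a b ha hb
  | monomial k q =>
    induction q using Polynomial.induction_on' with
    | add a b ha hb => rw [map_add]; exact hadd _ _ ha hb
    | monomial j r => exact hm k j r

/-- Induction on polynomials in three variables. -/
theorem ind3 {p : R[X][X][X] → Prop} (hadd : ∀ a b, p a → p b → p (a + b))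
    (hm : ∀ k i j r, p (monomial k (monomial i (monomial j r)))) (q : R[X][X][X]) : p q := by
  induction q using Polynomial.induction_on' with
  | add a b ha hb => exact hadd a b ha hb
  | monomial k q =>
    refine ind2 (p := fun q => p (monomial k q)) (fun a b ha hb => ?_) (fun i j r => hm k i j r) q
    rw [map_add]; exact hadd _ _ ha hb

/-- The embedding which omits the middle variable. -/
noncomputable def i1 : R[X][X] →+* R[X][X][X] := mapRingHom C

/-- The embedding which omits the inner variable. -/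
noncomputable def i2 : R[X][X] →+* R[X][X][X] := mapRingHom (mapRingHom C)

theorem i1_mon (k j : ℕ) (r : R) :
    i1 (monomial k (monomial j r)) = monomial k (C (monomial j r)) := by
  unfold i1; simp

theorem i2_mon (k i : ℕ) (r : R) :
    i2 (monomial k (monomial i r)) = monomial k (monomial i (C r)) := by
  unfold i2; simp

theorem PE3_i1 (f : ℕ → ℕ → ℕ → A) (q : R[X][X]) (i : ℕ) :
    PE3 f (i1 q * C (X ^ i)) = PE2 (fun j k => f j i k) q := by
  refine ind2 (p := fun q => PE3 f (i1 q * C (X ^ i)) = PE2 (fun j k => f j i k) q)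
    (fun a b ha hb => ?_) (fun k j r => ?_) q
  · rw [map_add, add_mul, map_add, ha, hb, map_add]
  · rw [i1_mon, C0 (X ^ i : R[X][X]), monomial_mul_monomial, C_mul_X_pow_eq_monomial,
      add_zero, PE3_monomial, PE2_monomial, PE1_monomial, PE2_monomial, PE1_monomial]

theorem PE3_i2 (f : ℕ → ℕ → ℕ → A) (q : R[X][X]) (j : ℕ) :
    PE3 f (i2 q * C (C (X ^ j))) = PE2 (fun i k => f j i k) q := by
  refine ind2 (p := fun q => PE3 f (i2 q * C (C (X ^ j))) = PE2 (fun i k => f j i k) q)
    (fun a b ha hb => ?_) (fun k i r => ?_) q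
  · rw [map_add, add_mul, map_add, ha, hb, map_add]
  · rw [i2_mon, C0 (C (X ^ j) : R[X][X]), monomial_mul_monomial,
      C0 (X ^ j : R[X]), monomial_mul_monomial, C_mul_X_pow_eq_monomial,
      add_zero, add_zero, PE3_monomial, PE2_monomial, PE1_monomial, PE2_monomial, PE1_monomial]

theorem PE3_C (f : ℕ → ℕ → ℕ → A) (m : R[X][X]) (k : ℕ) :
    PE3 f (C m * X ^ k) = PE2 (fun j i => f j i k) m := by
  rw [C_mul_X_pow_eq_monomial, PE3_monomial]

/-- Polynomials killing the family. -/
def AnnP (f : ℕ → ℕ → ℕ → A) : Set R[X][X][X] := {p | ∀ m, PE3 f (p * m) = 0}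

theorem AnnP_add {f : ℕ → ℕ → ℕ → A} {p q : R[X][X][X]} (hp : p ∈ AnnP f) (hq : q ∈ AnnP f) :
    p + q ∈ AnnP f := fun m => by rw [add_mul, map_add, hp m, hq m, add_zero]

theorem AnnP_mul {f : ℕ → ℕ → ℕ → A} {p : R[X][X][X]} (hp : p ∈ AnnP f) (q : R[X][X][X]) :
    q * p ∈ AnnP f := fun m => by
  rw [show q * p * m = p * (q * m) by ring]; exact hp _

theorem AnnP_i1 {f : ℕ → ℕ → ℕ → A} {s : R[X][X]}
    (h : ∀ i q, PE2 (fun j k => f j i k) (s * q) = 0) : i1 s ∈ AnnP f := by
  intro m
  refine ind3 (p := fun m => PE3 f (i1 s * m) = 0) (fun a b ha hb => ?_) (fun k i j r => ?_) m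
  · rw [mul_add, map_add, ha, hb, add_zero]
  · have e : (monomial k (monomial i (monomial j r)) : R[X][X][X]) =
        i1 (monomial k (monomial j r)) * C (X ^ i) := by
      rw [i1_mon, C0 (X ^ i : R[X][X]), monomial_mul_monomial, C_mul_X_pow_eq_monomial,
        add_zero]
    rw [e, ← mul_assoc, ← map_mul, PE3_i1, h]

theorem AnnP_i2 {f : ℕ → ℕ → ℕ → A} {s : R[X][X]}
    (h : ∀ j q, PE2 (fun i k => f j i k) (s * q) = 0) : i2 s ∈ AnnP f := by
  intro m
  refine ind3 (p := fun m => PE3 f (i2 s * m) = 0) (fun a b ha hb => ?_) (fun k i j r => ?_) m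
  · rw [mul_add, map_add, ha, hb, add_zero]
  · have e : (monomial k (monomial i (monomial j r)) : R[X][X][X]) =
        i2 (monomial k (monomial i r)) * C (C (X ^ j)) := by
      rw [i2_mon, C0 (C (X ^ j) : R[X][X]), monomial_mul_monomial,
        C0 (X ^ j : R[X]), monomial_mul_monomial, C_mul_X_pow_eq_monomial,
        add_zero, add_zero]
    rw [e, ← mul_assoc, ← map_mul, PE3_i2, h]

end func

section evs

variable {R : Type u} {A : Type u} [CommRing R] [NonUnitalNonAssocRing A] [Module R A]
  [IsScalarTower R A A] [SMulCommClass R A A]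

theorem ev_PE1 (p : R[X]) (w : Ext R A) : ev R 0 (p • w) = PE1 (fun n => ev R n w) p := by
  rw [ev_poly]
  unfold PE1
  rw [Polynomial.lsum_apply]
  rfl

theorem ev_PE2 (q : R[X][X]) (w : Ext R[X] (Ext R A)) :
    ev R 0 (ev R[X] 0 (q • w)) = PE2 (fun j k => ev R j (ev R[X] k w)) q := by
  rw [ev_poly, ev_sum]
  unfold PE2
  rw [Polynomial.lsum_apply]
  simp only [ev_PE1]

/-- The first component as a linear map. -/
noncomputable def fstL : Ext R A →ₗ[R[X]] (TensorProduct R R[X] A) where
  toFun w := w.1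
  map_add' := Ext.add_fst
  map_smul' := Ext.smul_fst

theorem el_fst_zero (f : ℕ → A) : (el 0 f : Ext R A).1 = 0 := by
  unfold el; simp

theorem ev_el (n : ℕ) (a : A) (f : ℕ → A) : ev R n (el a f) = f n := by
  unfold ev el
  simp only [LinearEquiv.apply_symm_apply]

theorem ext2_zero {w : Ext R[X] (Ext R A)} {f : ℕ → ℕ → A}
    (hw : w = el 0 (fun i => el 0 (fun j => f i j))) {r : R[X][X]}
    (h : ∀ m, ev R 0 (ev R[X] 0 ((r * m) • w)) = 0) : r • w = 0 := by
  have hf : ∀ i, (ev R[X] i w).1 = 0 := by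
    intro i
    rw [hw, ev_el, el_fst_zero]
  have hp : ∀ p : R[X][X], (ev R[X] 0 (p • w)).1 = 0 := by
    intro p
    rw [ev_poly, Polynomial.sum_def]
    change fstL _ = 0
    rw [map_sum]
    refine Finset.sum_eq_zero fun n _ => ?_
    rw [map_smul]
    change _ • (ev R[X] n w).1 = 0
    rw [hf, smul_zero]
  have hi : ∀ i (p : R[X][X]), ev R[X] i (p • w) = ev R[X] 0 ((X ^ i * p) • w) := by
    intro i p
    rw [mul_smul, ev_X_pow, zero_add]
  apply Ext.ext'
  · rw [Ext.smul_fst, hw, el_fst_zero, smul_zero]; rfl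
  · apply seq_ext
    intro i
    change ev R[X] i (r • w) = ev R[X] i 0
    rw [ev_zero]
    apply Ext.ext'
    · rw [hi, hp]; rfl
    · apply seq_ext
      intro j
      change ev R j (ev R[X] i (r • w)) = ev R j 0
      have e1 : ev R j (ev R[X] i (r • w)) = ev R 0 ((X ^ j : R[X]) • ev R[X] i (r • w)) := by
        rw [ev_X_pow, zero_add]
      rw [ev_zero, e1, hi, ← ev_C, ← mul_smul]
      have e2 : (C (X ^ j) * (X ^ i * r) : R[X][X]) = r * (C (X ^ j) * X ^ i) := by ring
      rw [e2]
      exact h _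

end evs

end Pool.Agent.BLie
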