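import Mathlib
import Pool.Agent.BLie.AB2
import Pool.Agent.BLie.LocD

/-! The element `E = P * Q`: all Jacobians with `E` and with `E * s` vanish. -/

set_option linter.unusedSimpArgs false
set_option linter.unusedSectionVars false
set_option linter.unusedVariables false

namespace Pool.Agent.BLie

open Polynomial

universe u v

/-- Admissible pairs of weights. -/
structure GoodW {F : Type v} [Field F] (w w' : F) : Prop where
  h2 : (2 : F) ≠ 0
  a : w ≠ 0
  b : w' ≠ 0
  ab : w - w' ≠ 0
  s : w + w' ≠ 0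
  s2 : 2 * w + w' ≠ 0
  s2' : 2 * w' + w ≠ 0
  s3 : 3 * w + w' ≠ 0
  s3' : 3 * w' + w ≠ 0

/-- Two generic eigenvectors whose product annihilates the image of `x`. -/
structure Dat3 {R : Type u} {F : Type v} [CommRing R] [Field F]
    (e : R →+* F) (A : Type u) [NonUnitalNonAssocRing A] [Module R A]
    (x P Q : A) (ω θ : R) (w w' : F) : Prop extends Loc e A where
  hP : x * P = ω • P
  hQ : x * Q = θ • Q
  eP : e ω = w
  eQ : e θ = w'
  EX : ∀ b, (P * Q) * (x * b) = 0
  gd : GoodW w w'

section lift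

variable {R : Type u} {F : Type v} [CommRing R] [Field F]
variable {e : R →+* F} {A : Type u} [NonUnitalNonAssocRing A] [Module R A]
  {x P Q : A} {ω θ : R} {w w' : F} [IsScalarTower R A A] [SMulCommClass R A A]

theorem Dat3.ext (D : Dat3 e A x P Q ω θ w w') :
    Dat3 e (Ext R A) (io R x) (io R P) (io R Q) ω θ w w' where
  toLoc := D.toLoc.ext_loc
  hP := io_eig D.bl D.hP
  hQ := io_eig D.bl D.hQ
  eP := D.eP
  eQ := D.eQ
  gd := D.gd
  EX := by
    refine span_ind (S := R[X]) span_el (fun b => (io R P * io R Q) * (io R x * b))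
      (fun x y => by simp only [mul_add]) (fun r x => by simp only [mul_smul_comm]) ?_
    rintro _ ⟨a, f, rfl⟩
    unfold io
    simp only [el_mul D.bl]
    rw [← el_zero]
    congr 1
    · exact D.EX a
    · funext n
      simp [D.EX]

theorem Dat3.tq (D : Dat3 e A x P Q ω θ w w') (n : F) :
    Dat3 (pt e n) (TQ (pt e n) (Ext R A)) (pr _ _ (io R x)) (pr _ _ (io R P)) (pr _ _ (io R Q))
      (C ω) (C θ) w w' where
  toLoc := TQ.loc (pt e n) D.gd.h2 (Ext.bl D.bl)
  hP := pr_eig n D.bl D.hP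
  hQ := pr_eig n D.bl D.hQ
  eP := by rw [pt_C, D.eP]
  eQ := by rw [pt_C, D.eQ]
  gd := D.gd
  EX := by
    intro b
    obtain ⟨b, rfl⟩ := pr_surj _ b
    rw [← pr_mul, ← pr_mul, ← pr_mul, D.ext.EX b, map_zero]

end lift

section dat3

variable {R : Type u} {F : Type v} [CommRing R] [Field F]
variable {e : R →+* F} {A : Type u} [NonUnitalNonAssocRing A] [Module R A]
  {x P Q : A} {ω θ : R} {w w' : F} [IsScalarTower R A A] [SMulCommClass R A A]

theorem Dat3.cn (D : Dat3 e A x P Q ω θ w w') {r : R} (h : e r ≠ 0) : Can A r :=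
  fun z hz => D.can r h z hz

theorem Dat3.cP (D : Dat3 e A x P Q ω θ w w') : Can A ω := D.cn (by rw [D.eP]; exact D.gd.a)

theorem Dat3.cQ (D : Dat3 e A x P Q ω θ w w') : Can A θ := D.cn (by rw [D.eQ]; exact D.gd.b)

theorem Dat3.cPQ (D : Dat3 e A x P Q ω θ w w') : Can A (ω - θ) :=
  D.cn (by rw [map_sub, D.eP, D.eQ]; exact D.gd.ab)

theorem Dat3.cS (D : Dat3 e A x P Q ω θ w w') : Can A (ω + θ) :=
  D.cn (by rw [map_add, D.eP, D.eQ]; exact D.gd.s)

theorem Dat3.PQ0 (D : Dat3 e A x P Q ω θ w w') : J x P Q = 0 :=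
  D.cPQ _ (D.bl.G_eig D.hP D.hQ)

theorem Dat3.xE (D : Dat3 e A x P Q ω θ w w') : x * (P * Q) = (ω + θ) • (P * Q) :=
  D.bl.eig_mul D.hP D.hQ D.PQ0

theorem Dat3.GE (D : Dat3 e A x P Q ω θ w w') (b : A) : J x (P * Q) b = 0 :=
  (D.bl.AB D.hP D.hQ D.cPQ D.cP D.cQ b).2.2

theorem Dat3.wx (D : Dat3 e A x P Q ω θ w w') (y z : A) :
    J (P * Q) (x * y) z = (ω + θ) • J (P * Q) y z ∧
    J (P * Q) y (x * z) = (ω + θ) • J (P * Q) y z ∧
    J x z ((P * Q) * y) = 0 := by
  have h := D.bl
  have e3 := D.xE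
  have GE' : ∀ y, J x (P * Q) y = 0 := D.GE
  have EX : ∀ y, (P * Q) * (x * y) = 0 := D.EX
  set E := P * Q with hE
  have XE : ∀ y, (x * y) * E = 0 := fun y => by rw [h.anti, EX, neg_zero]
  have A1 : ∀ y z, (ω + θ) • J E y z = J E (x * y) z + J x y (z * E) := by
    intro y z
    have g1 := gg_x1 x E y z
    have g2 := h.gg_x2 x E y z
    rw [e3, J_smul1, GE', add_zero] at g1
    rw [g1, J_cyc' (x * y) z E] at g2
    exact g2
  have A2 : ∀ y z, (ω + θ) • J E y z = J E y (x * z) + J x z (E * y) := by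
    intro y z
    have g1 := gg_x1 x E y z
    have g2 := h.gg_x3 x E y z
    rw [e3, J_smul1, GE', add_zero] at g1
    rw [g1, J_cyc (x * z) E y] at g2
    exact g2
  have B : ∀ y z, J E y (x * z) = J E (x * y) z := by
    intro y z
    have a1 := A1 y (x * z)
    have a2 := A2 (x * y) z
    rw [XE, J_zero3, add_zero] at a1
    rw [EX, J_zero3, add_zero] at a2
    rw [← sub_eq_zero]
    refine D.cS _ ?_
    rw [smul_sub, a1, a2, sub_self]
  have C' : ∀ y z, J x y (z * E) = J x z (E * y) := by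
    intro y z
    have a1 := A1 y z
    have a2 := A2 y z
    rw [a1, B] at a2
    exact add_left_cancel a2
  have C2 : ∀ y z, J x z (E * y) = 0 := by
    intro y z
    have b1 := C' y (x * z)
    have b2 := h.x_mul x E y
    rw [e3, EX, GE', add_zero, sub_zero, smul_mul_assoc] at b2
    rw [XE, J_zero3, h.G_move, b2, J_smul3] at b1
    exact D.cS _ b1.symm
  refine ⟨?_, ?_, C2 y z⟩
  · have := A1 y z
    rw [C', C2, add_zero] at this
    exact this.symm
  · have := A2 y z
    rw [C2, add_zero] at this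
    exact this.symm

/-- Half of the computation near the weight `w + w'`. -/
theorem BL.half (h : BL A) (w w' : F) (gd : GoodW w w') (H : Loc e A) {x P Q s t : A}
    {ω θ σ τ : R} (hP : x * P = ω • P) (hQ : x * Q = θ • Q) (hs : x * s = σ • s)
    (ht : x * t = τ • t) (eP : e ω = w) (eQ : e θ = w') (es : e σ = w + w')
    (et : e τ = w + w') :
    J (P * s) t Q = 0 ∧ J x Q (P * (s * t)) = 0 := by
  have cn : ∀ r : R, e r ≠ 0 → Can A r := fun r hr z hz => H.can r hr z hz
  have gPs : J x P s = 0 := cn (ω - σ) (by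
    rw [map_sub, eP, es]; simpa using gd.b) _ (h.G_eig hP hs)
  have gtP : J x t P = 0 := cn (τ - ω) (by
    rw [map_sub, eP, et]; simpa using gd.b) _ (h.G_eig ht hP)
  have hPs := h.eig_mul hP hs gPs
  have htP := h.eig_mul ht hP gtP
  have w2 : 2 * w ≠ 0 := mul_ne_zero gd.h2 gd.a
  obtain ⟨k1, -⟩ := h.AB_eig hPs hQ ht
    (cn _ (by
      rw [map_sub, map_add, eP, es, eQ]
      intro h0; apply w2; linear_combination h0))
    (cn _ (by
      rw [map_add, eP, es]
      intro h0; apply gd.s2; linear_combination h0))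
    (cn _ (by rw [eQ]; exact gd.b))
    (cn _ (by
      rw [map_sub, map_add, eP, es, et]
      intro h0; apply gd.a; linear_combination -h0))
    (cn _ (by
      rw [map_sub, et, eQ]
      intro h0; apply gd.a; linear_combination h0))
  refine ⟨by rw [h.swap23, k1, neg_zero], ?_⟩
  -- the products with `P`
  have cs : Can A σ := cn _ (by rw [es]; exact gd.s)
  have ct : Can A τ := cn _ (by rw [et]; exact gd.s)
  have cP : Can A ω := cn _ (by rw [eP]; exact gd.a)
  have csP : Can A (σ - ω) := cn _ (by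
    rw [map_sub, eP, es]
    intro h0; apply gd.b; linear_combination h0)
  have ctP : Can A (τ - ω) := cn _ (by
    rw [map_sub, eP, et]
    intro h0; apply gd.b; linear_combination h0)
  have cPQ : Can A (ω - θ) := cn _ (by rw [map_sub, eP, eQ]; exact gd.ab)
  obtain ⟨f1, f2⟩ := h.step2 hs ht hP hQ cs ct cP csP ctP cPQ
    (cn _ (by
      simp only [map_sub, map_add, eP, es, et, eQ]
      intro h0; apply gd.s3; linear_combination -h0))
    (cn _ (by
      simp only [map_sub, map_add, map_mul, map_ofNat, eP, es, et, eQ]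
      intro h0; apply w2; linear_combination -h0))
  rw [h.anti P (s * t), J_neg3, f2, neg_zero]

/-- Both weights near `w + w'`. -/
theorem Dat3.near (D : Dat3 e A x P Q ω θ w w') {s t : A} {σ τ : R}
    (hs : x * s = σ • s) (ht : x * t = τ • t) (es : e σ = w + w') (et : e τ = w + w') :
    J (P * Q) s t = 0 := by
  have h := D.bl
  obtain ⟨k1, k2⟩ := h.half w w' D.gd D.toLoc D.hP D.hQ hs ht D.eP D.eQ es et
  have gd' : GoodW w' w :=
    { h2 := D.gd.h2, a := D.gd.b, b := D.gd.a
      ab := fun h0 => D.gd.ab (by linear_combination -h0)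
      s := by rw [add_comm]; exact D.gd.s
      s2 := D.gd.s2', s2' := D.gd.s2, s3 := D.gd.s3', s3' := D.gd.s3 }
  obtain ⟨l1, l2⟩ := h.half w' w gd' D.toLoc D.hQ D.hP ht hs D.eQ D.eP
    (by rw [et, add_comm]) (by rw [es, add_comm])
  -- `J (P * s) t Q = 0` and `J (Q * t) s P = 0`
  have g : gg P Q s t = 0 := by
    rw [h.gg_cyc, h.gg_cyc, h.gg_swap34, ← h.gg_swap34, ← h.gg_cyc, ← h.gg_cyc, h.gg_cyc]
    unfold gg
    rw [k1, h.anti t Q, J_neg1, h.swap23, l1]
    simp
  have k : J (P * Q) s t = -J P Q (s * t) := by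
    unfold gg at g
    rw [J_cyc (s * t) P Q] at g
    exact eq_neg_of_add_eq_zero_left g
  rw [k, neg_eq_zero]
  obtain ⟨t1, -⟩ := h.three D.hP D.hQ (s * t)
  have l2' : J x P (Q * (s * t)) = 0 := by
    rw [h.anti s t, mul_neg, J_neg3, l2, neg_zero]
  rw [k2, l2'] at t1
  apply D.cPQ
  linear_combination (norm := module) t1

/-- One weight near `w + w'`. -/
theorem Dat3.near1 (D : Dat3 e A x P Q ω θ w w') {s : A} {σ : R}
    (hs : x * s = σ • s) (es : e σ = w + w') (z : A) :
    J (P * Q) s z = 0 := by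
  have h := D.bl
  have hx := x_letter R h x z
  set t := letter R x z with ht
  set W := J (io R P * io R Q) (io R s) t with hW
  have a1 := (D.ext.wx (io R s) t).2.1
  rw [hx, J_smul3, ← hW] at a1
  have a2 : (X - C (ω + θ) : R[X]) • W = 0 := by
    rw [sub_smul, a1, Ext.C_smul, sub_self]
  have a3 : W = 0 := by
    refine removal e D.toLoc _ _ a2 ?_
    rw [hW, pr_J, pr_mul]
    exact (D.tq _).near (pr_eig _ h hs) (tq_letter _ h x z) (by rw [pt_C, es])
      (by rw [pt_X, map_add, D.eP, D.eQ])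
  have a4 := congrArg (ev R 0) a3
  rw [ev_zero, hW, io_mul R h, ev_J3 R h, ht, ev_letter] at a4
  exact a4

/-- All Jacobians with `E` vanish. -/
theorem Dat3.JE (D : Dat3 e A x P Q ω θ w w') (y z : A) : J (P * Q) y z = 0 := by
  have h := D.bl
  have hx := x_letter R h x y
  set t := letter R x y with ht
  set W := J (io R P * io R Q) t (io R z) with hW
  have a1 := (D.ext.wx t (io R z)).1
  rw [hx, J_smul2, ← hW] at a1
  have a2 : (X - C (ω + θ) : R[X]) • W = 0 := by
    rw [sub_smul, a1, Ext.C_smul, sub_self]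
  have a3 : W = 0 := by
    refine removal e D.toLoc _ _ a2 ?_
    rw [hW, pr_J, pr_mul]
    exact (D.tq _).near1 (tq_letter _ h x y) (by rw [pt_X, map_add, D.eP, D.eQ]) _
  have a4 := congrArg (ev R 0) a3
  rw [ev_zero, hW, io_mul R h, ev_J2 R h, ht, ev_letter] at a4
  exact a4

/-- All Jacobians with `E * s` vanish. -/
theorem Dat3.JEs (D : Dat3 e A x P Q ω θ w w') (s t r : A) : J ((P * Q) * s) t r = 0 := by
  have h := D.bl
  have e3 := D.xE
  have GE := D.GE
  have EX := D.EX
  have C2 : ∀ y z, J x z ((P * Q) * y) = 0 := fun y z => (D.wx y z).2.2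
  have JE : ∀ y z, J (P * Q) y z = 0 := D.JE
  have cS := D.cS
  set E := P * Q with hE
  have psi : ∀ s t r, J (E * s) t r = gg E s t r := by
    intro s t r
    unfold gg
    rw [J_cyc (t * r) E s, JE, add_zero]
  have xs0 : ∀ s t r, gg E s t (x * r) = 0 := by
    intro s t r
    rw [h.gg_cyc, h.gg_cyc, ← psi, EX, J_zero1]
  have hEs : ∀ s, x * (E * s) = (ω + θ) • (E * s) := by
    intro s
    rw [h.x_mul, e3, EX, GE, add_zero, sub_zero, smul_mul_assoc]
  have main : ∀ s t r, (ω + θ) • J (E * s) t r = J x r ((E * s) * t) := by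
    intro s t r
    have k1 := gg_x1 x (E * s) t r
    have k3 := h.gg_x3 x (E * s) t r
    have c : J x (E * s) (t * r) = 0 := by rw [h.swap23, C2, neg_zero]
    rw [hEs, J_smul1, c, add_zero] at k1
    rw [J_cyc (x * r) (E * s) t, psi s t (x * r), xs0, zero_add] at k3
    rw [← k1, k3]
  have sym : ∀ s t r, J x r ((E * s) * t) = J x r ((E * t) * s) := by
    intro s t r
    have k := JE s t
    have e : (E * s) * t = E * (s * t) + (E * t) * s := by
      unfold J at k
      rw [h.anti (s * t) E, h.anti t E, neg_mul] at k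
      rw [← sub_eq_zero, ← k]
      abel
    rw [e, J_add3, C2, zero_add]
  have key : (ω + θ) • J (E * s) t r = 0 := by
    apply h.two
    have k1 := main s t r
    have k2 := main t s r
    have k3 : gg E t s r = -gg E s t r := by rw [h.gg_cyc, h.gg_swap34]
    rw [← sym, ← k1, psi, psi, k3] at k2
    rw [psi]
    linear_combination (norm := module) -(1 : ℤ) • k2
  exact cS _ key

end dat3

end Pool.Agent.BLie
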