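import Mathlib
import Pool.Agent.BLie.Func
import Pool.Agent.BLie.LocE

/-! The product of two generic eigenvectors annihilates the image of `x`. -/

set_option linter.unusedSimpArgs false
set_option linter.unusedSectionVars false
set_option linter.unusedVariables false

namespace Pool.Agent.BLie

open Polynomial

universe u v

section spec

variable {R S : Type*} [CommRing R] [CommRing S] (φ : R →+* S) {γ α ζ : R}

theorem Spec_map {ρ : R} (h : ρ ∈ Spec γ α ζ) : φ ρ ∈ Spec (φ γ) (φ α) (φ ζ) := by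
  simp only [Spec, Set.mem_insert_iff, Set.mem_singleton_iff] at h
  have e2 : φ 2 = 2 := map_ofNat φ 2
  rcases h with h | h | h | h | h | h | h | h | h | h | h <;>
    (rw [h]; first | (simp [Spec]; done) |
      (simp only [map_add, map_sub, map_mul, e2]; simp [Spec]; done))

theorem Spec_lift {ρ : S} (h : ρ ∈ Spec (φ γ) (φ α) (φ ζ)) : ∃ ρ0 ∈ Spec γ α ζ, φ ρ0 = ρ := by
  have e2 : φ 2 = 2 := map_ofNat φ 2
  simp only [Spec, Set.mem_insert_iff, Set.mem_singleton_iff] at h
  rcases h with h | h | h | h | h | h | h | h | h | h | h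
  · exact ⟨γ, by simp [Spec], by rw [h]⟩
  · exact ⟨α, by simp [Spec], by rw [h]⟩
  · exact ⟨ζ, by simp [Spec], by rw [h]⟩
  · exact ⟨γ + α + ζ, by simp [Spec], by rw [h]; simp [e2]⟩
  · exact ⟨2 * γ - α + ζ, by simp [Spec], by rw [h]; simp [e2]⟩
  · exact ⟨α + ζ, by simp [Spec], by rw [h]; simp [e2]⟩
  · exact ⟨γ + ζ, by simp [Spec], by rw [h]; simp [e2]⟩
  · exact ⟨ζ - γ, by simp [Spec], by rw [h]; simp [e2]⟩
  · exact ⟨ζ - α, by simp [Spec], by rw [h]; simp [e2]⟩
  · exact ⟨γ - α - ζ, by simp [Spec], by rw [h]; simp [e2]⟩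
  · exact ⟨γ - ζ, by simp [Spec], by rw [h]; simp [e2]⟩

end spec

section smon

variable {R : Type u} {F : Type v} [CommRing R] [Field F] (e : R →+* F)

/-- Admissible scalars. -/
noncomputable def SMon (ζ : F) (D : Set R[X]) : Submonoid R[X][X] :=
  Submonoid.closure ({p | ∃ r, pt e ζ r ≠ 0 ∧ p = C r} ∪ {p | ∃ ρ ∈ D, p = X - C ρ})

variable {e}

theorem SMon_C {ζ : F} {D : Set R[X]} {r : R[X]} (h : pt e ζ r ≠ 0) : C r ∈ SMon e ζ D :=
  Submonoid.subset_closure (Or.inl ⟨r, h, rfl⟩)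

theorem SMon_in {ζ k : F} {γ α : R} (h2 : (2 : F) ≠ 0) (hγ : e γ = k) (hα : e α = k)
    (h0 : k ≠ 0) (hζ : ζ ≠ 0) (h1 : k - ζ ≠ 0) (h1' : k + ζ ≠ 0) :
    InS (SMon e ζ (Spec (C γ) (C α) X)) (C (C γ)) (C (C α)) (C X) X where
  two := by
    have := SMon_C (e := e) (ζ := ζ) (D := Spec (C γ) (C α) X) (r := 2)
      (by rw [map_ofNat]; exact h2)
    have e2 : (C 2 : R[X][X]) = 2 := map_ofNat C 2
    rw [e2] at this
    exact this
  cγ := SMon_C (by rw [pt_C, hγ]; exact h0)
  cα := SMon_C (by rw [pt_C, hα]; exact h0)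
  cζ := SMon_C (by rw [pt_X]; exact hζ)
  cγζ := by rw [← C_sub]; exact SMon_C (by rw [map_sub, pt_C, pt_X, hγ]; exact h1)
  cαζ := by rw [← C_sub]; exact SMon_C (by rw [map_sub, pt_C, pt_X, hα]; exact h1)
  c5 := by
    rw [← C_add, ← C_sub]
    exact SMon_C (by rw [map_sub, map_add, pt_C, pt_C, pt_X, hγ, hα]; simpa using hζ)
  c6 := by
    rw [← C_add, ← C_sub]
    exact SMon_C (by rw [map_sub, map_add, pt_C, pt_C, pt_X, hγ, hα]; simpa using hζ)
  c7 := by rw [← C_add]; exact SMon_C (by rw [map_add, pt_C, pt_X, hα]; exact h1')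
  c8 := by rw [← C_add]; exact SMon_C (by rw [map_add, pt_C, pt_X, hγ]; exact h1')
  sp := by
    intro ρ hρ
    obtain ⟨ρ0, h, rfl⟩ := Spec_lift C hρ
    exact Submonoid.subset_closure (Or.inr ⟨ρ0, h, rfl⟩)

/-- Coprimality at a point. -/
def Cop (e2 : R[X][X] →+* F) (f g : R[X][X][X]) : Prop :=
  ∃ a b r, e2 r ≠ 0 ∧ a * f + b * g = C r

theorem Cop.symm {e2 : R[X][X] →+* F} {f g : R[X][X][X]} (h : Cop e2 f g) : Cop e2 g f := by
  obtain ⟨a, b, r, hr, k⟩ := h
  exact ⟨b, a, r, hr, by rw [add_comm]; exact k⟩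

theorem Cop.mul {e2 : R[X][X] →+* F} {f f' g : R[X][X][X]} (h : Cop e2 f g)
    (h' : Cop e2 f' g) : Cop e2 (f * f') g := by
  obtain ⟨a, b, r, hr, k⟩ := h
  obtain ⟨a', b', r', hr', k'⟩ := h'
  refine ⟨a * a', a * f * b' + b * a' * f' + b * b' * g, r * r',
    by rw [map_mul]; exact mul_ne_zero hr hr', ?_⟩
  rw [C_mul, ← k, ← k']
  ring

theorem Cop.one {e2 : R[X][X] →+* F} {g : R[X][X][X]} : Cop e2 1 g :=
  ⟨1, 0, 1, by rw [map_one]; exact one_ne_zero, by simp⟩

theorem Cop.C {e2 : R[X][X] →+* F} {g : R[X][X][X]} {r : R[X][X]} (h : e2 r ≠ 0) :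
    Cop e2 (Polynomial.C r) g :=
  ⟨1, 0, r, h, by simp⟩

theorem pt_map (n m : F) (p : R[X]) : pt (pt e n) m (p.map Polynomial.C) = pt e m p := by
  unfold pt
  simp only [Polynomial.coe_eval₂RingHom, Polynomial.eval₂_map]
  congr 1
  ext r
  simp

theorem copS {w w' : F} {D D' : Set R[X]} (hd : ∀ ρ ∈ D, ∀ ρ' ∈ D', pt e w' ρ ≠ pt e w ρ')
    {s s' : R[X][X]} (hs : s ∈ SMon e w' D) (hs' : s' ∈ SMon e w D') :
    Cop (pt (pt e w') w) (i1 s) (i2 s') := by
  unfold SMon at hs hs'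
  induction hs using Submonoid.closure_induction with
  | mem p hp =>
    rcases hp with ⟨r, hr, rfl⟩ | ⟨ρ, hρ, rfl⟩
    · have : (i1 (C r) : R[X][X][X]) = C (C r) := by unfold i1; simp
      rw [this]
      exact Cop.C (by rw [pt_C]; exact hr)
    · apply Cop.symm
      induction hs' using Submonoid.closure_induction with
      | mem p hp =>
        rcases hp with ⟨r, hr, rfl⟩ | ⟨ρ', hρ', rfl⟩
        · have : (i2 (C r) : R[X][X][X]) = C (r.map C) := by unfold i2; simp
          rw [this]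
          exact Cop.C (by rw [pt_map]; exact hr)
        · have h1 : (i1 (X - C ρ) : R[X][X][X]) = X - C (C ρ) := by unfold i1; simp
          have h2 : (i2 (X - C ρ') : R[X][X][X]) = X - C (ρ'.map C) := by unfold i2; simp
          rw [h1, h2]
          refine ⟨1, -1, C ρ - ρ'.map C, ?_, ?_⟩
          · rw [map_sub, pt_C, pt_map, sub_ne_zero]
            exact hd ρ hρ ρ' hρ'
          · rw [C_sub]; ring
      | one => rw [map_one]; exact Cop.one
      | mul a b _ _ ha hb => rw [map_mul]; exact ha.mul hb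
  | one => rw [map_one]; exact Cop.one
  | mul a b _ _ ha hb => rw [map_mul]; exact ha.mul hb

end smon

section bridge

variable {R : Type u} {F : Type v} [CommRing R] [Field F] {e : R →+* F}
  {A : Type u} [NonUnitalNonAssocRing A] [Module R A]
  [IsScalarTower R A A] [SMulCommClass R A A]

/-- The family of products. -/
def Fam3 (x G H y : A) (j i k : ℕ) : A := (pw x i G * pw x j H) * pw x k y

theorem io2_eig (h : BL A) {x a : A} {α : R} (ha : x * a = α • a) :
    io R[X] (io R x) * io R[X] (io R a) = (C (C α) : R[X][X]) • io R[X] (io R a) :=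
  io_eig' (Ext.bl h) (io_eig' h ha)

theorem x2_letter (h : BL A) (x g : A) :
    io R[X] (io R x) * io R[X] (letter R x g) = (C X : R[X][X]) • io R[X] (letter R x g) := by
  rw [io_mul R[X] (Ext.bl h), x_letter R h, io_smul, Ext.C_smul]

theorem io2_pw (h : BL A) (x g : A) (n : ℕ) :
    pw (io R[X] (io R x)) n (io R[X] (io R g)) = io R[X] (io R (pw x n g)) := by
  rw [io_pw (Ext.bl h), io_pw h]

theorem io2_J (h : BL A) (a b c : A) :
    J (io R[X] (io R a)) (io R[X] (io R b)) (io R[X] (io R c)) = io R[X] (io R (J a b c)) := by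
  rw [io_J _ (Ext.bl h), io_J _ h]

theorem PQ_el (h : BL A) (x G H b : A) :
    (letter R[X] (io R x) (io R G) * io R[X] (letter R x H)) * io R[X] (io R b) =
      el 0 (fun i => el 0 (fun j => (pw x i G * pw x j H) * b)) := by
  have hB := Ext.bl (R := R) h
  have e0 : letter R[X] (io R x) (io R G) = el 0 (fun n => io R (pw x n G)) := by
    unfold letter
    congr 1
    funext n
    exact io_pw h x G n
  rw [e0]
  have e1 : (el 0 (fun n => io R (pw x n G)) : Ext R[X] (Ext R A)) * io R[X] (letter R x H) =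
      el 0 (fun n => io R (pw x n G) * letter R x H) := by
    unfold io
    rw [el_mul hB]
    congr 1
    · rw [zero_mul]
    · funext n; simp
  have e2 : ∀ n, io R (pw x n G) * letter R x H =
      (el 0 (fun j => pw x n G * pw x j H) : Ext R A) := by
    intro n
    unfold io letter
    rw [el_mul h]
    congr 1
    · rw [mul_zero]
    · funext j
      simp [pw]
  rw [e1]
  simp only [e2]
  unfold io
  rw [el_mul hB]
  congr 1
  · rw [zero_mul]
  · funext i
    rw [mul_zero, zero_add, el_mul h]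
    congr 1
    · rw [zero_mul]
    · funext j
      simp

theorem A2a (h : BL A) (h2 : (2 : F) ≠ 0) {x c a : A} {γ α : R} (hc : x * c = γ • c)
    (ha : x * a = α • a) {k ζ : F} (hγ : e γ = k) (hα : e α = k)
    (h0 : k ≠ 0) (hζ : ζ ≠ 0) (h1 : k - ζ ≠ 0) (h1' : k + ζ ≠ 0) (H y : A) :
    ∃ s ∈ SMon e ζ (Spec (C γ) (C α) X), ∀ n : ℕ,
      s • ((X : R[X][X]) • ((io R[X] (io R (pw x n (J x c a))) * io R[X] (letter R x H)) *
        letter R[X] (io R x) (io R y))) = 0 := by
  obtain ⟨s, hs, hk⟩ := uni1 (Ext.bl (R := R[X]) (Ext.bl (R := R) h)) (io2_eig h hc)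
    (io2_eig h ha) (x2_letter h x H) (x_letter R[X] (Ext.bl h) (io R x) (io R y))
    (SMon_in (e := e) h2 hγ hα h0 hζ h1 h1')
  refine ⟨s, hs, fun n => ?_⟩
  have := hk n
  rw [io2_J h, io2_pw h] at this
  exact this

theorem A2 (h : BL A) (h2 : (2 : F) ≠ 0) {x c a u v : A} {γ α μ ν : R} (hc : x * c = γ • c)
    (ha : x * a = α • a) (hu : x * u = μ • u) (hv : x * v = ν • v) {k l w w' : F}
    (hγ : e γ = k) (hα : e α = k) (hμ : e μ = l) (hν : e ν = l)
    (k0 : k ≠ 0) (l0 : l ≠ 0) (hw : w ≠ 0) (hw' : w' ≠ 0) (k1 : k - w' ≠ 0) (k1' : k + w' ≠ 0)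
    (l1 : l - w ≠ 0) (l1' : l + w ≠ 0)
    (hd : ∀ ρ ∈ Spec k k w', ∀ ρ' ∈ Spec l l w, ρ ≠ ρ') (y : A) :
    ∃ r : R[X][X], pt (pt e w') w r ≠ 0 ∧
      r • ((letter R[X] (io R x) (io R (J x c a)) * io R[X] (letter R x (J x u v))) *
        io R[X] (io R (x * y))) = 0 := by
  set G := J x c a with hG
  set H := J x u v with hH
  obtain ⟨s, hs, k1⟩ := A2a (e := e) h h2 hc ha hγ hα k0 hw' k1 k1' H y
  obtain ⟨s', hs', k2⟩ := A2a (e := e) h h2 hu hv hμ hν l0 hw l1 l1' G y
  rw [← hG] at k1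
  rw [← hH] at k2
  have hB := Ext.bl (R := R) h
  have hBB := Ext.bl (R := R[X]) hB
  have m1 : i1 (X * s) ∈ AnnP (Fam3 x G H y) := by
    apply AnnP_i1
    intro i q
    have e1 := ev_PE2 (X * s * q) ((io R[X] (io R (pw x i G)) * io R[X] (letter R x H)) *
        letter R[X] (io R x) (io R y))
    rw [show X * s * q = q * (s * X) by ring, mul_smul, mul_smul, k1, smul_zero, ev_zero,
      ev_zero] at e1
    rw [show X * s * q = q * (s * X) by ring, e1]
    congr 2
    funext j k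
    rw [io_mul _ hB, ev_io_mul, ev_letter]
    have : (fun z => io R x * z)^[k] (io R y) = io R (pw x k y) := io_pw h x y k
    rw [this, ev_mul_io _ h, ev_io_mul, ev_letter]
    rfl
  have m2 : i2 (X * s') ∈ AnnP (Fam3 x G H y) := by
    apply AnnP_i2
    intro j q
    have e1 := ev_PE2 (X * s' * q) ((io R[X] (letter R x G) * io R[X] (io R (pw x j H))) *
        letter R[X] (io R x) (io R y))
    rw [hBB.anti (io R[X] (letter R x G)), neg_mul, smul_neg,
      show X * s' * q = q * (s' * X) by ring, mul_smul, mul_smul, k2, smul_zero, neg_zero,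
      ev_zero, ev_zero] at e1
    rw [show X * s' * q = q * (s' * X) by ring, e1]
    congr 2
    funext i k
    rw [← neg_mul, ← hBB.anti, io_mul _ hB, ev_io_mul, ev_letter]
    have : (fun z => io R x * z)^[k] (io R y) = io R (pw x k y) := io_pw h x y k
    rw [this, ev_mul_io _ h, ev_mul_io _ h, ev_letter]
    rfl
  have hd' : ∀ ρ ∈ Spec (C γ) (C α) (X : R[X]), ∀ ρ' ∈ Spec (C μ) (C ν) (X : R[X]),
      pt e w' ρ ≠ pt e w ρ' := by
    intro ρ hρ ρ' hρ'
    apply hd
    · have := Spec_map (pt e w') hρ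
      rwa [pt_C, pt_C, pt_X, hγ, hα] at this
    · have := Spec_map (pt e w) hρ'
      rwa [pt_C, pt_C, pt_X, hμ, hν] at this
  obtain ⟨a1, b1, r, hr, hab⟩ := copS hd' hs hs'
  refine ⟨r, hr, ?_⟩
  have m3 : X * C r ∈ AnnP (Fam3 x G H y) := by
    have := AnnP_add (AnnP_mul m1 a1) (AnnP_mul m2 b1)
    rw [map_mul, map_mul] at this
    have x1 : (i1 X : R[X][X][X]) = X := by unfold i1; simp
    have x2 : (i2 X : R[X][X][X]) = X := by unfold i2; simp
    rw [x1, x2, show a1 * (X * i1 s) + b1 * (X * i2 s') = X * (a1 * i1 s + b1 * i2 s') by ring,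
      hab] at this
    exact this
  have hwf := PQ_el (R := R) h x G H (x * y)
  refine ext2_zero hwf ?_
  intro m
  rw [ev_PE2]
  have e1 := m3 (C m)
  rw [show X * C r * C m = C (r * m) * X ^ 1 by rw [C_mul]; ring, PE3_C] at e1
  rw [← e1]
  congr 2
  funext j i
  rw [hwf, ev_el, ev_el]
  rfl

end bridge

end Pool.Agent.BLie
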