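import Mathlib
import Pool.Agent.BLie.Bridge

/-! The local data attached to two generic eigenvectors over two Jacobians. -/

set_option linter.unusedSimpArgs false
set_option linter.unusedSectionVars false
set_option linter.unusedVariables false

namespace Pool.Agent.BLie

open Polynomial

universe u v

section locf

variable {R : Type u} {F : Type v} [CommRing R] [Field F] {e : R →+* F}
  {A : Type u} [NonUnitalNonAssocRing A] [Module R A]
  [IsScalarTower R A A] [SMulCommClass R A A]

/-- The product of the two letters. -/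
noncomputable def PQ (R : Type u) [CommRing R] [Module R A] [IsScalarTower R A A]
    [SMulCommClass R A A] (x G H : A) : Ext R[X] (Ext R A) :=
  letter R[X] (io R x) (io R G) * io R[X] (letter R x H)

theorem PQ_eq (h : BL A) (x G H : A) :
    PQ R x G H = el 0 (fun i => el 0 (fun j => pw x i G * pw x j H)) := by
  have hB := Ext.bl (R := R) h
  unfold PQ
  have e0 : letter R[X] (io R x) (io R G) = el 0 (fun n => io R (pw x n G)) := by
    unfold letter
    congr 1
    funext n
    exact io_pw h x G n
  rw [e0]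
  have e1 : (el 0 (fun n => io R (pw x n G)) : Ext R[X] (Ext R A)) * io R[X] (letter R x H) =
      el 0 (fun n => io R (pw x n G) * letter R x H) := by
    unfold io
    rw [el_mul hB]
    congr 1
    · rw [zero_mul]
    · funext n; simp
  have e2 : ∀ n, io R (pw x n G) * letter R x H =
      (el 0 (fun j => pw x n G * pw x j H) : Ext R A) := by
    intro n
    unfold io letter
    rw [el_mul h]
    congr 1
    · rw [mul_zero]
    · funext j
      simp [pw]
  rw [e1]
  simp only [e2]

theorem PQ_x1 (h : BL A) (x G H : A) (b : Ext R A) (f : ℕ → Ext R A) :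
    PQ R x G H * (io R[X] (io R x) * el b f) = PQ R x G H * (io R[X] (io R x) * io R[X] b) := by
  have hB := Ext.bl (R := R) h
  rw [PQ_eq h]
  unfold io
  rw [el_mul hB, el_mul hB, el_mul hB, el_mul hB]
  congr 1
  funext n
  simp

theorem PQ_x2 (h : BL A) (x G H : A) (b : A) (f : ℕ → A) :
    PQ R x G H * (io R[X] (io R x) * io R[X] (el b f)) =
      PQ R x G H * (io R[X] (io R x) * io R[X] (io R b)) := by
  have hB := Ext.bl (R := R) h
  rw [PQ_eq h]
  unfold io
  rw [el_mul hB, el_mul hB, el_mul hB, el_mul hB]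
  congr 1
  funext n
  simp only [zero_mul, mul_zero, zero_add, add_zero]
  rw [el_mul h, el_mul h, el_mul h, el_mul h]
  congr 1
  funext j
  simp

theorem dat3_of (h : BL A) {x c a u v : A} {γ α μ ν : R} (hc : x * c = γ • c)
    (ha : x * a = α • a) (hu : x * u = μ • u) (hv : x * v = ν • v) {k l w w' : F}
    (hγ : e γ = k) (hα : e α = k) (hμ : e μ = l) (hν : e ν = l)
    (k0 : k ≠ 0) (l0 : l ≠ 0) (k1 : k - w' ≠ 0) (k1' : k + w' ≠ 0)
    (l1 : l - w ≠ 0) (l1' : l + w ≠ 0) (gd : GoodW w w')
    (hd : ∀ ρ ∈ Spec k k w', ∀ ρ' ∈ Spec l l w, ρ ≠ ρ') :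
    Dat3 (pt (pt e w') w) (TQ (pt (pt e w') w) (Ext R[X] (Ext R A)))
      (pr _ _ (io R[X] (io R x))) (pr _ _ (letter R[X] (io R x) (io R (J x c a))))
      (pr _ _ (io R[X] (letter R x (J x u v)))) X (C X) w w' where
  toLoc := TQ.loc _ gd.h2 (Ext.bl (Ext.bl h))
  hP := tq_letter w (Ext.bl h) (io R x) (io R (J x c a))
  hQ := pr_eig w (Ext.bl h) (x_letter R h x (J x u v))
  eP := by rw [pt_X]
  eQ := by rw [pt_C, pt_X]
  gd := gd
  EX := by
    intro b
    obtain ⟨b, rfl⟩ := pr_surj _ b
    rw [← pr_mul, ← pr_mul, ← pr_mul]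
    set G := J x c a with hG
    set H := J x u v with hH
    change pr _ _ (PQ R x G H * _) = 0
    have hb : b ∈ Submodule.span R[X][X] {w : Ext R[X] (Ext R A) | ∃ a f, w = el a f} := by
      rw [span_el]; trivial
    induction hb using Submodule.span_induction with
    | zero => rw [mul_zero, mul_zero, map_zero]
    | add b b' _ _ h1 h2 => rw [mul_add, mul_add, map_add, h1, h2, add_zero]
    | smul r b _ h1 => rw [mul_smul_comm, mul_smul_comm, map_smul, h1, smul_zero]
    | mem b hb =>
      obtain ⟨b, f, rfl⟩ := hb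
      rw [PQ_x1 h]
      have hb : b ∈ Submodule.span R[X] {w : Ext R A | ∃ a f, w = el a f} := by
        rw [span_el]; trivial
      induction hb using Submodule.span_induction with
      | zero => rw [io_zero, mul_zero, mul_zero, map_zero]
      | add b b' _ _ h1 h2 => rw [← io_add, mul_add, mul_add, map_add, h1, h2, add_zero]
      | smul r b _ h1 =>
        rw [io_smul, ← Ext.C_smul, mul_smul_comm, mul_smul_comm, map_smul, h1, smul_zero]
      | mem b hb =>
        obtain ⟨b, f, rfl⟩ := hb
        rw [PQ_x2 h, io_mul _ (Ext.bl h), io_mul _ h, pr_eq_zero]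
        exact A2 h gd.h2 hc ha hu hv hγ hα hμ hν k0 l0 gd.a gd.b k1 k1' l1 l1' hd b

end locf

end Pool.Agent.BLie
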