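import Mathlib
import Pool.Agent.BLie.LocF

/-! From the local theorem to elements of an arbitrary algebra. -/

set_option linter.unusedSimpArgs false
set_option linter.unusedSectionVars false
set_option linter.unusedVariables false

namespace Pool.Agent.BLie

open Polynomial

universe u v w

/-- The Jacobians of `w` and of `q * w` with `s` and `t` vanish. -/
def KillN {A : Type*} [NonUnitalNonAssocRing A] (w s t q : A) : Prop :=
  J w s t = 0 ∧ J (q * w) s t = 0

/-- The separating polynomial. -/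
noncomputable def qq (R : Type*) [CommRing R] : R[X][X] := (C X - X) * (X - C (X ^ 2))

section lev

variable {R : Type u} {A : Type u} [CommRing R] [NonUnitalNonAssocRing A] [Module R A]
  [IsScalarTower R A A] [SMulCommClass R A A]

theorem KillN.ev (h : BL A) {w : Ext R A} {s t q : A}
    (hw : KillN w (io R s) (io R t) (io R q)) : KillN (ev R 0 w) s t q := by
  constructor
  · rw [← ev_J1 R h, hw.1, ev_zero]
  · rw [← ev_io_mul, ← ev_J1 R h, hw.2, ev_zero]

theorem ev_pw (x : A) (j n : ℕ) (w : Ext R A) :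
    ev R n (pw (io R x) j w) = pw x j (ev R n w) := by
  induction j with
  | zero => rfl
  | succ j ih =>
    unfold pw at ih ⊢
    rw [Function.iterate_succ_apply', Function.iterate_succ_apply', ev_io_mul, ih]

/-- Hypotheses on the weights. -/
structure GoodK {F : Type v} [Field F] (k l w w' : F) : Prop extends GoodW w w' where
  k0 : k ≠ 0
  l0 : l ≠ 0
  k1 : k - w' ≠ 0
  k1' : k + w' ≠ 0
  l1 : l - w ≠ 0
  l1' : l + w ≠ 0
  hd : ∀ ρ ∈ Spec k k w', ∀ ρ' ∈ Spec l l w, ρ ≠ ρ'

variable {F : Type v} [Field F] {e : R →+* F} {k l w w' : F}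

theorem nl0 (gk : GoodK k l w w') (h : BL A) {x c a u v : A} {γ α μ ν : R}
    (hc : x * c = γ • c) (ha : x * a = α • a) (hu : x * u = μ • u) (hv : x * v = ν • v)
    (hγ : e γ = k) (hα : e α = k) (hμ : e μ = l) (hν : e ν = l) (s t q : A) :
    ∃ p : R[X][X], pt (pt e w') w p ≠ 0 ∧
      KillN ((qq R * p).sum fun i p' => p'.sum fun j r =>
        r • (pw x i (J x c a) * pw x j (J x u v))) s t q := by
  have D := dat3_of h hc ha hu hv hγ hα hμ hν gk.k0 gk.l0 gk.k1 gk.k1' gk.l1 gk.l1' gk.toGoodW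
    gk.hd
  have m1 := D.JE (pr _ _ (io R[X] (io R s))) (pr _ _ (io R[X] (io R t)))
  have m2 := D.JEs (pr _ _ (io R[X] (io R q))) (pr _ _ (io R[X] (io R s)))
    (pr _ _ (io R[X] (io R t)))
  rw [← pr_mul, ← pr_J, pr_eq_zero] at m1
  rw [← pr_mul, ← pr_mul, ← pr_J, pr_eq_zero] at m2
  obtain ⟨r1, hr1, k1⟩ := m1
  obtain ⟨r2, hr2, k2⟩ := m2
  refine ⟨r1 * r2, by rw [map_mul]; exact mul_ne_zero hr1 hr2, ?_⟩
  change r1 • J (PQ R x (J x c a) (J x u v)) _ _ = 0 at k1
  change r2 • J (PQ R x (J x c a) (J x u v) * _) _ _ = 0 at k2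
  set E := PQ R x (J x c a) (J x u v) with hE
  have hBB := Ext.bl (R := R[X]) (Ext.bl (R := R) h)
  have k3 : KillN ((qq R * (r1 * r2)) • E) (io R[X] (io R s)) (io R[X] (io R t))
      (io R[X] (io R q)) := by
    constructor
    · rw [J_smul1, show qq R * (r1 * r2) = qq R * r2 * r1 by ring, mul_smul, k1, smul_zero]
    · rw [mul_smul_comm, J_smul1, hBB.anti (io R[X] (io R q)), J_neg1, ← mul_assoc, mul_smul,
        smul_neg, k2, neg_zero, smul_zero]
  have k4 := KillN.ev h (KillN.ev (Ext.bl h) k3)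
  have k5 : ∀ i j, ev R j (ev R[X] i E) = pw x i (J x c a) * pw x j (J x u v) := by
    intro i j
    rw [hE, PQ_eq h, ev_el, ev_el]
  rw [ev_poly, ev_sum] at k4
  simp only [ev_poly, k5] at k4
  exact k4

/-- Polynomials, with a sealed ring structure. -/
def PX (R : Type u) [CommRing R] : Type u := R[X]

noncomputable instance : CommRing (PX R) := inferInstanceAs (CommRing R[X])

/-- The underlying polynomial. -/
def PX.to (p : PX R) : R[X] := p

/-- A polynomial as an element of `PX R`. -/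
def PX.of (p : R[X]) : PX R := p

/-- Evaluation of the elements of `PX R`. -/
noncomputable def ptx (e : R →+* F) (n : F) : PX R →+* F := pt e n

theorem ptx_C (e : R →+* F) (n : F) (r : R) : ptx e n (PX.of (C r)) = e r := pt_C e n r

theorem ptx_X (e : R →+* F) (n : F) : ptx e n (PX.of X) = n := pt_X e n

noncomputable instance : Module (PX R) (Ext R A) := inferInstanceAs (Module R[X] (Ext R A))

instance : IsScalarTower (PX R) (Ext R A) (Ext R A) :=
  inferInstanceAs (IsScalarTower R[X] (Ext R A) (Ext R A))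

instance : SMulCommClass (PX R) (Ext R A) (Ext R A) :=
  inferInstanceAs (SMulCommClass R[X] (Ext R A) (Ext R A))

theorem io_eigx (h : BL A) {x a : A} {α : R} (ha : x * a = α • a) :
    io R x * io R a = (PX.of (C α) : PX R) • io R a := io_eig' h ha

theorem x_letterx (h : BL A) (x a : A) :
    io R x * letter R x a = (PX.of X : PX R) • letter R x a := x_letter R h x a

theorem ev_polyx (p : PX R) (w : Ext R A) :
    ev R 0 (p • w) = (PX.to p).sum fun n a => a • ev R n w := ev_poly p w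

theorem nl1 (gk : GoodK k l w w') (h : BL A) {x c a u : A} {γ α μ : R}
    (hc : x * c = γ • c) (ha : x * a = α • a) (hu : x * u = μ • u)
    (hγ : e γ = k) (hα : e α = k) (hμ : e μ = l) (v s t q : A) :
    ∃ p : (PX R)[X][X], pt (pt (ptx e l) w') w p ≠ 0 ∧
      KillN ((qq (PX R) * p).sum fun i p2 => p2.sum fun j p1 => (PX.to p1).sum fun n4 r =>
        r • (pw x i (J x c a) * pw x j (J x u (pw x n4 v)))) s t q := by
  obtain ⟨p, hp, k1⟩ := nl0 (e := ptx e l) gk (Ext.bl (R := R) h) (io_eigx h hc) (io_eigx h ha)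
    (io_eigx h hu) (x_letterx h x v) (by rw [ptx_C, hγ]) (by rw [ptx_C, hα])
    (by rw [ptx_C, hμ]) (by rw [ptx_X]) (io R s) (io R t) (io R q)
  refine ⟨p, hp, ?_⟩
  have k2 := KillN.ev h k1
  simp only [ev_sum, ev_polyx, io_J R h, io_pw h, ev_io_mul, ev_pw, ev_J3 R h, ev_letter] at k2
  exact k2

theorem nl2 (gk : GoodK k l w w') (h : BL A) {x c a : A} {γ α : R}
    (hc : x * c = γ • c) (ha : x * a = α • a) (hγ : e γ = k) (hα : e α = k) (u v s t q : A) :
    ∃ p : (PX (PX R))[X][X], pt (pt (ptx (ptx e l) l) w') w p ≠ 0 ∧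
      KillN ((qq (PX (PX R)) * p).sum fun i p3 => p3.sum fun j p2 =>
        (PX.to p2).sum fun n4 p1 => (PX.to p1).sum fun n3 r =>
        r • (pw x i (J x c a) * pw x j (J x (pw x n3 u) (pw x n4 v)))) s t q := by
  obtain ⟨p, hp, k1⟩ := nl1 (e := ptx e l) gk (Ext.bl (R := R) h) (io_eigx h hc) (io_eigx h ha)
    (x_letterx h x u) (by rw [ptx_C, hγ]) (by rw [ptx_C, hα])
    (by rw [ptx_X]) (io R v) (io R s) (io R t) (io R q)
  refine ⟨p, hp, ?_⟩
  have k2 := KillN.ev h k1
  simp only [ev_sum, ev_polyx, io_J R h, io_pw h, ev_io_mul, ev_pw, ev_J2 R h, ev_letter] at k2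
  exact k2

theorem nl3 (gk : GoodK k l w w') (h : BL A) {x c : A} {γ : R}
    (hc : x * c = γ • c) (hγ : e γ = k) (a u v s t q : A) :
    ∃ p : (PX (PX (PX R)))[X][X], pt (pt (ptx (ptx (ptx e k) l) l) w') w p ≠ 0 ∧
      KillN ((qq (PX (PX (PX R))) * p).sum fun i p4 => p4.sum fun j p3 =>
        (PX.to p3).sum fun n4 p2 => (PX.to p2).sum fun n3 p1 => (PX.to p1).sum fun n2 r =>
        r • (pw x i (J x c (pw x n2 a)) * pw x j (J x (pw x n3 u) (pw x n4 v)))) s t q := by
  obtain ⟨p, hp, k1⟩ := nl2 (e := ptx e k) gk (Ext.bl (R := R) h) (io_eigx h hc)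
    (x_letterx h x a) (by rw [ptx_C, hγ])
    (by rw [ptx_X]) (io R u) (io R v) (io R s) (io R t) (io R q)
  refine ⟨p, hp, ?_⟩
  have k2 := KillN.ev h k1
  simp only [ev_sum, ev_polyx, io_J R h, io_pw h, ev_mul_io R h, ev_pw, ev_J3 R h,
    ev_letter] at k2
  exact k2

theorem nl4 (gk : GoodK k l w w') (h : BL A) (x c a u v s t q : A) :
    ∃ p : (PX (PX (PX (PX R))))[X][X],
      pt (pt (ptx (ptx (ptx (ptx e k) k) l) l) w') w p ≠ 0 ∧
      KillN ((qq (PX (PX (PX (PX R)))) * p).sum fun i p5 => p5.sum fun j p4 =>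
        (PX.to p4).sum fun n4 p3 => (PX.to p3).sum fun n3 p2 => (PX.to p2).sum fun n2 p1 =>
        (PX.to p1).sum fun n1 r =>
        r • (pw x i (J x (pw x n1 c) (pw x n2 a)) *
          pw x j (J x (pw x n3 u) (pw x n4 v)))) s t q := by
  obtain ⟨p, hp, k1⟩ := nl3 (e := ptx e k) gk (Ext.bl (R := R) h)
    (x_letterx h x c) (by rw [ptx_X]) (io R a) (io R u) (io R v) (io R s) (io R t) (io R q)
  refine ⟨p, hp, ?_⟩
  have k2 := KillN.ev h k1
  simp only [ev_sum, ev_polyx, io_J R h, io_pw h, ev_mul_io R h, ev_pw, ev_J2 R h,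
    ev_letter] at k2
  exact k2

end lev

end Pool.Agent.BLie
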