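import Mathlib

/-! Binary-Lie algebras and free binary-Lie algebras. -/

set_option autoImplicit false

universe u v w z

namespace Pool.Agent.BLie

/-- An algebra `A` over `F` (not assumed associative or unital) is binary-Lie if `xx = 0` for all
`x`, and the Jacobi identity holds in every subalgebra generated by two elements. -/
def IsBinaryLie (F : Type u) (A : Type w) [Field F] [NonUnitalNonAssocRing A] [Module F A]
    [IsScalarTower F A A] [SMulCommClass F A A] : Prop :=
  (∀ x : A, x * x = 0) ∧
    ∀ a b : A, ∀ x ∈ NonUnitalAlgebra.adjoin F ({a, b} : Set A),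
      ∀ y ∈ NonUnitalAlgebra.adjoin F ({a, b} : Set A),
        ∀ z ∈ NonUnitalAlgebra.adjoin F ({a, b} : Set A),
          (x * y) * z + (y * z) * x + (z * x) * y = 0

/-- `B` with `ι : X → B` is a free binary-Lie algebra on `X`: it is binary-Lie, generated by the
image of `X`, and every map from `X` to a binary-Lie algebra extends uniquely to a
homomorphism. -/
structure IsFreeBinaryLie (F : Type u) (X : Type v) (B : Type w) [Field F]
    [NonUnitalNonAssocRing B] [Module F B] [IsScalarTower F B B] [SMulCommClass F B B]
    (ι : X → B) : Prop where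
  binaryLie : IsBinaryLie F B
  generates : NonUnitalAlgebra.adjoin F (Set.range ι) = ⊤
  extends_uniquely : ∀ (A : Type z) [NonUnitalNonAssocRing A] [Module F A]
    [IsScalarTower F A A] [SMulCommClass F A A], IsBinaryLie F A → ∀ f : X → A,
      ∃! φ : B →ₙₐ[F] A, ∀ x, φ (ι x) = f x

end Pool.Agent.BLie
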