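import Mathlib
import Pool.Agent.BLie.Basic

/-! Two-generated subalgebras of algebras with the binary-Lie identity are Lie. -/

set_option linter.unusedSimpArgs false
set_option linter.unusedSectionVars false

namespace Pool.Agent.BLie

section gainov

variable {A : Type*} [NonUnitalNonAssocRing A]

/-- The value of a nonassociative monomial in two letters. -/
def val (p q : A) : FreeMagma Bool → A
  | FreeMagma.of b => cond b p q
  | FreeMagma.mul a b => val p q a * val p q b

/-- The degree of a monomial. -/
def dg : FreeMagma Bool → ℕ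
  | FreeMagma.of _ => 1
  | FreeMagma.mul a b => dg a + dg b

theorem dg_pos (a : FreeMagma Bool) : 1 ≤ dg a := by
  induction a with
  | ih1 b => exact le_refl _
  | ih2 a b ha hb => exact le_trans ha (Nat.le_add_right _ _)

theorem val_mul (p q : A) (a b : FreeMagma Bool) : val p q (a * b) = val p q a * val p q b := rfl

theorem dg_mul (a b : FreeMagma Bool) : dg (a * b) = dg a + dg b := rfl

/-- Total degree of a list. -/
def dgl (l : List (FreeMagma Bool)) : ℕ := (l.map dg).sum

/-- Iterated right multiplication. -/
def rm (p q : A) (w : A) (l : List (FreeMagma Bool)) : A := l.foldl (fun w c => w * val p q c) w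

/-- Iterated right multiplication of monomials. -/
def rmm (w : FreeMagma Bool) (l : List (FreeMagma Bool)) : FreeMagma Bool :=
  l.foldl (fun w c => w * c) w

theorem val_rmm (p q : A) (w : FreeMagma Bool) (l : List (FreeMagma Bool)) :
    val p q (rmm w l) = rm p q (val p q w) l := by
  induction l generalizing w with
  | nil => rfl
  | cons a l ih => exact ih (w * a)

theorem dg_rmm (w : FreeMagma Bool) (l : List (FreeMagma Bool)) : dg (rmm w l) = dg w + dgl l := by
  induction l generalizing w with
  | nil => rfl
  | cons a l ih =>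
    have := ih (w * a)
    unfold rmm dgl at *
    rw [List.foldl_cons, this, dg_mul]
    simp [add_assoc]

theorem rm_add (p q w w' : A) (l : List (FreeMagma Bool)) :
    rm p q (w + w') l = rm p q w l + rm p q w' l := by
  induction l generalizing w w' with
  | nil => rfl
  | cons a l ih =>
    unfold rm at *
    rw [List.foldl_cons, List.foldl_cons, List.foldl_cons, add_mul, ih]

theorem rm_append (p q w : A) (l l' : List (FreeMagma Bool)) :
    rm p q w (l ++ l') = rm p q (rm p q w l) l' := by
  unfold rm
  rw [List.foldl_append]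

/-- Degreewise vanishing of Jacobians. -/
def Pn (p q : A) (n : ℕ) : Prop :=
  ∀ a b c : FreeMagma Bool, dg a + dg b + dg c = n → J (val p q a) (val p q b) (val p q c) = 0

variable {p q : A} {n : ℕ}

theorem gg_zero (h : BL A) (h3 : ∀ w : A, (3 : ℕ) • w = 0 → w = 0)
    (ih : ∀ m < n, Pn p q m) (a b c d : FreeMagma Bool) (hd : dg a + dg b + dg c + dg d = n) :
    J (val p q a * val p q b) (val p q c) (val p q d) =
      -J (val p q c * val p q d) (val p q a) (val p q b) := by
  have e : gg (val p q a) (val p q b) (val p q c) (val p q d) = 0 := by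
    apply h3
    have := dg_pos a
    have := dg_pos b
    have := dg_pos c
    have := dg_pos d
    rw [h.three_gg, ih _ (by omega) a c d rfl, ih _ (by omega) b c d rfl,
      ih _ (by omega) a b d rfl, ih _ (by omega) a b c rfl]
    simp
  unfold gg at e
  exact eq_neg_of_add_eq_zero_left e

theorem dgl_append (l l' : List (FreeMagma Bool)) : dgl (l ++ l') = dgl l + dgl l' := by
  unfold dgl; rw [List.map_append, List.sum_append]

theorem dgl_cons (a : FreeMagma Bool) (l : List (FreeMagma Bool)) :
    dgl (a :: l) = dg a + dgl l := by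
  unfold dgl; rw [List.map_cons, List.sum_cons]

theorem dgl_reverse (l : List (FreeMagma Bool)) : dgl l.reverse = dgl l := by
  unfold dgl; rw [List.map_reverse, List.sum_reverse]

theorem rmm_append (w : FreeMagma Bool) (l l' : List (FreeMagma Bool)) :
    rmm w (l ++ l') = rmm (rmm w l) l' := by
  unfold rmm
  rw [List.foldl_append]

/-- One move. -/
theorem move (h : BL A) (h3 : ∀ w : A, (3 : ℕ) • w = 0 → w = 0)
    (ih : ∀ m < n, Pn p q m) (U V c g : FreeMagma Bool) (hd : dg U + dg V + dg c + dg g = n) :
    J (val p q U) (val p q (V * c)) (val p q g) =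
      J (val p q (U * g)) (val p q V) (val p q c) := by
  rw [J_cyc, val_mul, gg_zero h h3 ih V c g U (by omega), h.anti (val p q g), J_neg1, neg_neg,
    val_mul]

/-- The reversal of a list. -/
theorem rev_move (h : BL A) (h3 : ∀ w : A, (3 : ℕ) • w = 0 → w = 0)
    (ih : ∀ m < n, Pn p q m) (c : FreeMagma Bool) (t : List (FreeMagma Bool)) :
    ∀ (U W g : FreeMagma Bool), dg U + dg W + dgl (c :: t) + dg g = n →
    J (val p q U) (val p q (rmm W (c :: t))) (val p q g) =
      J (val p q (rmm (U * g) t.reverse)) (val p q W) (val p q c) := by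
  induction t using List.reverseRecOn with
  | nil =>
    intro U W g hd
    exact move h h3 ih U W c g (by unfold dgl at hd; simp at hd; omega)
  | append_singleton t d iht =>
    intro U W g hd
    rw [dgl_cons, dgl_append] at hd
    have hd' : dgl [d] = dg d := by unfold dgl; simp
    rw [hd'] at hd
    have e1 : rmm W (c :: (t ++ [d])) = rmm W (c :: t) * d := by
      rw [← List.cons_append, rmm_append]; rfl
    rw [e1, move h h3 ih U (rmm W (c :: t)) d g (by rw [dg_rmm, dgl_cons]; omega),
      iht (U * g) W d (by rw [dg_mul, dgl_cons]; omega), List.reverse_append]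
    rfl

theorem BL.self_zero (h : BL A) (x : A) : x * x = 0 := by
  apply h.two
  nth_rewrite 2 [h.anti x x]
  abel

theorem BL.J_self23 (h : BL A) (x y : A) : J x y y = 0 := by
  apply h.two
  nth_rewrite 2 [h.swap23 x y y]
  abel

theorem BL.J_self12 (h : BL A) (x y : A) : J x x y = 0 := by
  rw [J_cyc', h.J_self23]

/-- The two letters. -/
abbrev lp : FreeMagma Bool := FreeMagma.of true
/-- The two letters. -/
abbrev lq : FreeMagma Bool := FreeMagma.of false
/-- Their product. -/
abbrev c0 : FreeMagma Bool := lp * lq

/-- The function on lists. -/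
def T (p q : A) (l : List (FreeMagma Bool)) : A := J (val p q (rmm c0 l)) (val p q lp) (val p q lq)

theorem dg_c0 : dg c0 = 2 := rfl

theorem T_snoc (h : BL A) (h3 : ∀ w : A, (3 : ℕ) • w = 0 → w = 0)
    (ih : ∀ m < n, Pn p q m) (l : List (FreeMagma Bool)) (d : FreeMagma Bool)
    (hd : dgl l + dg d + 4 = n) :
    T p q (l ++ [d]) = -J (val p q c0) (val p q (rmm c0 l)) (val p q d) := by
  unfold T
  have e1 : rmm c0 (l ++ [d]) = rmm c0 l * d := by rw [rmm_append]; rfl
  rw [e1, val_mul, gg_zero h h3 ih (rmm c0 l) d lp lq
    (by rw [dg_rmm, dg_c0]; simp only [dg]; omega)]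
  rfl

theorem T_rev (h : BL A) (h3 : ∀ w : A, (3 : ℕ) • w = 0 → w = 0)
    (ih : ∀ m < n, Pn p q m) (l : List (FreeMagma Bool)) (hd : dgl l + 4 = n) :
    T p q l = -T p q l.reverse := by
  induction l using List.reverseRecOn with
  | nil =>
    have := gg_zero h h3 ih lp lq lp lq (by simp only [dg]; unfold dgl at hd; simp at hd; omega)
    exact this
  | append_singleton l d _ =>
    rw [dgl_append] at hd
    have hd' : dgl [d] = dg d := by unfold dgl; simp
    rw [hd'] at hd
    cases l with
    | nil =>
      have : T p q ([] ++ [d]) = 0 := by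
        rw [T_snoc h h3 ih [] d (by omega)]
        have : rmm c0 [] = c0 := rfl
        rw [this, h.J_self12, neg_zero]
      rw [List.nil_append] at this ⊢
      rw [List.reverse_singleton, this, neg_zero]
    | cons c t =>
      have e1 : ((c :: t) ++ [d]).reverse = (d :: t.reverse) ++ [c] := by simp
      rw [dgl_cons] at hd
      rw [e1, T_snoc h h3 ih (c :: t) d (by rw [dgl_cons]; omega),
        T_snoc h h3 ih (d :: t.reverse) c (by rw [dgl_cons, dgl_reverse]; omega),
        rev_move h h3 ih c t c0 c0 d (by rw [dg_c0, dgl_cons]; omega), h.swap12 (val p q c0),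
        neg_neg]
      rfl

theorem T_swap (h : BL A) (ih : ∀ m < n, Pn p q m)
    (pre l : List (FreeMagma Bool)) (a b : FreeMagma Bool)
    (hd : dgl pre + dg a + dg b + dgl l + 4 = n)
    (h0 : T p q (pre ++ (a * b) :: l) = 0) :
    T p q (pre ++ a :: b :: l) = T p q (pre ++ b :: a :: l) := by
  have e0 : J (val p q (rmm c0 pre)) (val p q a) (val p q b) = 0 :=
    ih _ (by rw [dg_rmm, dg_c0]; omega) (rmm c0 pre) a b rfl
  have e1 : (val p q (rmm c0 pre) * val p q a) * val p q b =
      (val p q (rmm c0 pre) * val p q b) * val p q a +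
        val p q (rmm c0 pre) * (val p q a * val p q b) := by
    unfold J at e0
    rw [h.anti (val p q a * val p q b), h.anti (val p q b) (val p q (rmm c0 pre)), neg_mul] at e0
    rw [← sub_eq_zero, ← e0]
    abel
  unfold T at h0 ⊢
  rw [rmm_append, val_rmm p q (rmm c0 pre)] at h0
  rw [rmm_append, rmm_append, val_rmm p q (rmm c0 pre), val_rmm p q (rmm c0 pre)]
  have f1 : rm p q (val p q (rmm c0 pre)) (a :: b :: l) =
      rm p q (val p q (rmm c0 pre)) (b :: a :: l) +
        rm p q (val p q (rmm c0 pre)) ((a * b) :: l) := by
    have g1 : rm p q (val p q (rmm c0 pre)) (a :: b :: l) =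
      rm p q ((val p q (rmm c0 pre) * val p q a) * val p q b) l := rfl
    rw [g1, e1, rm_add]
    rfl
  rw [f1, J_add1, h0, add_zero]

theorem T_perm (h : BL A) (ih : ∀ m < n, Pn p q m) (k : ℕ)
    (h0 : ∀ l : List (FreeMagma Bool), l.length = k → dgl l + 4 = n → T p q l = 0)
    {l l' : List (FreeMagma Bool)} (hl : l.Perm l') :
    ∀ pre : List (FreeMagma Bool), (pre ++ l).length = k + 1 → dgl pre + dgl l + 4 = n →
      T p q (pre ++ l) = T p q (pre ++ l') := by
  induction hl with
  | nil => intro pre _ _; rfl
  | @cons a l₁ l₂ _ ihl =>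
    intro pre hk hd
    have e : ∀ m : List (FreeMagma Bool), pre ++ a :: m = (pre ++ [a]) ++ m := by
      intro m; simp
    rw [e l₁] at hk
    rw [e l₁, e l₂]
    apply ihl (pre ++ [a]) hk
    rw [dgl_cons] at hd
    rw [dgl_append, dgl_cons]
    unfold dgl at *
    simp at *
    omega
  | swap a b l =>
    intro pre hk hd
    rw [dgl_cons, dgl_cons] at hd
    apply T_swap h ih pre l b a (by omega)
    apply h0
    · simp at hk ⊢; omega
    · rw [dgl_append, dgl_cons, dg_mul]; omega
  | trans h1 h2 ih1 ih2 =>
    intro pre hk hd
    rw [ih1 pre hk hd]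
    apply ih2 pre
    · rw [← hk]; simp [h1.length_eq]
    · rw [← hd]
      congr 2
      unfold dgl
      exact ((h1.map dg).sum_eq).symm

theorem T_zero (h : BL A) (h3 : ∀ w : A, (3 : ℕ) • w = 0 → w = 0)
    (ih : ∀ m < n, Pn p q m) (k : ℕ) : ∀ l : List (FreeMagma Bool), l.length = k →
    dgl l + 4 = n → T p q l = 0 := by
  induction k with
  | zero =>
    intro l hl hd
    have := List.length_eq_zero_iff.mp hl
    subst this
    apply h.two
    nth_rewrite 1 [T_rev h h3 ih [] hd]
    simp
  | succ k ihk =>
    intro l hl hd
    apply h.two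
    have e1 := T_rev h h3 ih l hd
    have e2 := T_perm h ih k ihk (List.reverse_perm l).symm [] (by simpa using hl)
      (by unfold dgl at *; simpa using hd)
    simp only [List.nil_append] at e2
    nth_rewrite 1 [e1]
    rw [← e2]
    abel

/-- Every monomial of degree at least two is, up to sign, an iterated right multiple of
`pq`, or zero. -/
theorem form (h : BL A) (X : FreeMagma Bool) (hX : 2 ≤ dg X) :
    val p q X = 0 ∨ ∃ l : List (FreeMagma Bool), dgl l + 2 = dg X ∧
      (val p q X = val p q (rmm c0 l) ∨ val p q X = -val p q (rmm c0 l)) := by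
  induction X with
  | ih1 b => simp only [dg] at hX; omega
  | ih2 a b iha ihb =>
    have key : ∀ a b : FreeMagma Bool, 2 ≤ dg a → (2 ≤ dg a → val p q a = 0 ∨
        ∃ l : List (FreeMagma Bool), dgl l + 2 = dg a ∧
        (val p q a = val p q (rmm c0 l) ∨ val p q a = -val p q (rmm c0 l))) →
        (val p q (a * b) = 0 ∨ ∃ l : List (FreeMagma Bool), dgl l + 2 = dg a + dg b ∧
        (val p q (a * b) = val p q (rmm c0 l) ∨ val p q (a * b) = -val p q (rmm c0 l))) := by
      intro a b ha iha
      rcases iha ha with h0 | ⟨l, hl, h1⟩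
      · left; rw [val_mul, h0, zero_mul]
      · right
        refine ⟨l ++ [b], ?_, ?_⟩
        · rw [dgl_append, ← hl]; unfold dgl; simp; omega
        · have e1 : rmm c0 (l ++ [b]) = rmm c0 l * b := by rw [rmm_append]; rfl
          rw [e1, val_mul, val_mul]
          rcases h1 with h1 | h1
          · left; rw [h1]
          · right; rw [h1, neg_mul]
    by_cases ha : 2 ≤ dg a
    · exact key a b ha iha
    · by_cases hb : 2 ≤ dg b
      · rcases key b a hb ihb with h0 | ⟨l, hl, h1⟩
        · left; rw [val_mul, h.anti, ← val_mul, h0, neg_zero]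
        · right
          refine ⟨l, by rw [hl, dg_mul, add_comm], ?_⟩
          rw [val_mul, h.anti, ← val_mul]
          rcases h1 with h1 | h1
          · right; rw [h1]
          · left; rw [h1, neg_neg]
      · cases a with
        | mul a1 a2 =>
          exfalso
          have := dg_pos a1
          have := dg_pos a2
          simp only [dg] at ha
          omega
        | of i =>
          cases b with
          | mul b1 b2 =>
            exfalso
            have := dg_pos b1
            have := dg_pos b2
            simp only [dg] at hb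
            omega
          | of j =>
            cases i <;> cases j
            · left; rw [val_mul, h.self_zero]
            · right
              refine ⟨[], rfl, Or.inr ?_⟩
              rw [val_mul, h.anti]
              rfl
            · right
              exact ⟨[], rfl, Or.inl rfl⟩
            · left; rw [val_mul, h.self_zero]

theorem gainov_step (h : BL A) (h3 : ∀ w : A, (3 : ℕ) • w = 0 → w = 0)
    (ih : ∀ m < n, Pn p q m) (X : FreeMagma Bool) (hX : dg X + 2 = n) :
    J (val p q X) (val p q lp) (val p q lq) = 0 := by
  cases X with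
  | of i =>
    cases i
    · have : val p q (FreeMagma.of false) = val p q lq := rfl
      rw [this, J_cyc, h.J_self23]
    · have : val p q (FreeMagma.of true) = val p q lp := rfl
      rw [this, h.J_self12]
  | mul a b =>
    have hd : 2 ≤ dg (FreeMagma.mul a b) := by
      have := dg_pos a
      have := dg_pos b
      simp only [dg]
      omega
    rcases form (p := p) (q := q) h _ hd with h0 | ⟨l, hl, h1⟩
    · rw [h0, J_zero1]
    · have := T_zero h h3 ih l.length l rfl (by omega)
      unfold T at this
      rcases h1 with h1 | h1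
      · rw [h1, this]
      · rw [h1, J_neg1, this, neg_zero]

theorem gainov_aux (h : BL A) (h3 : ∀ w : A, (3 : ℕ) • w = 0 → w = 0)
    (ih : ∀ m < n, Pn p q m) (k : ℕ) : ∀ a b c : FreeMagma Bool, dg b + dg c = k →
      dg a + dg b + dg c = n → J (val p q a) (val p q b) (val p q c) = 0 := by
  induction k using Nat.strong_induction_on with
  | _ k ihk =>
    intro a b c hk hd
    cases c with
    | mul c1 c2 =>
      have e1 : FreeMagma.mul c1 c2 = c1 * c2 := rfl
      rw [e1] at hk hd ⊢
      rw [dg_mul] at hk hd
      have := dg_pos b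
      rw [h.swap23, move h h3 ih a c1 c2 b (by omega),
        ihk (dg c1 + dg c2) (by omega) (a * b) c1 c2 rfl (by rw [dg_mul]; omega), neg_zero]
    | of j =>
      cases b with
      | mul b1 b2 =>
        have e1 : FreeMagma.mul b1 b2 = b1 * b2 := rfl
        rw [e1] at hk hd ⊢
        rw [dg_mul] at hk hd
        have := dg_pos (FreeMagma.of j)
        rw [move h h3 ih a b1 b2 _ (by omega)]
        exact ihk (dg b1 + dg b2) (by omega) (a * FreeMagma.of j) b1 b2 rfl
          (by rw [dg_mul]; omega)
      | of i =>
        have hd' : dg a + 2 = n := by simp only [dg] at hd; omega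
        cases i <;> cases j
        · exact h.J_self23 _ _
        · rw [h.swap23]
          have := gainov_step h h3 ih a hd'
          rw [this, neg_zero]
        · exact gainov_step h h3 ih a hd'
        · exact h.J_self23 _ _

theorem gainov_all (h : BL A) (h3 : ∀ w : A, (3 : ℕ) • w = 0 → w = 0) (n : ℕ) : Pn p q n := by
  induction n using Nat.strong_induction_on with
  | _ n ih =>
    intro a b c hd
    exact gainov_aux h h3 ih (dg b + dg c) a b c rfl hd

/-- Gainov: Jacobians of monomials in two elements vanish. -/
theorem gainov (h : BL A) (h3 : ∀ w : A, (3 : ℕ) • w = 0 → w = 0) (p q : A)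
    (a b c : FreeMagma Bool) : J (val p q a) (val p q b) (val p q c) = 0 :=
  gainov_all h h3 _ a b c rfl

end gainov

end Pool.Agent.BLie
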