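import Mathlib
import Pool.Agent.BLie.Defs
import Pool.Agent.BLie.Gainov

/-! The free binary-Lie algebra. -/

set_option autoImplicit false
set_option linter.unusedSimpArgs false
set_option linter.unusedSectionVars false

universe u v w z

namespace Pool.Agent.BLie

section char

variable {F : Type u} [Field F] {A : Type w} [NonUnitalNonAssocRing A] [Module F A]
  [IsScalarTower F A A] [SMulCommClass F A A]

theorem J_span {H : Set A} (h : ∀ x ∈ H, ∀ y ∈ H, ∀ z ∈ H, J x y z = 0) {x y z : A}
    (hx : x ∈ Submodule.span F H) (hy : y ∈ Submodule.span F H) (hz : z ∈ Submodule.span F H) :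
    J x y z = 0 := by
  have s1 : ∀ x ∈ H, ∀ y ∈ H, ∀ z ∈ Submodule.span F H, J x y z = 0 := by
    intro x hx y hy z hz
    induction hz using Submodule.span_induction with
    | mem z hz => exact h x hx y hy z hz
    | zero => rw [J_zero3]
    | add z z' _ _ h1 h2 => rw [J_add3, h1, h2, add_zero]
    | smul r z _ h1 => rw [J_smul3, h1, smul_zero]
  have s2 : ∀ x ∈ H, ∀ y ∈ Submodule.span F H, ∀ z ∈ Submodule.span F H, J x y z = 0 := by
    intro x hx y hy z hz
    induction hy using Submodule.span_induction with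
    | mem y hy => exact s1 x hx y hy z hz
    | zero => rw [J_zero2]
    | add y y' _ _ h1 h2 => rw [J_add2, h1, h2, add_zero]
    | smul r y _ h1 => rw [J_smul2, h1, smul_zero]
  induction hx using Submodule.span_induction with
  | mem x hx => exact s2 x hx y hy z hz
  | zero => rw [J_zero1]
  | add x x' _ _ h1 h2 => rw [J_add1, h1, h2, add_zero]
  | smul r x _ h1 => rw [J_smul1, h1, smul_zero]

theorem mul_span {H : Set A} (h : ∀ x ∈ H, ∀ y ∈ H, x * y ∈ H) {x y : A}
    (hx : x ∈ Submodule.span F H) (hy : y ∈ Submodule.span F H) :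
    x * y ∈ Submodule.span F H := by
  have s1 : ∀ x ∈ H, ∀ y ∈ Submodule.span F H, x * y ∈ Submodule.span F H := by
    intro x hx y hy
    induction hy using Submodule.span_induction with
    | mem y hy => exact Submodule.subset_span (h x hx y hy)
    | zero => rw [mul_zero]; exact Submodule.zero_mem _
    | add y y' _ _ h1 h2 => rw [mul_add]; exact Submodule.add_mem _ h1 h2
    | smul r y _ h1 => rw [mul_smul_comm]; exact Submodule.smul_mem _ r h1
  induction hx using Submodule.span_induction with
  | mem x hx => exact s1 x hx y hy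
  | zero => rw [zero_mul]; exact Submodule.zero_mem _
  | add x x' _ _ h1 h2 => rw [add_mul]; exact Submodule.add_mem _ h1 h2
  | smul r x _ h1 => rw [smul_mul_assoc]; exact Submodule.smul_mem _ r h1

/-- Two elements generate a subalgebra on which Jacobians vanish, when they vanish on
monomials. -/
theorem jac_adjoin {a b : A}
    (h : ∀ k l m : FreeMagma Bool, J (val a b k) (val a b l) (val a b m) = 0) {x y z : A}
    (hx : x ∈ NonUnitalAlgebra.adjoin F ({a, b} : Set A))
    (hy : y ∈ NonUnitalAlgebra.adjoin F ({a, b} : Set A))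
    (hz : z ∈ NonUnitalAlgebra.adjoin F ({a, b} : Set A)) : J x y z = 0 := by
  have key : ∀ x ∈ NonUnitalAlgebra.adjoin F ({a, b} : Set A),
      x ∈ Submodule.span F (Set.range (val a b)) := by
    intro x hx
    induction hx using NonUnitalAlgebra.adjoin_induction with
    | mem x hx =>
      rcases hx with rfl | rfl
      · exact Submodule.subset_span ⟨FreeMagma.of true, rfl⟩
      · exact Submodule.subset_span ⟨FreeMagma.of false, rfl⟩
    | add x y _ _ hx hy => exact Submodule.add_mem _ hx hy
    | zero => exact Submodule.zero_mem _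
    | smul r x _ hx => exact Submodule.smul_mem _ r hx
    | mul x y _ _ hx hy =>
      refine mul_span ?_ hx hy
      rintro _ ⟨k, rfl⟩ _ ⟨l, rfl⟩
      exact ⟨k * l, rfl⟩
  refine J_span (F := F) ?_ (key x hx) (key y hy) (key z hz)
  rintro _ ⟨k, rfl⟩ _ ⟨l, rfl⟩ _ ⟨m, rfl⟩
  exact h k l m

theorem two_cancel (h2 : (2 : F) ≠ 0) (a : A) (ha : a + a = 0) : a = 0 := by
  rw [← two_smul F a] at ha
  exact (smul_eq_zero.mp ha).resolve_left h2

theorem three_cancel (h3 : (3 : F) ≠ 0) (a : A) (ha : (3 : ℕ) • a = 0) : a = 0 := by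
  have h1 : (3 : F) • a = 0 := by
    rw [← ha, ← Nat.cast_smul_eq_nsmul F]
    norm_num
  exact (smul_eq_zero.mp h1).resolve_left h3

/-- The two identities give `BL`. -/
theorem bl_of (h2 : (2 : F) ≠ 0) (h1 : ∀ x : A, x * x = 0)
    (h : ∀ a b : A, J (a * b) a b = 0) : BL A where
  anti := fun a b => by
    have := h1 (a + b)
    rw [mul_add, add_mul, add_mul, h1, h1, zero_add, add_zero] at this
    exact eq_neg_of_add_eq_zero_right this
  lin := fun a b c d => by
    have k1 : ∀ a b c : A, J (a * b) c b + J (c * b) a b = 0 := by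
      intro a b c
      have := h (a + c) b
      rw [add_mul, J_add1, J_add2, J_add2, h, h, zero_add, add_zero] at this
      exact this
    have := k1 a (b + d) c
    rw [mul_add, mul_add, J_add1, J_add3, J_add3, J_add1, J_add3, J_add3] at this
    have e1 := k1 a b c
    have e2 := k1 a d c
    have e3 : J (a * b) c d + J (a * d) c b + J (c * b) a d + J (c * d) a b =
      (J (a * b) c b + J (a * b) c d + (J (a * d) c b + J (a * d) c d) +
      (J (c * b) a b + J (c * b) a d + (J (c * d) a b + J (c * d) a d))) -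
      (J (a * b) c b + J (c * b) a b) - (J (a * d) c d + J (c * d) a d) := by abel
    rw [e3, this, e1, e2]
    simp
  two := two_cancel h2

theorem IsBinaryLie.jac {A : Type w} [NonUnitalNonAssocRing A] [Module F A]
    [IsScalarTower F A A] [SMulCommClass F A A] (h : IsBinaryLie F A) (a b : A) :
    J (a * b) a b = 0 := by
  have ha : a ∈ NonUnitalAlgebra.adjoin F ({a, b} : Set A) :=
    NonUnitalAlgebra.subset_adjoin F (by simp)
  have hb : b ∈ NonUnitalAlgebra.adjoin F ({a, b} : Set A) :=
    NonUnitalAlgebra.subset_adjoin F (by simp)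
  exact h.2 a b _ (mul_mem ha hb) _ ha _ hb

theorem IsBinaryLie.bl (h2 : (2 : F) ≠ 0) (h : IsBinaryLie F A) : BL A :=
  bl_of h2 h.1 h.jac

theorem BL.isBinaryLie (h3 : (3 : F) ≠ 0) (h : BL A) : IsBinaryLie F A := by
  refine ⟨h.self_zero, fun a b x hx y hy z hz => ?_⟩
  exact jac_adjoin (fun k l m => gainov h (three_cancel h3) a b k l m) hx hy hz

end char

section quot

variable {F : Type u} [Field F] {A : Type w} [NonUnitalNonAssocRing A] [Module F A]
  [IsScalarTower F A A] [SMulCommClass F A A]

variable (F A) in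
/-- Subspaces closed under multiplication by all elements, containing the values of the
two binary-Lie identities. -/
def Rels : Set (Submodule F A) :=
  {N | (∀ t : A, ∀ z ∈ N, t * z ∈ N ∧ z * t ∈ N) ∧ (∀ a : A, a * a ∈ N) ∧
    ∀ a b : A, J (a * b) a b ∈ N}

variable (F A) in
/-- The ideal of the binary-Lie identities. -/
def KI : Submodule F A := sInf (Rels F A)

theorem KI_left (t : A) {z : A} (hz : z ∈ KI F A) : t * z ∈ KI F A := by
  unfold KI at *
  rw [Submodule.mem_sInf] at *
  exact fun N hN => (hN.1 t z (hz N hN)).1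

theorem KI_right (t : A) {z : A} (hz : z ∈ KI F A) : z * t ∈ KI F A := by
  unfold KI at *
  rw [Submodule.mem_sInf] at *
  exact fun N hN => (hN.1 t z (hz N hN)).2

variable (F A) in
/-- The quotient by the ideal of the identities. -/
def QI : Type w := A ⧸ KI F A

instance : AddCommGroup (QI F A) := inferInstanceAs (AddCommGroup (A ⧸ KI F A))
instance : Module F (QI F A) := inferInstanceAs (Module F (A ⧸ KI F A))

variable (F A) in
/-- The projection. -/
def qi : A →ₗ[F] QI F A := (KI F A).mkQ

theorem qi_surj : Function.Surjective (qi F A) := Submodule.mkQ_surjective _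

theorem qi_eq_zero {z : A} : qi F A z = 0 ↔ z ∈ KI F A :=
  Submodule.Quotient.mk_eq_zero (KI F A)

/-- The multiplication with values in the quotient. -/
def qmulA : A →ₗ[F] A →ₗ[F] QI F A :=
  LinearMap.mk₂ F (fun a b => qi F A (a * b))
    (fun a a' b => by rw [add_mul, map_add])
    (fun r a b => by rw [smul_mul_assoc, map_smul])
    (fun a b b' => by rw [mul_add, map_add])
    (fun r a b => by rw [mul_smul_comm, map_smul])

/-- The multiplication, descended in the first variable. -/
def qmulB : QI F A →ₗ[F] A →ₗ[F] QI F A :=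
  (KI F A).liftQ qmulA (by
    intro z hz
    rw [LinearMap.mem_ker]
    ext b
    exact qi_eq_zero.mpr (KI_right b hz))

/-- The multiplication on the quotient. -/
def qmulC : QI F A →ₗ[F] QI F A →ₗ[F] QI F A :=
  LinearMap.flip ((KI F A).liftQ (LinearMap.flip qmulB) (by
    intro z hz
    rw [LinearMap.mem_ker]
    ext b
    obtain ⟨b, rfl⟩ := qi_surj b
    exact qi_eq_zero.mpr (KI_left b hz)))

instance : NonUnitalNonAssocRing (QI F A) :=
  { (inferInstance : AddCommGroup (QI F A)) with
    mul := fun a b => qmulC a b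
    left_distrib := fun a b c => by
      change qmulC a (b + c) = qmulC a b + qmulC a c
      rw [map_add]
    right_distrib := fun a b c => by
      change qmulC (a + b) c = qmulC a c + qmulC b c
      rw [map_add, LinearMap.add_apply]
    zero_mul := fun a => by
      change qmulC 0 a = 0
      rw [map_zero, LinearMap.zero_apply]
    mul_zero := fun a => by
      change qmulC a 0 = 0
      rw [map_zero] }

theorem qi_mul (a b : A) : qi F A (a * b) = qi F A a * qi F A b := rfl

instance : IsScalarTower F (QI F A) (QI F A) where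
  smul_assoc r a b := by
    change qmulC (r • a) b = r • qmulC a b
    rw [map_smul, LinearMap.smul_apply]

instance : SMulCommClass F (QI F A) (QI F A) where
  smul_comm r a b := by
    change r • qmulC a b = qmulC a (r • b)
    rw [map_smul]

theorem qi_J (a b c : A) : qi F A (J a b c) = J (qi F A a) (qi F A b) (qi F A c) := by
  unfold J
  rw [map_add, map_add, qi_mul, qi_mul, qi_mul, qi_mul, qi_mul, qi_mul]

theorem QI_bl (h2 : (2 : F) ≠ 0) : BL (QI F A) := by
  refine bl_of h2 (fun x => ?_) (fun a b => ?_)
  · obtain ⟨x, rfl⟩ := qi_surj x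
    rw [← qi_mul, qi_eq_zero]
    unfold KI
    rw [Submodule.mem_sInf]
    exact fun N hN => hN.2.1 x
  · obtain ⟨a, rfl⟩ := qi_surj a
    obtain ⟨b, rfl⟩ := qi_surj b
    rw [← qi_mul, ← qi_J, qi_eq_zero]
    unfold KI
    rw [Submodule.mem_sInf]
    exact fun N hN => hN.2.2 a b

/-- Homomorphisms to algebras with the identities descend. -/
theorem QI_lift {B : Type z} [NonUnitalNonAssocRing B] [Module F B]
    (h1 : ∀ x : B, x * x = 0) (h2 : ∀ a b : B, J (a * b) a b = 0) (f : A →ₙₐ[F] B) :
    ∃ φ : QI F A →ₙₐ[F] B, ∀ a, φ (qi F A a) = f a := by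
  have hN : LinearMap.ker (f : A →ₗ[F] B) ∈ Rels F A := by
    refine ⟨fun t z hz => ?_, fun a => ?_, fun a b => ?_⟩
    · rw [LinearMap.mem_ker] at hz
      have hz' : f z = 0 := hz
      constructor
      · rw [LinearMap.mem_ker]
        change f (t * z) = 0
        rw [map_mul, hz', mul_zero]
      · rw [LinearMap.mem_ker]
        change f (z * t) = 0
        rw [map_mul, hz', zero_mul]
    · rw [LinearMap.mem_ker]
      change f (a * a) = 0
      rw [map_mul, h1]
    · rw [LinearMap.mem_ker]
      change f (J (a * b) a b) = 0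
      have := h2 (f a) (f b)
      unfold J at this ⊢
      simpa only [map_add, map_mul] using this
  have hK : KI F A ≤ LinearMap.ker (f : A →ₗ[F] B) := sInf_le hN
  let g : QI F A →ₗ[F] B := (KI F A).liftQ (f : A →ₗ[F] B) hK
  have hg : ∀ a, g (qi F A a) = f a := fun a => rfl
  refine ⟨{ toFun := g
            map_smul' := fun r x => map_smul g r x
            map_zero' := map_zero g
            map_add' := map_add g
            map_mul' := ?_ }, hg⟩
  intro x y
  obtain ⟨x, rfl⟩ := qi_surj x
  obtain ⟨y, rfl⟩ := qi_surj y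
  rw [← qi_mul, hg, hg, hg, map_mul]

end quot

section free

variable (F : Type u) [Field F] (X : Type v)

/-- The free binary-Lie algebra. -/
abbrev FB : Type max u v := QI F (FreeNonUnitalNonAssocAlgebra F X)

/-- The generators. -/
noncomputable def fb (x : X) : FB F X := qi F _ (FreeNonUnitalNonAssocAlgebra.of F x)

theorem FB_lift {B : Type z} [NonUnitalNonAssocRing B] [Module F B]
    [IsScalarTower F B B] [SMulCommClass F B B]
    (h1 : ∀ x : B, x * x = 0) (h2 : ∀ a b : B, J (a * b) a b = 0) (f : X → B) :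
    ∃ φ : FB F X →ₙₐ[F] B, ∀ x, φ (fb F X x) = f x := by
  obtain ⟨φ, hφ⟩ := QI_lift h1 h2 (FreeNonUnitalNonAssocAlgebra.lift F f)
  refine ⟨φ, fun x => ?_⟩
  unfold fb
  rw [hφ, FreeNonUnitalNonAssocAlgebra.lift_of_apply]

theorem adjoin_of : NonUnitalAlgebra.adjoin F
    (Set.range (FreeNonUnitalNonAssocAlgebra.of F (X := X))) = ⊤ := by
  rw [eq_top_iff]
  intro x hx
  clear hx
  have hm : ∀ m : FreeMagma X, (MonoidAlgebra.single m (1 : F)) ∈ NonUnitalAlgebra.adjoin F
      (Set.range (FreeNonUnitalNonAssocAlgebra.of F (X := X))) := by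
    intro m
    induction m with
    | ih1 x => exact NonUnitalAlgebra.subset_adjoin F ⟨x, rfl⟩
    | ih2 a b ha hb =>
      have := mul_mem ha hb
      rwa [MonoidAlgebra.single_mul_single, one_mul] at this
  induction x using MonoidAlgebra.induction_linear with
  | zero => exact zero_mem _
  | add f g hf hg => exact add_mem hf hg
  | single m r =>
    have h1 := SMulMemClass.smul_mem r (hm m)
    rwa [MonoidAlgebra.smul_single, smul_eq_mul, mul_one] at h1

theorem adjoin_fb : NonUnitalAlgebra.adjoin F (Set.range (fb F X)) = ⊤ := by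
  rw [eq_top_iff]
  intro x hx
  clear hx
  obtain ⟨x, rfl⟩ := qi_surj x
  have hx : x ∈ NonUnitalAlgebra.adjoin F
    (Set.range (FreeNonUnitalNonAssocAlgebra.of F (X := X))) := by rw [adjoin_of]; trivial
  induction hx using NonUnitalAlgebra.adjoin_induction with
  | mem x hx =>
    obtain ⟨x, rfl⟩ := hx
    exact NonUnitalAlgebra.subset_adjoin F ⟨x, rfl⟩
  | add x y _ _ hx hy => rw [map_add]; exact add_mem hx hy
  | zero => rw [map_zero]; exact zero_mem _
  | smul r x _ hx => rw [map_smul]; exact SMulMemClass.smul_mem r hx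
  | mul x y _ _ hx hy => rw [qi_mul]; exact mul_mem hx hy

/-- Homomorphisms that agree on generators are equal. -/
theorem hom_unique {B : Type w} [NonUnitalNonAssocRing B] [Module F B] [IsScalarTower F B B]
    [SMulCommClass F B B] {A : Type z} [NonUnitalNonAssocRing A] [Module F A]
    [IsScalarTower F A A] [SMulCommClass F A A] {X : Type v} {ι : X → B}
    (hι : NonUnitalAlgebra.adjoin F (Set.range ι) = ⊤) {φ ψ : B →ₙₐ[F] A}
    (h : ∀ x, φ (ι x) = ψ (ι x)) : φ = ψ := by
  ext b
  have hb : b ∈ NonUnitalAlgebra.adjoin F (Set.range ι) := by rw [hι]; trivial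
  induction hb using NonUnitalAlgebra.adjoin_induction with
  | mem x hx => obtain ⟨x, rfl⟩ := hx; exact h x
  | add x y _ _ hx hy => rw [map_add, map_add, hx, hy]
  | zero => rw [map_zero, map_zero]
  | smul r x _ hx => rw [map_smul, map_smul, hx]
  | mul x y _ _ hx hy => rw [map_mul, map_mul, hx, hy]

theorem FB_free (h2 : (2 : F) ≠ 0) (h3 : (3 : F) ≠ 0) :
    IsFreeBinaryLie.{u, v, max u v, z} F X (FB F X) (fb F X) where
  binaryLie := (QI_bl h2).isBinaryLie h3
  generates := adjoin_fb F X
  extends_uniquely := fun A _ _ _ _ hA f => by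
    obtain ⟨φ, hφ⟩ := FB_lift F X hA.1 hA.jac f
    refine ⟨φ, hφ, fun ψ hψ => ?_⟩
    exact hom_unique F (adjoin_fb F X) fun x => by rw [hφ, hψ]

end free

end Pool.Agent.BLie
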