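import Mathlib
import Pool.Agent.BLie.Free

/-! The free binary-Lie algebra over a field of any characteristic. -/

set_option autoImplicit false
set_option linter.unusedSimpArgs false
set_option linter.unusedSectionVars false

universe u v w z

namespace Pool.Agent.BLie

section char

variable {F : Type u} [Field F] {A : Type w} [NonUnitalNonAssocRing A] [Module F A]
  [IsScalarTower F A A] [SMulCommClass F A A]

theorem val_mem_adjoin (a b : A) (k : FreeMagma Bool) :
    val a b k ∈ NonUnitalAlgebra.adjoin F ({a, b} : Set A) := by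
  induction k with
  | ih1 x =>
    cases x
    · exact NonUnitalAlgebra.subset_adjoin F (Or.inr rfl)
    · exact NonUnitalAlgebra.subset_adjoin F (Or.inl rfl)
  | ih2 x y hx hy => exact mul_mem hx hy

theorem IsBinaryLie.jac_val (h : IsBinaryLie F A) (a b : A) (k l m : FreeMagma Bool) :
    J (val a b k) (val a b l) (val a b m) = 0 :=
  h.2 a b _ (val_mem_adjoin a b k) _ (val_mem_adjoin a b l) _ (val_mem_adjoin a b m)

/-- Binary-Lie algebras are the algebras with these identities. -/
theorem isBinaryLie_iff_val : IsBinaryLie F A ↔ (∀ x : A, x * x = 0) ∧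
    ∀ (a b : A) (k l m : FreeMagma Bool), J (val a b k) (val a b l) (val a b m) = 0 :=
  ⟨fun h => ⟨h.1, h.jac_val⟩, fun h => ⟨h.1, fun a b _ hx _ hy _ hz =>
    jac_adjoin (h.2 a b) hx hy hz⟩⟩

end char

section quot

variable {F : Type u} [Field F] {A : Type w} [NonUnitalNonAssocRing A] [Module F A]
  [IsScalarTower F A A] [SMulCommClass F A A]

variable (F A) in
/-- Subspaces closed under multiplication by all elements, containing the values of all
identities of binary-Lie algebras. -/
def Rels2 : Set (Submodule F A) :=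
  {N | (∀ t : A, ∀ z ∈ N, t * z ∈ N ∧ z * t ∈ N) ∧ (∀ a : A, a * a ∈ N) ∧
    ∀ (a b : A) (k l m : FreeMagma Bool), J (val a b k) (val a b l) (val a b m) ∈ N}

variable (F A) in
/-- The ideal of the binary-Lie identities. -/
def KI2 : Submodule F A := sInf (Rels2 F A)

theorem KI2_left (t : A) {z : A} (hz : z ∈ KI2 F A) : t * z ∈ KI2 F A := by
  unfold KI2 at *
  rw [Submodule.mem_sInf] at *
  exact fun N hN => (hN.1 t z (hz N hN)).1

theorem KI2_right (t : A) {z : A} (hz : z ∈ KI2 F A) : z * t ∈ KI2 F A := by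
  unfold KI2 at *
  rw [Submodule.mem_sInf] at *
  exact fun N hN => (hN.1 t z (hz N hN)).2

variable (F A) in
/-- The quotient by the ideal of the identities. -/
def QI2 : Type w := A ⧸ KI2 F A

instance : AddCommGroup (QI2 F A) := inferInstanceAs (AddCommGroup (A ⧸ KI2 F A))
instance : Module F (QI2 F A) := inferInstanceAs (Module F (A ⧸ KI2 F A))

variable (F A) in
/-- The projection. -/
def qi2 : A →ₗ[F] QI2 F A := (KI2 F A).mkQ

theorem qi2_surj : Function.Surjective (qi2 F A) := Submodule.mkQ_surjective _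

theorem qi2_eq_zero {z : A} : qi2 F A z = 0 ↔ z ∈ KI2 F A :=
  Submodule.Quotient.mk_eq_zero (KI2 F A)

/-- The multiplication with values in the quotient. -/
def qmulA2 : A →ₗ[F] A →ₗ[F] QI2 F A :=
  LinearMap.mk₂ F (fun a b => qi2 F A (a * b))
    (fun a a' b => by rw [add_mul, map_add])
    (fun r a b => by rw [smul_mul_assoc, map_smul])
    (fun a b b' => by rw [mul_add, map_add])
    (fun r a b => by rw [mul_smul_comm, map_smul])

/-- The multiplication, descended in the first variable. -/
def qmulB2 : QI2 F A →ₗ[F] A →ₗ[F] QI2 F A :=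
  (KI2 F A).liftQ qmulA2 (by
    intro z hz
    rw [LinearMap.mem_ker]
    ext b
    exact qi2_eq_zero.mpr (KI2_right b hz))

/-- The multiplication on the quotient. -/
def qmulC2 : QI2 F A →ₗ[F] QI2 F A →ₗ[F] QI2 F A :=
  LinearMap.flip ((KI2 F A).liftQ (LinearMap.flip qmulB2) (by
    intro z hz
    rw [LinearMap.mem_ker]
    ext b
    obtain ⟨b, rfl⟩ := qi2_surj b
    exact qi2_eq_zero.mpr (KI2_left b hz)))

instance : NonUnitalNonAssocRing (QI2 F A) :=
  { (inferInstance : AddCommGroup (QI2 F A)) with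
    mul := fun a b => qmulC2 a b
    left_distrib := fun a b c => by
      change qmulC2 a (b + c) = qmulC2 a b + qmulC2 a c
      rw [map_add]
    right_distrib := fun a b c => by
      change qmulC2 (a + b) c = qmulC2 a c + qmulC2 b c
      rw [map_add, LinearMap.add_apply]
    zero_mul := fun a => by
      change qmulC2 0 a = 0
      rw [map_zero, LinearMap.zero_apply]
    mul_zero := fun a => by
      change qmulC2 a 0 = 0
      rw [map_zero] }

theorem qi2_mul (a b : A) : qi2 F A (a * b) = qi2 F A a * qi2 F A b := rfl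

instance : IsScalarTower F (QI2 F A) (QI2 F A) where
  smul_assoc r a b := by
    change qmulC2 (r • a) b = r • qmulC2 a b
    rw [map_smul, LinearMap.smul_apply]

instance : SMulCommClass F (QI2 F A) (QI2 F A) where
  smul_comm r a b := by
    change r • qmulC2 a b = qmulC2 a (r • b)
    rw [map_smul]

theorem qi2_J (a b c : A) : qi2 F A (J a b c) = J (qi2 F A a) (qi2 F A b) (qi2 F A c) := by
  unfold J
  rw [map_add, map_add, qi2_mul, qi2_mul, qi2_mul, qi2_mul, qi2_mul, qi2_mul]

theorem qi2_val (a b : A) (k : FreeMagma Bool) :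
    qi2 F A (val a b k) = val (qi2 F A a) (qi2 F A b) k := by
  induction k with
  | ih1 x => cases x <;> rfl
  | ih2 x y hx hy =>
    change qi2 F A (val a b x * val a b y) = val (qi2 F A a) (qi2 F A b) x *
      val (qi2 F A a) (qi2 F A b) y
    rw [qi2_mul, hx, hy]

theorem hom_val {B : Type z} [NonUnitalNonAssocRing B] [Module F B] (f : A →ₙₐ[F] B) (a b : A)
    (k : FreeMagma Bool) : f (val a b k) = val (f a) (f b) k := by
  induction k with
  | ih1 x => cases x <;> rfl
  | ih2 x y hx hy =>
    change f (val a b x * val a b y) = val (f a) (f b) x * val (f a) (f b) y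
    rw [map_mul, hx, hy]

theorem hom_J {B : Type z} [NonUnitalNonAssocRing B] [Module F B] (f : A →ₙₐ[F] B)
    (a b c : A) : f (J a b c) = J (f a) (f b) (f c) := by
  unfold J
  simp only [map_add, map_mul]

theorem QI2_isBinaryLie : IsBinaryLie F (QI2 F A) := by
  refine isBinaryLie_iff_val.mpr ⟨fun x => ?_, fun a b k l m => ?_⟩
  · obtain ⟨x, rfl⟩ := qi2_surj x
    rw [← qi2_mul, qi2_eq_zero]
    unfold KI2
    rw [Submodule.mem_sInf]
    exact fun N hN => hN.2.1 x
  · obtain ⟨a, rfl⟩ := qi2_surj a
    obtain ⟨b, rfl⟩ := qi2_surj b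
    rw [← qi2_val, ← qi2_val, ← qi2_val, ← qi2_J, qi2_eq_zero]
    unfold KI2
    rw [Submodule.mem_sInf]
    exact fun N hN => hN.2.2 a b k l m

/-- Homomorphisms to algebras with the identities descend. -/
theorem QI2_lift {B : Type z} [NonUnitalNonAssocRing B] [Module F B]
    (h1 : ∀ x : B, x * x = 0)
    (h2 : ∀ (a b : B) (k l m : FreeMagma Bool), J (val a b k) (val a b l) (val a b m) = 0)
    (f : A →ₙₐ[F] B) :
    ∃ φ : QI2 F A →ₙₐ[F] B, ∀ a, φ (qi2 F A a) = f a := by
  have hN : LinearMap.ker (f : A →ₗ[F] B) ∈ Rels2 F A := by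
    refine ⟨fun t z hz => ?_, fun a => ?_, fun a b k l m => ?_⟩
    · rw [LinearMap.mem_ker] at hz
      have hz' : f z = 0 := hz
      constructor
      · rw [LinearMap.mem_ker]
        change f (t * z) = 0
        rw [map_mul, hz', mul_zero]
      · rw [LinearMap.mem_ker]
        change f (z * t) = 0
        rw [map_mul, hz', zero_mul]
    · rw [LinearMap.mem_ker]
      change f (a * a) = 0
      rw [map_mul, h1]
    · rw [LinearMap.mem_ker]
      change f (J (val a b k) (val a b l) (val a b m)) = 0
      rw [hom_J, hom_val, hom_val, hom_val, h2]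
  have hK : KI2 F A ≤ LinearMap.ker (f : A →ₗ[F] B) := sInf_le hN
  let g : QI2 F A →ₗ[F] B := (KI2 F A).liftQ (f : A →ₗ[F] B) hK
  have hg : ∀ a, g (qi2 F A a) = f a := fun a => rfl
  refine ⟨{ toFun := g
            map_smul' := fun r x => map_smul g r x
            map_zero' := map_zero g
            map_add' := map_add g
            map_mul' := ?_ }, hg⟩
  intro x y
  obtain ⟨x, rfl⟩ := qi2_surj x
  obtain ⟨y, rfl⟩ := qi2_surj y
  rw [← qi2_mul, hg, hg, hg, map_mul]

end quot

section free

variable (F : Type u) [Field F] (X : Type v)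

/-- The free binary-Lie algebra. -/
abbrev FB2 : Type max u v := QI2 F (FreeNonUnitalNonAssocAlgebra F X)

/-- The generators. -/
noncomputable def fb2 (x : X) : FB2 F X := qi2 F _ (FreeNonUnitalNonAssocAlgebra.of F x)

theorem FB2_lift {B : Type z} [NonUnitalNonAssocRing B] [Module F B]
    [IsScalarTower F B B] [SMulCommClass F B B]
    (h1 : ∀ x : B, x * x = 0)
    (h2 : ∀ (a b : B) (k l m : FreeMagma Bool), J (val a b k) (val a b l) (val a b m) = 0)
    (f : X → B) :
    ∃ φ : FB2 F X →ₙₐ[F] B, ∀ x, φ (fb2 F X x) = f x := by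
  obtain ⟨φ, hφ⟩ := QI2_lift h1 h2 (FreeNonUnitalNonAssocAlgebra.lift F f)
  refine ⟨φ, fun x => ?_⟩
  unfold fb2
  rw [hφ, FreeNonUnitalNonAssocAlgebra.lift_of_apply]

theorem adjoin_fb2 : NonUnitalAlgebra.adjoin F (Set.range (fb2 F X)) = ⊤ := by
  rw [eq_top_iff]
  intro x hx
  clear hx
  obtain ⟨x, rfl⟩ := qi2_surj x
  have hx : x ∈ NonUnitalAlgebra.adjoin F
    (Set.range (FreeNonUnitalNonAssocAlgebra.of F (X := X))) := by rw [adjoin_of]; trivial
  induction hx using NonUnitalAlgebra.adjoin_induction with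
  | mem x hx =>
    obtain ⟨x, rfl⟩ := hx
    exact NonUnitalAlgebra.subset_adjoin F ⟨x, rfl⟩
  | add x y _ _ hx hy => rw [map_add]; exact add_mem hx hy
  | zero => rw [map_zero]; exact zero_mem _
  | smul r x _ hx => rw [map_smul]; exact SMulMemClass.smul_mem r hx
  | mul x y _ _ hx hy => rw [qi2_mul]; exact mul_mem hx hy

/-- The free binary-Lie algebra, over every field. -/
theorem FB2_free : IsFreeBinaryLie.{u, v, max u v, z} F X (FB2 F X) (fb2 F X) where
  binaryLie := QI2_isBinaryLie
  generates := adjoin_fb2 F X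
  extends_uniquely := fun A _ _ _ _ hA f => by
    obtain ⟨φ, hφ⟩ := FB2_lift F X hA.1 hA.jac_val f
    refine ⟨φ, hφ, fun ψ hψ => ?_⟩
    exact hom_unique F (adjoin_fb2 F X) fun x => by rw [hφ, hψ]

end free

end Pool.Agent.BLie
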