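import Mathlib
import Pool.Agent.BLie.Free2

/-!
A binary-Lie algebra of dimension 10, over every commutative ring and for all weights.

Basis: `x,c,a,u,v,p₁,p₂,r₁,r₂,E` numbered `0,…,9`.
-/

set_option autoImplicit false
set_option linter.unusedSimpArgs false
set_option linter.unusedVariables false
set_option linter.unusedSectionVars false

universe u v z

namespace Pool.Agent.BLie

namespace Model3

/-- the model -/
def M10 (S : Type u) (al up w w' : S) : Type u := Fin 10 → S

section alg

variable {S : Type u} [CommRing S] {al up w w' : S}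

instance : AddCommGroup (M10 S al up w w') := inferInstanceAs (AddCommGroup (Fin 10 → S))

instance {F : Type v} [CommRing F] [Algebra F S] : Module F (M10 S al up w w') :=
  inferInstanceAs (Module F (Fin 10 → S))

lemma add_ap (f g : M10 S al up w w') (i : Fin 10) : (f + g) i = f i + g i := rfl

lemma zero_ap (i : Fin 10) : (0 : M10 S al up w w') i = 0 := rfl

lemma neg_ap (f : M10 S al up w w') (i : Fin 10) : (-f) i = -f i := rfl

lemma smul_ap {F : Type v} [CommRing F] [Algebra F S] (r : F) (f : M10 S al up w w') (i : Fin 10) :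
    (r • f) i = r • f i := rfl

/-- the multiplication -/
def mulM (f g : M10 S al up w w') : M10 S al up w w' :=
  ![0, al * (f 0 * g 1 - f 1 * g 0), al * (f 0 * g 2 - f 2 * g 0),
    up * (f 0 * g 3 - f 3 * g 0), up * (f 0 * g 4 - f 4 * g 0),
    w * (f 0 * g 5 - f 5 * g 0) + (w - al) * (f 1 * g 2 - f 2 * g 1),
    w' * (f 0 * g 6 - f 6 * g 0) - (w' - al) * (f 1 * g 2 - f 2 * g 1),
    w * (f 0 * g 7 - f 7 * g 0) - (w - up) * (f 3 * g 4 - f 4 * g 3),
    w' * (f 0 * g 8 - f 8 * g 0) + (w' - up) * (f 3 * g 4 - f 4 * g 3),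
    (w + w') * (f 0 * g 9 - f 9 * g 0) + (f 5 * g 7 - f 7 * g 5) + (f 5 * g 8 - f 8 * g 5) +
      (f 6 * g 7 - f 7 * g 6) + (f 6 * g 8 - f 8 * g 6)]

instance : Mul (M10 S al up w w') := ⟨mulM⟩

lemma mul0 (f g : M10 S al up w w') : (f * g) 0 = 0 := rfl

lemma mul1 (f g : M10 S al up w w') : (f * g) 1 = al * (f 0 * g 1 - f 1 * g 0) := rfl

lemma mul2 (f g : M10 S al up w w') : (f * g) 2 = al * (f 0 * g 2 - f 2 * g 0) := rfl

lemma mul3 (f g : M10 S al up w w') : (f * g) 3 = up * (f 0 * g 3 - f 3 * g 0) := rfl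

lemma mul4 (f g : M10 S al up w w') : (f * g) 4 = up * (f 0 * g 4 - f 4 * g 0) := rfl

lemma mul5 (f g : M10 S al up w w') : (f * g) 5 =
    w * (f 0 * g 5 - f 5 * g 0) + (w - al) * (f 1 * g 2 - f 2 * g 1) := rfl

lemma mul6 (f g : M10 S al up w w') : (f * g) 6 =
    w' * (f 0 * g 6 - f 6 * g 0) - (w' - al) * (f 1 * g 2 - f 2 * g 1) := rfl

lemma mul7 (f g : M10 S al up w w') : (f * g) 7 =
    w * (f 0 * g 7 - f 7 * g 0) - (w - up) * (f 3 * g 4 - f 4 * g 3) := rfl

lemma mul8 (f g : M10 S al up w w') : (f * g) 8 =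
    w' * (f 0 * g 8 - f 8 * g 0) + (w' - up) * (f 3 * g 4 - f 4 * g 3) := rfl

lemma mul9 (f g : M10 S al up w w') : (f * g) 9 =
    (w + w') * (f 0 * g 9 - f 9 * g 0) + (f 5 * g 7 - f 7 * g 5) + (f 5 * g 8 - f 8 * g 5) +
      (f 6 * g 7 - f 7 * g 6) + (f 6 * g 8 - f 8 * g 6) := rfl

lemma ext10 {f g : M10 S al up w w'} (h0 : f 0 = g 0) (h1 : f 1 = g 1) (h2 : f 2 = g 2)
    (h3 : f 3 = g 3) (h4 : f 4 = g 4) (h5 : f 5 = g 5) (h6 : f 6 = g 6) (h7 : f 7 = g 7)
    (h8 : f 8 = g 8) (h9 : f 9 = g 9) : f = g := by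
  funext i
  match i with
  | 0 => exact h0
  | 1 => exact h1
  | 2 => exact h2
  | 3 => exact h3
  | 4 => exact h4
  | 5 => exact h5
  | 6 => exact h6
  | 7 => exact h7
  | 8 => exact h8
  | 9 => exact h9

instance : NonUnitalNonAssocRing (M10 S al up w w') :=
  { (inferInstance : AddCommGroup (M10 S al up w w')),
    (inferInstance : Mul (M10 S al up w w')) with
    left_distrib := fun a b c => by
      apply ext10 <;>
      simp only [mul0, mul1, mul2, mul3, mul4, mul5, mul6, mul7, mul8, mul9, add_ap] <;> ring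
    right_distrib := fun a b c => by
      apply ext10 <;>
      simp only [mul0, mul1, mul2, mul3, mul4, mul5, mul6, mul7, mul8, mul9, add_ap] <;> ring
    zero_mul := fun a => by
      apply ext10 <;>
      simp only [mul0, mul1, mul2, mul3, mul4, mul5, mul6, mul7, mul8, mul9, zero_ap] <;> ring
    mul_zero := fun a => by
      apply ext10 <;>
      simp only [mul0, mul1, mul2, mul3, mul4, mul5, mul6, mul7, mul8, mul9, zero_ap] <;> ring }

instance {F : Type v} [CommRing F] [Algebra F S] :
    IsScalarTower F (M10 S al up w w') (M10 S al up w w') where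
  smul_assoc r a b := by
    change (r • a) * b = r • (a * b)
    apply ext10 <;>
    simp only [mul0, mul1, mul2, mul3, mul4, mul5, mul6, mul7, mul8, mul9, smul_ap,
      Algebra.smul_def] <;> ring

instance {F : Type v} [CommRing F] [Algebra F S] :
    SMulCommClass F (M10 S al up w w') (M10 S al up w w') where
  smul_comm r a b := by
    change r • (a * b) = a * (r • b)
    apply ext10 <;>
    simp only [mul0, mul1, mul2, mul3, mul4, mul5, mul6, mul7, mul8, mul9, smul_ap,
      Algebra.smul_def] <;> ring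

theorem mul_self (f : M10 S al up w w') : f * f = 0 := by
  apply ext10 <;>
  simp only [mul0, mul1, mul2, mul3, mul4, mul5, mul6, mul7, mul8, mul9, zero_ap] <;> ring

theorem anti (f g : M10 S al up w w') : f * g = -(g * f) := by
  apply ext10 <;>
  simp only [mul0, mul1, mul2, mul3, mul4, mul5, mul6, mul7, mul8, mul9, neg_ap] <;> ring

theorem jac (a b : M10 S al up w w') : J (a * b) a b = 0 := by
  unfold J
  apply ext10 <;>
  simp only [mul0, mul1, mul2, mul3, mul4, mul5, mul6, mul7, mul8, mul9, zero_ap, add_ap] <;> ring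

/-- The linearised identity over every ring. -/
theorem lin (a b c d : M10 S al up w w') :
    J (a * b) c d + J (a * d) c b + J (c * b) a d + J (c * d) a b = 0 := by
  have k1 : ∀ a b c : M10 S al up w w', J (a * b) c b + J (c * b) a b = 0 := by
    intro a b c
    have := jac (a + c) b
    rw [add_mul, J_add1, J_add2, J_add2, jac, jac, zero_add, add_zero] at this
    exact this
  have := k1 a (b + d) c
  rw [mul_add, mul_add, J_add1, J_add3, J_add3, J_add1, J_add3, J_add3] at this
  have e1 := k1 a b c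
  have e2 := k1 a d c
  have e3 : J (a * b) c d + J (a * d) c b + J (c * b) a d + J (c * d) a b =
    (J (a * b) c b + J (a * b) c d + (J (a * d) c b + J (a * d) c d) +
    (J (c * b) a b + J (c * b) a d + (J (c * d) a b + J (c * d) a d))) -
    (J (a * b) c b + J (c * b) a b) - (J (a * d) c d + J (c * d) a d) := by abel
  rw [e3, this, e1, e2]
  simp

end alg

section torsionfree

variable {S : Type u} [CommRing S] [IsDomain S] [CharZero S] {al up w w' : S}

theorem bl : BL (M10 S al up w w') where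
  anti := anti
  lin := lin
  two := fun a ha => by
    funext i
    have h := congrFun ha i
    have h1 : a i + a i = 0 := h
    rw [← two_mul] at h1
    exact (mul_eq_zero.mp h1).resolve_left two_ne_zero

theorem three (a : M10 S al up w w') (ha : (3 : ℕ) • a = 0) : a = 0 := by
  funext i
  have h0 : a + a + a = 0 := by
    rw [← ha]
    simp only [succ_nsmul, zero_nsmul, zero_add]
  have h := congrFun h0 i
  have h1 : a i + a i + a i = 0 := h
  have h2 : (3 : S) * a i = 0 := by
    rw [← h1]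
    ring
  exact (mul_eq_zero.mp h2).resolve_left (by norm_num : (3 : S) ≠ 0)

theorem jac_val' (a b : M10 S al up w w') (k l m : FreeMagma Bool) :
    J (val a b k) (val a b l) (val a b m) = 0 :=
  gainov bl three a b k l m

end torsionfree

section spec

variable {S : Type u} [CommRing S] {K : Type v} [CommRing K] (φ : S →+* K) {al up w w' : S}
  {al' up' ww ww' : K}

/-- Specialisation. -/
def sp (h1 : φ al = al') (h2 : φ up = up') (h3 : φ w = ww) (h4 : φ w' = ww')
    (f : M10 S al up w w') : M10 K al' up' ww ww' := fun i => φ (f i)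

variable (h1 : φ al = al') (h2 : φ up = up') (h3 : φ w = ww) (h4 : φ w' = ww')

lemma sp_ap (f : M10 S al up w w') (i : Fin 10) : sp φ h1 h2 h3 h4 f i = φ (f i) := rfl

lemma sp_add (f g : M10 S al up w w') :
    sp φ h1 h2 h3 h4 (f + g) = sp φ h1 h2 h3 h4 f + sp φ h1 h2 h3 h4 g := by
  funext i
  rw [add_ap, sp_ap, sp_ap, sp_ap, add_ap, map_add]

lemma sp_zero : sp φ h1 h2 h3 h4 (0 : M10 S al up w w') = 0 := by
  funext i
  rw [zero_ap, sp_ap, zero_ap, map_zero]

lemma sp_mul (f g : M10 S al up w w') :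
    sp φ h1 h2 h3 h4 (f * g) = sp φ h1 h2 h3 h4 f * sp φ h1 h2 h3 h4 g := by
  apply ext10 <;>
  simp only [sp_ap, mul0, mul1, mul2, mul3, mul4, mul5, mul6, mul7, mul8, mul9, map_add, map_mul,
    map_sub, map_zero, h1, h2, h3, h4]

lemma sp_val (f g : M10 S al up w w') (k : FreeMagma Bool) :
    sp φ h1 h2 h3 h4 (val f g k) = val (sp φ h1 h2 h3 h4 f) (sp φ h1 h2 h3 h4 g) k := by
  induction k with
  | ih1 x => cases x <;> rfl
  | ih2 x y hx hy =>
    change sp φ h1 h2 h3 h4 (val f g x * val f g y) =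
      val (sp φ h1 h2 h3 h4 f) (sp φ h1 h2 h3 h4 g) x *
      val (sp φ h1 h2 h3 h4 f) (sp φ h1 h2 h3 h4 g) y
    rw [sp_mul, hx, hy]

lemma sp_J (a b c : M10 S al up w w') :
    sp φ h1 h2 h3 h4 (J a b c) =
      J (sp φ h1 h2 h3 h4 a) (sp φ h1 h2 h3 h4 b) (sp φ h1 h2 h3 h4 c) := by
  unfold J
  simp only [sp_add, sp_mul]

end spec

section general

variable {K : Type v} [CommRing K] {al up w w' : K}

/-- Jacobians of monomials in two elements vanish, over every commutative ring. -/
theorem jac_val (a b : M10 K al up w w') (k l m : FreeMagma Bool) :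
    J (val a b k) (val a b l) (val a b m) = 0 := by
  let S := MvPolynomial (Fin 4 ⊕ (Fin 10 ⊕ Fin 10)) ℤ
  let t : Fin 4 → S := fun i => MvPolynomial.X (Sum.inl i)
  let A : M10 S (t 0) (t 1) (t 2) (t 3) := fun i => MvPolynomial.X (Sum.inr (Sum.inl i))
  let B : M10 S (t 0) (t 1) (t 2) (t 3) := fun i => MvPolynomial.X (Sum.inr (Sum.inr i))
  let φ : S →+* K := MvPolynomial.eval₂Hom (Int.castRingHom K)
    (Sum.elim ![al, up, w, w'] (Sum.elim a b))
  have h1 : φ (t 0) = al := MvPolynomial.eval₂Hom_X' _ _ _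
  have h2 : φ (t 1) = up := MvPolynomial.eval₂Hom_X' _ _ _
  have h3 : φ (t 2) = w := MvPolynomial.eval₂Hom_X' _ _ _
  have h4 : φ (t 3) = w' := MvPolynomial.eval₂Hom_X' _ _ _
  have hA : sp φ h1 h2 h3 h4 A = a := by
    funext i
    exact MvPolynomial.eval₂Hom_X' _ _ _
  have hB : sp φ h1 h2 h3 h4 B = b := by
    funext i
    exact MvPolynomial.eval₂Hom_X' _ _ _
  have key := congrArg (sp φ h1 h2 h3 h4) (jac_val' A B k l m)
  rwa [sp_J, sp_val, sp_val, sp_val, hA, hB, sp_zero] at key

/-- The model is a binary-Lie algebra. -/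
theorem isBinaryLie (F : Type u) [Field F] [Algebra F K] : IsBinaryLie F (M10 K al up w w') :=
  isBinaryLie_iff_val.mpr ⟨mul_self, jac_val⟩

/-- basis vectors -/
def e (i : Fin 10) : M10 K al up w w' := fun j => if j = i then 1 else 0

/-- scaled basis vectors -/
def se (r : K) (i : Fin 10) : M10 K al up w w' := fun j => if j = i then r else 0

lemma e_ap (i j : Fin 10) : (e i : M10 K al up w w') j = if j = i then 1 else 0 := rfl

lemma se_ap (r : K) (i j : Fin 10) : (se r i : M10 K al up w w') j = if j = i then r else 0 := rfl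

lemma se_one (i : Fin 10) : (se 1 i : M10 K al up w w') = e i := rfl

lemma se_zero (i : Fin 10) : (se 0 i : M10 K al up w w') = 0 := by
  funext j
  rw [se_ap, ite_self, zero_ap]

lemma se_smul {F : Type u} [CommRing F] [Algebra F K] (r : F) (s : K) (i : Fin 10) :
    r • (se s i : M10 K al up w w') = se (r • s) i := by
  funext j
  rw [smul_ap, se_ap, se_ap]
  split_ifs
  · rfl
  · rw [smul_zero]

lemma se_add (r s : K) (i : Fin 10) :
    (se r i + se s i : M10 K al up w w') = se (r + s) i := by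
  funext j
  rw [add_ap, se_ap, se_ap, se_ap]
  split_ifs
  · rfl
  · rw [add_zero]

lemma se_neg (r : K) (i : Fin 10) : (-se r i : M10 K al up w w') = se (-r) i := by
  funext j
  rw [neg_ap, se_ap, se_ap]
  split_ifs
  · rfl
  · rw [neg_zero]

lemma e9_ne [Nontrivial K] : (e 9 : M10 K al up w w') ≠ 0 := by
  intro h
  have := congrFun h 9
  rw [e_ap, if_pos rfl] at this
  exact one_ne_zero this

lemma se_ne {r : K} (hr : r ≠ 0) (i : Fin 10) : (se r i : M10 K al up w w') ≠ 0 := by
  intro h
  have := congrFun h i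
  rw [se_ap, if_pos rfl] at this
  exact hr this

/-! The products of basis vectors. -/

lemma se_eq (r : K) (i : Fin 10) : (se r i : M10 K al up w w') = r • e i := by
  funext j
  rw [smul_ap, e_ap, se_ap]
  split_ifs
  · rw [smul_eq_mul, mul_one]
  · rw [smul_zero]

theorem e0_e1 : (e 0 : M10 K al up w w') * e 1 = al • e 1 := by
  apply ext10 <;> simp [mul0, mul1, mul2, mul3, mul4, mul5, mul6, mul7, mul8, mul9, smul_ap, e_ap]

theorem e0_e2 : (e 0 : M10 K al up w w') * e 2 = al • e 2 := by
  apply ext10 <;> simp [mul0, mul1, mul2, mul3, mul4, mul5, mul6, mul7, mul8, mul9, smul_ap, e_ap]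

theorem e0_e3 : (e 0 : M10 K al up w w') * e 3 = up • e 3 := by
  apply ext10 <;> simp [mul0, mul1, mul2, mul3, mul4, mul5, mul6, mul7, mul8, mul9, smul_ap, e_ap]

theorem e0_e4 : (e 0 : M10 K al up w w') * e 4 = up • e 4 := by
  apply ext10 <;> simp [mul0, mul1, mul2, mul3, mul4, mul5, mul6, mul7, mul8, mul9, smul_ap, e_ap]

theorem e0_e5 : (e 0 : M10 K al up w w') * e 5 = w • e 5 := by
  apply ext10 <;> simp [mul0, mul1, mul2, mul3, mul4, mul5, mul6, mul7, mul8, mul9, smul_ap, e_ap]

theorem e0_e6 : (e 0 : M10 K al up w w') * e 6 = w' • e 6 := by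
  apply ext10 <;> simp [mul0, mul1, mul2, mul3, mul4, mul5, mul6, mul7, mul8, mul9, smul_ap, e_ap]

theorem e0_e7 : (e 0 : M10 K al up w w') * e 7 = w • e 7 := by
  apply ext10 <;> simp [mul0, mul1, mul2, mul3, mul4, mul5, mul6, mul7, mul8, mul9, smul_ap, e_ap]

theorem e0_e8 : (e 0 : M10 K al up w w') * e 8 = w' • e 8 := by
  apply ext10 <;> simp [mul0, mul1, mul2, mul3, mul4, mul5, mul6, mul7, mul8, mul9, smul_ap, e_ap]

theorem e0_e9 : (e 0 : M10 K al up w w') * e 9 = (w + w') • e 9 := by
  apply ext10 <;> simp [mul0, mul1, mul2, mul3, mul4, mul5, mul6, mul7, mul8, mul9, smul_ap, e_ap]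

theorem e1_e2 : (e 1 : M10 K al up w w') * e 2 = (w - al) • e 5 - (w' - al) • e 6 := by
  rw [sub_eq_add_neg]
  apply ext10 <;> simp [mul0, mul1, mul2, mul3, mul4, mul5, mul6, mul7, mul8, mul9, smul_ap, e_ap,
    add_ap, neg_ap]

theorem e3_e4 : (e 3 : M10 K al up w w') * e 4 = -((w - up) • e 7) + (w' - up) • e 8 := by
  apply ext10 <;> simp [mul0, mul1, mul2, mul3, mul4, mul5, mul6, mul7, mul8, mul9, smul_ap, e_ap,
    add_ap, neg_ap]

theorem e5_e7 : (e 5 : M10 K al up w w') * e 7 = e 9 := by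
  apply ext10 <;> simp [mul0, mul1, mul2, mul3, mul4, mul5, mul6, mul7, mul8, mul9, e_ap]

theorem e5_e8 : (e 5 : M10 K al up w w') * e 8 = e 9 := by
  apply ext10 <;> simp [mul0, mul1, mul2, mul3, mul4, mul5, mul6, mul7, mul8, mul9, e_ap]

theorem e6_e7 : (e 6 : M10 K al up w w') * e 7 = e 9 := by
  apply ext10 <;> simp [mul0, mul1, mul2, mul3, mul4, mul5, mul6, mul7, mul8, mul9, e_ap]

theorem e6_e8 : (e 6 : M10 K al up w w') * e 8 = e 9 := by
  apply ext10 <;> simp [mul0, mul1, mul2, mul3, mul4, mul5, mul6, mul7, mul8, mul9, e_ap]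

/-- the pairs of basis vectors with nonzero product -/
def nz (i j : ℕ) : Bool :=
  (i == 0 && j != 0) || (j == 0 && i != 0) || (i == 1 && j == 2) || (i == 2 && j == 1) ||
  (i == 3 && j == 4) || (i == 4 && j == 3) || ((i == 5 || i == 6) && (j == 7 || j == 8)) ||
  ((i == 7 || i == 8) && (j == 5 || j == 6))

theorem e_mul_zero (i j : Fin 10) (h : nz i j = false) :
    (e i : M10 K al up w w') * e j = 0 := by
  apply ext10 <;>
  simp only [mul0, mul1, mul2, mul3, mul4, mul5, mul6, mul7, mul8, mul9, e_ap, zero_ap] <;>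
  fin_cases i <;> fin_cases j <;> first | (exact absurd h (by decide)) | simp

end general

end Model3

end Pool.Agent.BLie
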