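import Mathlib
import Pool.Agent.BLie.Basic

/-! The ideal of elements `z` such that `z` and all `qz` have vanishing Jacobians. -/

set_option linter.unusedSimpArgs false
set_option linter.unusedSectionVars false

namespace Pool.Agent.BLie

section struct

variable {A : Type*} [NonUnitalNonAssocRing A]

/-- All Jacobians with `z` and with all `qz` vanish. -/
def InN (z : A) : Prop := ∀ s t : A, J z s t = 0 ∧ ∀ q : A, J (q * z) s t = 0

theorem BL.gg_r (h : BL A) {w : A} (hw : ∀ s t : A, J w s t = 0) (r s t : A) :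
    gg r w s t = J (r * w) s t := by
  unfold gg
  rw [J_cyc (s * t) r w, J_cyc r w (s * t), hw, add_zero]

theorem BL.gg_swap13 (h : BL A) (a b c d : A) : gg a b c d = -gg c b a d := by
  rw [gg_pair, h.gg_swap24]

theorem InN.mul (h : BL A) {z : A} (hz : InN z) (r : A) : InN (r * z) := by
  intro s t
  refine ⟨(hz s t).2 r, fun q => ?_⟩
  have sym : ∀ q r s t : A, J (r * (q * z)) s t = J (q * (r * z)) s t := by
    intro q r s t
    have k := (hz q r).1
    have e : r * (q * z) = q * (r * z) - (q * r) * z := by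
      unfold J at k
      rw [h.anti (z * q) r, h.anti z q, h.anti (r * z) q] at k
      rw [mul_neg, neg_neg] at k
      rw [← sub_eq_zero, ← k]
      abel
    rw [e, J_sub1, (hz s t).2 (q * r), sub_zero]
  have alt : ∀ q r s t : A, J (r * (q * z)) s t = -J (s * (q * z)) r t := by
    intro q r s t
    have hw : ∀ s t : A, J (q * z) s t = 0 := fun s t => (hz s t).2 q
    rw [← h.gg_r hw, ← h.gg_r hw, h.gg_swap13]
  apply h.two
  have e1 := sym r q s t
  have e2 := alt r q s t
  have e3 := sym r s q t
  have e4 := alt s r q t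
  have e5 := sym s q r t
  have e6 := alt q s r t
  have e7 := sym q r s t
  nth_rewrite 2 [e2]
  rw [e3, e4, e5, e6, e7]
  abel

theorem InN.add {z z' : A} (hz : InN z) (hz' : InN z') : InN (z + z') := by
  intro s t
  refine ⟨by rw [J_add1, (hz _ _).1, (hz' _ _).1, add_zero], fun q => ?_⟩
  rw [mul_add, J_add1, (hz _ _).2, (hz' _ _).2, add_zero]

theorem InN.zero : InN (0 : A) := by
  intro s t
  exact ⟨J_zero1 _ _, fun q => by rw [mul_zero, J_zero1]⟩

theorem InN.smul {F : Type*} [CommRing F] [Module F A] [IsScalarTower F A A]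
    [SMulCommClass F A A] {z : A} (hz : InN z) (r : F) : InN (r • z) := by
  intro s t
  refine ⟨by rw [J_smul1, (hz _ _).1, smul_zero], fun q => ?_⟩
  rw [mul_smul_comm, J_smul1, (hz _ _).2, smul_zero]

/-- Elements annihilated by all elements with `InN`. -/
def AnnN (y : A) : Prop := ∀ z : A, InN z → z * y = 0

theorem AnnN.mul_right (h : BL A) {y : A} (hy : AnnN y) (q : A) : AnnN (y * q) := by
  intro z hz
  have k := (hz y q).1
  have e := hy _ (hz.mul h q)
  unfold J at k
  rw [hy z hz, zero_mul, e, zero_add, add_zero] at k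
  rw [h.anti, k, neg_zero]

theorem AnnN.neg {y : A} (hy : AnnN y) : AnnN (-y) := by
  intro z hz
  rw [mul_neg, hy z hz, neg_zero]

theorem AnnN.mul_left (h : BL A) {y : A} (hy : AnnN y) (q : A) : AnnN (q * y) := by
  rw [h.anti]
  exact (hy.mul_right h q).neg

theorem AnnN.add {y y' : A} (hy : AnnN y) (hy' : AnnN y') : AnnN (y + y') := by
  intro z hz
  rw [mul_add, hy z hz, hy' z hz, add_zero]

theorem AnnN.zero : AnnN (0 : A) := by
  intro z _
  rw [mul_zero]

theorem AnnN.smul {F : Type*} [CommRing F] [Module F A] [IsScalarTower F A A]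
    [SMulCommClass F A A] {y : A} (hy : AnnN y) (r : F) : AnnN (r • y) := by
  intro z hz
  rw [mul_smul_comm, hy z hz, smul_zero]

theorem AnnN.jac (h : BL A) (a b c : A) : AnnN (J a b c) := by
  intro z hz
  have g : gg z a b c = 0 := by
    unfold gg
    rw [h.anti z a, J_neg1, (hz b c).2 a, J_cyc (b * c) z a, (hz _ _).1]
    simp
  have k := h.three_gg z a b c
  rw [g, (hz b c).1, (hz a c).1, (hz a b).1] at k
  simp only [smul_zero, zero_mul, zero_sub, sub_zero, add_zero] at k
  rw [h.anti z, ← k]

end struct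

end Pool.Agent.BLie
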