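import Mathlib
import Pool.Agent.BLie.Lev
import Pool.Agent.BLie.Struct2
import Pool.Agent.BLie.Model3

/-! The element, its uniform coefficients and its value in the model. -/

set_option linter.unusedSimpArgs false
set_option linter.unusedSectionVars false
set_option linter.unusedVariables false

namespace Pool.Agent.BLie

open Polynomial

universe u v w

section elem

variable {F : Type u} [Field F]

/-- Polynomials in four sealed variables. -/
abbrev P4 (F : Type u) [Field F] : Type u := PX (PX (PX (PX F)))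

/-- The value of a polynomial in six variables on a family with six indices. -/
noncomputable def S6 {B : Type*} [AddCommGroup B] [Module F B]
    (r : (P4 F)[X][X]) (f : ℕ → ℕ → ℕ → ℕ → ℕ → ℕ → B) : B :=
  r.sum fun i p5 => p5.sum fun j p4 => (PX.to p4).sum fun n4 p3 => (PX.to p3).sum fun n3 p2 =>
    (PX.to p2).sum fun n2 p1 => (PX.to p1).sum fun n1 a => a • f n1 n2 n3 n4 j i

/-- The family of products. -/
def fam6 {B : Type*} [NonUnitalNonAssocRing B] (x c a u v : B) (n1 n2 n3 n4 j i : ℕ) : B :=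
  pw x i (J x (pw x n1 c) (pw x n2 a)) * pw x j (J x (pw x n3 u) (pw x n4 v))

variable {K : Type v} [Field K] [Algebra F K]

/-- Evaluation at a point. -/
noncomputable def pt6 (F : Type u) [Field F] {K : Type v} [Field K] [Algebra F K]
    (k l q p : K) : (P4 F)[X][X] →+* K :=
  pt (pt (ptx (ptx (ptx (ptx (algebraMap F K) k) k) l) l) q) p

theorem pt_eq {R : Type u} [CommRing R] (e : R →+* K) (n : K) (p : R[X]) :
    pt e n p = p.sum fun i a => e a * n ^ i := by
  unfold pt
  rw [Polynomial.coe_eval₂RingHom, Polynomial.eval₂_eq_sum]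

theorem ptx_eq {R : Type u} [CommRing R] (e : R →+* K) (n : K) (p : PX R) :
    ptx e n p = (PX.to p).sum fun i a => e a * n ^ i := pt_eq e n (PX.to p)

theorem pt6_eq (k l q p : K) (r : (P4 F)[X][X]) : pt6 F k l q p r =
    r.sum fun i p5 => (p5.sum fun j p4 => ((PX.to p4).sum fun n4 p3 =>
      ((PX.to p3).sum fun n3 p2 => ((PX.to p2).sum fun n2 p1 => ((PX.to p1).sum fun n1 a =>
        algebraMap F K a * k ^ n1) * k ^ n2) * l ^ n3) * l ^ n4) * q ^ j) * p ^ i := by
  unfold pt6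
  simp only [ptx_eq, pt_eq]

theorem S6_add {B : Type*} [AddCommGroup B] [Module F B] (r : (P4 F)[X][X])
    (f g : ℕ → ℕ → ℕ → ℕ → ℕ → ℕ → B) :
    S6 r (fun n1 n2 n3 n4 j i => f n1 n2 n3 n4 j i + g n1 n2 n3 n4 j i) = S6 r f + S6 r g := by
  unfold S6
  simp only [Polynomial.sum_def, Finset.sum_add_distrib, smul_add]

theorem S6_eig {M : Type*} [AddCommGroup M] [Module F M] [Module K M] [IsScalarTower F K M]
    (k l q p : K) (r : (P4 F)[X][X]) (W : M) :
    S6 r (fun n1 n2 n3 n4 j i => (k ^ n1 * k ^ n2 * l ^ n3 * l ^ n4 * q ^ j * p ^ i) • W) =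
      pt6 F k l q p r • W := by
  rw [pt6_eq]
  unfold S6
  simp only [Polynomial.sum_def, Finset.sum_smul, Finset.sum_mul, smul_smul]
  refine Finset.sum_congr rfl fun i _ => Finset.sum_congr rfl fun j _ =>
    Finset.sum_congr rfl fun n4 _ => Finset.sum_congr rfl fun n3 _ =>
    Finset.sum_congr rfl fun n2 _ => Finset.sum_congr rfl fun n1 _ => ?_
  rw [← smul_assoc, Algebra.smul_def]
  congr 1
  ring

theorem pt6_qq (k l q p : K) (r : (P4 F)[X][X]) :
    pt6 F k l q p (qq (P4 F) * r) = ((q - p) * (p - q ^ 2)) * pt6 F k l q p r := by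
  rw [map_mul]
  congr 1
  unfold qq pt6
  simp only [map_mul, map_sub, map_pow, pt_C, pt_X]

section maps

variable {B : Type*} [NonUnitalNonAssocRing B] [Module F B]
  {B' : Type*} [NonUnitalNonAssocRing B'] [Module F B']

theorem map_S6 (φ : B →ₗ[F] B') (r : (P4 F)[X][X]) (f : ℕ → ℕ → ℕ → ℕ → ℕ → ℕ → B) :
    φ (S6 r f) = S6 r fun n1 n2 n3 n4 j i => φ (f n1 n2 n3 n4 j i) := by
  unfold S6
  simp only [Polynomial.sum_def, map_sum, map_smul]

theorem map_fam6 (φ : B →ₗ[F] B') (hφ : ∀ a b, φ (a * b) = φ a * φ b) (x c a u v : B)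
    (n1 n2 n3 n4 j i : ℕ) :
    φ (fam6 x c a u v n1 n2 n3 n4 j i) = fam6 (φ x) (φ c) (φ a) (φ u) (φ v) n1 n2 n3 n4 j i := by
  unfold fam6
  rw [hφ]
  simp only [map_pw φ hφ, map_JJ φ hφ]

/-- The element. -/
noncomputable def Z6 (r : (P4 F)[X][X]) (x y y' : B) : B :=
  S6 r (fam6 x (x * y + y) (x * y' + y') (x * y - y) (x * y' - y'))

theorem map_Z6 (φ : B →ₗ[F] B') (hφ : ∀ a b, φ (a * b) = φ a * φ b) (r : (P4 F)[X][X])
    (x y y' : B) : φ (Z6 r x y y') = Z6 r (φ x) (φ y) (φ y') := by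
  unfold Z6
  rw [map_S6]
  congr 1
  funext n1 n2 n3 n4 j i
  rw [map_fam6 φ hφ]
  simp only [map_add, map_sub, hφ]

end maps

section annih

variable (F) (B : Type w) [NonUnitalNonAssocRing B] [Module F B] [IsScalarTower F B B]
  [SMulCommClass F B B]

/-- Annihilator of the elements with `InN`. -/
def annSub : Submodule F B where
  carrier := {y | AnnN y}
  add_mem' := AnnN.add
  zero_mem' := AnnN.zero
  smul_mem' := fun r _ h => h.smul r

/-- The ideal. -/
def NI : Submodule F B where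
  carrier := {z | InN z ∧ AnnN z}
  add_mem' := fun h h' => ⟨h.1.add h'.1, h.2.add h'.2⟩
  zero_mem' := ⟨InN.zero, AnnN.zero⟩
  smul_mem' := fun r _ h => ⟨h.1.smul r, h.2.smul r⟩

variable {B}

theorem NI_left (h : BL B) {z : B} (hz : z ∈ NI F B) (q : B) : q * z ∈ NI F B :=
  ⟨hz.1.mul h q, hz.2.mul_left h q⟩

theorem NI_right (h : BL B) {z : B} (hz : z ∈ NI F B) (q : B) : z * q ∈ NI F B := by
  rw [h.anti]
  exact Submodule.neg_mem _ (NI_left F h hz q)

theorem NI_sq {z y : B} (hz : z ∈ NI F B) (hy : y ∈ NI F B) : z * y = 0 := hy.2 z hz.1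

theorem AnnN.pw (h : BL B) {y : B} (hy : AnnN y) (x : B) (n : ℕ) : AnnN (pw x n y) := by
  induction n with
  | zero => exact hy
  | succ n ih =>
    unfold Pool.Agent.BLie.pw at ih ⊢
    rw [Function.iterate_succ_apply']
    exact ih.mul_left h x

theorem Z6_ann (h : BL B) (r : (P4 F)[X][X]) (x y y' : B) : AnnN (Z6 r x y y') := by
  have key : Z6 r x y y' ∈ annSub F B := by
    unfold Z6 S6
    simp only [Polynomial.sum_def]
    refine Submodule.sum_mem _ fun i _ => Submodule.sum_mem _ fun j _ => Submodule.sum_mem _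
      fun n4 _ => Submodule.sum_mem _ fun n3 _ => Submodule.sum_mem _ fun n2 _ =>
      Submodule.sum_mem _ fun n1 _ => Submodule.smul_mem _ _ ?_
    exact ((AnnN.jac h _ _ _).pw h x i).mul_right h _
  exact key

end annih

/-- Uniform coefficients. -/
theorem universal6 {k l w w' : K} (gk : GoodK k l w w') {B6 : Type u}
    [NonUnitalNonAssocRing B6] [Module F B6] [IsScalarTower F B6 B6] [SMulCommClass F B6 B6]
    (h6 : BL B6) (x y y' s t q : B6) :
    ∃ r : (P4 F)[X][X], pt6 F k l w' w r ≠ 0 ∧ ∀ {B : Type w} [NonUnitalNonAssocRing B]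
      [Module F B] (φ : B6 →ₗ[F] B), (∀ a b, φ (a * b) = φ a * φ b) →
      KillN (Z6 (qq (P4 F) * r) (φ x) (φ y) (φ y')) (φ s) (φ t) (φ q) := by
  obtain ⟨r, hr, hk⟩ := nl4 (e := algebraMap F K) gk h6 x (x * y + y) (x * y' + y')
    (x * y - y) (x * y' - y') s t q
  refine ⟨r, hr, ?_⟩
  intro B _ _ φ hφ
  have hk' : KillN (Z6 (qq (P4 F) * r) x y y') s t q := hk
  rw [← map_Z6 φ hφ]
  constructor
  · rw [← map_JJ φ hφ, hk'.1, map_zero]
  · rw [← hφ, ← map_JJ φ hφ, hk'.2, map_zero]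

end elem

end Pool.Agent.BLie
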