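import Mathlib
import Pool.Agent.BLie.Basic

/-! Elements killing all products and all Jacobians form an ideal. -/

set_option linter.unusedSimpArgs false
set_option linter.unusedSectionVars false

namespace Pool.Agent.BLie

section struct

variable {A : Type*} [NonUnitalNonAssocRing A]

/-- `z` annihilates all products, and all Jacobians containing `z` vanish. -/
def InAnn (z : A) : Prop := ∀ s t : A, J z s t = 0 ∧ z * (s * t) = 0

theorem InAnn.mul (h : BL A) (h3 : ∀ w : A, (3 : ℕ) • w = 0 → w = 0) {z : A} (hz : InAnn z)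
    (q : A) : InAnn (q * z) := by
  have zJ : ∀ a b c : A, z * J a b c = 0 := by
    intro a b c
    unfold J
    rw [mul_add, mul_add, (hz _ _).2, (hz _ _).2, (hz _ _).2]
    simp
  intro s t
  constructor
  · have g1 : gg q z s t = J (q * z) s t := by
      unfold gg
      rw [J_cyc (s * t) q z, J_cyc q z (s * t), (hz _ _).1, add_zero]
    rw [← g1]
    apply h3
    have j1 : J q z s = 0 := by rw [J_cyc, (hz _ _).1]
    have j2 : J q z t = 0 := by rw [J_cyc, (hz _ _).1]
    rw [h.three_gg q z s t, (hz s t).1, j1, j2, h.anti (J q s t) z, zJ]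
    simp
  · have k := (hz (s * t) q).1
    unfold J at k
    have e1 : ((s * t) * q) * z = 0 := by rw [h.anti, (hz _ _).2, neg_zero]
    rw [(hz s t).2, zero_mul, e1, zero_add, zero_add] at k
    exact k

theorem InAnn.add {z z' : A} (hz : InAnn z) (hz' : InAnn z') : InAnn (z + z') := by
  intro s t
  rw [J_add1, (hz _ _).1, (hz' _ _).1, add_mul, (hz _ _).2, (hz' _ _).2]
  simp

theorem InAnn.zero : InAnn (0 : A) := by
  intro s t
  rw [J_zero1, zero_mul]
  simp

theorem InAnn.smul {F : Type*} [CommRing F] [Module F A] [IsScalarTower F A A]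
    [SMulCommClass F A A] {z : A} (hz : InAnn z) (r : F) : InAnn (r • z) := by
  intro s t
  rw [J_smul1, (hz _ _).1, smul_mul_assoc, (hz _ _).2]
  simp

end struct

end Pool.Agent.BLie
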