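import Mathlib
import Pool.Agent.BLie.Elem

/-! The value of the element in the model; the weights `T` and `T ^ 2`. -/

set_option linter.unusedSimpArgs false
set_option linter.unusedSectionVars false
set_option linter.unusedVariables false

namespace Pool.Agent.BLie

open Polynomial

universe u v w

section val

variable {F : Type u} [Field F] {K : Type v} [Field K] [Algebra F K]
variable {M : Type w} [NonUnitalNonAssocRing M] [Module F M] [Module K M] [IsScalarTower F K M]
  [IsScalarTower K M M] [SMulCommClass K M M]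

theorem pw_add (x y z : M) (n : ℕ) : pw x n (y + z) = pw x n y + pw x n z := by
  induction n with
  | zero => rfl
  | succ n ih =>
    unfold pw at ih ⊢
    rw [Function.iterate_succ_apply', Function.iterate_succ_apply',
      Function.iterate_succ_apply', ih, mul_add]

theorem pw_smul (x y : M) (r : K) (n : ℕ) : pw x n (r • y) = r • pw x n y := by
  induction n with
  | zero => rfl
  | succ n ih =>
    unfold pw at ih ⊢
    rw [Function.iterate_succ_apply', Function.iterate_succ_apply', ih, mul_smul_comm]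

theorem fam6_val {x c a u v P1 P2 R1 R2 : M} {k l w w' : K} (hc : x * c = k • c)
    (ha : x * a = k • a) (hu : x * u = l • u) (hv : x * v = l • v)
    (hG : J x c a = P1 + P2) (hH : J x u v = R1 + R2) (h1 : x * P1 = w • P1)
    (h2 : x * P2 = w' • P2) (h3 : x * R1 = w • R1) (h4 : x * R2 = w' • R2)
    (n1 n2 n3 n4 j i : ℕ) :
    fam6 x c a u v n1 n2 n3 n4 j i =
      (k ^ n1 * k ^ n2 * l ^ n3 * l ^ n4 * w ^ j * w ^ i) • (P1 * R1) +
      (k ^ n1 * k ^ n2 * l ^ n3 * l ^ n4 * w' ^ j * w ^ i) • (P1 * R2) +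
      (k ^ n1 * k ^ n2 * l ^ n3 * l ^ n4 * w ^ j * w' ^ i) • (P2 * R1) +
      (k ^ n1 * k ^ n2 * l ^ n3 * l ^ n4 * w' ^ j * w' ^ i) • (P2 * R2) := by
  unfold fam6
  rw [pw_eig hc, pw_eig ha, pw_eig hu, pw_eig hv, J_smul2, J_smul3, J_smul2, J_smul3, hG, hH,
    smul_smul, smul_smul, pw_smul, pw_smul, pw_add, pw_add, pw_eig h1, pw_eig h2, pw_eig h3,
    pw_eig h4]
  simp only [smul_mul_assoc, mul_smul_comm, add_mul, mul_add, smul_add, smul_smul]
  module

theorem Z6_val {x c a u v P1 P2 R1 R2 : M} {k l w w' : K} (hc : x * c = k • c)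
    (ha : x * a = k • a) (hu : x * u = l • u) (hv : x * v = l • v)
    (hG : J x c a = P1 + P2) (hH : J x u v = R1 + R2) (h1 : x * P1 = w • P1)
    (h2 : x * P2 = w' • P2) (h3 : x * R1 = w • R1) (h4 : x * R2 = w' • R2)
    (hw : w' = w ^ 2) (r : (P4 F)[X][X]) :
    S6 (qq (P4 F) * r) (fam6 x c a u v) =
      (((w' - w) * (w - w' ^ 2)) * pt6 F k l w' w r) • (P1 * R2) := by
  have e : fam6 x c a u v = fun n1 n2 n3 n4 j i =>
      (k ^ n1 * k ^ n2 * l ^ n3 * l ^ n4 * w ^ j * w ^ i) • (P1 * R1) +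
      (k ^ n1 * k ^ n2 * l ^ n3 * l ^ n4 * w' ^ j * w ^ i) • (P1 * R2) +
      (k ^ n1 * k ^ n2 * l ^ n3 * l ^ n4 * w ^ j * w' ^ i) • (P2 * R1) +
      (k ^ n1 * k ^ n2 * l ^ n3 * l ^ n4 * w' ^ j * w' ^ i) • (P2 * R2) := by
    funext n1 n2 n3 n4 j i
    exact fam6_val hc ha hu hv hG hH h1 h2 h3 h4 n1 n2 n3 n4 j i
  rw [e, S6_add, S6_add, S6_add, S6_eig, S6_eig, S6_eig, S6_eig, pt6_qq, pt6_qq, pt6_qq, pt6_qq,
    ← hw]
  simp only [sub_self, zero_mul, mul_zero, zero_smul, add_zero, zero_add]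

end val

section modelval

variable {F : Type u} [Field F] {K : Type v} [Field K] [Algebra F K]

open Model3

instance {K : Type v} [CommRing K] {al up w w' : K} {F : Type u} [CommRing F] [Algebra F K] :
    IsScalarTower F K (M10 K al up w w') where
  smul_assoc r s f := by
    funext i
    rw [smul_ap, smul_ap, smul_ap, smul_assoc]

theorem model_ne {w w' : K} (h2 : (2 : K) ≠ 0) (hw : w' = w ^ 2) (n1 : w' - w ≠ 0)
    (n2 : w - w' ^ 2 ≠ 0) (n3 : 2 - w ≠ 0) (n4 : w - 1 ≠ 0) (n5 : 2 + w' ≠ 0) (n6 : w' + 1 ≠ 0)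
    {r : (P4 F)[X][X]} (hr : pt6 F (1 : K) (-1) w' w r ≠ 0) :
    Z6 (qq (P4 F) * r) (e 0 : M10 K 1 (-1) w w') (e 1 + e 3) (e 2 + e 4) ≠ 0 := by
  have hA : ∀ a b : M10 K 1 (-1) w w', a * b = -(b * a) := anti
  have c1 : (e 0 : M10 K 1 (-1) w w') * (e 1 + e 3) + (e 1 + e 3) = (2 : K) • e 1 := by
    rw [mul_add, e0_e1, e0_e3]; module
  have c2 : (e 0 : M10 K 1 (-1) w w') * (e 2 + e 4) + (e 2 + e 4) = (2 : K) • e 2 := by
    rw [mul_add, e0_e2, e0_e4]; module
  have c3 : (e 0 : M10 K 1 (-1) w w') * (e 1 + e 3) - (e 1 + e 3) = (-2 : K) • e 3 := by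
    rw [mul_add, e0_e1, e0_e3]; module
  have c4 : (e 0 : M10 K 1 (-1) w w') * (e 2 + e 4) - (e 2 + e 4) = (-2 : K) • e 4 := by
    rw [mul_add, e0_e2, e0_e4]; module
  have g1 : J (e 0 : M10 K 1 (-1) w w') ((2 : K) • e 1) ((2 : K) • e 2) =
      (4 * ((2 - w) * (w - 1))) • e 5 + (-(4 * ((2 - w') * (w' - 1)))) • e 6 := by
    rw [J_smul2, J_smul3]
    have : J (e 0 : M10 K 1 (-1) w w') (e 1) (e 2) =
        ((2 - w) * (w - 1)) • e 5 - ((2 - w') * (w' - 1)) • e 6 := by
      unfold J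
      rw [hA (e 2) (e 0), e0_e1, e0_e2, hA (e 1 * e 2) (e 0), neg_mul, smul_mul_assoc,
        smul_mul_assoc, hA (e 2) (e 1), e1_e2, mul_sub, mul_smul_comm, mul_smul_comm, e0_e5, e0_e6]
      module
    rw [this]
    module
  have g2 : J (e 0 : M10 K 1 (-1) w w') ((-2 : K) • e 3) ((-2 : K) • e 4) =
      (4 * ((2 + w) * (w + 1))) • e 7 + (-(4 * ((2 + w') * (w' + 1)))) • e 8 := by
    rw [J_smul2, J_smul3]
    have : J (e 0 : M10 K 1 (-1) w w') (e 3) (e 4) =
        ((2 + w) * (w + 1)) • e 7 - ((2 + w') * (w' + 1)) • e 8 := by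
      unfold J
      rw [hA (e 4) (e 0), e0_e3, e0_e4, hA (e 3 * e 4) (e 0), neg_mul, smul_mul_assoc,
        smul_mul_assoc, hA (e 4) (e 3), e3_e4, mul_add, mul_neg, mul_smul_comm, mul_smul_comm,
        e0_e7, e0_e8]
      module
    rw [this]
    module
  unfold Z6
  rw [c1, c2, c3, c4]
  rw [Z6_val (k := (1 : K)) (l := -1) (w := w) (w' := w')
    (by rw [mul_smul_comm, e0_e1, smul_comm]) (by rw [mul_smul_comm, e0_e2, smul_comm])
    (by rw [mul_smul_comm, e0_e3, smul_comm]) (by rw [mul_smul_comm, e0_e4, smul_comm]) g1 g2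
    (by rw [mul_smul_comm, e0_e5, smul_comm]) (by rw [mul_smul_comm, e0_e6, smul_comm])
    (by rw [mul_smul_comm, e0_e7, smul_comm]) (by rw [mul_smul_comm, e0_e8, smul_comm]) hw]
  rw [smul_mul_assoc, mul_smul_comm, e5_e8, smul_smul, smul_smul]
  refine smul_ne_zero ?_ e9_ne
  have h4 : (4 : K) ≠ 0 := by
    rw [show (4 : K) = 2 * 2 by norm_num]
    exact mul_ne_zero h2 h2
  refine mul_ne_zero (mul_ne_zero (mul_ne_zero (mul_ne_zero n1 n2) hr) ?_) ?_
  · exact mul_ne_zero h4 (mul_ne_zero n3 n4)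
  · exact neg_ne_zero.mpr (mul_ne_zero h4 (mul_ne_zero n5 n6))

end modelval

section weights

variable (F : Type u) [Field F]

/-- The rational function field. -/
abbrev KT : Type u := FractionRing F[X]

/-- The variable. -/
noncomputable def TT : KT F := algebraMap F[X] (KT F) X

variable {F}

theorem quad (a b c : F) (h : algebraMap F (KT F) a + algebraMap F (KT F) b * TT F +
    algebraMap F (KT F) c * TT F ^ 2 = 0) : a = 0 ∧ b = 0 ∧ c = 0 := by
  have e : algebraMap F[X] (KT F) (C a + C b * X + C c * X ^ 2) = 0 := by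
    rw [← h]
    unfold TT
    simp only [map_add, map_mul, map_pow]
    rfl
  have e2 : (C a + C b * X + C c * X ^ 2 : F[X]) = 0 :=
    (IsFractionRing.injective F[X] (KT F)) (by rw [e, map_zero])
  have k0 := congrArg (fun p => coeff p 0) e2
  have k1 := congrArg (fun p => coeff p 1) e2
  have k2 := congrArg (fun p => coeff p 2) e2
  simp [coeff_X, coeff_C, coeff_X_pow] at k0 k1 k2
  exact ⟨k0, k1, k2⟩

theorem quad_ne (a b c : F) {z : KT F} (h : a ≠ 0 ∨ b ≠ 0 ∨ c ≠ 0)
    (hz : z = algebraMap F (KT F) a + algebraMap F (KT F) b * TT F +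
      algebraMap F (KT F) c * TT F ^ 2) : z ≠ 0 := by
  intro h0
  rw [hz] at h0
  obtain ⟨h1, h2, h3⟩ := quad a b c h0
  rcases h with h | h | h
  · exact h h1
  · exact h h2
  · exact h h3

theorem quart_ne : TT F - (TT F ^ 2) ^ 2 ≠ 0 := by
  intro h
  have e : algebraMap F[X] (KT F) (X - (X ^ 2) ^ 2) = 0 := by
    rw [← h]
    unfold TT
    simp only [map_sub, map_pow]
  have e2 : (X - (X ^ 2) ^ 2 : F[X]) = 0 :=
    (IsFractionRing.injective F[X] (KT F)) (by rw [e, map_zero])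
  have k1 := congrArg (fun p => coeff p 1) e2
  rw [← pow_mul] at k1
  simp [coeff_X, coeff_X_pow] at k1

theorem SpecP (ρ : KT F) (h : ρ ∈ Spec (1 : KT F) 1 (TT F ^ 2)) :
    ∃ a c : F, ρ = algebraMap F (KT F) a + algebraMap F (KT F) c * TT F ^ 2 ∧
      (c = 0 → a = 1) := by
  simp only [Spec, Set.mem_insert_iff, Set.mem_singleton_iff] at h
  rcases h with h | h | h | h | h | h | h | h | h | h | h
  · exact ⟨1, 0, by rw [h]; simp, fun _ => rfl⟩
  · exact ⟨1, 0, by rw [h]; simp, fun _ => rfl⟩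
  · exact ⟨0, 1, by rw [h]; simp, fun h => absurd h one_ne_zero⟩
  · exact ⟨2, 1, by rw [h]; simp only [map_one, map_ofNat]; ring,
      fun h => absurd h one_ne_zero⟩
  · exact ⟨1, 1, by rw [h]; simp only [map_one, map_ofNat]; ring,
      fun h => absurd h one_ne_zero⟩
  · exact ⟨1, 1, by rw [h]; simp only [map_one, map_ofNat]; ring,
      fun h => absurd h one_ne_zero⟩
  · exact ⟨1, 1, by rw [h]; simp only [map_one, map_ofNat]; ring,
      fun h => absurd h one_ne_zero⟩
  · exact ⟨-1, 1, by rw [h]; simp only [map_one, map_ofNat, map_neg]; ring,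
      fun h => absurd h one_ne_zero⟩
  · exact ⟨-1, 1, by rw [h]; simp only [map_one, map_ofNat, map_neg]; ring,
      fun h => absurd h one_ne_zero⟩
  · exact ⟨0, -1, by rw [h]; simp only [map_one, map_ofNat, map_neg, map_zero]; ring,
      fun h => absurd h (neg_ne_zero.mpr one_ne_zero)⟩
  · exact ⟨1, -1, by rw [h]; simp only [map_one, map_ofNat, map_neg, map_zero]; ring,
      fun h => absurd h (neg_ne_zero.mpr one_ne_zero)⟩

theorem SpecQ (ρ : KT F) (h : ρ ∈ Spec (-1 : KT F) (-1) (TT F)) :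
    ∃ a b : F, ρ = algebraMap F (KT F) a + algebraMap F (KT F) b * TT F ∧
      (b = 0 → a = -1) := by
  simp only [Spec, Set.mem_insert_iff, Set.mem_singleton_iff] at h
  rcases h with h | h | h | h | h | h | h | h | h | h | h
  · exact ⟨-1, 0, by rw [h]; simp, fun _ => rfl⟩
  · exact ⟨-1, 0, by rw [h]; simp, fun _ => rfl⟩
  · exact ⟨0, 1, by rw [h]; simp, fun h => absurd h one_ne_zero⟩
  · exact ⟨-2, 1, by rw [h]; simp only [map_one, map_ofNat, map_neg]; ring,
      fun h => absurd h one_ne_zero⟩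
  · exact ⟨-1, 1, by rw [h]; simp only [map_one, map_ofNat, map_neg]; ring,
      fun h => absurd h one_ne_zero⟩
  · exact ⟨-1, 1, by rw [h]; simp only [map_one, map_ofNat, map_neg]; ring,
      fun h => absurd h one_ne_zero⟩
  · exact ⟨-1, 1, by rw [h]; simp only [map_one, map_ofNat, map_neg]; ring,
      fun h => absurd h one_ne_zero⟩
  · exact ⟨1, 1, by rw [h]; simp only [map_one, map_ofNat, map_neg]; ring,
      fun h => absurd h one_ne_zero⟩
  · exact ⟨1, 1, by rw [h]; simp only [map_one, map_ofNat, map_neg]; ring,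
      fun h => absurd h one_ne_zero⟩
  · exact ⟨0, -1, by rw [h]; simp only [map_one, map_ofNat, map_neg, map_zero]; ring,
      fun h => absurd h (neg_ne_zero.mpr one_ne_zero)⟩
  · exact ⟨-1, -1, by rw [h]; simp only [map_one, map_ofNat, map_neg, map_zero]; ring,
      fun h => absurd h (neg_ne_zero.mpr one_ne_zero)⟩

theorem two_KT (h2 : (2 : F) ≠ 0) : (2 : KT F) ≠ 0 :=
  quad_ne 2 0 0 (Or.inl h2) (by simp only [map_ofNat, map_zero]; ring)

theorem goodK (h2 : (2 : F) ≠ 0) : GoodK (1 : KT F) (-1) (TT F) (TT F ^ 2) where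
  h2 := two_KT h2
  a := quad_ne 0 1 0 (by simp) (by simp)
  b := quad_ne 0 0 1 (by simp) (by simp)
  ab := quad_ne 0 1 (-1) (by simp) (by simp only [map_one, map_neg, map_zero]; ring)
  s := quad_ne 0 1 1 (by simp) (by simp only [map_one, map_neg, map_zero]; ring)
  s2 := quad_ne 0 2 1 (by simp) (by simp only [map_one, map_ofNat, map_zero]; ring)
  s2' := quad_ne 0 1 2 (by simp) (by simp only [map_one, map_ofNat, map_zero]; ring)
  s3 := quad_ne 0 3 1 (by simp) (by simp only [map_one, map_ofNat, map_zero]; ring)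
  s3' := quad_ne 0 1 3 (by simp) (by simp only [map_one, map_ofNat, map_zero]; ring)
  k0 := one_ne_zero
  l0 := neg_ne_zero.mpr one_ne_zero
  k1 := quad_ne 1 0 (-1) (by simp) (by simp only [map_one, map_neg, map_zero]; ring)
  k1' := quad_ne 1 0 1 (by simp) (by simp only [map_one, map_neg, map_zero]; ring)
  l1 := quad_ne (-1) (-1) 0 (by simp) (by simp only [map_one, map_neg, map_zero]; ring)
  l1' := quad_ne (-1) 1 0 (by simp) (by simp only [map_one, map_neg, map_zero]; ring)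
  hd := by
    intro ρ hρ ρ' hρ' h
    obtain ⟨a, c, e1, k1⟩ := SpecP ρ hρ
    obtain ⟨a', b, e2, k2⟩ := SpecQ ρ' hρ'
    obtain ⟨q1, q2, q3⟩ := quad (a - a') (-b) c (by
      rw [e1, e2] at h
      rw [map_sub, map_neg]
      linear_combination h)
    have h3 := k1 q3
    have h4 := k2 (neg_eq_zero.mp q2)
    rw [h3, h4] at q1
    apply h2
    rw [← q1]
    norm_num

theorem model_ne' (h2 : (2 : F) ≠ 0) {r : (P4 F)[X][X]}
    (hr : pt6 F (1 : KT F) (-1) (TT F ^ 2) (TT F) r ≠ 0) :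
    Z6 (qq (P4 F) * r) (Model3.e 0 : Model3.M10 (KT F) 1 (-1) (TT F) (TT F ^ 2))
      (Model3.e 1 + Model3.e 3) (Model3.e 2 + Model3.e 4) ≠ 0 :=
  model_ne (two_KT h2) rfl
    (quad_ne 0 (-1) 1 (by simp) (by simp only [map_one, map_neg, map_zero]; ring))
    quart_ne
    (quad_ne 2 (-1) 0 (by simp) (by simp only [map_one, map_ofNat, map_neg, map_zero]; ring))
    (quad_ne (-1) 1 0 (by simp) (by simp only [map_one, map_neg, map_zero]; ring))
    (quad_ne 2 0 1 (by simp) (by simp only [map_one, map_ofNat, map_neg, map_zero]; ring))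
    (quad_ne 1 0 1 (by simp) (by simp only [map_one, map_neg, map_zero]; ring)) hr

end weights

end Pool.Agent.BLie
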