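import Mathlib
import Pool.Agent.BLie.Trans
import Pool.Agent.BLie.Struct
import Pool.Agent.Lib.MP_a7ecc6_al_h22.Model

/-! The annihilating element: uniform coefficients, value in the model, trivial ideal. -/

set_option autoImplicit false
set_option linter.unusedSimpArgs false
set_option linter.unusedSectionVars false

namespace Pool.Agent.BLie

open Polynomial

universe u w

section element

variable {F : Type*} [Field F] {B : Type*} [NonUnitalNonAssocRing B] [Module F B]
  {B' : Type*} [NonUnitalNonAssocRing B'] [Module F B']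

/-- The element `(ad_x ^ 2 - 1) y`. -/
def bA {B : Type*} [NonUnitalNonAssocRing B] (x y : B) : B := x * (x * y) - y

/-- The element `(ad_x - 2) (ad_x + 1) y`. -/
def bC {B : Type*} [NonUnitalNonAssocRing B] (x y : B) : B := x * (x * y) - x * y - (y + y)

/-- The element `(ad_x - 1) (ad_x - 2) y`. -/
def bU {B : Type*} [NonUnitalNonAssocRing B] (x y : B) : B :=
  x * (x * y) - (x * y + x * y + x * y) + (y + y)

/-- The annihilating element attached to a polynomial in four variables. -/
noncomputable def Zr (r : F[X][X][X][X]) (x y v : B) : B :=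
  S4 r (fam x (bA x y) (bC x y) (bU x y) v)

theorem map_Zr (φ : B →ₗ[F] B') (hφ : ∀ a b, φ (a * b) = φ a * φ b) (r : F[X][X][X][X])
    (x y v : B) : φ (Zr r x y v) = Zr r (φ x) (φ y) (φ v) := by
  unfold Zr
  rw [map_S4]
  congr 1
  funext i j k l
  rw [map_fam φ hφ]
  congr 1
  · unfold bA; simp only [map_sub, hφ]
  · unfold bC; simp only [map_sub, map_add, hφ]
  · unfold bU; simp only [map_sub, map_add, hφ]

/-- The value of the annihilating element at a sum of eigenvectors. -/
theorem Zr_eig [IsScalarTower F B B] [SMulCommClass F B B] {x a c u v : B}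
    (ha : x * a = (2 : F) • a) (hc : x * c = (1 : F) • c) (hu : x * u = (-1 : F) • u)
    (hv : x * v = (2 : F) • v) (r : F[X][X][X][X]) :
    Zr r x (a + c + u) v = (pt4 F r * (-36)) • J c (u * a) v := by
  have h1 : x * (a + c + u) = (2 : F) • a + (1 : F) • c + (-1 : F) • u := by
    rw [mul_add, mul_add, ha, hc, hu]
  have h2 : x * (x * (a + c + u)) = (4 : F) • a + (1 : F) • c + (1 : F) • u := by
    rw [h1, mul_add, mul_add, mul_smul_comm, mul_smul_comm, mul_smul_comm, ha, hc, hu]
    simp only [smul_smul]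
    norm_num
  have hba : bA x (a + c + u) = (3 : F) • a := by
    unfold bA; rw [h2]; module
  have hbc : bC x (a + c + u) = (-2 : F) • c := by
    unfold bC; rw [h2, h1]; module
  have hbu : bU x (a + c + u) = (6 : F) • u := by
    unfold bU; rw [h2, h1]; module
  unfold Zr
  rw [hba, hbc, hbu]
  rw [S4_fam_eig (x := x) (a := (3 : F) • a) (c := (-2 : F) • c) (u := (6 : F) • u) (v := v)
    (by rw [mul_smul_comm, ha, smul_comm]) (by rw [mul_smul_comm, hc, smul_comm])
    (by rw [mul_smul_comm, hu, smul_comm]) hv]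
  rw [smul_mul_assoc, mul_smul_comm, J_smul1, J_smul2, J_smul2]
  simp only [smul_smul]
  congr 1
  ring

end element

section sq

variable (F : Type*) [Field F] (A : Type*) [NonUnitalNonAssocRing A] [Module F A]

/-- The span of all products. -/
def Sq : Submodule F A := Submodule.span F {w | ∃ a b : A, w = a * b}

variable {A}

theorem mul_mem_Sq (a b : A) : a * b ∈ Sq F A := Submodule.subset_span ⟨a, b, rfl⟩

theorem J_mem_Sq (a b c : A) : J a b c ∈ Sq F A := by
  unfold J
  exact Submodule.add_mem _ (Submodule.add_mem _ (mul_mem_Sq F _ _) (mul_mem_Sq F _ _))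
    (mul_mem_Sq F _ _)

theorem Zr_mem_Sq (r : F[X][X][X][X]) (x y v : A) : Zr r x y v ∈ Sq F A := by
  unfold Zr S4 fam
  simp only [Polynomial.sum_def]
  exact Submodule.sum_mem _ fun l _ => Submodule.sum_mem _ fun k _ => Submodule.sum_mem _
    fun j _ => Submodule.sum_mem _ fun i _ => Submodule.smul_mem _ _ (J_mem_Sq F _ _ _)

variable (A)

/-- The ideal of elements of the square which kill all products and all Jacobians. -/
def AnnI [IsScalarTower F A A] [SMulCommClass F A A] : Submodule F A where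
  carrier := {z | InAnn z ∧ z ∈ Sq F A}
  add_mem' := fun h1 h2 => ⟨h1.1.add h2.1, Submodule.add_mem _ h1.2 h2.2⟩
  zero_mem' := ⟨InAnn.zero, Submodule.zero_mem _⟩
  smul_mem' := fun r _ h1 => ⟨h1.1.smul r, Submodule.smul_mem _ r h1.2⟩

variable {A}

theorem InAnn.mul_Sq {F : Type*} [Field F] {A : Type*} [NonUnitalNonAssocRing A] [Module F A]
    [IsScalarTower F A A] [SMulCommClass F A A] {z : A} (hz : InAnn z) {w : A}
    (hw : w ∈ Sq F A) : z * w = 0 := by
  unfold Sq at hw
  induction hw using Submodule.span_induction with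
  | mem w hw =>
    obtain ⟨a, b, rfl⟩ := hw
    exact (hz a b).2
  | zero => rw [mul_zero]
  | add a b _ _ ha hb => rw [mul_add, ha, hb, add_zero]
  | smul r a _ ha => rw [mul_smul_comm, ha, smul_zero]

theorem AnnI_mul_left [IsScalarTower F A A] [SMulCommClass F A A] (h3 : (3 : F) ≠ 0) (h : BL A)
    {z : A} (hz : z ∈ AnnI F A) (q : A) : q * z ∈ AnnI F A := by
  refine ⟨InAnn.mul h (fun w hw => ?_) hz.1 q, mul_mem_Sq F _ _⟩
  have h1 : (3 : F) • w = 0 := by
    rw [← hw, ← Nat.cast_smul_eq_nsmul F]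
    norm_num
  exact (smul_eq_zero.mp h1).resolve_left h3

theorem AnnI_mul_right [IsScalarTower F A A] [SMulCommClass F A A] (h3 : (3 : F) ≠ 0) (h : BL A)
    {z : A} (hz : z ∈ AnnI F A) (q : A) : z * q ∈ AnnI F A := by
  rw [h.anti]
  exact Submodule.neg_mem _ (AnnI_mul_left F h3 h hz q)

theorem AnnI_sq [IsScalarTower F A A] [SMulCommClass F A A] {z w : A} (hz : z ∈ AnnI F A)
    (hw : w ∈ AnnI F A) : z * w = 0 := hz.1.mul_Sq hw.2

end sq

section main

/-- Uniform coefficients: one polynomial works for all homomorphic images. -/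
theorem universal_kill {F : Type u} [Field F] (h6 : (6 : F) ≠ 0) {B5 : Type u}
    [NonUnitalNonAssocRing B5] [Module F B5] [IsScalarTower F B5 B5] [SMulCommClass F B5 B5]
    (h5 : BL B5) (x y v s t : B5) :
    ∃ r : F[X][X][X][X], pt4 F r ≠ 0 ∧ ∀ {B : Type w} [NonUnitalNonAssocRing B] [Module F B]
      (φ : B5 →ₗ[F] B), (∀ a b, φ (a * b) = φ a * φ b) →
      Kill (Zr r (φ x) (φ y) (φ v)) (φ s) (φ t) := by
  obtain ⟨r, hr, hk⟩ := kill_S4 h6 h5 x (bA x y) (bC x y) (bU x y) v s t
  refine ⟨r, hr, ?_⟩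
  intro B _ _ φ hφ
  have hk' : Kill (Zr r x y v) s t := hk
  rw [← map_Zr φ hφ]
  constructor
  · rw [← map_JJ φ hφ, hk'.1, map_zero]
  · rw [← hφ, ← hφ, hk'.2, map_zero]

/-- The value of the annihilating element in the fifteen-dimensional model. -/
theorem Zr_model {F : Type u} [Field F] (h6 : (6 : F) ≠ 0) {r : F[X][X][X][X]}
    (hr : pt4 F r ≠ 0) :
    Zr r (Model.e 0 : Model.M15 F) (Model.e 1 + Model.e 2 + Model.e 3) (Model.e 4) ≠ 0 := by
  rw [Zr_eig Model.p01 Model.p02 Model.p03 Model.p04, Model.pJ, smul_smul]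
  refine smul_ne_zero ?_ Model.e14_ne
  have h2 : (2 : F) ≠ 0 := fun h => h6 (by
    rw [show (6 : F) = 2 * 3 by norm_num, h, zero_mul])
  have h36 : (-36 : F) ≠ 0 := by
    rw [show (-36 : F) = -(6 * 6) by norm_num]
    exact neg_ne_zero.mpr (mul_ne_zero h6 h6)
  exact mul_ne_zero (mul_ne_zero hr h36) h2

/-- The trivial ideal, from a free-type algebra on five elements and a surjection onto the
model. `B5` is a binary-Lie algebra such that every five elements of `A` of the form
`x, y, v, s, t` are images of the five given elements of `B5`. -/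
theorem trivial_ideal {F : Type u} [Field F] (h6 : (6 : F) ≠ 0) {B5 : Type u}
    [NonUnitalNonAssocRing B5] [Module F B5] [IsScalarTower F B5 B5] [SMulCommClass F B5 B5]
    (h5 : BL B5) (g : Fin 5 → B5) {A : Type w} [NonUnitalNonAssocRing A] [Module F A]
    [IsScalarTower F A A] [SMulCommClass F A A] (hA : BL A)
    (lift : ∀ f : Fin 5 → A, ∃ φ : B5 →ₗ[F] A, (∀ a b, φ (a * b) = φ a * φ b) ∧
      ∀ i, φ (g i) = f i)
    (x y v : A) (ψ : A →ₗ[F] Model.M15 F) (hψ : ∀ a b, ψ (a * b) = ψ a * ψ b)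
    (hx : ψ x = Model.e 0) (hy : ψ y = Model.e 1 + Model.e 2 + Model.e 3)
    (hv : ψ v = Model.e 4) :
    ∃ I : Submodule F A, I ≠ ⊥ ∧ (∀ a ∈ I, ∀ b : A, a * b ∈ I ∧ b * a ∈ I) ∧
      ∀ a ∈ I, ∀ b ∈ I, a * b = 0 := by
  have h3 : (3 : F) ≠ 0 := fun h => h6 (by
    rw [show (6 : F) = 2 * 3 by norm_num, h, mul_zero])
  obtain ⟨r, hr, hk⟩ := universal_kill.{u, w} h6 h5 (g 0) (g 1) (g 2) (g 3) (g 4)
  refine ⟨AnnI F A, ?_, fun a ha b => ⟨AnnI_mul_right F h3 hA ha b, AnnI_mul_left F h3 hA ha b⟩,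
    fun a ha b hb => AnnI_sq F ha hb⟩
  intro hbot
  have hz : Zr r x y v ∈ AnnI F A := by
    refine ⟨fun s t => ?_, Zr_mem_Sq F r x y v⟩
    obtain ⟨φ, hφ, hg⟩ := lift ![x, y, v, s, t]
    have h1 := hk φ hφ
    rw [hg, hg, hg, hg, hg] at h1
    exact h1
  rw [hbot, Submodule.mem_bot] at hz
  have h2 := map_Zr ψ hψ r x y v
  rw [hz, map_zero, hx, hy, hv] at h2
  exact Zr_model h6 hr h2.symm

end main

end Pool.Agent.BLie
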