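import Mathlib
import Pool.Agent.BLie.Free
import Pool.Agent.BLie.Glue

/-!
Over every field of characteristic different from two and three, the free binary-Lie algebra on
every set with at least three elements has a nonzero ideal with zero square.
-/

set_option autoImplicit false

universe u v w z

open Pool.Agent.BLie

theorem Pool.Agent.BLie.trivialIdeal_notSix (F : Type u) [Field F]
    (h2 : (2 : F) ≠ 0) (h3 : (3 : F) ≠ 0) (X : Type v) (hX : 3 ≤ Cardinal.mk X) :
    (∃ (B : Type (max u v)) (_ : NonUnitalNonAssocRing B) (_ : Module F B)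
      (_ : IsScalarTower F B B) (_ : SMulCommClass F B B) (ι : X → B),
      IsFreeBinaryLie.{u, v, max u v, z} F X B ι) ∧
    ∀ (B : Type w) [NonUnitalNonAssocRing B] [Module F B] [IsScalarTower F B B]
      [SMulCommClass F B B] (ι : X → B), IsFreeBinaryLie.{u, v, w, max u v} F X B ι →
      ∃ I : Submodule F B, I ≠ ⊥ ∧ (∀ a ∈ I, ∀ b : B, a * b ∈ I ∧ b * a ∈ I) ∧
        ∀ a ∈ I, ∀ b ∈ I, a * b = 0 := by
  classical
  have h6 : (6 : F) ≠ 0 := by
    rw [show (6 : F) = 2 * 3 by norm_num]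
    exact mul_ne_zero h2 h3
  refine ⟨⟨FB F X, inferInstance, inferInstance, inferInstance, inferInstance, fb F X,
    FB_free F X h2 h3⟩, ?_⟩
  intro B _ _ _ _ ι hB
  have hBL : BL B := hB.binaryLie.bl h2
  -- three distinct generators
  have hX' : Nonempty (Fin 3 ↪ X) := by
    rw [← Cardinal.lift_mk_le']
    simpa using hX
  obtain ⟨j⟩ := hX'
  -- the homomorphism to the model
  have hM : BL (Model.M15 F) := Model.M15.bl h2
  have hM1 : ∀ x : Model.M15 F, x * x = 0 := hM.self_zero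
  have hM2 : IsBinaryLie F (Model.M15 F) := hM.isBinaryLie h3
  let f : X → Model.M15 F := fun x =>
    if x = j 0 then Model.e 0 else if x = j 1 then Model.e 1 + Model.e 2 + Model.e 3
      else Model.e 4
  obtain ⟨ψ1, hψ1⟩ := FB_lift F X hM1 hM2.jac f
  obtain ⟨ψ0, hψ0, -⟩ := hB.extends_uniquely (FB F X) ((QI_bl h2).isBinaryLie h3) (fb F X)
  have hψ : ∀ x, ψ1 (ψ0 (ι x)) = f x := fun x => by rw [hψ0, hψ1]
  have j01 : j 1 ≠ j 0 := fun h => by simpa using j.injective h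
  have j02 : j 2 ≠ j 0 := fun h => by simpa using j.injective h
  have j12 : j 2 ≠ j 1 := fun h => by simpa using j.injective h
  refine trivial_ideal h6 (B5 := FB F (Fin 5)) (QI_bl h2) (fb F (Fin 5)) hBL ?_
    (ι (j 0)) (ι (j 1)) (ι (j 2)) ((ψ1 : FB F X →ₗ[F] Model.M15 F) ∘ₗ (ψ0 : B →ₗ[F] FB F X))
    ?_ ?_ ?_ ?_
  · intro g
    obtain ⟨φ, hφ⟩ := FB_lift F (Fin 5) hB.binaryLie.1 hB.binaryLie.jac g
    exact ⟨(φ : FB F (Fin 5) →ₗ[F] B), fun a b => map_mul φ a b, hφ⟩
  · intro a b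
    change ψ1 (ψ0 (a * b)) = ψ1 (ψ0 a) * ψ1 (ψ0 b)
    rw [map_mul, map_mul]
  · change ψ1 (ψ0 (ι (j 0))) = _
    rw [hψ]
    simp [f]
  · change ψ1 (ψ0 (ι (j 1))) = _
    rw [hψ]
    simp [f, j01]
  · change ψ1 (ψ0 (ι (j 2))) = _
    rw [hψ]
    simp [f, j02, j12]
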